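import Pool.Agent.Work.MP_1233f5_ag.Q.I_CF4a

/-! MP_1233f5_ag, block Q: item NP, `2 d + 3 ≤ bnd4 d T` for all `T ≥ 2 d`, `d ≥ 5`. -/

set_option autoImplicit false

namespace Pool.Agent.Work.MP_1233f5_ag.Q

open Finset
open Pool.Agent.Work.MP_1233f5_ag.V (theta)

namespace INP

/-- `theta` is at least `2 d + 3` beyond `2 d` (here `d = m + 1`). -/
theorem theta_ge (m T : ℕ) (hm : 4 ≤ m) (hT : 2 * (m + 1) ≤ T) :
    2 * (m + 1) + 3 ≤ theta (m + 1) T := by
  obtain ⟨k, hk⟩ : ∃ k, k = T / m := ⟨_, rfl⟩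
  obtain ⟨s, hs⟩ : ∃ s, s = T % m := ⟨_, rfl⟩
  have hTs : T = k * m + s := by
    rw [hk, hs, Nat.mul_comm]
    exact (Nat.div_add_mod T m).symm
  have hsm : s < m := by
    rw [hs]
    exact Nat.mod_lt _ (by omega)
  have hk2 : 2 ≤ k := by
    rw [hk, Nat.le_div_iff_mul_le (by omega)]
    omega
  have hth : theta (m + 1) T = (m + 1 + k).choose k - (m - s + k).choose k - k := by
    unfold theta
    simp only [Nat.add_sub_cancel, ← hk]
    have hsub : (k + 1) * m - T = m - s := by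
      rw [hTs]
      have : (k + 1) * m = k * m + m := by ring
      omega
    rw [hsub]
  rw [hth]
  rcases Nat.lt_or_ge k 3 with h3 | h3
  · obtain rfl : k = 2 := by omega
    have hs2 : 2 ≤ s := by omega
    obtain ⟨b, rfl⟩ : ∃ b, m = b + 1 := ⟨m - 1, by omega⟩
    have h1 : (b + 1 + 1 + 2).choose 2 = (b + 3).choose 1 + (b + 3).choose 2 :=
      Nat.choose_succ_succ _ _
    have h2 : (b + 3).choose 2 = (b + 2).choose 1 + (b + 2).choose 2 := Nat.choose_succ_succ _ _
    have h3 : (b + 2).choose 2 = (b + 1).choose 1 + (b + 1).choose 2 := Nat.choose_succ_succ _ _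
    have h4 : (b + 1 - s + 2).choose 2 ≤ (b + 1).choose 2 :=
      Nat.choose_le_choose 2 (by omega)
    rw [Nat.choose_one_right] at h1 h2 h3
    omega
  · obtain ⟨a, rfl⟩ : ∃ a, k = a + 3 := ⟨k - 3, by omega⟩
    have h1 : (m + 1 + (a + 3)).choose (a + 3) =
        (a + 2 + (m + 1)).choose (a + 2) + (a + 2 + 1 + m).choose (a + 2 + 1) := by
      rw [← ICF4a.f_rec (a + 2) m]
      congr 1
      ring
    have h2 : (m - s + (a + 3)).choose (a + 3) ≤ (a + 2 + 1 + m).choose (a + 2 + 1) := by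
      have := Nat.choose_le_choose (a + 3) (show m - s + (a + 3) ≤ a + 2 + 1 + m by omega)
      exact this
    have h3 : 2 * (m + 1) + 3 + (a + 3) ≤ (a + 2 + (m + 1)).choose (a + 2) := by
      rcases Nat.eq_zero_or_pos a with ha | ha
      · subst ha
        obtain ⟨b, rfl⟩ : ∃ b, m = b + 4 := ⟨m - 4, by omega⟩
        have h5 := Nat.choose_two_right (0 + 2 + (b + 4 + 1))
        have h6 : (0 + 2 + (b + 4 + 1)).choose (0 + 2) = (0 + 2 + (b + 4 + 1)).choose 2 := rfl
        rw [h6, h5]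
        have h7 : (0 + 2 + (b + 4 + 1)) * (0 + 2 + (b + 4 + 1) - 1) = (b + 7) * (b + 6) := by
          congr 1
          · ring
          · omega
        rw [h7]
        have h8 : 2 * (2 * (b + 4 + 1) + 3 + (0 + 3)) ≤ (b + 7) * (b + 6) := by nlinarith
        omega
      · obtain ⟨c, rfl⟩ : ∃ c, a = c + 1 := ⟨a - 1, by omega⟩
        obtain ⟨b, rfl⟩ : ∃ b, m = b + 3 := ⟨m - 3, by omega⟩
        have h5 := ICF4a.P2 c b
        have h6 : (c + 1 + 2 + (b + 3 + 1)).choose (c + 1 + 2) =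
            (c + 3 + (b + 4)).choose (c + 3) := rfl
        rw [h6]
        refine le_trans ?_ h5
        nlinarith
    omega

end INP

/-- [NP] the bound is at least `2 d + 3` from `2 d` on. -/
theorem pr_NP : ∀ d T : ℕ, 5 ≤ d → 2 * d ≤ T → 2 * d + 3 ≤ bnd4 d T := by
  intro d T hd
  obtain ⟨m, rfl⟩ : ∃ m, d = m + 1 := ⟨d - 1, by omega⟩
  induction T with
  | zero =>
    intro h
    omega
  | succ T ih =>
    intro hT
    have hrec : bnd4 (m + 1) (T + 1) = if T + 1 = 2 * (m + 1) - 1 then theta (m + 1) (T + 1)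
        else if 5 ≤ m + 1 ∧ T + 1 = 2 * (m + 1) then 2 * (m + 1) + 3
        else min (theta (m + 1) (T + 1)) (bnd4 (m + 1) T + (T + 1) / (m + 1 - 1) + 1) := rfl
    rw [hrec, if_neg (by omega)]
    by_cases h : 5 ≤ m + 1 ∧ T + 1 = 2 * (m + 1)
    · rw [if_pos h]
    · rw [if_neg h]
      refine le_min (INP.theta_ge m (T + 1) (by omega) hT) ?_
      exact (ih (by omega)).trans ((Nat.le_add_right _ _).trans (Nat.le_add_right _ _))

end Pool.Agent.Work.MP_1233f5_ag.Q
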