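import Pool.Agent.Work.MP_1233f5_ag.Z.Defs
import Pool.Agent.Work.MP_1233f5_ag.Y.C_Brg
import Pool.Agent.Work.MP_1233f5_ag.Bd.B02

/-! MP_1233f5_ag, block Q (captain helper75): `K_{2d+2}(2d) = 0` for all `d ≥ 5`.
Paper proof: note 4509.  Here `d = r + 1`. -/

set_option autoImplicit false

namespace Pool.Agent.Work.MP_1233f5_ag.Q

open Finset
open Pool.Agent.Work.MP_1233f5_ag.V (vm vw Mo tyv dd rCh rcyc rVan rNo ML theta)
open Pool.Agent.Work.MP_1233f5_ag.Y

/-! ### representations and three colours -/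

section rep
variable {K : Type} [Field K] {α : Type} {H : Type} [AddCommGroup H] [Module K H]

open Classical in
/-- the sum over the permutations moving only points of `P` and preserving the colours. -/
noncomputable def symC [Fintype α] (ρ : Equiv.Perm α →* Module.End K H) (P : Finset α)
    (π : α → Fin 3) : H →ₗ[K] H :=
  ∑ σ ∈ univ.filter (fun σ : Equiv.Perm α => Sup P σ ∧ ∀ a, π (σ a) = π a), (ρ σ : H →ₗ[K] H)

/-- invariant under the permutations moving only points of `P` and preserving the colours. -/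
def InvC (ρ : Equiv.Perm α →* Module.End K H) (P : Finset α) (π : α → Fin 3) (z : H) : Prop :=
  ∀ σ : Equiv.Perm α, Sup P σ → (∀ a, π (σ a) = π a) → ρ σ z = z

/-- antisymmetric under the permutations moving only points of `Q`. -/
def AntQ [Fintype α] [DecidableEq α] (ρ : Equiv.Perm α →* Module.End K H) (Q : Finset α) (z : H) :
    Prop := ∀ σ : Equiv.Perm α, Sup Q σ → ρ σ z = ((Equiv.Perm.sign σ : ℤ) : K) • z

end rep

/-! ### types -/

section kap
variable {K : Type} [Field K] {α : Type} [Fintype α] [DecidableEq α]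

open Classical in
/-- the multigraded chain of a chain: for a tuple `s` of types, the sum of the coefficients at
the tuples of sets of these types. -/
noncomputable def kap (π : α → Fin 3) (p : ℕ) : Lx K α →ₗ[K] ((Fin p → (Fin 3 → ℕ)) → K) :=
  LinearMap.pi (fun s => ∑ t ∈ univ.filter (fun t : Fin p → Finset α => ∀ i, tyv π (t i) = s i),
    (BrgX.co p t : Lx K α →ₗ[K] K))

end kap

/-- the multigraded cycles of weight `w`. -/
noncomputable abbrev ZT (K : Type) [Field K] (d : ℕ) (w : Fin 3 → ℕ) (p : ℕ) :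
    Submodule K ((Fin p → (Fin 3 → ℕ)) → K) :=
  Pool.Agent.Work.MP_1233f5_ag.V.Step.subZ (Mo 3 d) (vw d w) p

/-- the multigraded boundaries of weight `w`. -/
noncomputable abbrev BT (K : Type) [Field K] (d : ℕ) (w : Fin 3 → ℕ) (p : ℕ) :
    Submodule K ((Fin p → (Fin 3 → ℕ)) → K) :=
  Pool.Agent.Work.MP_1233f5_ag.V.Step.subB (Mo 3 d) (vw d w) p

/-! ### functionals with exchange -/

section GA
variable {α : Type} [DecidableEq α]

/-- `j` disjoint `r`-subsets of `P`. -/
structure NV (r : ℕ) (P : Finset α) (j : ℕ) (n : ℕ → Finset α) : Prop where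
  card : ∀ i < j, (n i).card = r
  sub : ∀ i < j, n i ⊆ P
  dis : ∀ i < j, ∀ k < j, i ≠ k → Disjoint (n i) (n k)

/-- the points of `P` not covered by `n 0, ..., n (j - 1)`. -/
def rs (P : Finset α) (j : ℕ) (n : ℕ → Finset α) : Finset α := P \ (range j).biUnion n

/-- the union of the frozen triples `T 0, ..., T (τ - 1)`. -/
def tt (τ : ℕ) (T : ℕ → Finset α) : Finset α := (range τ).biUnion T

/-- `τ` disjoint triples outside `P`. -/
structure TV (τ : ℕ) (P : Finset α) (T : ℕ → Finset α) : Prop where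
  card : ∀ i < τ, (T i).card = 3
  dis : ∀ i < τ, ∀ k < τ, i ≠ k → Disjoint (T i) (T k)
  out : ∀ i < τ, Disjoint (T i) P

variable {K : Type} [Field K] [Fintype α] {H : Type} [AddCommGroup H] [Module K H]

/-- functionals of `j` disjoint `r`-sets and a cycle on the remaining points, antisymmetric in
`τ` frozen triples, with exchange. -/
structure GA (ρ : Equiv.Perm α →* Module.End K H) (r j τ : ℕ) (P : Finset α) (T : ℕ → Finset α)
    (G : (ℕ → Finset α) → (Lx K α →ₗ[K] H)) : Prop where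
  tv : TV τ P T
  card : P.card + 3 * τ = j * r + (2 * r + 1) * (r + 2)
  sym : ∀ (σ : Equiv.Perm (Fin j)) (n n' : ℕ → Finset α),
    (∀ i : Fin j, n' (i : ℕ) = n ((σ i : Fin j) : ℕ)) → G n' = G n
  eqv : ∀ σ : Equiv.Perm α, Sup P σ → ∀ n, NV r P j n →
    ∀ y ∈ Cy K (r + 1) (rs P j n ∪ tt τ T) (2 * r + 1),
      G (fun i => im σ (n i)) (act K α σ y) = ρ σ (G n y)
  bd : ∀ n, NV r P j n → ∀ y ∈ Bd K (r + 1) (rs P j n ∪ tt τ T) (2 * r + 1), G n y = 0
  ant : ∀ i < τ, ∀ σ : Equiv.Perm α, Sup (T i) σ → ∀ n, NV r P j n →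
    ∀ y ∈ Cy K (r + 1) (rs P j n ∪ tt τ T) (2 * r + 1),
      G n (act K α σ y) = ((Equiv.Perm.sign σ : ℤ) : K) • G n y
  exch : ∀ n, NV r P (j + 1) n →
    ∀ y ∈ Cy K (r + 1) (rs P (j + 1) n ∪ tt τ T) (2 * r + 1),
      ∑ k ∈ range (j + 1), G (skp k n) y = 0

/-- all functionals `GA` with the given parameters vanish. -/
def PLh (ρ : Equiv.Perm α →* Module.End K H) (r j τ : ℕ) : Prop :=
  ∀ (P : Finset α) (T : ℕ → Finset α) (G : (ℕ → Finset α) → (Lx K α →ₗ[K] H)),
    GA ρ r j τ P T G → ∀ n, NV r P j n →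
      ∀ y ∈ Cy K (r + 1) (rs P j n ∪ tt τ T) (2 * r + 1), G n y = 0

end GA

/-! ### the line part -/

/-- as `Y.Wd`, for products of blocks with `2 L.length + c ≤ ∑ b`. -/
def Wc (K : Type) [Field K] (α : Type) [Fintype α] [DecidableEq α] (r p c a : ℕ) : Prop :=
  ∀ (L : List ℕ) (b : ℕ → ℕ) (η : ℕ → ℕ → α) (n : ℕ × ℕ → Finset α),
    LV r univ L b η n → (L.map b).sum + a = p → 2 * L.length + c ≤ (L.map b).sum →
    ∀ κ ∈ Cy K (r + 1) (univ \ ls L b η n) a, pq L b η n * κ ∈ Bd K (r + 1) (univ : Finset α) p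

/-! ### the numerical bound -/

/-- the new bound: `theta` at `T = 2 d - 1`, `2 d + 3` at `T = 2 d` for `d ≥ 5`. -/
def bnd4 (d : ℕ) : ℕ → ℕ
  | 0 => 0
  | T + 1 => if T + 1 = 2 * d - 1 then theta d (T + 1)
      else if 5 ≤ d ∧ T + 1 = 2 * d then 2 * d + 3
      else min (theta d (T + 1)) (bnd4 d T + (T + 1) / (d - 1) + 1)

/-- admissible functions, with the new value at `T = 2 d`. -/
def Adm4 (d : ℕ) (v : ℕ → ℕ) : Prop := ∀ T, v T = 0 ∨ (T = 2 * d - 1 ∧ v T ≤ theta d T) ∨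
  (5 ≤ d ∧ T = 2 * d ∧ v T ≤ 2 * d + 3) ∨
  v T ≤ min (theta d T) (v (T - 1) + T / (d - 1) + 1) ∨
  ∀ p < v T, Pool.Agent.Work.MP_1233f5_ag.Z.fb d v (T + 1 - d) p

end Pool.Agent.Work.MP_1233f5_ag.Q
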