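import Pool.Agent.Work.MP_1233f5_ag.Q.Stmts
import Pool.Agent.Work.MP_1233f5_ag.Y.GlueC
import Pool.Agent.Work.MP_1233f5_ag.Z.I_BrG
import Pool.Agent.Work.MP_1233f5_ag.Z.I_Rlb

/-! MP_1233f5_ag, block Q, item An4: antisymmetric cycles are boundaries. -/

set_option autoImplicit false
set_option linter.unusedSectionVars false

namespace Pool.Agent.Work.MP_1233f5_ag.Q

open Finset
open Pool.Agent.Work.MP_1233f5_ag.V (vm vw Mo tyv dd rCh rcyc rVan rNo ML theta)
open Pool.Agent.Work.MP_1233f5_ag.Y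
open Pool.Agent.Work.MP_1233f5_ag.Sec (Fk)

namespace IAn4

theorem choose_aux2 (s : ℕ) : (s + 3).choose 2 = s.choose 2 + (3 * s + 3) := by
  have h1 : (s + 1).choose 2 = s.choose 1 + s.choose 2 := Nat.choose_succ_succ _ _
  have h2 : (s + 2).choose 2 = (s + 1).choose 1 + (s + 1).choose 2 := Nat.choose_succ_succ _ _
  have h3 : (s + 3).choose 2 = (s + 2).choose 1 + (s + 2).choose 2 := Nat.choose_succ_succ _ _
  rw [Nat.choose_one_right] at h1 h2 h3
  omega

theorem theta_two {r : ℕ} (hr : 4 ≤ r) : theta (r + 1) (2 * r + 2) = 3 * r + 1 := by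
  have h1 : (2 * r + 2) / (r + 1 - 1) = 2 := by
    rw [Nat.div_eq_iff (by omega)]
    omega
  unfold theta
  rw [h1]
  have h2 : (2 + 1) * (r + 1 - 1) - (2 * r + 2) + 2 = r := by omega
  have h3 : r + 1 + 2 = r + 3 := by ring
  rw [h2, h3, choose_aux2]
  omega

theorem bnd {r : ℕ} (hr : 4 ≤ r) : 2 * r < bnd3 (r + 1) (2 * r + 2) := by
  have h0 : bnd3 (r + 1) (2 * r + 1) = 2 * r + 1 := by
    rw [bnd3, if_pos (by omega)]
    have h := Main3X.theta_eq (d := r + 1) (by omega)
    have e : 2 * (r + 1) - 1 = 2 * r + 1 := by omega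
    rw [e] at h
    exact h
  show 2 * r < bnd3 (r + 1) ((2 * r + 1) + 1)
  rw [bnd3, if_neg (by omega), h0]
  refine lt_min ?_ ?_
  · rw [show 2 * r + 1 + 1 = 2 * r + 2 by ring, theta_two hr]
    omega
  · generalize (2 * r + 1 + 1) / (r + 1 - 1) = t
    omega

theorem h_Rlb : Pool.Agent.Work.MP_1233f5_ag.Z.S_Rlb :=
  Pool.Agent.Work.MP_1233f5_ag.Z.pr_Rlb Pool.Agent.Work.MP_1233f5_ag.Z.pr_BrG
    Pool.Agent.Work.MP_1233f5_ag.V.pr_Tr

theorem vv2 (K : Type) [Field K] [CharZero K] {r : ℕ} (hr : 4 ≤ r) :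
    Pool.Agent.Work.MP_1233f5_ag.Z.VV K (r + 1) (2 * r + 2) (2 * r) :=
  (h_Rlb K (r + 1) (2 * r + 2) (2 * r)).1.1
    (h_Main3 K (r + 1) (2 * r + 2) (2 * r) (by omega) (bnd hr))

theorem vv1 (K : Type) [Field K] [CharZero K] {r : ℕ} (hr : 4 ≤ r) :
    Pool.Agent.Work.MP_1233f5_ag.Z.VV K (r + 1) (2 * r + 1) (2 * r) :=
  (h_Rlb K (r + 1) (2 * r + 1) (2 * r)).1.1 (h_MLr K r (2 * r) (by omega) le_rfl)

/-- enumeration of a set with four points. -/
theorem enum {α : Type} [DecidableEq α] (Q : Finset α) (hQ : Q.card = 4) :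
    ∃ q : ℕ → α, (∀ i ≤ 3, ∀ i' ≤ 3, q i = q i' → i = i') ∧ (range (3 + 1)).image q = Q := by
  obtain e := Q.equivFinOfCardEq hQ
  refine ⟨fun i => if h : i < 4 then ((e.symm ⟨i, h⟩ : Q) : α) else
    ((e.symm ⟨0, by omega⟩ : Q) : α), ?_, ?_⟩
  · intro i hi i' hi' h
    have h1 : i < 4 := by omega
    have h2 : i' < 4 := by omega
    simp only [h1, h2, dif_pos] at h
    have h3 := e.symm.injective (Subtype.ext h)
    exact congrArg Fin.val h3
  · ext a
    rw [mem_image]
    constructor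
    · rintro ⟨i, hi, rfl⟩
      rw [mem_range] at hi
      have h1 : i < 4 := by omega
      simp only [h1, dif_pos]
      exact (e.symm ⟨i, h1⟩).2
    · intro ha
      refine ⟨(e ⟨a, ha⟩ : ℕ), mem_range.2 (e ⟨a, ha⟩).2, ?_⟩
      have h1 : ((e ⟨a, ha⟩ : Fin 4) : ℕ) < 4 := (e ⟨a, ha⟩).2
      simp only [h1, dif_pos]
      rw [Fin.eta, Equiv.symm_apply_apply]

end IAn4

open IAn4 in
theorem pr_An4 (h1 : S_QG) (h2 : S_PL) : S_An4 := by
  intro K _ _ α _ _ r Q hr hcard hQ z hz ha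
  obtain ⟨q, hinj, him⟩ := enum Q hQ
  have h := h_Red K α r 3 (2 * r + 4) univ q (by omega) (by omega) hinj
    (fun i _ => mem_univ _) ?_ z hz ?_
  · refine (sup_le (sup_le le_rfl ?_) ?_ :
      _ ≤ Bd K (r + 1) (univ : Finset α) (2 * r + 4)) h
    · refine Submodule.span_le.2 ?_
      rintro _ ⟨f, w, hf, _, hw, rfl⟩
      have e : 2 * r + 4 - 3 = 2 * r + 1 := by omega
      rw [e] at hw
      have hNV : NV r (univ \ (range 4).image q) 3 f := by
        refine ⟨hf.card, fun i hi a ha => ?_, hf.dis⟩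
        refine mem_sdiff.2 ⟨mem_univ _, fun h => ?_⟩
        obtain ⟨k, hk, rfl⟩ := mem_image.1 h
        rw [mem_range] at hk
        exact hf.out k (by omega) i hi ha
      have hset : rs (univ \ (range 4).image q) 3 f ∪ tt 0 (fun _ => (∅ : Finset α)) =
          univ \ bs 3 q f := by
        ext a
        simp only [rs, tt, bs, mem_union, mem_sdiff, mem_univ, true_and, range_zero,
          biUnion_empty, notMem_empty, or_false, not_or]
      have h3 := h2 K α (Hx K α (r + 1) (2 * r + 4)) (actQ K α (r + 1) (2 * r + 4)) r 3 0 hr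
        (by omega) (univ \ (range 4).image q) (fun _ => ∅) _ (h1 K α r q hcard hinj) f hNV w
        (by rw [hset]; exact hw)
      rw [LinearMap.comp_apply, LinearMap.mulLeft_apply, Submodule.mkQ_apply,
        Submodule.Quotient.mk_eq_zero] at h3
      exact h3
    · refine iSup_le fun x => Submodule.span_le.2 ?_
      rintro y ⟨f, w, hf, _, hw, hy⟩
      rw [hy]
      have e : 2 * r + 4 - (3 + 1) = 2 * r := by omega
      rw [e] at hw
      have hc : (univ \ bs (3 + 1) (Function.update q (3 + 1) x) f).card =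
          2 * r * (r + 1) + (2 * r + 1) := by
        rw [card_sdiff_of_subset (subset_univ _), card_univ, hcard, G1X.BV.bs_card hf]
        have e1 : (2 * r + 4) * (r + 1) + (2 * r + 2) =
          (2 * r * (r + 1) + (2 * r + 1)) + (3 + 1 + 1 + (3 + 1) * r) := by ring
        rw [e1, Nat.add_sub_cancel]
      have h3 := vv1 K hr α _ hc hw
      have h4 := prf_QCy K α r (3 + 1) (bs (3 + 1) (Function.update q (3 + 1) x) f)
        (Function.update q (3 + 1) x) f (RedX.bv_bs hf)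
      have h5 := Cy_mul_Bd disjoint_sdiff h4 h3
      have e2 : 3 + 1 + 2 * r = 2 * r + 4 := by ring
      rw [e2] at h5
      exact Bd_mono (subset_univ _) h5
  · intro _ R _ hR
    have e : 2 * r + 4 - (3 + 1) = 2 * r := by omega
    rw [e]
    have hc : R.card = 2 * r * (r + 1) + (2 * r + 2) := by
      rw [card_univ, hcard] at hR
      have e1 : (2 * r + 4) * (r + 1) + (2 * r + 2) =
          (2 * r * (r + 1) + (2 * r + 2)) + (3 + 1) * (r + 1) := by ring
      rw [e1] at hR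
      exact Nat.add_right_cancel hR
    exact (vv2 K hr α R hc).trans le_sup_left
  · intro σ hσ
    rw [him] at hσ
    exact ha σ hσ

end Pool.Agent.Work.MP_1233f5_ag.Q
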