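import Pool.Agent.Work.MP_1233f5_ag.Q.Stmts
import Pool.Agent.Work.MP_1233f5_ag.Y.Util

/-! MP_1233f5_ag, block Q, item Asym: elementary facts on the alternating sum. -/

set_option autoImplicit false

namespace Pool.Agent.Work.MP_1233f5_ag.Q

open Finset
open Pool.Agent.Work.MP_1233f5_ag.Y

namespace IAsym

section

variable {α : Type} [Fintype α] [DecidableEq α] {K : Type} [Field K] {H : Type} [AddCommGroup H]
  [Module K H] (ρ : Equiv.Perm α →* Module.End K H)

omit [AddCommGroup H] [Module K H] in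
theorem sgn_sq (σ : Equiv.Perm α) :
    ((Equiv.Perm.sign σ : ℤ) : K) * ((Equiv.Perm.sign σ : ℤ) : K) = 1 := by
  rw [← Int.cast_mul, Int.units_coe_mul_self, Int.cast_one]

theorem asym_rho {Q : Finset α} {τ : Equiv.Perm α} (hτ : Sup Q τ) (h : H) :
    asym ρ Q (ρ τ h) = ((Equiv.Perm.sign τ : ℤ) : K) • asym ρ Q h := by
  classical
  rw [U.asym_apply, U.asym_apply, smul_sum]
  refine sum_nbij' (fun σ => σ * τ) (fun σ => σ * τ⁻¹) ?_ ?_ ?_ ?_ ?_
  · intro σ hσ
    simp only [mem_filter, mem_univ, true_and] at hσ ⊢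
    exact U.sup_mul hσ hτ
  · intro σ hσ
    simp only [mem_filter, mem_univ, true_and] at hσ ⊢
    exact U.sup_mul hσ (U.sup_inv hτ)
  · intro σ _
    exact mul_inv_cancel_right σ τ
  · intro σ _
    exact inv_mul_cancel_right σ τ
  · intro σ _
    rw [map_mul ρ, Module.End.mul_apply, smul_smul, Equiv.Perm.sign_mul, Units.val_mul,
      Int.cast_mul, mul_comm ((Equiv.Perm.sign σ : ℤ) : K), ← mul_assoc, sgn_sq, one_mul]

theorem rho_asym {Q : Finset α} {τ : Equiv.Perm α} (hτ : Sup Q τ) (h : H) :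
    ρ τ (asym ρ Q h) = ((Equiv.Perm.sign τ : ℤ) : K) • asym ρ Q h := by
  classical
  rw [U.asym_apply, map_sum, smul_sum]
  refine sum_nbij' (fun σ => τ * σ) (fun σ => τ⁻¹ * σ) ?_ ?_ ?_ ?_ ?_
  · intro σ hσ
    simp only [mem_filter, mem_univ, true_and] at hσ ⊢
    exact U.sup_mul hτ hσ
  · intro σ hσ
    simp only [mem_filter, mem_univ, true_and] at hσ ⊢
    exact U.sup_mul (U.sup_inv hτ) hσ
  · intro σ _
    exact inv_mul_cancel_left τ σ
  · intro σ _
    exact mul_inv_cancel_left τ σ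
  · intro σ _
    rw [map_mul ρ, Module.End.mul_apply, map_smul, smul_smul, Equiv.Perm.sign_mul, Units.val_mul,
      Int.cast_mul, ← mul_assoc, sgn_sq, one_mul]

/-- a conjugate moves only points of the image. -/
theorem sup_conj {α : Type} {Q : Finset α} {σ τ : Equiv.Perm α} (h : Sup Q τ) :
    Sup (im σ Q) (σ * τ * σ⁻¹) := by
  intro a ha
  rw [mem_im] at ha
  rw [Equiv.Perm.mul_apply, Equiv.Perm.mul_apply, h _ ha, U.app_inv]

theorem conj_asym (Q : Finset α) (σ : Equiv.Perm α) (h : H) :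
    ρ σ (asym ρ Q h) = asym ρ (im σ Q) (ρ σ h) := by
  classical
  rw [U.asym_apply, U.asym_apply, map_sum]
  refine sum_nbij' (fun τ => σ * τ * σ⁻¹) (fun τ => σ⁻¹ * τ * σ) ?_ ?_ ?_ ?_ ?_
  · intro τ hτ
    simp only [mem_filter, mem_univ, true_and] at hτ ⊢
    exact sup_conj hτ
  · intro τ hτ
    simp only [mem_filter, mem_univ, true_and] at hτ ⊢
    have h1 := sup_conj (σ := σ⁻¹) hτ
    rw [U.im_inv_im, inv_inv] at h1
    exact h1
  · intro τ _
    group
  · intro τ _
    group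
  · intro τ _
    rw [map_smul, ← Module.End.mul_apply, ← Module.End.mul_apply, ← map_mul, ← map_mul,
      inv_mul_cancel_right, Equiv.Perm.sign_mul, Equiv.Perm.sign_mul, Equiv.Perm.sign_inv,
      mul_right_comm, Int.units_mul_self, one_mul]

end

end IAsym

open IAsym in
theorem pr_Asym : S_Asym := by
  intro K _ _ α _ _ H _ _ ρ Q
  refine ⟨fun σ hσ z => ⟨asym_rho ρ hσ z, rho_asym ρ hσ z⟩, U.asym_of_anti ρ Q,
    fun z σ hσ => rho_asym ρ hσ z, fun σ z => conj_asym ρ Q σ z, ?_, ?_, ?_⟩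
  · intro u hu v hv huv z hz
    have h1 := asym_rho ρ (U.sup_swap hu hv) z
    rw [hz, Equiv.Perm.sign_swap huv] at h1
    have h2 : (2 : K) • asym ρ Q z = 0 := by
      rw [two_smul]
      nth_rw 2 [h1]
      push_cast
      rw [neg_smul, one_smul, add_neg_cancel]
    exact (smul_eq_zero.1 h2).resolve_left two_ne_zero
  · intro B hB z hz
    classical
    rw [U.asym_apply]
    refine Submodule.sum_mem _ fun σ hσ => Submodule.smul_mem _ _ ?_
    exact hB σ (mem_filter.1 hσ).2 z hz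
  · intro Q' hQ'
    classical
    refine ⟨((univ.filter (fun σ : Equiv.Perm α => Sup Q' σ)).card : K), ?_, ?_⟩
    · refine Nat.cast_ne_zero.2 (Nat.pos_iff_ne_zero.1 (card_pos.2 ⟨1, ?_⟩))
      simp only [mem_filter, mem_univ, true_and]
      exact U.sup_one Q'
    · intro z
      rw [U.asym_apply ρ Q' z, map_sum]
      have h1 : ∀ σ ∈ univ.filter (fun σ : Equiv.Perm α => Sup Q' σ),
          asym ρ Q (((Equiv.Perm.sign σ : ℤ) : K) • ρ σ z) = asym ρ Q z := by
        intro σ hσ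
        rw [map_smul, asym_rho ρ (U.sup_mono hQ' (mem_filter.1 hσ).2) z, smul_smul, sgn_sq,
          one_smul]
      rw [sum_congr rfl h1, sum_const, Nat.cast_smul_eq_nsmul]

end Pool.Agent.Work.MP_1233f5_ag.Q
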