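import Pool.Agent.Work.MP_1233f5_ag.Q.Stmts

/-! MP_1233f5_ag, block Q, item B4 (helper88): `bnd4` is admissible. -/

set_option autoImplicit false

namespace Pool.Agent.Work.MP_1233f5_ag.Q

theorem pr_B4 : S_B4 := by
  intro d T
  rcases T with _ | T
  · exact Or.inl rfl
  · by_cases hT : T + 1 = 2 * d - 1
    · refine Or.inr (Or.inl ⟨hT, ?_⟩)
      rw [bnd4, if_pos hT]
    · by_cases hT2 : 5 ≤ d ∧ T + 1 = 2 * d
      · refine Or.inr (Or.inr (Or.inl ⟨hT2.1, hT2.2, ?_⟩))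
        rw [bnd4, if_neg hT, if_pos hT2]
      · refine Or.inr (Or.inr (Or.inr (Or.inl ?_)))
        rw [bnd4, if_neg hT, if_neg hT2, Nat.add_sub_cancel]

end Pool.Agent.Work.MP_1233f5_ag.Q
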