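import Pool.Agent.Work.MP_1233f5_ag.Q.Stmts

/-! MP_1233f5_ag, block Q: item CF4a, the closed form below the bound `bnd4`
(after `Y/C_CF3a.lean`). -/

set_option autoImplicit false

namespace Pool.Agent.Work.MP_1233f5_ag.Q

open Finset
open Pool.Agent.Work.MP_1233f5_ag.V (theta)

namespace ICF4a

theorem f_rec (a b : ℕ) : (a + 1 + (b + 1)).choose (a + 1) =
    (a + (b + 1)).choose a + (a + 1 + b).choose (a + 1) := by
  rw [show a + 1 + (b + 1) = (a + (b + 1)) + 1 by ring, Nat.choose_succ_succ]
  rw [show a + (b + 1) = a + 1 + b by ring]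

theorem P (a b : ℕ) : a * b + 1 ≤ (a + b).choose a := by
  induction a generalizing b with
  | zero => simp
  | succ a iha =>
    induction b with
    | zero => simp
    | succ b ihb =>
      rw [f_rec]
      have := iha (b + 1)
      nlinarith

theorem P2 (k m : ℕ) : (k + 3 + 1) * (m + 4) + 2 ≤ (k + 3 + (m + 4)).choose (k + 3) := by
  induction k generalizing m with
  | zero =>
    induction m with
    | zero => decide
    | succ m ih =>
      have h1 := f_rec 2 (m + 4)
      have h2 := P 2 (m + 5)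
      have h3 : (0 + 3 + (m + 1 + 4)).choose (0 + 3) = (2 + 1 + (m + 4 + 1)).choose (2 + 1) := by
        congr 1
      rw [h3, h1]
      have h4 : (2 + 1 + (m + 4)).choose (2 + 1) = (0 + 3 + (m + 4)).choose (0 + 3) := by
        congr 1
      have h5 : (2 + (m + 4 + 1)).choose 2 = (2 + (m + 5)).choose 2 := by congr 1
      rw [h4, h5]
      nlinarith
  | succ k ih =>
    have h1 := f_rec (k + 3) (m + 3)
    have h2 := P (k + 4) (m + 3)
    have h3 := ih m
    have h4 : (k + 1 + 3 + (m + 4)).choose (k + 1 + 3) =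
        (k + 3 + 1 + (m + 3 + 1)).choose (k + 3 + 1) := by
      congr 1
    rw [h4, h1]
    have h5 : (k + 3 + 1 + (m + 3)).choose (k + 3 + 1) = (k + 4 + (m + 3)).choose (k + 4) := rfl
    have h6 : (k + 3 + (m + 3 + 1)).choose (k + 3) = (k + 3 + (m + 4)).choose (k + 3) := rfl
    rw [h5, h6]
    nlinarith

/-- the coefficients -/
def A (k : ℕ) : ℕ := (k + 1).choose 2 - 1

theorem A_succ (k : ℕ) (hk : 2 ≤ k) : A (k + 1) = A k + (k + 1) := by
  unfold A
  have h : (k + 1 + 1).choose 2 = (k + 1).choose 1 + (k + 1).choose 2 := Nat.choose_succ_succ _ _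
  have h2 : 3 ≤ (k + 1).choose 2 := by
    have := Nat.choose_le_choose 2 (show 3 ≤ k + 1 by omega)
    have h3 : (3 : ℕ).choose 2 = 3 := rfl
    omega
  rw [h, Nat.choose_one_right]
  omega

theorem A_two : A 2 = 2 := rfl
theorem A_three : A 3 = 5 := rfl

theorem G (k m : ℕ) : A (k + 3) * (m + 5) + 2 * (k + 3) ≤
    (k + 2 + (m + 6)).choose (k + 2) + 3 := by
  induction k with
  | zero =>
    have h := Nat.choose_two_right (2 + (m + 6))
    simp only [Nat.zero_add, A_three]
    rw [h]
    have h2 : (2 + (m + 6)) * (2 + (m + 6) - 1) = (m + 8) * (m + 7) := by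
      congr 1
      · ring
      · omega
    rw [h2]
    have h3 : 2 * (5 * (m + 5) + 3) ≤ (m + 8) * (m + 7) := by
      nlinarith
    omega
  | succ k ih =>
    have h1 := f_rec (k + 2) (m + 5)
    have h2 := P2 k (m + 1)
    have h4 : (k + 1 + 2 + (m + 6)).choose (k + 1 + 2) =
        (k + 2 + 1 + (m + 5 + 1)).choose (k + 2 + 1) := by
      congr 1
    rw [h4, h1]
    have h5 : (k + 2 + 1 + (m + 5)).choose (k + 2 + 1) =
        (k + 3 + (m + 1 + 4)).choose (k + 3) := by
      congr 1
    have h6 : (k + 2 + (m + 5 + 1)).choose (k + 2) = (k + 2 + (m + 6)).choose (k + 2) := rfl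
    rw [h5, h6]
    have h7 : A (k + 1 + 3) = A (k + 3) + (k + 3 + 1) := A_succ (k + 3) (by omega)
    rw [h7]
    have h8 : (A (k + 3) + (k + 3 + 1)) * (m + 5) + 2 * (k + 1 + 3) =
        (A (k + 3) * (m + 5) + 2 * (k + 3)) + ((k + 3 + 1) * (m + 1 + 4) + 2) := by
      ring
    rw [h8]
    omega

/-- the comparison with the value on `k + 1` variables -/
theorem TH (k m s : ℕ) (hk : 2 ≤ k) (hm : 5 ≤ m) (hs : s < m) (h0 : k = 2 → 2 ≤ s) :
    A k * m + (k + 1) * (s + 1) + (k + (m - s)).choose k + k ≤ (k + (m + 1)).choose k + 4 := by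
  obtain ⟨m, rfl⟩ : ∃ m', m = m' + 5 := ⟨m - 5, by omega⟩
  -- the step
  have step : ∀ s, s + 1 < m + 5 →
      A k * (m + 5) + (k + 1) * (s + 1) + (k + (m + 5 - s)).choose k + k ≤
        (k + (m + 5 + 1)).choose k + 4 →
      A k * (m + 5) + (k + 1) * (s + 1 + 1) + (k + (m + 5 - (s + 1))).choose k + k ≤
        (k + (m + 5 + 1)).choose k + 4 := by
    intro s hs1 h
    obtain ⟨a, rfl⟩ : ∃ a, k = a + 1 := ⟨k - 1, by omega⟩
    obtain ⟨b, hb⟩ : ∃ b, m + 5 - s = b + 1 := ⟨m + 5 - s - 1, by omega⟩
    have hb2 : m + 5 - (s + 1) = b := by omega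
    rw [hb, f_rec] at h
    rw [hb2]
    have hP := P a (b + 1)
    have hb3 : 1 ≤ b := by omega
    have h9 : a + 1 + 1 ≤ a * (b + 1) + 1 := by nlinarith
    have h10 : (a + 1 + 1) * (s + 1 + 1) = (a + 1 + 1) * (s + 1) + (a + 1 + 1) := by ring
    omega
  -- the start
  have main : ∀ s, s < m + 5 → (k = 2 → 2 ≤ s) →
      A k * (m + 5) + (k + 1) * (s + 1) + (k + (m + 5 - s)).choose k + k ≤
        (k + (m + 5 + 1)).choose k + 4 := by
    intro s
    induction s with
    | zero =>
      intro _ h0
      have hk3 : 3 ≤ k := by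
        rcases Nat.lt_or_ge 2 k with h | h
        · exact h
        · have := h0 (by omega)
          omega
      obtain ⟨a, rfl⟩ : ∃ a, k = a + 3 := ⟨k - 3, by omega⟩
      have hG := G a m
      have h1 := f_rec (a + 2) (m + 5)
      have h4 : (a + 3 + (m + 5 + 1)).choose (a + 3) =
        (a + 2 + 1 + (m + 5 + 1)).choose (a + 2 + 1) := rfl
      rw [h4, h1]
      have h5 : (a + 2 + 1 + (m + 5)).choose (a + 2 + 1) = (a + 3 + (m + 5)).choose (a + 3) := rfl
      have h6 : (a + 2 + (m + 5 + 1)).choose (a + 2) = (a + 2 + (m + 6)).choose (a + 2) := rfl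
      rw [h5, h6, Nat.sub_zero]
      omega
    | succ s ih =>
      intro hs1 h0
      by_cases hks : k = 2 ∧ s = 1
      · obtain ⟨rfl, rfl⟩ := hks
        have h1 : (2 + (m + 5 + 1)).choose 2 = (1 + (m + 5 + 1)).choose 1 +
            (2 + (m + 5)).choose 2 := f_rec 1 (m + 5)
        have h2 : (2 + (m + 5)).choose 2 = (1 + (m + 4 + 1)).choose 1 +
            (2 + (m + 4)).choose 2 := f_rec 1 (m + 4)
        have h2' : (2 + (m + 4)).choose 2 = (1 + (m + 3 + 1)).choose 1 +
            (2 + (m + 3)).choose 2 := f_rec 1 (m + 3)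
        rw [h1, h2, h2', Nat.choose_one_right, Nat.choose_one_right, Nat.choose_one_right, A_two]
        have h3 : m + 5 - (1 + 1) = m + 3 := by omega
        rw [h3]
        omega
      · refine step s hs1 (ih (by omega) ?_)
        intro h2
        by_contra hc
        have := h0 h2
        exact hks ⟨h2, by omega⟩
  exact main s hs h0

theorem bnd4_ge (m : ℕ) (hm : 5 ≤ m) : ∀ T k s : ℕ, T = k * m + s → s < m → 2 ≤ k →
    (k = 2 → 2 ≤ s) → A k * m + (k + 1) * (s + 1) ≤ bnd4 (m + 1) T + 4 := by
  intro T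
  induction T with
  | zero =>
    intro k s h hs hk
    exfalso
    have : 2 * m ≤ k * m := Nat.mul_le_mul_right _ hk
    omega
  | succ T ih =>
    intro k s h hs hk h0
    have hdiv : (T + 1) / m = k := by
      rw [h, Nat.add_comm, Nat.add_mul_div_right _ _ (by omega), Nat.div_eq_of_lt hs, Nat.zero_add]
    have hTH := TH k m s hk hm hs h0
    have hth : theta (m + 1) (T + 1) =
        (m + 1 + k).choose k - ((k + 1) * m - (T + 1) + k).choose k - k := by
      unfold theta
      simp only [Nat.add_sub_cancel, hdiv]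
    have hsub : (k + 1) * m - (T + 1) = m - s := by
      rw [h]
      have : (k + 1) * m = k * m + m := by ring
      omega
    have hge : A k * m + (k + 1) * (s + 1) ≤ theta (m + 1) (T + 1) + 4 := by
      rw [hth, hsub]
      have h1 : (m + 1 + k).choose k = (k + (m + 1)).choose k := by rw [Nat.add_comm]
      have h2 : (m - s + k).choose k = (k + (m - s)).choose k := by rw [Nat.add_comm]
      rw [h1, h2]
      omega
    have hrec : bnd4 (m + 1) (T + 1) = if T + 1 = 2 * (m + 1) - 1 then theta (m + 1) (T + 1)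
        else if 5 ≤ m + 1 ∧ T + 1 = 2 * (m + 1) then 2 * (m + 1) + 3
        else min (theta (m + 1) (T + 1)) (bnd4 (m + 1) T + (T + 1) / (m + 1 - 1) + 1) := rfl
    rw [hrec]
    by_cases hT2 : T + 1 = 2 * (m + 1) - 1
    · rw [if_pos hT2]
      exact hge
    rw [if_neg hT2]
    by_cases hT3 : 5 ≤ m + 1 ∧ T + 1 = 2 * (m + 1)
    · rw [if_pos hT3]
      have hk2 : k = 2 := by
        by_contra hc
        have h3 : 3 * m ≤ k * m := Nat.mul_le_mul_right _ (by omega)
        omega
      subst hk2
      have hs2 : s = 2 := by omega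
      subst hs2
      rw [A_two]
      omega
    rw [if_neg hT3, Nat.add_sub_cancel, hdiv, ← Nat.add_min_add_right]
    refine le_min hge ?_
    rcases Nat.eq_zero_or_pos s with hs0 | hs1
    · subst hs0
      have hk3 : 3 ≤ k := by
        rcases Nat.lt_or_ge 2 k with h' | h'
        · exact h'
        · have := h0 (by omega)
          omega
      obtain ⟨a, rfl⟩ : ∃ a, k = a + 1 := ⟨k - 1, by omega⟩
      have hT : T = a * m + (m - 1) := by
        have : (a + 1) * m = a * m + m := by ring
        omega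
      have h1 := ih a (m - 1) hT (by omega) (by omega) (by intro; omega)
      have h2 := A_succ a (by omega)
      rw [h2]
      have h3 : (A a + (a + 1)) * m = A a * m + (a + 1) * m := by ring
      have h4 : m - 1 + 1 = m := by omega
      rw [h4] at h1
      rw [h3]
      omega
    · obtain ⟨s', rfl⟩ : ∃ s', s = s' + 1 := ⟨s - 1, by omega⟩
      have h1 := ih k s' (by omega) (by omega) hk (by
        intro h2
        have h5 := h0 h2
        by_contra hc
        subst h2
        apply hT3
        omega)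
      have h2 : (k + 1) * (s' + 1 + 1) = (k + 1) * (s' + 1) + (k + 1) := by ring
      rw [h2]
      omega

end ICF4a

/-- [CF4a] the closed form below the bound. -/
theorem pr_CF4a : S_CF4a := by
  intro q b d hq hqd hd
  obtain ⟨m, rfl⟩ : ∃ m, d = m + 1 := ⟨d - 1, by omega⟩
  have hA : q * (q + 1) / 2 - 1 = ICF4a.A q := by
    unfold ICF4a.A
    rw [Nat.choose_two_right, Nat.add_sub_cancel, Nat.mul_comm]
  rw [hA, Nat.add_sub_cancel, Nat.sub_le_iff_le_add]
  have hT : q * (m + 1) + b = q * m + (q + b) := by ring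
  rw [hT]
  rcases Nat.lt_or_ge (q + b) m with h | h
  · exact ICF4a.bnd4_ge m (by omega) _ q (q + b) rfl h hq (by intro; omega)
  · have hm : q + b = m := by omega
    have h1 := ICF4a.bnd4_ge m (by omega) (q * m + (q + b)) (q + 1) 0 (by rw [hm]; ring) (by omega)
      (by omega) (by intro; omega)
    refine le_trans ?_ h1
    rw [ICF4a.A_succ q hq, hm]
    have h2 : (ICF4a.A q + (q + 1)) * m = ICF4a.A q * m + (q + 1) * m := by ring
    have h3 : (q + 1) * (m + 1) = (q + 1) * m + (q + 1) := by ring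
    rw [h2, h3]
    omega

end Pool.Agent.Work.MP_1233f5_ag.Q
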