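import Pool.Agent.Work.MP_1233f5_ag.Q.Stmts
import Pool.Agent.Work.MP_1233f5_ag.Y.Util

/-! MP_1233f5_ag, block Q, item Inj (helper39). -/

set_option autoImplicit false

namespace Pool.Agent.Work.MP_1233f5_ag.Q

open Finset
open Pool.Agent.Work.MP_1233f5_ag.Y
open Pool.Agent.Work.MP_1233f5_ag.Y.U (inv_app app_inv sup_one sup_mul sup_inv sup_mono sup_mem
  sup_mem_iff sup_swap)

namespace IInj

section comb
variable {α : Type} [DecidableEq α]

theorem fib_one {T : Finset α} (hT : T.card = 3) (f : α → Fin 3)
    (hf : ∀ u ∈ T, ∀ v ∈ T, f u = f v → u = v) (k : Fin 3) :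
    (T.filter (fun a => f a = k)).card = 1 := by
  have h1 : ∀ k : Fin 3, (T.filter (fun a => f a = k)).card ≤ 1 := by
    intro k
    refine card_le_one.2 (fun a ha b hb => ?_)
    rw [mem_filter] at ha hb
    exact hf a ha.1 b hb.1 (ha.2.trans hb.2.symm)
  have h2 : T.card = ∑ k : Fin 3, (T.filter (fun a => f a = k)).card :=
    card_eq_sum_card_fiberwise (fun _ _ => mem_univ _)
  rw [hT, Fin.sum_univ_three] at h2
  have a0 := h1 0
  have a1 := h1 1
  have a2 := h1 2
  fin_cases k
  · show (T.filter (fun a => f a = 0)).card = 1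
    omega
  · show (T.filter (fun a => f a = 1)).card = 1
    omega
  · show (T.filter (fun a => f a = 2)).card = 1
    omega

theorem card_split {P T : Finset α} (hT : T ⊆ P) (p : α → Prop) [DecidablePred p] :
    (P.filter p).card = ((P \ T).filter p).card + (T.filter p).card := by
  rw [← card_union_of_disjoint, ← filter_union, sdiff_union_of_subset hT]
  exact disjoint_filter_filter sdiff_disjoint

theorem card_perm {P : Finset α} (σ : Equiv.Perm α) (hσ : Sup P σ) (p : α → Prop)
    [DecidablePred p] : (P.filter (fun a => p (σ a))).card = (P.filter p).card := by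
  refine card_bij' (fun a _ => σ a) (fun a _ => σ⁻¹ a) ?_ ?_ ?_ ?_
  · intro a ha
    rw [mem_filter] at ha ⊢
    exact ⟨sup_mem hσ ha.1, ha.2⟩
  · intro a ha
    rw [mem_filter] at ha ⊢
    exact ⟨sup_mem (sup_inv hσ) ha.1, by rw [app_inv]; exact ha.2⟩
  · intro a _
    exact inv_app σ a
  · intro a _
    exact app_inv σ a

end comb

end IInj

theorem pr_Inj (hSymC : S_SymC) (hAsym : S_Asym) (hRep3 : S_Rep3) (hFib : S_Fib) : S_Inj := by
  intro K _ _ α _ _ H _ _ ρ P T B π y hB hTP hT hπ h4 hyT hyP hsym
  classical
  -- the main claim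
  have main : ∀ (D : ℕ) (π' : α → Fin 3), ((P \ T).filter (fun x => π' x ≠ π x)).card = D →
      symC ρ P π' y ∈ B := by
    intro D
    induction D using Nat.strong_induction_on with
    | _ D ih =>
      -- the case of colourings equal to `π` on `T`
      have main2 : ∀ π' : α → Fin 3, ((P \ T).filter (fun x => π' x ≠ π x)).card = D →
          (∀ a ∈ T, π' a = π a) → symC ρ P π' y ∈ B := by
        intro π' hD hπ'
        obtain ⟨s1, -, -, s4, -, -, s7⟩ := hSymC K α H ρ P π'
        have e1 : symC ρ P π' (symC ρ P π y) =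
            ∑ σ ∈ univ.filter (fun σ : Equiv.Perm α => Sup P σ ∧ ∀ a, π (σ a) = π a),
              ρ σ (symC ρ P (π' ∘ σ) y) := by
          have : symC ρ P π y = ∑ σ ∈ univ.filter (fun σ : Equiv.Perm α => Sup P σ ∧
              ∀ a, π (σ a) = π a), ρ σ y := by
            unfold symC
            rw [LinearMap.sum_apply]
            refine sum_congr ?_ (fun _ _ => rfl)
            ext σ
            simp only [mem_filter, mem_univ, true_and]
          rw [this, map_sum]
          refine sum_congr rfl (fun σ hσ => ?_)
          exact s4 σ (mem_filter.1 hσ).2.1 y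
        have e2 : symC ρ P π' (symC ρ P π y) ∈ B := s7 B hB _ hsym
        rw [e1, ← sum_filter_add_sum_filter_not _ (fun σ : Equiv.Perm α => ∀ a ∈ T,
          π' (σ a) = π a)] at e2
        have e3 : ∑ σ ∈ (univ.filter (fun σ : Equiv.Perm α => Sup P σ ∧
            ∀ a, π (σ a) = π a)).filter (fun σ : Equiv.Perm α => ¬ ∀ a ∈ T, π' (σ a) = π a),
              ρ σ (symC ρ P (π' ∘ σ) y) ∈ B := by
          refine Submodule.sum_mem _ (fun σ hσ => ?_)
          simp only [mem_filter, mem_univ, true_and] at hσ
          obtain ⟨⟨hσP, hσπ⟩, hσT⟩ := hσ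
          refine hB σ hσP _ (ih _ ?_ (π' ∘ σ) rfl)
          have c1 := IInj.card_perm σ hσP (fun x => π' x ≠ π x)
          have c2 := IInj.card_split hTP (fun x => π' (σ x) ≠ π (σ x))
          have c3 := IInj.card_split hTP (fun x => π' x ≠ π x)
          have c4 : (T.filter (fun x => π' x ≠ π x)).card = 0 := by
            rw [card_eq_zero, filter_eq_empty_iff]
            intro a ha hc
            exact hc (hπ' a ha)
          have c5 : 0 < (T.filter (fun x => π' (σ x) ≠ π (σ x))).card := by
            rw [card_pos]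
            push Not at hσT
            obtain ⟨a, ha, hc⟩ := hσT
            exact ⟨a, mem_filter.2 ⟨ha, by rw [hσπ]; exact hc⟩⟩
          have c6 : ((P \ T).filter (fun x => (π' ∘ σ) x ≠ π x)).card =
              ((P \ T).filter (fun x => π' (σ x) ≠ π (σ x))).card := by
            congr 1
            refine filter_congr (fun x _ => ?_)
            rw [hσπ]
            rfl
          rw [c6]
          omega
        have e4 : ∑ σ ∈ (univ.filter (fun σ : Equiv.Perm α => Sup P σ ∧
            ∀ a, π (σ a) = π a)).filter (fun σ : Equiv.Perm α => ∀ a ∈ T, π' (σ a) = π a),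
              ρ σ (symC ρ P (π' ∘ σ) y) =
            ((univ.filter (fun σ : Equiv.Perm α => Sup P σ ∧
            ∀ a, π (σ a) = π a)).filter (fun σ : Equiv.Perm α => ∀ a ∈ T, π' (σ a) = π a)).card •
              symC ρ P π' y := by
          rw [← sum_const]
          refine sum_congr rfl (fun σ hσ => ?_)
          simp only [mem_filter, mem_univ, true_and] at hσ
          obtain ⟨⟨hσP, hσπ⟩, hσT⟩ := hσ
          obtain ⟨κ, k1, k2, k3⟩ := hFib α (P \ T) π π' (π' ∘ σ) (by
            intro i k
            have c1 := IInj.card_perm σ hσP (fun x => π x = i ∧ π' x = k)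
            have c2 := IInj.card_split hTP (fun x => π (σ x) = i ∧ π' (σ x) = k)
            have c3 := IInj.card_split hTP (fun x => π x = i ∧ π' x = k)
            have c4 : T.filter (fun x => π x = i ∧ π' x = k) =
                T.filter (fun x => π (σ x) = i ∧ π' (σ x) = k) := by
              refine filter_congr (fun x hx => ?_)
              rw [hσπ, hσT x hx, hπ' x hx]
            have c5 : (P \ T).filter (fun x => π x = i ∧ (π' ∘ σ) x = k) =
                (P \ T).filter (fun x => π (σ x) = i ∧ π' (σ x) = k) := by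
              refine filter_congr (fun x _ => ?_)
              rw [hσπ]
              rfl
            rw [c5]
            rw [c4] at c3
            omega)
          have hk : π' ∘ σ = π' ∘ κ := by
            funext a
            by_cases ha : a ∈ P \ T
            · exact k3 a ha
            · have hκa : κ a = a := k1 a ha
              show π' (σ a) = π' (κ a)
              rw [hκa]
              by_cases haT : a ∈ T
              · rw [hσT a haT, hπ' a haT]
              · have haP : a ∉ P := fun h => ha (mem_sdiff.2 ⟨h, haT⟩)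
                rw [hσP a haP]
          have kP : Sup P κ := sup_mono sdiff_subset k1
          have f1 := s4 κ kP y
          rw [hyP κ k1 k2] at f1
          have f2 : symC ρ P (π' ∘ σ) y = ρ κ⁻¹ (symC ρ P π' y) := by
            rw [hk, f1, ← Module.End.mul_apply, ← map_mul, inv_mul_cancel, map_one,
              Module.End.one_apply]
          rw [f2, ← Module.End.mul_apply, ← map_mul]
          refine (s1 (σ * κ⁻¹) (sup_mul hσP (sup_inv kP)) ?_ y).2
          intro a
          rw [Equiv.Perm.mul_apply]
          have := congrFun hk (κ⁻¹ a)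
          simp only [Function.comp_apply] at this
          rw [this, app_inv]
        rw [e4] at e2
        have e5 := (Submodule.add_mem_iff_left B e3).1 e2
        have e6 : ((univ.filter (fun σ : Equiv.Perm α => Sup P σ ∧
            ∀ a, π (σ a) = π a)).filter
            (fun σ : Equiv.Perm α => ∀ a ∈ T, π' (σ a) = π a)).card ≠ 0 := by
          refine Nat.pos_iff_ne_zero.1 (card_pos.2 ⟨1, ?_⟩)
          simp only [mem_filter, mem_univ, true_and]
          exact ⟨⟨sup_one P, fun _ => rfl⟩, fun a ha => hπ' a ha⟩
        rw [← Nat.cast_smul_eq_nsmul K] at e5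
        exact (Submodule.smul_mem_iff B (Nat.cast_ne_zero.2 e6)).1 e5
      intro π' hD
      by_cases hinj : ∀ u ∈ T, ∀ v ∈ T, π' u = π' v → u = v
      · obtain ⟨τ, t1, -, t3⟩ := hFib α T (fun _ => 0) π' π (by
          intro i k
          by_cases hi : (0 : Fin 3) = i
          · simp only [hi, true_and]
            rw [IInj.fib_one hT π' hinj k, IInj.fib_one hT π hπ k]
          · simp only [hi, false_and, filter_false])
        have h1 := main2 (π' ∘ τ) (by
          rw [← hD]
          congr 1
          refine filter_congr (fun x hx => ?_)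
          rw [Function.comp_apply, t1 x (mem_sdiff.1 hx).2]) (fun a ha => (t3 a ha).symm)
        have tP : Sup P τ := sup_mono hTP t1
        have h2 := (hSymC K α H ρ P π').2.2.2.1 τ tP y
        rw [hyT τ t1, map_smul] at h2
        have h3 : ((Equiv.Perm.sign τ : ℤ) : K) • symC ρ P π' y ∈ B := by
          rw [h2]
          exact hB τ tP _ h1
        have h5 : ((Equiv.Perm.sign τ : ℤ) : K) ≠ 0 := by
          intro hc
          have h6 : ((Equiv.Perm.sign τ : ℤ) : K) * ((Equiv.Perm.sign τ : ℤ) : K) = 1 := by
            rw [← Int.cast_mul, Int.units_coe_mul_self, Int.cast_one]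
          rw [hc, mul_zero] at h6
          exact zero_ne_one h6
        exact (Submodule.smul_mem_iff B h5).1 h3
      · push Not at hinj
        obtain ⟨u, hu, v, hv, huv, hne⟩ := hinj
        have h1 := (hSymC K α H ρ P π').2.2.2.2.2.1 u (hTP hu) v (hTP hv) hne huv y (by
          rw [hyT _ (sup_swap hu hv), Equiv.Perm.sign_swap hne]
          simp)
        rw [h1]
        exact B.zero_mem
  -- the orbit of `y`
  have hZ : Submodule.span K {z | ∃ σ : Equiv.Perm α, Sup P σ ∧ z = ρ σ y} ≤ B := by
    refine hRep3 K α H ρ P _ B ?_ hB ?_ ?_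
    · intro σ hσ z hz
      have h1 : Submodule.span K {z | ∃ σ : Equiv.Perm α, Sup P σ ∧ z = ρ σ y} ≤
          (Submodule.span K {z | ∃ σ : Equiv.Perm α, Sup P σ ∧ z = ρ σ y}).comap
            (ρ σ : H →ₗ[K] H) := by
        rw [Submodule.span_le]
        rintro _ ⟨τ, hτ, rfl⟩
        refine Submodule.subset_span ⟨σ * τ, sup_mul hσ hτ, ?_⟩
        rw [map_mul, Module.End.mul_apply]
      exact h1 hz
    · intro π' z hz hinv
      have h1 : Submodule.span K {z | ∃ σ : Equiv.Perm α, Sup P σ ∧ z = ρ σ y} ≤
          B.comap (symC ρ P π') := by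
        rw [Submodule.span_le]
        rintro _ ⟨τ, hτ, rfl⟩
        show symC ρ P π' (ρ τ y) ∈ B
        rw [(hSymC K α H ρ P π').2.2.2.1 τ hτ y]
        exact hB τ hτ _ (main _ _ rfl)
      obtain ⟨N, hN, hN2⟩ := (hSymC K α H ρ P π').2.1
      have h2 : symC ρ P π' z ∈ B := h1 hz
      rw [hN2 z hinv] at h2
      exact (Submodule.smul_mem_iff B hN).1 h2
    · intro Q hQ hQ4 z hz hant
      have h1 : Submodule.span K {z | ∃ σ : Equiv.Perm α, Sup P σ ∧ z = ρ σ y} ≤
          B.comap (asym ρ Q) := by
        rw [Submodule.span_le]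
        rintro _ ⟨τ, hτ, rfl⟩
        exact h4 τ hτ Q hQ hQ4
      obtain ⟨N, hN, hN2⟩ := (hAsym K α H ρ Q).2.1
      have h2 : asym ρ Q z ∈ B := h1 hz
      rw [hN2 z hant] at h2
      exact (Submodule.smul_mem_iff B hN).1 h2
  refine hZ (Submodule.subset_span ⟨1, sup_one P, ?_⟩)
  rw [map_one, Module.End.one_apply]

end Pool.Agent.Work.MP_1233f5_ag.Q
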