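import Pool.Agent.Work.MP_1233f5_ag.Q.Stmts
import Pool.Agent.Work.MP_1233f5_ag.Y.Util

/-! MP_1233f5_ag, block Q, item PLF: the planar part kills everything. -/

set_option autoImplicit false

namespace Pool.Agent.Work.MP_1233f5_ag.Q

open Finset
open Pool.Agent.Work.MP_1233f5_ag.V (vm vw Mo tyv dd rCh rcyc rVan rNo ML theta)
open Pool.Agent.Work.MP_1233f5_ag.Y

namespace IPLF

section types

variable {α : Type} [DecidableEq α]

theorem tyv_disj (π : α → Fin 3) {A B : Finset α} (h : Disjoint A B) :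
    tyv π (A ∪ B) = tyv π A + tyv π B := by
  funext j
  rw [Pi.add_apply]
  unfold tyv
  rw [filter_union, card_union_of_disjoint (disjoint_filter_filter h)]

omit [DecidableEq α] in
theorem tyv_sum (π : α → Fin 3) (e : Finset α) : ∑ a, tyv π e a = e.card := by
  unfold tyv
  exact (Finset.card_eq_sum_card_fiberwise (f := π) (s := e) (t := univ) (by simp)).symm

omit [DecidableEq α] in
theorem tyv_mem (π : α → Fin 3) {e : Finset α} {d : ℕ} (he : e.card = d) : tyv π e ∈ Mo 3 d := by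
  unfold Mo
  rw [Finset.mem_piAntidiag]
  exact ⟨by rw [tyv_sum, he], by simp⟩

theorem tyv_biUnion (π : α → Fin 3) (j : ℕ) (n : ℕ → Finset α)
    (h : ∀ i < j, ∀ k < j, i ≠ k → Disjoint (n i) (n k)) :
    tyv π ((range j).biUnion n) = ∑ i ∈ range j, tyv π (n i) := by
  funext a
  rw [Finset.sum_apply]
  unfold tyv
  rw [Finset.filter_biUnion, Finset.card_biUnion]
  intro i hi k hk hik
  exact Finset.disjoint_filter_filter (h i (mem_range.1 hi) k (mem_range.1 hk) hik)

theorem disj_tt {τ : ℕ} {P : Finset α} {T : ℕ → Finset α} (hT : TV τ P T) :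
    Disjoint P (tt τ T) := by
  unfold tt
  rw [Finset.disjoint_biUnion_right]
  intro i hi
  exact (hT.out i (mem_range.1 hi)).symm

theorem card_tt {τ : ℕ} {P : Finset α} {T : ℕ → Finset α} (hT : TV τ P T) :
    (tt τ T).card = 3 * τ := by
  unfold tt
  rw [card_biUnion (fun i hi k hk hik => hT.dis i (mem_range.1 hi) k (mem_range.1 hk) hik),
    sum_congr rfl (fun i hi => hT.card i (mem_range.1 hi)), sum_const, card_range, smul_eq_mul,
    mul_comm]

theorem sub_tt {τ i : ℕ} {T : ℕ → Finset α} (hi : i < τ) : T i ⊆ tt τ T := by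
  intro a ha
  exact mem_biUnion.2 ⟨i, mem_range.2 hi, ha⟩

theorem rs_sub (P : Finset α) (j : ℕ) (n : ℕ → Finset α) : rs P j n ⊆ P := sdiff_subset

theorem weight (π : α → Fin 3) {r j τ : ℕ} {P : Finset α} {T n : ℕ → Finset α}
    (hT : TV τ P T) (hn : NV r P j n) :
    tyv π (rs P j n ∪ tt τ T) + ∑ i ∈ range j, tyv π (n i) = tyv π (P ∪ tt τ T) := by
  have h1 : (range j).biUnion n ⊆ P := biUnion_subset.2 fun i hi => hn.sub i (mem_range.1 hi)
  have h2 : P = rs P j n ∪ (range j).biUnion n := by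
    unfold rs
    rw [sdiff_union_of_subset h1]
  have h3 : Disjoint (rs P j n) ((range j).biUnion n) := sdiff_disjoint
  rw [tyv_disj π ((disj_tt hT).mono_left (rs_sub P j n)), tyv_disj π (disj_tt hT),
    ← tyv_biUnion π j n hn.dis]
  have h4 : tyv π P = tyv π (rs P j n) + tyv π ((range j).biUnion n) := by
    rw [← tyv_disj π h3, ← h2]
  rw [h4]
  abel

theorem im_pts {r j τ : ℕ} {P : Finset α} {T n : ℕ → Finset α} (hT : TV τ P T)
    {σ : Equiv.Perm α} (hσ : Sup P σ) :
    im σ (rs P j n ∪ tt τ T) = rs P j (fun i => im σ (n i)) ∪ tt τ T := by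
  rw [U.im_union]
  congr 1
  · unfold rs
    rw [U.im_sdiff, U.sup_im hσ, U.im_biUnion]
  · exact U.sup_im_disj hσ (disj_tt hT).symm

theorem nv_im {r j : ℕ} {P : Finset α} {n : ℕ → Finset α} (hn : NV r P j n)
    {σ : Equiv.Perm α} (hσ : Sup P σ) : NV r P j (fun i => im σ (n i)) where
  card := fun i hi => by rw [card_im, hn.card i hi]
  sub := fun i hi => U.im_sub hσ (hn.sub i hi)
  dis := fun i hi k hk hik => U.im_disj (hn.dis i hi k hk hik)

/-- a colouring which is injective on the triples. -/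
theorem exists_col (π : α → Fin 3) {τ : ℕ} {P : Finset α} {T : ℕ → Finset α} (hT : TV τ P T) :
    ∀ m ≤ τ, ∃ π' : α → Fin 3, (∀ a ∈ P, π' a = π a) ∧
      ∀ i < m, ∀ u ∈ T i, ∀ v ∈ T i, π' u = π' v → u = v := by
  intro m
  induction m with
  | zero =>
    intro _
    exact ⟨π, fun a _ => rfl, fun i hi => absurd hi (Nat.not_lt_zero i)⟩
  | succ m ih =>
    intro hm
    obtain ⟨π1, h1, h2⟩ := ih (by omega)
    have e := Finset.equivFinOfCardEq (hT.card m (by omega))
    refine ⟨fun a => if h : a ∈ T m then e ⟨a, h⟩ else π1 a, ?_, ?_⟩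
    · intro a ha
      have hna : a ∉ T m := fun hc => Finset.disjoint_left.1 (hT.out m (by omega)) hc ha
      show (if h : a ∈ T m then e ⟨a, h⟩ else π1 a) = π a
      rw [dif_neg hna]
      exact h1 a ha
    · intro i hi u hu v hv huv
      by_cases him : i = m
      · subst him
        have h3 : e ⟨u, hu⟩ = e ⟨v, hv⟩ := by
          have h4 : (if h : u ∈ T i then e ⟨u, h⟩ else π1 u) =
            (if h : v ∈ T i then e ⟨v, h⟩ else π1 v) := huv
          rwa [dif_pos hu, dif_pos hv] at h4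
        exact congrArg Subtype.val (e.injective h3)
      · have hd := hT.dis i (by omega) m (by omega) him
        have hu' : u ∉ T m := fun hc => Finset.disjoint_left.1 hd hu hc
        have hv' : v ∉ T m := fun hc => Finset.disjoint_left.1 hd hv hc
        have h4 : (if h : u ∈ T m then e ⟨u, h⟩ else π1 u) =
          (if h : v ∈ T m then e ⟨v, h⟩ else π1 v) := huv
        rw [dif_neg hu', dif_neg hv'] at h4
        exact h2 i (by omega) u hu v hv h4

end types

section reps

variable {K : Type} [Field K] {α : Type} [Fintype α] {H : Type} [AddCommGroup H] [Module K H]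

theorem symC_congr (ρ : Equiv.Perm α →* Module.End K H) (P : Finset α) {π π' : α → Fin 3}
    (h : ∀ a ∈ P, π' a = π a) : symC ρ P π' = symC ρ P π := by
  classical
  unfold symC
  refine Finset.sum_congr (Finset.filter_congr fun σ _ => ?_) fun _ _ => rfl
  constructor
  · rintro ⟨h1, h2⟩
    refine ⟨h1, fun a => ?_⟩
    by_cases ha : a ∈ P
    · rw [← h a ha, ← h (σ a) (U.sup_mem h1 ha)]
      exact h2 a
    · rw [h1 a ha]
  · rintro ⟨h1, h2⟩
    refine ⟨h1, fun a => ?_⟩
    by_cases ha : a ∈ P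
    · rw [h a ha, h (σ a) (U.sup_mem h1 ha)]
      exact h2 a
    · rw [h1 a ha]

variable [DecidableEq α]

/-- the functional and the antisymmetrization in a triple. -/
theorem G_asym [CharZero K] {ρ : Equiv.Perm α →* Module.End K H} {r j τ : ℕ} {P : Finset α}
    {T : ℕ → Finset α} {G : (ℕ → Finset α) → (Lx K α →ₗ[K] H)} (hG : GA ρ r j τ P T G)
    {n : ℕ → Finset α} (hn : NV r P j n) {i : ℕ} (hi : i < τ) :
    ∃ N : K, N ≠ 0 ∧ ∀ y ∈ Cy K (r + 1) (rs P j n ∪ tt τ T) (2 * r + 1),
      G n (asym (act K α) (T i) y) = N • G n y := by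
  classical
  refine ⟨((univ.filter (fun σ : Equiv.Perm α => Sup (T i) σ)).card : K), ?_, ?_⟩
  · refine Nat.cast_ne_zero.2 (Nat.pos_iff_ne_zero.1 (card_pos.2 ⟨1, ?_⟩))
    simp only [mem_filter, mem_univ, true_and]
    exact U.sup_one (T i)
  · intro y hy
    have h1 : ∀ σ : Equiv.Perm α, Sup (T i) σ →
        G n (((Equiv.Perm.sign σ : ℤ) : K) • act K α σ y) = G n y := by
      intro σ hσ
      have h3 : ((Equiv.Perm.sign σ : ℤ) : K) * ((Equiv.Perm.sign σ : ℤ) : K) = 1 := by
        rw [← Int.cast_mul, Int.units_coe_mul_self, Int.cast_one]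
      rw [map_smul, hG.ant i hi σ hσ n hn y hy, smul_smul, h3, one_smul]
    rw [U.asym_apply, map_sum, sum_congr rfl (fun σ hσ => h1 σ (mem_filter.1 hσ).2), sum_const,
      Nat.cast_smul_eq_nsmul]

/-- antisymmetrization in all triples. -/
theorem exists_ant [CharZero K] (hAs : S_Asym) {ρ : Equiv.Perm α →* Module.End K H} {r j τ : ℕ}
    {P : Finset α}
    {T : ℕ → Finset α} {G : (ℕ → Finset α) → (Lx K α →ₗ[K] H)} (hG : GA ρ r j τ P T G)
    {n : ℕ → Finset α} (hn : NV r P j n) {y : Lx K α}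
    (hy : y ∈ Cy K (r + 1) (rs P j n ∪ tt τ T) (2 * r + 1)) :
    ∀ m ≤ τ, ∃ y' ∈ Cy K (r + 1) (rs P j n ∪ tt τ T) (2 * r + 1),
      (∀ i < m, AntQ (act K α) (T i) y') ∧ ∃ N : K, N ≠ 0 ∧ G n y' = N • G n y := by
  intro m
  induction m with
  | zero =>
    intro _
    exact ⟨y, hy, fun i hi => absurd hi (Nat.not_lt_zero i), 1, one_ne_zero, (one_smul _ _).symm⟩
  | succ m ih =>
    intro hm
    obtain ⟨y1, hy1, h2, N, hN, h3⟩ := ih (by omega)
    obtain ⟨N', hN', h4⟩ := G_asym hG hn (show m < τ by omega)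
    obtain ⟨a1, a2, a3, a4, a5, a6, a7⟩ := hAs K α (Lx K α) (act K α) (T m)
    have hsub : T m ⊆ rs P j n ∪ tt τ T :=
      (sub_tt (show m < τ by omega)).trans subset_union_right
    refine ⟨asym (act K α) (T m) y1, ?_, ?_, N' * N, mul_ne_zero hN' hN, ?_⟩
    · exact a6 (Cy K (r + 1) (rs P j n ∪ tt τ T) (2 * r + 1))
        (fun σ hσ z hz => act_Cy_sup hσ hsub hz) y1 hy1
    · intro i hi
      by_cases him : i = m
      · subst him
        exact a3 y1
      · intro σ hσ
        have hd := hG.tv.dis m (by omega) i (by omega) (fun h => him h.symm)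
        rw [a4 σ y1, U.sup_im_disj hσ hd, h2 i (by omega) σ hσ, map_smul]
    · rw [h4 y1 hy1, h3, smul_smul]

end reps

end IPLF

open IPLF

theorem pr_PLF (hRep : S_Rep3) (hPhi : S_Phi3) (hLin : S_Lin3) (hKM : S_KM) (hSC : S_SymC)
    (hAs : S_Asym) : S_PLF := by
  intro K _ _ α _ _ H _ _ ρ r j τ P T G hr hτ hG h4
  -- the symmetrized values vanish
  have key : ∀ π : α → Fin 3, ∀ n, NV r P j n →
      ∀ y ∈ Cy K (r + 1) (rs P j n ∪ tt τ T) (2 * r + 1), symC ρ P π (G n y) = 0 := by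
    intro π n hn y hy
    obtain ⟨π', hπ, hinj⟩ := exists_col π hG.tv τ le_rfl
    rw [← symC_congr ρ P hπ]
    obtain ⟨y', hy', hant, N, hN, hNy⟩ := exists_ant hAs hG hn hy τ le_rfl
    obtain ⟨φ, f1, f2, f3, f4⟩ := hPhi K α H ρ r j τ P T G π' hr hτ hG hinj
    have hW : ∑ a, tyv π' (P ∪ tt τ T) a = j * r + (2 * r + 1) * (r + 2) := by
      rw [tyv_sum, card_union_of_disjoint (disj_tt hG.tv), card_tt hG.tv, hG.card]
    have h5 := hLin K H r j (tyv π' (P ∪ tt τ T)) φ (by omega) hW f2 f3 f4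
      (fun i => tyv π' (n i)) (fun i hi => tyv_mem π' (hn.card i hi))
      (tyv π' (rs P j n ∪ tt τ T)) (weight π' hG.tv hn) (kap π' (2 * r + 1) y')
      ((hKM K α (r + 1) (2 * r + 1) (rs P j n ∪ tt τ T) π').1 y' hy')
    have h6 := f1 n hn y' hy' hant
    rw [h5, hNy, map_smul] at h6
    exact (smul_eq_zero.1 h6).resolve_left hN
  -- the span of the values
  let S : Set H := {x | ∃ n y, NV r P j n ∧ y ∈ Cy K (r + 1) (rs P j n ∪ tt τ T) (2 * r + 1) ∧
    x = G n y}
  have hst : ∀ σ : Equiv.Perm α, Sup P σ → ∀ z ∈ Submodule.span K S, ρ σ z ∈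
      Submodule.span K S := by
    intro σ hσ z hz
    have h1 : Submodule.span K S ≤ (Submodule.span K S).comap (ρ σ) := by
      rw [Submodule.span_le]
      rintro _ ⟨n, y, hn, hy, rfl⟩
      refine Submodule.subset_span ⟨fun i => im σ (n i), act K α σ y, nv_im hn hσ, ?_, ?_⟩
      · rw [← im_pts (r := r) hG.tv hσ]
        exact act_Cy σ hy
      · exact (hG.eqv σ hσ n hn y hy).symm
    exact h1 hz
  have hle : Submodule.span K S ≤ ⊥ := by
    refine hRep K α H ρ P (Submodule.span K S) ⊥ hst ?_ ?_ ?_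
    · intro σ _ z hz
      rw [Submodule.mem_bot] at hz ⊢
      rw [hz, map_zero]
    · intro π z hz hinv
      rw [Submodule.mem_bot]
      obtain ⟨-, ⟨N, hN, h2⟩, -⟩ := hSC K α H ρ P π
      have h3 : symC ρ P π z = 0 := by
        have h7 : Submodule.span K S ≤ LinearMap.ker (symC ρ P π) := by
          rw [Submodule.span_le]
          rintro _ ⟨n, y, hn, hy, rfl⟩
          exact key π n hn y hy
        exact h7 hz
      rw [h2 z hinv] at h3
      exact (smul_eq_zero.1 h3).resolve_left hN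
    · intro Q hQ hQ4 z hz hant
      rw [Submodule.mem_bot]
      obtain ⟨-, ⟨N, hN, h2⟩, -⟩ := hAs K α H ρ Q
      have h3 : asym ρ Q z = 0 := by
        have h7 : Submodule.span K S ≤ LinearMap.ker (asym ρ Q) := by
          rw [Submodule.span_le]
          rintro _ ⟨n, y, hn, hy, rfl⟩
          exact h4 n hn y hy Q hQ hQ4
        exact h7 hz
      rw [h2 z hant] at h3
      exact (smul_eq_zero.1 h3).resolve_left hN
  intro n hn y hy
  exact (Submodule.mem_bot K).1 (hle (Submodule.subset_span ⟨n, y, hn, hy, rfl⟩))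

end Pool.Agent.Work.MP_1233f5_ag.Q
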