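import Pool.Agent.Work.MP_1233f5_ag.Q.I_InjT
import Pool.Agent.Work.MP_1233f5_ag.Q.I_PLF
import Pool.Agent.Work.MP_1233f5_ag.Q.I_Inj
import Pool.Agent.Work.MP_1233f5_ag.Bdx.B04

/-! MP_1233f5_ag, block Q, item Deep (helper39, second copy). -/

set_option autoImplicit false

namespace Pool.Agent.Work.MP_1233f5_ag.Q

open Finset
open Pool.Agent.Work.MP_1233f5_ag.Y
open IInjT (comm_of_disj symC_comm Pj Pj_zero Pj_self Pj_succ Pj_disj Pj_sub)

namespace IDeep

section
variable {K : Type} [Field K] {α : Type} [Fintype α] [DecidableEq α] {H : Type}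
  [AddCommGroup H] [Module K H]

/-- moving an antisymmetric vector. -/
theorem antQ_im (ρ : Equiv.Perm α →* Module.End K H) {Q : Finset α} {z : H} (h : AntQ ρ Q z)
    (σ : Equiv.Perm α) : AntQ ρ (im σ Q) (ρ σ z) := by
  intro κ hκ
  have h1 : Sup Q (σ⁻¹ * κ * σ) := by
    intro a ha
    rw [Equiv.Perm.mul_apply, Equiv.Perm.mul_apply, hκ (σ a) ?_, U.inv_app]
    rw [mem_im, U.inv_app]
    exact ha
  have h2 := h _ h1
  have h3 : ρ κ (ρ σ z) = ρ σ (ρ (σ⁻¹ * κ * σ) z) := by
    rw [← Module.End.mul_apply, ← Module.End.mul_apply, ← map_mul, ← map_mul]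
    congr 2
    group
  rw [h3, h2, map_smul]
  congr 2
  rw [map_mul, map_mul, Equiv.Perm.sign_inv, mul_comm (Equiv.Perm.sign σ), mul_assoc,
    Int.units_mul_self, mul_one]

/-- the set of the statement. -/
def SS (ρ : Equiv.Perm α →* Module.End K H) (P : Finset α) (Z : Submodule K H) (τ : ℕ) : Set H :=
  {y | y ∈ Z ∧ ∃ T : ℕ → Finset α, (∀ i < τ, T i ⊆ P ∧ (T i).card = 3) ∧
      (∀ i < τ, ∀ k < τ, i ≠ k → Disjoint (T i) (T k)) ∧ ∀ i < τ, AntQ ρ (T i) y}

theorem stab (ρ : Equiv.Perm α →* Module.End K H) {P : Finset α} {Z B : Submodule K H} {τ : ℕ}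
    (hZ : ∀ σ, Sup P σ → ∀ z ∈ Z, ρ σ z ∈ Z) (hB : ∀ σ, Sup P σ → ∀ z ∈ B, ρ σ z ∈ B)
    {σ : Equiv.Perm α} (hσ : Sup P σ) {z : H} (hz : z ∈ B ⊔ Submodule.span K (SS ρ P Z τ)) :
    ρ σ z ∈ B ⊔ Submodule.span K (SS ρ P Z τ) := by
  have h1 : B ⊔ Submodule.span K (SS ρ P Z τ) ≤
      (B ⊔ Submodule.span K (SS ρ P Z τ)).comap (ρ σ : H →ₗ[K] H) := by
    refine sup_le ?_ ?_
    · intro x hx
      exact Submodule.mem_sup_left (hB σ hσ x hx)
    · rw [Submodule.span_le]
      rintro y ⟨hy, T, h1, h2, h3⟩
      refine Submodule.mem_sup_right (Submodule.subset_span ⟨hZ σ hσ y hy, fun i => im σ (T i),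
        fun i hi => ⟨U.im_sub hσ (h1 i hi).1, ?_⟩, fun i hi k hk hik => U.im_disj (h2 i hi k hk hik),
        fun i hi => antQ_im ρ (h3 i hi) σ⟩)
      rw [card_im, (h1 i hi).2]
  exact h1 hz

end

end IDeep

open IDeep in
theorem pr_Deep (hS : S_SymC) (hInj : S_Inj) : S_Deep := by
  intro K _ _ α _ _ H _ _ ρ P Z B τ hZ hB h4 hπ
  classical
  show Z ≤ B ⊔ Submodule.span K (SS ρ P Z τ)
  have main : ∀ m k : ℕ, k + m = τ → ∀ T : ℕ → Finset α, (∀ i < k, T i ⊆ P ∧ (T i).card = 3) →
      (∀ i < k, ∀ l < k, i ≠ l → Disjoint (T i) (T l)) → ∀ y ∈ Z, (∀ i < k, AntQ ρ (T i) y) →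
      y ∈ B ⊔ Submodule.span K (SS ρ P Z τ) := by
    intro m
    induction m with
    | zero =>
      intro k hk T h1 h2 y hy h3
      rw [add_zero] at hk
      subst hk
      exact Submodule.mem_sup_right (Submodule.subset_span ⟨hy, T, h1, h2, h3⟩)
    | succ m ih =>
      intro k hk T h1 h2 y hy h3
      set U0 : Finset α := P \ tt k T with hU0
      have hU0P : U0 ⊆ P := sdiff_subset
      have hdisj : ∀ i < k, Disjoint (T i) U0 := by
        intro i hi
        rw [disjoint_left]
        intro a ha hb
        exact (mem_sdiff.1 hb).2 (mem_biUnion.2 ⟨i, mem_range.2 hi, ha⟩)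
      have hTV : TV k U0 T := ⟨fun i hi => (h1 i hi).2, h2, hdisj⟩
      have hPU : U0 ∪ tt k T = P := by
        rw [hU0]
        refine sdiff_union_of_subset ?_
        exact biUnion_subset.2 (fun i hi => (h1 i (mem_range.1 hi)).1)
      -- the submodule of antisymmetric vectors
      let Zk : Submodule K H :=
        { carrier := {z | z ∈ Z ∧ ∀ i < k, AntQ ρ (T i) z}
          add_mem' := by
            rintro a b ⟨ha, ha'⟩ ⟨hb, hb'⟩
            refine ⟨Z.add_mem ha hb, fun i hi σ hσ => ?_⟩
            rw [map_add, ha' i hi σ hσ, hb' i hi σ hσ, smul_add]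
          zero_mem' := ⟨Z.zero_mem, fun i _ σ _ => by rw [map_zero, smul_zero]⟩
          smul_mem' := by
            rintro c a ⟨ha, ha'⟩
            refine ⟨Z.smul_mem c ha, fun i hi σ hσ => ?_⟩
            rw [map_smul, ha' i hi σ hσ, smul_comm] }
      have key : Zk ≤ B ⊔ Submodule.span K (SS ρ P Z τ) := by
        refine g_Rep2 K α H ρ U0 Zk _ ?_ (fun σ hσ z hz => stab ρ hZ hB (U.sup_mono hU0P hσ) hz)
          ?_ ?_
        · rintro σ hσ z ⟨hz, hz'⟩
          refine ⟨hZ σ (U.sup_mono hU0P hσ) z hz, fun i hi κ hκ => ?_⟩
          rw [← Module.End.mul_apply, ← map_mul, comm_of_disj (hdisj i hi) hκ hσ, map_mul,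
            Module.End.mul_apply, hz' i hi κ hκ, map_smul]
        · rintro Y hY z ⟨hz, hz'⟩ hinv
          refine Submodule.mem_sup_left ?_
          obtain ⟨π, c1, c2⟩ := IPLF.exists_col (fun a => if a ∈ Y then 0 else 1) hTV k le_rfl
          -- the number of points of colour two
          have hcol : (P.filter (fun a => π a = 2)).card < τ := by
            have d1 : P.filter (fun a => π a = 2) ⊆
                (range k).biUnion (fun i => (T i).filter (fun a => π a = 2)) := by
              intro a ha
              rw [mem_filter] at ha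
              rw [mem_biUnion]
              have d2 : a ∈ tt k T := by
                by_contra hc
                have d3 : a ∈ U0 := mem_sdiff.2 ⟨ha.1, hc⟩
                have d4 := c1 a d3
                rw [ha.2] at d4
                split_ifs at d4
                · exact absurd d4 (by decide)
                · exact absurd d4 (by decide)
              obtain ⟨i, hi, hai⟩ := mem_biUnion.1 d2
              exact ⟨i, hi, mem_filter.2 ⟨hai, ha.2⟩⟩
            have d5 := (card_le_card d1).trans card_biUnion_le
            have d6 : ∑ i ∈ range k, ((T i).filter (fun a => π a = 2)).card = k := by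
              rw [sum_congr rfl (fun i hi => IInj.fib_one (h1 i (mem_range.1 hi)).2 π
                (c2 i (mem_range.1 hi)) 2), sum_const, card_range, smul_eq_mul, mul_one]
            omega
          have hstZ : ∀ P' ⊆ P, symC ρ P' π z ∈ Z := fun P' hP' =>
            (hS K α H ρ P' π).2.2.2.2.2.2 Z (fun σ hσ => hZ σ (U.sup_mono hP' hσ)) z hz
          have e0 : symC ρ P π z ∈ B := hπ π hcol _ (hstZ P (Subset.refl _))
            ((hS K α H ρ P π).2.2.1 z)
          have step : ∀ j ≤ k, symC ρ (Pj k U0 T j) π z ∈ B := by
            intro j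
            induction j with
            | zero =>
              intro _
              rw [Pj_zero, hPU]
              exact e0
            | succ j ihj =>
              intro hj
              have f0 := ihj (by omega)
              have hjk : j < k := by omega
              have hPjP : Pj k U0 T j ⊆ P := by
                have := Pj_sub k U0 T j
                rwa [hPU] at this
              have hsucc := Pj_succ (R := U0) (T := T) hjk
              have hPj1 : Pj k U0 T (j + 1) ⊆ Pj k U0 T j := by
                rw [hsucc]
                exact subset_union_left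
              have hdj := Pj_disj hTV hjk
              have hsd : Pj k U0 T j \ T j = Pj k U0 T (j + 1) := by
                rw [hsucc, union_sdiff_cancel_right hdj]
              refine hInj K α H ρ (Pj k U0 T j) (T j) B π _
                (fun σ hσ => hB σ (U.sup_mono hPjP hσ)) ?_ (h1 j hjk).2 (c2 j hjk) ?_ ?_ ?_ ?_
              · rw [hsucc]
                exact subset_union_right
              · intro σ hσ Q hQ hQ4
                exact h4 Q (hQ.trans hPjP) hQ4 _ (hZ σ (U.sup_mono hPjP hσ) _
                  (hstZ _ (hPj1.trans hPjP)))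
              · intro κ hκ
                rw [symC_comm ρ π hdj hκ, hz' j hjk κ hκ, map_smul]
              · rw [hsd]
                exact (hS K α H ρ (Pj k U0 T (j + 1)) π).2.2.1 z
              · obtain ⟨N, hN, hN2⟩ := (hS K α H ρ (Pj k U0 T j) π).2.2.2.2.1 _ hPj1
                rw [hN2]
                exact B.smul_mem N f0
          have f1 := step k le_rfl
          rw [Pj_self] at f1
          obtain ⟨N, hN, hN2⟩ := (hS K α H ρ U0 π).2.1
          have f2 : InvC ρ U0 π z := by
            intro σ hσ hσπ
            refine hinv σ ⟨hσ, ?_⟩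
            refine eq_of_subset_of_card_le ?_ (by rw [card_im])
            intro a ha
            rw [mem_im] at ha
            have g1 : σ⁻¹ a ∈ U0 := hY ha
            have g2 : a ∈ U0 := by
              have := U.sup_mem hσ g1
              rwa [U.app_inv] at this
            have g3 := hσπ (σ⁻¹ a)
            rw [U.app_inv, c1 _ g1, c1 _ g2, if_pos ha] at g3
            by_contra hc
            rw [if_neg hc] at g3
            exact one_ne_zero g3
          rw [hN2 z f2] at f1
          exact (Submodule.smul_mem_iff B hN).1 f1
        · rintro Q hQ hQ3 z ⟨hz, hz'⟩ hant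
          refine ih (k + 1) (by omega) (Function.update T k Q) ?_ ?_ z hz ?_
          · intro i hi
            by_cases hik : i = k
            · subst hik
              rw [Function.update_self]
              exact ⟨hQ.trans hU0P, hQ3⟩
            · rw [Function.update_of_ne hik]
              exact h1 i (by omega)
          · intro i hi l hl hil
            by_cases hik : i = k
            · subst hik
              rw [Function.update_self, Function.update_of_ne (fun h => hil h.symm)]
              exact ((hdisj l (by omega)).mono_right hQ).symm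
            · by_cases hlk : l = k
              · subst hlk
                rw [Function.update_self, Function.update_of_ne hik]
                exact (hdisj i (by omega)).mono_right hQ
              · rw [Function.update_of_ne hik, Function.update_of_ne hlk]
                exact h2 i (by omega) l (by omega) hil
          · intro i hi
            by_cases hik : i = k
            · subst hik
              rw [Function.update_self]
              exact hant
            · rw [Function.update_of_ne hik]
              exact hz' i (by omega)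
      exact key ⟨hy, h3⟩
  intro z hz
  exact main τ 0 (by omega) (fun _ => ∅) (fun i hi => absurd hi (Nat.not_lt_zero i))
    (fun i hi => absurd hi (Nat.not_lt_zero i)) z hz (fun i hi => absurd hi (Nat.not_lt_zero i))

end Pool.Agent.Work.MP_1233f5_ag.Q
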