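import Pool.Agent.Work.MP_1233f5_ag.Q.Stmts

/-! MP_1233f5_ag, block Q, item DeepN.  Author: helper7. -/

set_option autoImplicit false

namespace Pool.Agent.Work.MP_1233f5_ag.Q

open Finset
open Pool.Agent.Work.MP_1233f5_ag.V (vm vw Mo tyv dd rCh rcyc rVan rNo ML theta)
open Pool.Agent.Work.MP_1233f5_ag.Y

namespace IDeepN

section comm
variable {α : Type}

theorem comm_of_disj {P Q : Finset α} (h : Disjoint P Q) {σ τ : Equiv.Perm α} (hσ : Sup P σ)
    (hτ : Sup Q τ) : σ * τ = τ * σ := by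
  ext a
  rw [Equiv.Perm.mul_apply, Equiv.Perm.mul_apply]
  by_cases ha : a ∈ P
  · have haQ : a ∉ Q := fun h1 => (Finset.disjoint_left.1 h ha h1)
    have hb : σ a ∈ P := U.sup_mem hσ ha
    have hbQ : σ a ∉ Q := fun h1 => (Finset.disjoint_left.1 h hb h1)
    rw [hτ a haQ, hτ _ hbQ]
  · by_cases haQ : a ∈ Q
    · have hb : τ a ∈ Q := U.sup_mem hτ haQ
      have hbP : τ a ∉ P := fun h1 => (Finset.disjoint_left.1 h h1 hb)
      rw [hσ a ha, hσ _ hbP]
    · rw [hτ a haQ, hσ a ha, hτ a haQ]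

end comm

section Zs
variable (K : Type) [Field K] {α : Type} [Fintype α] [DecidableEq α]

/-- the cycles which are antisymmetric in the frozen triples -/
noncomputable def Zs (r τ : ℕ) (R : Finset α) (T : ℕ → Finset α) : Submodule K (Lx K α) where
  carrier := {w | w ∈ Cy K (r + 1) (R ∪ tt τ T) (2 * r + 1) ∧ ∀ i < τ, AntQ (act K α) (T i) w}
  add_mem' := by
    intro a b ha hb
    refine ⟨Submodule.add_mem _ ha.1 hb.1, fun i hi σ hσ => ?_⟩
    rw [map_add, ha.2 i hi σ hσ, hb.2 i hi σ hσ, smul_add]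
  zero_mem' := by
    refine ⟨Submodule.zero_mem _, fun i hi σ hσ => ?_⟩
    rw [map_zero, smul_zero]
  smul_mem' := by
    intro c a ha
    refine ⟨Submodule.smul_mem _ _ ha.1, fun i hi σ hσ => ?_⟩
    rw [map_smul, ha.2 i hi σ hσ, smul_comm]

end Zs

/-- a colouring injective on a triple -/
theorem exists_col {α : Type} [DecidableEq α] (T : Finset α) (hT : T.card = 3) :
    ∃ e : α → Fin 3, ∀ u ∈ T, ∀ v ∈ T, e u = e v → u = v := by
  have f : T ≃ Fin 3 := Finset.equivFinOfCardEq hT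
  refine ⟨fun a => if h : a ∈ T then f ⟨a, h⟩ else 0, ?_⟩
  intro u hu v hv h
  dsimp only at h
  rw [dif_pos hu, dif_pos hv] at h
  have h2 := f.injective h
  exact congrArg Subtype.val h2

end IDeepN

open IDeepN in
theorem pr_DeepN (hDeep : S_Deep) (hInjT : S_InjT) (hZL : S_ZL) (hR4 : S_R4) (hS : S_SymC) :
    S_DeepN := by
  intro K _ _ α _ _ r τ R T hr hτ hT hcard y hy hant
  have hcY : (R ∪ tt τ T).card = (2 * r + 1) * (r + 2) := by
    rw [Finset.card_union_of_disjoint, tt, Finset.card_biUnion]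
    · rw [Finset.sum_congr rfl (fun i hi => hT.card i (Finset.mem_range.1 hi)), Finset.sum_const,
        Finset.card_range, smul_eq_mul]
      omega
    · intro i hi k hk hik
      exact hT.dis i (Finset.mem_range.1 hi) k (Finset.mem_range.1 hk) hik
    · rw [tt, Finset.disjoint_biUnion_right]
      intro i hi
      exact (hT.out i (Finset.mem_range.1 hi)).symm
  have hRs : R ⊆ R ∪ tt τ T := Finset.subset_union_left
  have hZst : ∀ σ, Sup R σ → ∀ z ∈ Zs K r τ R T, act K α σ z ∈ Zs K r τ R T := by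
    intro σ hσ z hz
    refine ⟨act_Cy_sup hσ hRs hz.1, fun i hi σ' hσ' => ?_⟩
    have h1 : σ' * σ = σ * σ' := comm_of_disj (hT.out i hi) hσ' hσ
    have h2 : act K α σ' (act K α σ z) = act K α σ (act K α σ' z) := by
      rw [← Module.End.mul_apply, ← Module.End.mul_apply, ← map_mul, ← map_mul, h1]
    rw [h2, hz.2 i hi σ' hσ', map_smul]
  have hBst : ∀ σ, Sup R σ → ∀ z ∈ Bd K (r + 1) (R ∪ tt τ T) (2 * r + 1),
      act K α σ z ∈ Bd K (r + 1) (R ∪ tt τ T) (2 * r + 1) :=
    fun σ hσ z hz => act_Bd_sup hσ hRs hz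
  have h4 : ∀ Q ⊆ R, Q.card = 4 → ∀ z ∈ Zs K r τ R T,
      asym (act K α) Q z ∈ Bd K (r + 1) (R ∪ tt τ T) (2 * r + 1) := by
    intro Q hQ hQc z hz
    exact hR4 K α r (R ∪ tt τ T) Q (by omega) hcY (hQ.trans hRs) hQc z hz.1
  -- the colouring of the frozen triple
  have he : ∃ e : α → Fin 3, ∀ i < τ, ∀ u ∈ T i, ∀ v ∈ T i, e u = e v → u = v := by
    rcases Nat.eq_zero_or_pos τ with h0 | h0
    · exact ⟨fun _ => 0, fun i hi => absurd hi (by omega)⟩
    · obtain ⟨e, he⟩ := exists_col (T 0) (hT.card 0 h0)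
      refine ⟨e, fun i hi => ?_⟩
      have hi0 : i = 0 := by omega
      subst hi0
      exact he
  obtain ⟨e, he⟩ := he
  have hinv : ∀ π : α → Fin 3, (R.filter (fun a => π a = 2)).card < 3 →
      ∀ z ∈ Zs K r τ R T, InvC (act K α) R π z → z ∈ Bd K (r + 1) (R ∪ tt τ T) (2 * r + 1) := by
    intro π hπ z hz hzi
    set π' : α → Fin 3 := fun a => if a ∈ tt τ T then e a else π a with hπ'
    have hRT : ∀ a ∈ R, a ∉ tt τ T := by
      intro a ha hc
      rw [tt, Finset.mem_biUnion] at hc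
      obtain ⟨i, hi, hai⟩ := hc
      exact Finset.disjoint_left.1 (hT.out i (Finset.mem_range.1 hi)) hai ha
    have hval1 : ∀ a ∈ tt τ T, π' a = e a := fun a ha => if_pos ha
    have hval2 : ∀ a ∈ R, π' a = π a := fun a ha => if_neg (hRT a ha)
    have hinj' : ∀ i < τ, ∀ u ∈ T i, ∀ v ∈ T i, π' u = π' v → u = v := by
      intro i hi u hu v hv h
      have hu' : u ∈ tt τ T := Finset.mem_biUnion.2 ⟨i, Finset.mem_range.2 hi, hu⟩
      have hv' : v ∈ tt τ T := Finset.mem_biUnion.2 ⟨i, Finset.mem_range.2 hi, hv⟩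
      rw [hval1 u hu', hval1 v hv'] at h
      exact he i hi u hu v hv h
    have hzi' : InvC (act K α) R π' z := by
      intro σ hσ hc
      apply hzi σ hσ
      intro a
      by_cases ha : a ∈ R
      · have h1 := hc a
        rw [hval2 a ha, hval2 _ (U.sup_mem hσ ha)] at h1
        exact h1
      · rw [hσ a ha]
    have hcard3 : ((R ∪ tt τ T).filter (fun a => π' a = 2)).card ≤ 3 := by
      have hsub : (R ∪ tt τ T).filter (fun a => π' a = 2) ⊆
          R.filter (fun a => π a = 2) ∪ (tt τ T).filter (fun a => e a = 2) := by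
        intro a ha
        rw [Finset.mem_filter, Finset.mem_union] at ha
        obtain ⟨h1 | h1, h2⟩ := ha
        · rw [hval2 a h1] at h2
          exact Finset.mem_union_left _ (Finset.mem_filter.2 ⟨h1, h2⟩)
        · rw [hval1 a h1] at h2
          exact Finset.mem_union_right _ (Finset.mem_filter.2 ⟨h1, h2⟩)
      have hle1 : ((tt τ T).filter (fun a => e a = 2)).card ≤ 1 := by
        rw [Finset.card_le_one]
        intro a ha b hb
        rw [Finset.mem_filter, tt, Finset.mem_biUnion] at ha hb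
        obtain ⟨⟨i, hi, hai⟩, h1⟩ := ha
        obtain ⟨⟨k, hk, hbk⟩, h2⟩ := hb
        rw [Finset.mem_range] at hi hk
        have hik : i = k := by omega
        subst hik
        exact he i hi a hai b hbk (h1.trans h2.symm)
      have h1 := (Finset.card_le_card hsub).trans (Finset.card_union_le _ _)
      omega
    have hwCy : symC (act K α) (R ∪ tt τ T) π' z ∈ Cy K (r + 1) (R ∪ tt τ T) (2 * r + 1) :=
      (hS K α (Lx K α) (act K α) (R ∪ tt τ T) π').2.2.2.2.2.2 _
        (fun σ hσ w hw => act_Cy_sup hσ (Finset.Subset.refl _) hw) z hz.1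
    have hw0 : symC (act K α) (R ∪ tt τ T) π' z = 0 :=
      hZL K α r (R ∪ tt τ T) π' hr hcard3 _ hwCy
        ((hS K α (Lx K α) (act K α) (R ∪ tt τ T) π').2.2.1 z)
    refine hInjT K α r τ R T π' (by omega) hT hcard hinj' z hz.1 hz.2 hzi' ?_
    rw [hw0]
    exact Submodule.zero_mem _
  have hfin := hDeep K α (Lx K α) (act K α) R (Zs K r τ R T)
    (Bd K (r + 1) (R ∪ tt τ T) (2 * r + 1)) 3 hZst hBst h4 hinv
  exact hfin (show y ∈ Zs K r τ R T from ⟨hy, hant⟩)

end Pool.Agent.Work.MP_1233f5_ag.Q
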