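import Pool.Agent.Work.MP_1233f5_ag.Q.Stmts

/-! MP_1233f5_ag, block Q, item F4. -/

set_option autoImplicit false

namespace Pool.Agent.Work.MP_1233f5_ag.Q

open Finset
open Pool.Agent.Work.MP_1233f5_ag.V (vm vw Mo tyv dd rCh rcyc rVan rNo ML theta)
open Pool.Agent.Work.MP_1233f5_ag.Y

namespace IF4

section coset
variable {K : Type} [Field K] [CharZero K] {α : Type} [Fintype α] [DecidableEq α] {H : Type}
  [AddCommGroup H] [Module K H]

/-- coset decomposition of the alternating sum. -/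
theorem asym_insert (ρ : Equiv.Perm α →* Module.End K H) {x : α} {Y : Finset α} (hx : x ∉ Y)
    (z : H) : asym ρ (insert x Y) z =
      asym ρ Y z - ∑ y ∈ Y, ρ (Equiv.swap x y) (asym ρ Y z) := by
  classical
  rw [U.asym_apply, U.asym_apply]
  have h1 : ∑ σ ∈ univ.filter (fun σ : Equiv.Perm α => Sup (insert x Y) σ),
      ((Equiv.Perm.sign σ : ℤ) : K) • ρ σ z =
      ∑ a ∈ insert x Y, ∑ τ ∈ univ.filter (fun σ : Equiv.Perm α => Sup Y σ),
        ((Equiv.Perm.sign (Equiv.swap x a * τ) : ℤ) : K) • ρ (Equiv.swap x a * τ) z := by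
    rw [← Finset.sum_product']
    symm
    refine Finset.sum_bij' (fun p _ => Equiv.swap x p.1 * p.2)
      (fun σ _ => (σ x, Equiv.swap x (σ x) * σ)) ?_ ?_ ?_ ?_ ?_
    · rintro ⟨a, τ⟩ hp
      rw [Finset.mem_product, mem_filter] at hp
      rw [mem_filter]
      refine ⟨mem_univ _, U.sup_mul (U.sup_swap (mem_insert_self x Y) hp.1) ?_⟩
      exact U.sup_mono (subset_insert x Y) hp.2.2
    · intro σ hσ
      rw [mem_filter] at hσ
      rw [Finset.mem_product, mem_filter]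
      have h2 : σ x ∈ insert x Y := U.sup_mem hσ.2 (mem_insert_self x Y)
      refine ⟨h2, mem_univ _, ?_⟩
      intro b hb
      rw [Equiv.Perm.mul_apply]
      by_cases hbx : b = x
      · rw [hbx, Equiv.swap_apply_right]
      · have hb' : b ∉ insert x Y := by
          rw [mem_insert]
          exact fun h => h.elim hbx hb
        rw [hσ.2 b hb', Equiv.swap_apply_of_ne_of_ne hbx]
        rintro rfl
        exact hb' h2
    · rintro ⟨a, τ⟩ hp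
      rw [Finset.mem_product, mem_filter] at hp
      have h3 : τ x = x := hp.2.2 x hx
      have h4 : (Equiv.swap x a * τ) x = a := by
        rw [Equiv.Perm.mul_apply, h3, Equiv.swap_apply_left]
      refine Prod.ext h4 ?_
      show Equiv.swap x ((Equiv.swap x a * τ) x) * (Equiv.swap x a * τ) = τ
      rw [h4, ← mul_assoc, Equiv.swap_mul_self, one_mul]
    · intro σ _
      show Equiv.swap x (σ x) * (Equiv.swap x (σ x) * σ) = σ
      rw [← mul_assoc, Equiv.swap_mul_self, one_mul]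
    · rintro ⟨a, τ⟩ _
      rfl
  rw [h1, Finset.sum_insert hx]
  have h2 : ∀ a, ∑ τ ∈ univ.filter (fun σ : Equiv.Perm α => Sup Y σ),
      ((Equiv.Perm.sign (Equiv.swap x a * τ) : ℤ) : K) • ρ (Equiv.swap x a * τ) z =
      ((Equiv.Perm.sign (Equiv.swap x a) : ℤ) : K) • ρ (Equiv.swap x a)
        (∑ τ ∈ univ.filter (fun σ : Equiv.Perm α => Sup Y σ),
          ((Equiv.Perm.sign τ : ℤ) : K) • ρ τ z) := by
    intro a
    rw [map_sum, Finset.smul_sum]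
    refine Finset.sum_congr rfl fun τ _ => ?_
    rw [Equiv.Perm.sign_mul, Units.val_mul, Int.cast_mul, map_mul, Module.End.mul_apply, map_smul,
      smul_smul]
  rw [h2, Finset.sum_congr rfl (fun a _ => h2 a), Equiv.swap_self, Equiv.Perm.sign_refl,
    sub_eq_add_neg, ← Finset.sum_neg_distrib]
  congr 1
  · show ((1 : ℤ) : K) • ρ (1 : Equiv.Perm α) _ = _
    rw [Int.cast_one, one_smul, map_one, Module.End.one_apply]
  · refine Finset.sum_congr rfl fun a ha => ?_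
    have hne : x ≠ a := by
      rintro rfl
      exact hx ha
    rw [Equiv.Perm.sign_swap hne]
    show (((-1 : ℤˣ) : ℤ) : K) • _ = _
    rw [Units.val_neg, Units.val_one, Int.cast_neg, Int.cast_one, neg_smul, one_smul]

end coset

section core
variable {K : Type} [Field K] [CharZero K] {H : Type} [AddCommGroup H] [Module K H]

/-- the sum over all orders of four rows and three columns. -/
theorem sum_re (F : Equiv.Perm (Fin 4) → Equiv.Perm (Fin 3) → H) (ν : Equiv.Perm (Fin 4))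
    (μ : Equiv.Perm (Fin 3)) : ∑ σ, ∑ τ, F (σ * ν) (τ * μ) = ∑ σ, ∑ τ, F σ τ := by
  rw [← Equiv.sum_comp (Equiv.mulRight ν) (fun σ => ∑ τ, F σ τ)]
  refine Finset.sum_congr rfl fun σ _ => ?_
  rw [← Equiv.sum_comp (Equiv.mulRight μ) (fun τ => F (Equiv.mulRight ν σ) τ)]
  rfl

theorem core (s : Fin 4 → Fin 3 → Module.End K H) (z : H)
    (h0 : ∀ i, z = ∑ j, s i j z)
    (hA : ∀ i i', i ≠ i' → ∀ j, s i j (s i' j z) = -s i' j z)
    (hC : ∀ i i', i ≠ i' → ∀ j j', j ≠ j' → ∀ v, s i j (s i' j' v) = s i' j' (s i j v)) :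
    z = 0 := by
  classical
  -- the three kinds of vectors
  have e0 : ∀ (i : Fin 4) (τ : Equiv.Perm (Fin 3)),
      z = s i (τ 0) z + s i (τ 1) z + s i (τ 2) z := by
    intro i τ
    conv_lhs => rw [h0 i, ← Equiv.sum_comp τ (fun j => s i j z), Fin.sum_univ_three]
  have n4 : ∀ (σ : Equiv.Perm (Fin 4)) (a b : Fin 4), a ≠ b → σ a ≠ σ b :=
    fun σ a b h hc => h (σ.injective hc)
  have n3 : ∀ (τ : Equiv.Perm (Fin 3)) (a b : Fin 3), a ≠ b → τ a ≠ τ b :=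
    fun σ a b h hc => h (σ.injective hc)
  have e1 : ∀ (σ : Equiv.Perm (Fin 4)) (τ : Equiv.Perm (Fin 3)),
      s (σ 0) (τ 0) z + s (σ 1) (τ 0) z =
        s (σ 0) (τ 0) (s (σ 1) (τ 1) z) + s (σ 0) (τ 0) (s (σ 1) (τ 2) z) := by
    intro σ τ
    have h1 := congrArg (s (σ 0) (τ 0)) (e0 (σ 1) τ)
    rw [map_add, map_add, hA _ _ (n4 σ 0 1 (by decide))] at h1
    rw [h1]
    abel
  have e2 : ∀ (σ : Equiv.Perm (Fin 4)) (τ : Equiv.Perm (Fin 3)),
      s (σ 0) (τ 0) (s (σ 1) (τ 1) z) + s (σ 2) (τ 0) (s (σ 1) (τ 1) z) +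
        s (σ 0) (τ 0) (s (σ 2) (τ 1) z) =
        s (σ 0) (τ 0) (s (σ 1) (τ 1) (s (σ 2) (τ 2) z)) := by
    intro σ τ
    have h1 := congrArg (fun v => s (σ 0) (τ 0) (s (σ 1) (τ 1) v)) (e0 (σ 2) τ)
    simp only [map_add] at h1
    rw [hC (σ 0) (σ 1) (n4 σ 0 1 (by decide)) (τ 0) (τ 1) (n3 τ 0 1 (by decide))
      (s (σ 2) (τ 0) z), hA (σ 0) (σ 2) (n4 σ 0 2 (by decide)), map_neg,
      hA (σ 1) (σ 2) (n4 σ 1 2 (by decide)), map_neg,
      hC (σ 1) (σ 2) (n4 σ 1 2 (by decide)) (τ 1) (τ 0) (n3 τ 1 0 (by decide))] at h1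
    rw [h1]
    abel
  have e3 : ∀ (σ : Equiv.Perm (Fin 4)) (τ : Equiv.Perm (Fin 3)),
      s (σ 0) (τ 0) (s (σ 1) (τ 1) (s (σ 2) (τ 2) z)) +
      s (σ 3) (τ 0) (s (σ 1) (τ 1) (s (σ 2) (τ 2) z)) +
      s (σ 0) (τ 0) (s (σ 3) (τ 1) (s (σ 2) (τ 2) z)) +
      s (σ 0) (τ 0) (s (σ 1) (τ 1) (s (σ 3) (τ 2) z)) = 0 := by
    intro σ τ
    have h1 := congrArg (fun v => s (σ 0) (τ 0) (s (σ 1) (τ 1) (s (σ 2) (τ 2) v))) (e0 (σ 3) τ)
    simp only [map_add] at h1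
    -- first term
    have t0 : s (σ 0) (τ 0) (s (σ 1) (τ 1) (s (σ 2) (τ 2) (s (σ 3) (τ 0) z))) =
        -s (σ 3) (τ 0) (s (σ 1) (τ 1) (s (σ 2) (τ 2) z)) := by
      rw [hC (σ 0) (σ 1) (n4 σ 0 1 (by decide)) (τ 0) (τ 1) (n3 τ 0 1 (by decide)),
        hC (σ 0) (σ 2) (n4 σ 0 2 (by decide)) (τ 0) (τ 2) (n3 τ 0 2 (by decide)),
        hA (σ 0) (σ 3) (n4 σ 0 3 (by decide)), map_neg, map_neg,
        hC (σ 2) (σ 3) (n4 σ 2 3 (by decide)) (τ 2) (τ 0) (n3 τ 2 0 (by decide)),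
        hC (σ 1) (σ 3) (n4 σ 1 3 (by decide)) (τ 1) (τ 0) (n3 τ 1 0 (by decide))]
    have t1 : s (σ 0) (τ 0) (s (σ 1) (τ 1) (s (σ 2) (τ 2) (s (σ 3) (τ 1) z))) =
        -s (σ 0) (τ 0) (s (σ 3) (τ 1) (s (σ 2) (τ 2) z)) := by
      rw [hC (σ 1) (σ 2) (n4 σ 1 2 (by decide)) (τ 1) (τ 2) (n3 τ 1 2 (by decide)),
        hA (σ 1) (σ 3) (n4 σ 1 3 (by decide)), map_neg, map_neg,
        hC (σ 2) (σ 3) (n4 σ 2 3 (by decide)) (τ 2) (τ 1) (n3 τ 2 1 (by decide))]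
    have t2 : s (σ 0) (τ 0) (s (σ 1) (τ 1) (s (σ 2) (τ 2) (s (σ 3) (τ 2) z))) =
        -s (σ 0) (τ 0) (s (σ 1) (τ 1) (s (σ 3) (τ 2) z)) := by
      rw [hA (σ 2) (σ 3) (n4 σ 2 3 (by decide)), map_neg, map_neg]
    rw [t0, t1, t2] at h1
    rw [h1]
    abel
  -- the sums
  set A1 : H := ∑ σ : Equiv.Perm (Fin 4), ∑ τ : Equiv.Perm (Fin 3), s (σ 0) (τ 0) z with hA1
  set A2 : H := ∑ σ : Equiv.Perm (Fin 4), ∑ τ : Equiv.Perm (Fin 3),
    s (σ 0) (τ 0) (s (σ 1) (τ 1) z) with hA2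
  set A3 : H := ∑ σ : Equiv.Perm (Fin 4), ∑ τ : Equiv.Perm (Fin 3),
    s (σ 0) (τ 0) (s (σ 1) (τ 1) (s (σ 2) (τ 2) z)) with hA3
  have p4 : ∀ a b : Fin 4, a ≠ b → True := fun _ _ _ => trivial
  have f3 : A3 + A3 + A3 + A3 = 0 := by
    have r1 : ∑ σ : Equiv.Perm (Fin 4), ∑ τ : Equiv.Perm (Fin 3),
        s (σ 3) (τ 0) (s (σ 1) (τ 1) (s (σ 2) (τ 2) z)) = A3 :=
      sum_re (fun σ τ => s (σ 0) (τ 0) (s (σ 1) (τ 1) (s (σ 2) (τ 2) z))) (Equiv.swap 0 3) 1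
    have r2 : ∑ σ : Equiv.Perm (Fin 4), ∑ τ : Equiv.Perm (Fin 3),
        s (σ 0) (τ 0) (s (σ 3) (τ 1) (s (σ 2) (τ 2) z)) = A3 :=
      sum_re (fun σ τ => s (σ 0) (τ 0) (s (σ 1) (τ 1) (s (σ 2) (τ 2) z))) (Equiv.swap 1 3) 1
    have r3 : ∑ σ : Equiv.Perm (Fin 4), ∑ τ : Equiv.Perm (Fin 3),
        s (σ 0) (τ 0) (s (σ 1) (τ 1) (s (σ 3) (τ 2) z)) = A3 :=
      sum_re (fun σ τ => s (σ 0) (τ 0) (s (σ 1) (τ 1) (s (σ 2) (τ 2) z))) (Equiv.swap 2 3) 1
    have h1 : ∑ σ : Equiv.Perm (Fin 4), ∑ τ : Equiv.Perm (Fin 3),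
        (s (σ 0) (τ 0) (s (σ 1) (τ 1) (s (σ 2) (τ 2) z)) +
        s (σ 3) (τ 0) (s (σ 1) (τ 1) (s (σ 2) (τ 2) z)) +
        s (σ 0) (τ 0) (s (σ 3) (τ 1) (s (σ 2) (τ 2) z)) +
        s (σ 0) (τ 0) (s (σ 1) (τ 1) (s (σ 3) (τ 2) z))) = 0 :=
      Finset.sum_eq_zero fun σ _ => Finset.sum_eq_zero fun τ _ => e3 σ τ
    simp only [Finset.sum_add_distrib] at h1
    rw [r1, r2, r3] at h1
    exact h1
  have f2 : A2 + A2 + A2 = A3 := by
    have r1 : ∑ σ : Equiv.Perm (Fin 4), ∑ τ : Equiv.Perm (Fin 3),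
        s (σ 2) (τ 0) (s (σ 1) (τ 1) z) = A2 :=
      sum_re (fun σ τ => s (σ 0) (τ 0) (s (σ 1) (τ 1) z)) (Equiv.swap 0 2) 1
    have r2 : ∑ σ : Equiv.Perm (Fin 4), ∑ τ : Equiv.Perm (Fin 3),
        s (σ 0) (τ 0) (s (σ 2) (τ 1) z) = A2 :=
      sum_re (fun σ τ => s (σ 0) (τ 0) (s (σ 1) (τ 1) z)) (Equiv.swap 1 2) 1
    have h1 : ∑ σ : Equiv.Perm (Fin 4), ∑ τ : Equiv.Perm (Fin 3),
        (s (σ 0) (τ 0) (s (σ 1) (τ 1) z) + s (σ 2) (τ 0) (s (σ 1) (τ 1) z) +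
        s (σ 0) (τ 0) (s (σ 2) (τ 1) z)) = A3 :=
      Finset.sum_congr rfl fun σ _ => Finset.sum_congr rfl fun τ _ => e2 σ τ
    simp only [Finset.sum_add_distrib] at h1
    rw [r1, r2] at h1
    exact h1
  have f1 : A1 + A1 = A2 + A2 := by
    have r1 : ∑ σ : Equiv.Perm (Fin 4), ∑ τ : Equiv.Perm (Fin 3), s (σ 1) (τ 0) z = A1 :=
      sum_re (fun σ τ => s (σ 0) (τ 0) z) (Equiv.swap 0 1) 1
    have r2 : ∑ σ : Equiv.Perm (Fin 4), ∑ τ : Equiv.Perm (Fin 3),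
        s (σ 0) (τ 0) (s (σ 1) (τ 2) z) = A2 :=
      sum_re (fun σ τ => s (σ 0) (τ 0) (s (σ 1) (τ 1) z)) 1 (Equiv.swap 1 2)
    have h1 : ∑ σ : Equiv.Perm (Fin 4), ∑ τ : Equiv.Perm (Fin 3),
        (s (σ 0) (τ 0) z + s (σ 1) (τ 0) z) = ∑ σ : Equiv.Perm (Fin 4),
          ∑ τ : Equiv.Perm (Fin 3), (s (σ 0) (τ 0) (s (σ 1) (τ 1) z) +
            s (σ 0) (τ 0) (s (σ 1) (τ 2) z)) :=
      Finset.sum_congr rfl fun σ _ => Finset.sum_congr rfl fun τ _ => e1 σ τ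
    simp only [Finset.sum_add_distrib] at h1
    rw [r1, r2] at h1
    exact h1
  have f0 : (144 : ℕ) • z = A1 + A1 + A1 := by
    have r1 : ∑ σ : Equiv.Perm (Fin 4), ∑ τ : Equiv.Perm (Fin 3), s (σ 0) (τ 1) z = A1 :=
      sum_re (fun σ τ => s (σ 0) (τ 0) z) 1 (Equiv.swap 0 1)
    have r2 : ∑ σ : Equiv.Perm (Fin 4), ∑ τ : Equiv.Perm (Fin 3), s (σ 0) (τ 2) z = A1 :=
      sum_re (fun σ τ => s (σ 0) (τ 0) z) 1 (Equiv.swap 0 2)
    have h1 : ∑ _σ : Equiv.Perm (Fin 4), ∑ _τ : Equiv.Perm (Fin 3), z =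
        ∑ σ : Equiv.Perm (Fin 4), ∑ τ : Equiv.Perm (Fin 3),
          (s (σ 0) (τ 0) z + s (σ 0) (τ 1) z + s (σ 0) (τ 2) z) :=
      Finset.sum_congr rfl fun σ _ => Finset.sum_congr rfl fun τ _ => e0 (σ 0) τ
    simp only [Finset.sum_add_distrib] at h1
    rw [r1, r2] at h1
    rw [← h1, Finset.sum_const, Finset.sum_const, Finset.card_univ, Finset.card_univ,
      Fintype.card_perm, Fintype.card_perm, Fintype.card_fin, Fintype.card_fin, smul_smul]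
    rfl
  have g3 : A3 = 0 := by
    have h1 : (4 : K) • A3 = 0 := by
      rw [← f3]
      module
    exact (smul_eq_zero.1 h1).resolve_left (by norm_num)
  have g2 : A2 = 0 := by
    have h1 : (3 : K) • A2 = 0 := by
      rw [← g3, ← f2]
      module
    exact (smul_eq_zero.1 h1).resolve_left (by norm_num)
  have g1 : A1 = 0 := by
    have h1 : (2 : K) • A1 = 0 := by
      have h2 : (2 : K) • A1 = A1 + A1 := by module
      rw [h2, f1, g2, add_zero]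
    exact (smul_eq_zero.1 h1).resolve_left (by norm_num)
  have h1 : (144 : K) • z = 0 := by
    have h2 : (144 : K) • z = (144 : ℕ) • z := by
      rw [← Nat.cast_smul_eq_nsmul K]
      norm_num
    rw [h2, f0, g1, add_zero, add_zero]
  exact (smul_eq_zero.1 h1).resolve_left (by norm_num)

end core

end IF4

open IF4 in
theorem pr_F4 : S_F4 := by
  intro K _ _ α _ _ H _ _ ρ Q Y z hQ hY hd haQ haY hz
  classical
  -- names of the points
  have eQ : ∃ q : Fin 4 → α, Function.Injective q ∧ ∀ i, q i ∈ Q := by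
    refine ⟨fun i => ((Q.equivFinOfCardEq hQ).symm i : α), ?_, fun i => ?_⟩
    · intro i j hij
      exact (Q.equivFinOfCardEq hQ).symm.injective (Subtype.ext hij)
    · exact ((Q.equivFinOfCardEq hQ).symm i).2
  obtain ⟨q, hq, hqQ⟩ := eQ
  set e : Fin 3 ≃ Y := (Y.equivFinOfCardEq hY).symm with he
  have hne : ∀ i (b : α), b ∈ Y → q i ≠ b := by
    intro i b hb hc
    exact Finset.disjoint_left.1 hd (hqQ i) (hc ▸ hb)
  obtain ⟨N, hN0, hN⟩ := U.asym_of_anti (K := K) (ρ := ρ) Y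
  have hsw : ∀ i j, i ≠ j → ρ (Equiv.swap (q i) (q j)) z = -z := by
    intro i j hij
    rw [haQ _ (U.sup_swap (hqQ i) (hqQ j)), Equiv.Perm.sign_swap (fun h => hij (hq h))]
    show (((-1 : ℤˣ) : ℤ) : K) • z = _
    rw [Units.val_neg, Units.val_one, Int.cast_neg, Int.cast_one, neg_smul, one_smul]
  refine core (K := K) (fun i j => ρ (Equiv.swap (q i) (e j : α))) z ?_ ?_ ?_
  · intro i
    have h1 := hz (q i) (hqQ i)
    have hqY : q i ∉ Y := fun h => hne i _ h rfl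
    rw [asym_insert ρ hqY, hN z haY] at h1
    have h2 : ∑ y ∈ Y, ρ (Equiv.swap (q i) y) (N • z) =
        N • ∑ j : Fin 3, ρ (Equiv.swap (q i) (e j : α)) z := by
      rw [Finset.smul_sum, ← Finset.sum_coe_sort Y, ← Equiv.sum_comp e]
      exact Finset.sum_congr rfl fun j _ => map_smul _ _ _
    rw [h2, ← smul_sub] at h1
    exact sub_eq_zero.1 ((smul_eq_zero.1 h1).resolve_left hN0)
  · intro i i' hii j
    show ρ (Equiv.swap (q i) (e j : α)) (ρ (Equiv.swap (q i') (e j : α)) z) =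
      -ρ (Equiv.swap (q i') (e j : α)) z
    have h1 : Equiv.swap (q i) (e j : α) * Equiv.swap (q i') (e j : α) =
        Equiv.swap (q i') (e j : α) * Equiv.swap (q i) (q i') := by
      have n1 := hne i _ (e j).2
      have n2 := hne i' _ (e j).2
      have n3 : q i ≠ q i' := fun h => hii (hq h)
      ext a
      simp only [Equiv.Perm.mul_apply, Equiv.swap_apply_def]
      split_ifs <;> simp_all
    rw [← Module.End.mul_apply, ← map_mul, h1, map_mul, Module.End.mul_apply, hsw i i' hii,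
      map_neg]
  · intro i i' hii j j' hjj v
    show ρ (Equiv.swap (q i) (e j : α)) (ρ (Equiv.swap (q i') (e j' : α)) v) =
      ρ (Equiv.swap (q i') (e j' : α)) (ρ (Equiv.swap (q i) (e j : α)) v)
    have h1 : Equiv.swap (q i) (e j : α) * Equiv.swap (q i') (e j' : α) =
        Equiv.swap (q i') (e j' : α) * Equiv.swap (q i) (e j : α) := by
      have n1 := hne i _ (e j').2
      have n2 := hne i' _ (e j).2
      have n3 : q i ≠ q i' := fun h => hii (hq h)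
      have n4 : (e j : α) ≠ (e j' : α) := fun h => hjj (e.injective (Subtype.ext h))
      ext a
      simp only [Equiv.Perm.mul_apply, Equiv.swap_apply_def]
      split_ifs <;> simp_all
    rw [← Module.End.mul_apply, ← map_mul, h1, map_mul, Module.End.mul_apply]

end Pool.Agent.Work.MP_1233f5_ag.Q
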