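import Pool.Agent.Work.MP_1233f5_ag.Q.Stmts

/-! MP_1233f5_ag, block Q, item Frz4: freezing a triple. -/

set_option autoImplicit false
set_option linter.unusedSectionVars false

namespace Pool.Agent.Work.MP_1233f5_ag.Q

open Finset
open Pool.Agent.Work.MP_1233f5_ag.V (vm vw Mo tyv dd rCh rcyc rVan rNo ML theta)
open Pool.Agent.Work.MP_1233f5_ag.Y

namespace IFrz4

section
variable {α : Type} [DecidableEq α]

theorem cns_zero {β : Type} (m : β) (n : ℕ → β) : cns m n 0 = m := rfl

theorem cns_succ {β : Type} (m : β) (n : ℕ → β) (i : ℕ) : cns m n (i + 1) = n i := by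
  show (if i + 1 = 0 then m else n (i + 1 - 1)) = n i
  rw [if_neg (Nat.succ_ne_zero i), Nat.add_sub_cancel]

theorem skp_zero_cns {β : Type} (m : β) (n : ℕ → β) : skp 0 (cns m n) = n := by
  funext i
  show (if i < 0 then cns m n i else cns m n (i + 1)) = n i
  rw [if_neg (Nat.not_lt_zero i), cns_succ]

theorem skp_succ_cns {β : Type} (k : ℕ) (m : β) (n : ℕ → β) :
    skp (k + 1) (cns m n) = cns m (skp k n) := by
  funext i
  rcases i with _ | i
  · show (if 0 < k + 1 then cns m n 0 else cns m n (0 + 1)) = m
    rw [if_pos (Nat.succ_pos k)]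
    rfl
  · rw [cns_succ]
    show (if i + 1 < k + 1 then cns m n (i + 1) else cns m n (i + 1 + 1)) =
      (if i < k then n i else n (i + 1))
    rw [cns_succ, cns_succ]
    by_cases h : i < k
    · rw [if_pos h, if_pos (by omega)]
    · rw [if_neg h, if_neg (by omega)]

theorem mem_rs {P : Finset α} {j : ℕ} {n : ℕ → Finset α} {a : α} :
    a ∈ rs P j n ↔ a ∈ P ∧ ∀ i < j, a ∉ n i := by
  unfold rs
  rw [Finset.mem_sdiff, Finset.mem_biUnion]
  constructor
  · rintro ⟨h1, h2⟩
    exact ⟨h1, fun i hi ha => h2 ⟨i, Finset.mem_range.2 hi, ha⟩⟩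
  · rintro ⟨h1, h2⟩
    refine ⟨h1, ?_⟩
    rintro ⟨i, hi, ha⟩
    exact h2 i (Finset.mem_range.1 hi) ha

theorem mem_tt {τ : ℕ} {T : ℕ → Finset α} {a : α} : a ∈ tt τ T ↔ ∃ i < τ, a ∈ T i := by
  unfold tt
  rw [Finset.mem_biUnion]
  constructor
  · rintro ⟨i, hi, ha⟩
    exact ⟨i, Finset.mem_range.1 hi, ha⟩
  · rintro ⟨i, hi, ha⟩
    exact ⟨i, Finset.mem_range.2 hi, ha⟩

theorem mem_tt_update {τ : ℕ} {T : ℕ → Finset α} {Y : Finset α} {a : α} :
    a ∈ tt (τ + 1) (Function.update T τ Y) ↔ a ∈ tt τ T ∨ a ∈ Y := by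
  rw [mem_tt, mem_tt]
  constructor
  · rintro ⟨i, hi, ha⟩
    by_cases h : i = τ
    · subst h
      rw [Function.update_self] at ha
      exact Or.inr ha
    · rw [Function.update_of_ne h] at ha
      exact Or.inl ⟨i, by omega, ha⟩
  · rintro (⟨i, hi, ha⟩ | ha)
    · refine ⟨i, by omega, ?_⟩
      rw [Function.update_of_ne (by omega)]
      exact ha
    · refine ⟨τ, by omega, ?_⟩
      rw [Function.update_self]
      exact ha

theorem supm {P P' : Finset α} (h : P ⊆ P') {σ : Equiv.Perm α} (h1 : Sup P σ) :
    Sup P' σ := fun a ha => h1 a (fun hc => ha (h hc))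

/-- the data of the item. -/
structure Dt (r : ℕ) (P : Finset α) (l : α) (Y g : Finset α) : Prop where
  lP : l ∈ P
  YP : Y ⊆ P
  gP : g ⊆ P
  lY : l ∉ Y
  lg : l ∉ g
  dis : Disjoint Y g
  cY : Y.card = 3
  cg : g.card + 1 = r

variable {r : ℕ} {P : Finset α} {l : α} {Y g : Finset α}

theorem mem_P' {a : α} : a ∈ P \ (insert l Y ∪ g) ↔ a ∈ P ∧ a ≠ l ∧ a ∉ Y ∧ a ∉ g := by
  rw [Finset.mem_sdiff, Finset.mem_union, Finset.mem_insert]
  tauto

theorem nv_cns (hD : Dt r P l Y g) {j : ℕ} {m : ℕ → Finset α}
    (hm : NV r (P \ (insert l Y ∪ g)) j m) : NV r P (j + 1) (cns (insert l g) m) := by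
  have hd : ∀ k < j, Disjoint (insert l g) (m k) := by
    intro k hk
    rw [Finset.disjoint_left]
    intro a ha ham
    have h1 := mem_P'.1 (hm.sub k hk ham)
    rw [Finset.mem_insert] at ha
    rcases ha with h | h
    · exact h1.2.1 h
    · exact h1.2.2.2 h
  refine ⟨?_, ?_, ?_⟩
  · intro i hi
    rcases i with _ | i
    · rw [cns_zero, Finset.card_insert_of_notMem hD.lg, hD.cg]
    · rw [cns_succ]
      exact hm.card i (by omega)
  · intro i hi
    rcases i with _ | i
    · rw [cns_zero]
      exact Finset.insert_subset hD.lP hD.gP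
    · rw [cns_succ]
      exact (hm.sub i (by omega)).trans Finset.sdiff_subset
  · intro i hi k hk hik
    rcases i with _ | i
    · rcases k with _ | k
      · exact absurd rfl hik
      · rw [cns_zero, cns_succ]
        exact hd k (by omega)
    · rcases k with _ | k
      · rw [cns_zero, cns_succ]
        exact (hd i (by omega)).symm
      · rw [cns_succ, cns_succ]
        exact hm.dis i (by omega) k (by omega) (by omega)

theorem set_eq (hD : Dt r P l Y g) {j τ : ℕ} {m : ℕ → Finset α} {T : ℕ → Finset α}
    (hm : NV r (P \ (insert l Y ∪ g)) j m) :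
    rs P (j + 1) (cns (insert l g) m) ∪ tt τ T =
      rs (P \ (insert l Y ∪ g)) j m ∪ tt (τ + 1) (Function.update T τ Y) := by
  ext a
  rw [Finset.mem_union, Finset.mem_union, mem_rs, mem_rs, mem_tt_update, mem_P']
  constructor
  · rintro (⟨h1, h2⟩ | h)
    · by_cases hY : a ∈ Y
      · exact Or.inr (Or.inr hY)
      · left
        have h3 := h2 0 (Nat.succ_pos j)
        rw [cns_zero, Finset.mem_insert, not_or] at h3
        refine ⟨⟨h1, h3.1, hY, h3.2⟩, fun i hi => ?_⟩
        have h4 := h2 (i + 1) (by omega)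
        rwa [cns_succ] at h4
    · exact Or.inr (Or.inl h)
  · rintro (⟨⟨h1, h2, h3, h4⟩, h5⟩ | h | h)
    · left
      refine ⟨h1, fun i hi => ?_⟩
      rcases i with _ | i
      · rw [cns_zero, Finset.mem_insert, not_or]
        exact ⟨h2, h4⟩
      · rw [cns_succ]
        exact h5 i (by omega)
    · exact Or.inr h
    · left
      refine ⟨hD.YP h, fun i hi => ?_⟩
      rcases i with _ | i
      · rw [cns_zero, Finset.mem_insert, not_or]
        refine ⟨?_, Finset.disjoint_left.1 hD.dis h⟩
        rintro rfl
        exact hD.lY h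
      · rw [cns_succ]
        intro h6
        exact (mem_P'.1 (hm.sub i (by omega) h6)).2.2.1 h

theorem card_Q (hD : Dt r P l Y g) : (insert l Y).card = 4 := by
  rw [Finset.card_insert_of_notMem hD.lY, hD.cY]

theorem card_P' (hD : Dt r P l Y g) : (P \ (insert l Y ∪ g)).card + (r + 3) = P.card := by
  have hsub : insert l Y ∪ g ⊆ P :=
    Finset.union_subset (Finset.insert_subset hD.lP hD.YP) hD.gP
  have hd : Disjoint (insert l Y) g := by
    rw [Finset.disjoint_insert_left]
    exact ⟨hD.lg, hD.dis⟩
  have h1 : (insert l Y ∪ g).card = 4 + g.card := by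
    rw [Finset.card_union_of_disjoint hd, card_Q hD]
  have h2 := Finset.card_sdiff_add_card_eq_card hsub
  have h3 := hD.cg
  omega

theorem card_rs {j : ℕ} {n : ℕ → Finset α} (hn : NV r P j n) :
    (rs P j n).card + j * r = P.card := by
  have h1 : ((range j).biUnion n).card = j * r := by
    rw [Finset.card_biUnion]
    · rw [Finset.sum_congr rfl (fun i hi => hn.card i (Finset.mem_range.1 hi)), Finset.sum_const,
        Finset.card_range, smul_eq_mul]
    · intro i hi k hk hik
      exact hn.dis i (Finset.mem_range.1 hi) k (Finset.mem_range.1 hk) hik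
  have h2 : (range j).biUnion n ⊆ P := by
    rw [Finset.biUnion_subset]
    intro i hi
    exact hn.sub i (Finset.mem_range.1 hi)
  have h3 := Finset.card_sdiff_add_card_eq_card h2
  unfold rs
  omega

theorem card_tt {τ : ℕ} {T : ℕ → Finset α} (hT : TV τ P T) : (tt τ T).card = 3 * τ := by
  unfold tt
  rw [Finset.card_biUnion]
  · rw [Finset.sum_congr rfl (fun i hi => hT.card i (Finset.mem_range.1 hi)), Finset.sum_const,
      Finset.card_range, smul_eq_mul, mul_comm]
  · intro i hi k hk hik
    exact hT.dis i (Finset.mem_range.1 hi) k (Finset.mem_range.1 hk) hik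

theorem disj_rs_tt {j τ : ℕ} {n : ℕ → Finset α} {T : ℕ → Finset α} (hT : TV τ P T) :
    Disjoint (rs P j n) (tt τ T) := by
  rw [Finset.disjoint_left]
  intro a ha hat
  obtain ⟨i, hi, hai⟩ := mem_tt.1 hat
  exact Finset.disjoint_left.1 (hT.out i hi) hai (mem_rs.1 ha).1

/-- a permutation fixing the points of `X` fixes `X`. -/
theorem im_fix {σ : Equiv.Perm α} {X P' : Finset α} (h : Sup P' σ) (hd : ∀ a ∈ X, a ∉ P') :
    im σ X = X := im_eq_self (fun a ha => h a (hd a ha))

end

section
variable {K : Type} [Field K] {α : Type} [Fintype α] [DecidableEq α] {H : Type}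
    [AddCommGroup H] [Module K H]

/-- the functional only depends on the first sets. -/
theorem ga_congr {ρ : Equiv.Perm α →* Module.End K H} {r j τ : ℕ} {P : Finset α}
    {T : ℕ → Finset α} {G : (ℕ → Finset α) → (Lx K α →ₗ[K] H)} (hG : GA ρ r j τ P T G)
    {n n' : ℕ → Finset α} (h : ∀ i < j, n' i = n i) : G n' = G n :=
  hG.sym 1 n n' (fun i => h i i.2)

end

end IFrz4

open IFrz4 in
theorem pr_Frz4 (hA : S_Asym) (hR : S_R4) : S_Frz4 := by
  intro K _ _ α _ _ H _ _ ρ r j τ P T G l Y g hr hG hlP hYP hgP hlY hlg hdis hcY hcg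
  have hD : Dt r P l Y g := ⟨hlP, hYP, hgP, hlY, hlg, hdis, hcY, hcg⟩
  have hQP : insert l Y ⊆ P := Finset.insert_subset hlP hYP
  obtain ⟨hA1, -, -, hA4, -, -, -⟩ := hA K α H ρ (insert l Y)
  have hsupP : ∀ σ : Equiv.Perm α, Sup (P \ (insert l Y ∪ g)) σ → Sup P σ :=
    fun σ hσ => supm Finset.sdiff_subset hσ
  refine ⟨⟨?_, ?_, ?_⟩, ?_, ?_, ?_, ?_, ?_, ?_⟩
  · -- card
    intro i hi
    by_cases h : i = τ
    · subst h
      rw [Function.update_self]
      exact hcY
    · rw [Function.update_of_ne h]
      exact hG.tv.card i (by omega)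
  · -- dis
    have hTY : ∀ i < τ, Disjoint (T i) Y := fun i hi => (hG.tv.out i hi).mono_right hYP
    intro i hi k hk hik
    by_cases h : i = τ
    · subst h
      rw [Function.update_self, Function.update_of_ne (Ne.symm hik)]
      exact (hTY k (by omega)).symm
    · rw [Function.update_of_ne h]
      by_cases h' : k = τ
      · subst h'
        rw [Function.update_self]
        exact hTY i (by omega)
      · rw [Function.update_of_ne h']
        exact hG.tv.dis i (by omega) k (by omega) hik
  · -- out
    intro i hi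
    by_cases h : i = τ
    · subst h
      rw [Function.update_self, Finset.disjoint_left]
      intro a ha ha'
      exact (mem_P'.1 ha').2.2.1 ha
    · rw [Function.update_of_ne h]
      exact (hG.tv.out i (by omega)).mono_right Finset.sdiff_subset
  · -- card
    have h1 := card_P' hD
    have h2 := hG.card
    rw [add_one_mul] at h2
    omega
  · -- sym
    intro σ n n' hnn
    have h1 : G (cns (insert l g) n') = G (cns (insert l g) n) := by
      refine hG.sym (Equiv.Perm.decomposeFin.symm (0, σ)) _ _ (fun i => ?_)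
      refine Fin.cases ?_ (fun k => ?_) i
      · rw [Equiv.Perm.decomposeFin_symm_apply_zero]
        rfl
      · rw [Equiv.Perm.decomposeFin_symm_apply_succ, Equiv.swap_self, Equiv.refl_apply,
          Fin.val_succ, Fin.val_succ, cns_succ, cns_succ]
        exact hnn k
    show (asym ρ (insert l Y)).comp (G (cns (insert l g) n')) = _
    rw [h1]
  · -- eqv
    intro σ hσ m hm y hy
    rw [← set_eq hD hm] at hy
    have h1 := hG.eqv σ (hsupP σ hσ) _ (nv_cns hD hm) y hy
    have h2 : (fun i => im σ (cns (insert l g) m i)) =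
        cns (insert l g) (fun i => im σ (m i)) := by
      funext i
      rcases i with _ | i
      · rw [cns_zero, cns_zero]
        refine im_fix hσ (fun a ha ha' => ?_)
        have h3 := mem_P'.1 ha'
        rw [Finset.mem_insert] at ha
        rcases ha with h | h
        · exact h3.2.1 h
        · exact h3.2.2.2 h
      · rw [cns_succ, cns_succ]
    rw [h2] at h1
    show asym ρ (insert l Y) (G (cns (insert l g) (fun i => im σ (m i))) (act K α σ y)) =
      ρ σ (asym ρ (insert l Y) (G (cns (insert l g) m) y))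
    rw [h1, hA4]
    have h3 : im σ (insert l Y) = insert l Y := by
      refine im_fix hσ (fun a ha ha' => ?_)
      have h4 := mem_P'.1 ha'
      rw [Finset.mem_insert] at ha
      rcases ha with h | h
      · exact h4.2.1 h
      · exact h4.2.2.1 h
    rw [h3]
  · -- bd
    intro m hm y hy
    rw [← set_eq hD hm] at hy
    show asym ρ (insert l Y) (G (cns (insert l g) m) y) = 0
    rw [hG.bd _ (nv_cns hD hm) y hy, map_zero]
  · -- ant
    intro i hi σ hσ m hm y hy
    rw [← set_eq hD hm] at hy
    show asym ρ (insert l Y) (G (cns (insert l g) m) (act K α σ y)) =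
      ((Equiv.Perm.sign σ : ℤ) : K) • asym ρ (insert l Y) (G (cns (insert l g) m) y)
    by_cases h : i = τ
    · subst h
      rw [Function.update_self] at hσ
      have h1 := hG.eqv σ (supm hYP hσ) _ (nv_cns hD hm) y hy
      have h2 : G (fun i => im σ (cns (insert l g) m i)) = G (cns (insert l g) m) := by
        refine ga_congr hG (fun i hi => ?_)
        rcases i with _ | i
        · rw [cns_zero]
          refine im_fix hσ (fun a ha ha' => ?_)
          rw [Finset.mem_insert] at ha
          rcases ha with h | h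
          · subst h
            exact hlY ha'
          · exact Finset.disjoint_left.1 hdis ha' h
        · rw [cns_succ]
          refine im_fix hσ (fun a ha ha' => ?_)
          exact (mem_P'.1 (hm.sub i (by omega) ha)).2.2.1 ha'
      rw [h2] at h1
      rw [h1]
      exact (hA1 σ (supm (Finset.subset_insert l Y) hσ) _).1
    · rw [Function.update_of_ne h] at hσ
      rw [hG.ant i (by omega) σ hσ _ (nv_cns hD hm) y hy, map_smul]
  · -- exch
    intro m hm y hy
    rw [← set_eq hD hm] at hy
    have hmP : NV r P (j + 1) m :=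
      ⟨hm.card, fun i hi => (hm.sub i hi).trans Finset.sdiff_subset, hm.dis⟩
    have hsub : rs P (j + 1 + 1) (cns (insert l g) m) ∪ tt τ T ⊆ rs P (j + 1) m ∪ tt τ T := by
      refine Finset.union_subset_union_left (fun a ha => ?_)
      rw [mem_rs] at ha ⊢
      refine ⟨ha.1, fun i hi => ?_⟩
      have h1 := ha.2 (i + 1) (by omega)
      rwa [cns_succ] at h1
    have hy' : y ∈ Cy K (r + 1) (rs P (j + 1) m ∪ tt τ T) (2 * r + 1) := Cy_mono hsub hy
    -- the term with `m`
    have hzero : asym ρ (insert l Y) (G m y) = 0 := by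
      have h1 : ∀ σ : Equiv.Perm α, Sup (insert l Y) σ → ρ σ (G m y) = G m (act K α σ y) := by
        intro σ hσ
        have h2 := hG.eqv σ (supm hQP hσ) m hmP y hy'
        have h3 : G (fun i => im σ (m i)) = G m := by
          refine ga_congr hG (fun i hi => ?_)
          refine im_fix hσ (fun a ha ha' => ?_)
          have h4 := mem_P'.1 (hm.sub i hi ha)
          rw [Finset.mem_insert] at ha'
          rcases ha' with h | h
          · exact h4.2.1 h
          · exact h4.2.2.1 h
        rw [h3] at h2
        exact h2.symm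
      have h5 : asym ρ (insert l Y) (G m y) = G m (asym (act K α) (insert l Y) y) := by
        unfold asym
        rw [LinearMap.sum_apply, LinearMap.sum_apply, map_sum]
        refine Finset.sum_congr rfl (fun σ hσ => ?_)
        have hσ' : Sup (insert l Y) σ := by
          classical
          exact (Finset.mem_filter.1 hσ).2
        rw [LinearMap.smul_apply, LinearMap.smul_apply, h1 σ hσ', map_smul]
      rw [h5]
      refine hG.bd m hmP _ ?_
      refine hR K α r _ (insert l Y) hr ?_ ?_ (card_Q hD) y hy'
      · rw [Finset.card_union_of_disjoint (disj_rs_tt hG.tv), card_tt hG.tv]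
        have h6 := card_rs hmP
        have h7 := hG.card
        omega
      · intro a ha
        rw [Finset.mem_union, mem_rs]
        left
        refine ⟨hQP ha, fun i hi hai => ?_⟩
        have h4 := mem_P'.1 (hm.sub i hi hai)
        rw [Finset.mem_insert] at ha
        rcases ha with h | h
        · exact h4.2.1 h
        · exact h4.2.2.1 h
    have h8 := hG.exch _ (nv_cns hD hm) y hy
    rw [Finset.sum_range_succ', skp_zero_cns] at h8
    have h9 : ∑ k ∈ range (j + 1), G (cns (insert l g) (skp k m)) y = -G m y := by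
      rw [eq_neg_iff_add_eq_zero, ← h8]
      congr 1
      refine Finset.sum_congr rfl (fun k _ => ?_)
      rw [skp_succ_cns]
    show ∑ k ∈ range (j + 1), asym ρ (insert l Y) (G (cns (insert l g) (skp k m)) y) = 0
    rw [← map_sum, h9, map_neg, hzero, neg_zero]

end Pool.Agent.Work.MP_1233f5_ag.Q
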