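import Pool.Agent.Work.MP_1233f5_ag.Q.Stmts

/-! MP_1233f5_ag, block Q, item InjT. -/

set_option autoImplicit false

namespace Pool.Agent.Work.MP_1233f5_ag.Q

open Finset
open Pool.Agent.Work.MP_1233f5_ag.V (vm vw Mo tyv dd rCh rcyc rVan rNo ML theta)
open Pool.Agent.Work.MP_1233f5_ag.Y

namespace IInjT

section comm
variable {α : Type}

theorem comm_of_disj {P Q : Finset α} (h : Disjoint P Q) {σ τ : Equiv.Perm α} (hσ : Sup P σ)
    (hτ : Sup Q τ) : σ * τ = τ * σ := by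
  ext a
  rw [Equiv.Perm.mul_apply, Equiv.Perm.mul_apply]
  by_cases ha : a ∈ P
  · have haQ : a ∉ Q := fun h1 => (Finset.disjoint_left.1 h ha h1)
    have hb : σ a ∈ P := U.sup_mem hσ ha
    have hbQ : σ a ∉ Q := fun h1 => (Finset.disjoint_left.1 h hb h1)
    rw [hτ a haQ, hτ _ hbQ]
  · by_cases haQ : a ∈ Q
    · have hb : τ a ∈ Q := U.sup_mem hτ haQ
      have hbP : τ a ∉ P := fun h1 => (Finset.disjoint_left.1 h h1 hb)
      rw [hσ a ha, hσ _ hbP]
    · rw [hτ a haQ, hσ a ha, hτ a haQ]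

variable {K : Type} [Field K] [Fintype α] {H : Type} [AddCommGroup H] [Module K H]

theorem symC_comm (ρ : Equiv.Perm α →* Module.End K H) {P Q : Finset α} (π : α → Fin 3)
    (h : Disjoint P Q) {σ : Equiv.Perm α} (hσ : Sup Q σ) (z : H) :
    ρ σ (symC ρ P π z) = symC ρ P π (ρ σ z) := by
  classical
  rw [symC, LinearMap.sum_apply, LinearMap.sum_apply, map_sum]
  refine Finset.sum_congr rfl fun τ hτ => ?_
  have hτ' : Sup P τ := (mem_filter.1 hτ).2.1
  have h1 : σ * τ = τ * σ := (comm_of_disj h hτ' hσ).symm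
  rw [← Module.End.mul_apply, ← Module.End.mul_apply, ← map_mul, ← map_mul, h1]

end comm

/-- the set `R` with the triples `T i`, `j ≤ i < τ`. -/
def Pj {α : Type} [DecidableEq α] (τ : ℕ) (R : Finset α) (T : ℕ → Finset α) (j : ℕ) : Finset α :=
  R ∪ (Finset.Ico j τ).biUnion T

theorem Pj_zero {α : Type} [DecidableEq α] (τ : ℕ) (R : Finset α) (T : ℕ → Finset α) :
    Pj τ R T 0 = R ∪ tt τ T := by
  rw [Pj, tt, Finset.range_eq_Ico]

theorem Pj_self {α : Type} [DecidableEq α] (τ : ℕ) (R : Finset α) (T : ℕ → Finset α) :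
    Pj τ R T τ = R := by
  rw [Pj, Finset.Ico_self, Finset.biUnion_empty, Finset.union_empty]

theorem Pj_succ {α : Type} [DecidableEq α] {τ : ℕ} {R : Finset α} {T : ℕ → Finset α} {j : ℕ}
    (hj : j < τ) : Pj τ R T j = Pj τ R T (j + 1) ∪ T j := by
  ext a
  simp only [Pj, Finset.mem_union, Finset.mem_biUnion, Finset.mem_Ico]
  constructor
  · rintro (h | ⟨i, ⟨h1, h2⟩, h3⟩)
    · exact Or.inl (Or.inl h)
    · rcases Nat.eq_or_lt_of_le h1 with h4 | h4
      · exact Or.inr (h4 ▸ h3)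
      · exact Or.inl (Or.inr ⟨i, ⟨h4, h2⟩, h3⟩)
  · rintro ((h | ⟨i, ⟨h1, h2⟩, h3⟩) | h)
    · exact Or.inl h
    · exact Or.inr ⟨i, ⟨by omega, h2⟩, h3⟩
    · exact Or.inr ⟨j, ⟨le_rfl, hj⟩, h⟩

theorem Pj_disj {α : Type} [DecidableEq α] {τ : ℕ} {R : Finset α} {T : ℕ → Finset α} {j : ℕ}
    (hT : TV τ R T) (hj : j < τ) : Disjoint (Pj τ R T (j + 1)) (T j) := by
  rw [Pj, Finset.disjoint_union_left, Finset.disjoint_biUnion_left]
  refine ⟨(hT.out j hj).symm, fun i hi => ?_⟩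
  rw [Finset.mem_Ico] at hi
  exact hT.dis i hi.2 j hj (by omega)

theorem Pj_sub {α : Type} [DecidableEq α] (τ : ℕ) (R : Finset α) (T : ℕ → Finset α) (j : ℕ) :
    Pj τ R T j ⊆ R ∪ tt τ T := by
  rw [← Pj_zero, Pj, Pj]
  refine Finset.union_subset_union_right (Finset.biUnion_subset_biUnion_of_subset_left _ ?_)
  exact Finset.Ico_subset_Ico_left (Nat.zero_le j)

end IInjT

open IInjT in
theorem pr_InjT (hInj : S_Inj) (hR4 : S_R4) (hS : S_SymC) : S_InjT := by
  intro K _ _ α _ _ r τ R T π hr hT hcard hinj y hy hant hinv hsym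
  have hcY : (R ∪ tt τ T).card = (2 * r + 1) * (r + 2) := by
    rw [Finset.card_union_of_disjoint, tt, Finset.card_biUnion]
    · rw [Finset.sum_congr rfl (fun i hi => hT.card i (Finset.mem_range.1 hi)), Finset.sum_const,
        Finset.card_range, smul_eq_mul]
      omega
    · intro i hi k hk hik
      exact hT.dis i (Finset.mem_range.1 hi) k (Finset.mem_range.1 hk) hik
    · rw [tt, Finset.disjoint_biUnion_right]
      intro i hi
      exact (hT.out i (Finset.mem_range.1 hi)).symm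
  have hCy : ∀ (P : Finset α), P ⊆ R ∪ tt τ T → ∀ σ : Equiv.Perm α, Sup P σ →
      ∀ z ∈ Cy K (r + 1) (R ∪ tt τ T) (2 * r + 1),
        act K α σ z ∈ Cy K (r + 1) (R ∪ tt τ T) (2 * r + 1) :=
    fun P hP σ hσ z hz => act_Cy_sup hσ hP hz
  have hBd : ∀ (P : Finset α), P ⊆ R ∪ tt τ T → ∀ σ : Equiv.Perm α, Sup P σ →
      ∀ z ∈ Bd K (r + 1) (R ∪ tt τ T) (2 * r + 1),
        act K α σ z ∈ Bd K (r + 1) (R ∪ tt τ T) (2 * r + 1) :=
    fun P hP σ hσ z hz => act_Bd_sup hσ hP hz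
  have key : ∀ j, j ≤ τ → symC (act K α) (Pj τ R T j) π y ∈
      Bd K (r + 1) (R ∪ tt τ T) (2 * r + 1) := by
    intro j
    induction j with
    | zero =>
      intro _
      rw [Pj_zero]
      exact hsym
    | succ j ih =>
      intro hj
      have hj' : j < τ := hj
      have ih' := ih hj'.le
      have hsub : Pj τ R T j ⊆ R ∪ tt τ T := Pj_sub τ R T j
      have hsub1 : Pj τ R T (j + 1) ⊆ R ∪ tt τ T := Pj_sub τ R T (j + 1)
      have hss : Pj τ R T (j + 1) ⊆ Pj τ R T j := by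
        rw [Pj_succ hj']
        exact Finset.subset_union_left
      have hTs : T j ⊆ Pj τ R T j := by
        rw [Pj_succ hj']
        exact Finset.subset_union_right
      have hsd : Pj τ R T j \ T j = Pj τ R T (j + 1) := by
        rw [Pj_succ hj', Finset.union_sdiff_right]
        exact Finset.sdiff_eq_self_of_disjoint (Pj_disj hT hj')
      have hwCy : symC (act K α) (Pj τ R T (j + 1)) π y ∈
          Cy K (r + 1) (R ∪ tt τ T) (2 * r + 1) :=
        (hS K α (Lx K α) (act K α) (Pj τ R T (j + 1)) π).2.2.2.2.2.2 _ (hCy _ hsub1) y hy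
      refine hInj K α (Lx K α) (act K α) (Pj τ R T j) (T j) _ π _ (hBd _ hsub) hTs
        (hT.card j hj') (hinj j hj') ?_ ?_ ?_ ?_
      · intro σ hσ Q hQ hQc
        exact hR4 K α r (R ∪ tt τ T) Q hr hcY (hQ.trans hsub) hQc _ (hCy _ hsub σ hσ _ hwCy)
      · intro σ hσ
        rw [symC_comm (act K α) π (Pj_disj hT hj') hσ, hant j hj' σ hσ, map_smul]
      · rw [hsd]
        exact (hS K α (Lx K α) (act K α) (Pj τ R T (j + 1)) π).2.2.1 y
      · obtain ⟨N, _, hN⟩ := (hS K α (Lx K α) (act K α) (Pj τ R T j) π).2.2.2.2.1 _ hss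
        rw [hN y]
        exact Submodule.smul_mem _ _ ih'
  have h1 := key τ le_rfl
  rw [Pj_self] at h1
  obtain ⟨N, hN0, hN⟩ := (hS K α (Lx K α) (act K α) R π).2.1
  rw [hN y hinv] at h1
  have h2 := Submodule.smul_mem (Bd K (r + 1) (R ∪ tt τ T) (2 * r + 1)) N⁻¹ h1
  rwa [smul_smul, inv_mul_cancel₀ hN0, one_smul] at h2

end Pool.Agent.Work.MP_1233f5_ag.Q
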