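import Pool.Agent.Work.MP_1233f5_ag.Q.Stmts

/-! MP_1233f5_ag, block Q, item KAct: `kap` is invariant. -/

set_option autoImplicit false

namespace Pool.Agent.Work.MP_1233f5_ag.Q

open Finset
open Pool.Agent.Work.MP_1233f5_ag.V (vm vw Mo tyv dd rCh rcyc rVan rNo ML theta)
open Pool.Agent.Work.MP_1233f5_ag.Y

namespace IKAct

variable {K : Type} [Field K] {α : Type} [Fintype α] [DecidableEq α]

open Classical in
theorem kap_apply (π : α → Fin 3) (p : ℕ) (z : Lx K α) (s : Fin p → (Fin 3 → ℕ)) :
    kap π p z s = ∑ t ∈ univ.filter (fun t : Fin p → Finset α => ∀ i, tyv π (t i) = s i),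
      BrgX.co p t z := by
  unfold kap
  rw [LinearMap.pi_apply, LinearMap.sum_apply]

theorem im_inj (σ : Equiv.Perm α) : Function.Injective (im σ : Finset α → Finset α) :=
  Finset.map_injective _

omit [Fintype α] in
theorem im_im (σ : Equiv.Perm α) (e : Finset α) : im σ (im σ.symm e) = e := by
  ext a
  unfold im
  rw [Finset.mem_map_equiv, Finset.mem_map_equiv]
  simp

omit [Fintype α] in
theorem im_im' (σ : Equiv.Perm α) (e : Finset α) : im σ.symm (im σ e) = e := by
  ext a
  unfold im
  rw [Finset.mem_map_equiv, Finset.mem_map_equiv]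
  simp

theorem tyv_im (π : α → Fin 3) (σ : Equiv.Perm α) (h : ∀ a, π (σ a) = π a) (e : Finset α) :
    tyv π (im σ e) = tyv π e := by
  funext j
  unfold tyv im
  rw [Finset.filter_map, Finset.card_map]
  congr 1
  ext a
  simp [h]

theorem co_act (d p : ℕ) (P : Finset α) (σ : Equiv.Perm α) (z : Lx K α) (hz : z ∈ Mt K d P p)
    (t : Fin p → Finset α) :
    BrgX.co p (fun i => im σ (t i)) (act K α σ z) = BrgX.co p t z := by
  induction hz using Submodule.span_induction with
  | mem x hx =>
    obtain ⟨s, _, rfl⟩ := hx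
    rw [act_mo, BrgX.co_mo, BrgX.co_mo]
    refine Finset.sum_congr rfl (fun τ _ => ?_)
    have h : ((fun i => im σ (s i)) = (fun i => im σ (t i)) ∘ τ) ↔ s = t ∘ τ := by
      constructor
      · intro h
        funext i
        exact im_inj σ (congrFun h i)
      · intro h
        rw [h]
        rfl
    by_cases h1 : s = t ∘ τ
    · rw [if_pos h1, if_pos (h.2 h1)]
    · rw [if_neg h1, if_neg (fun h2 => h1 (h.1 h2))]
  | zero => rw [map_zero, map_zero, map_zero]
  | add x y _ _ hx hy => rw [map_add, map_add, map_add, hx, hy]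
  | smul c x _ hx => rw [map_smul, map_smul, map_smul, hx]

end IKAct

theorem pr_KAct : S_KAct := by
  intro K _ _ α _ _ d p P π σ hσ z hz
  classical
  funext s
  rw [IKAct.kap_apply, IKAct.kap_apply]
  refine Finset.sum_bij' (fun t _ => fun i => im σ.symm (t i)) (fun t _ => fun i => im σ (t i))
    ?_ ?_ ?_ ?_ ?_
  · intro t ht
    rw [Finset.mem_filter] at ht ⊢
    refine ⟨Finset.mem_univ _, fun i => ?_⟩
    rw [← ht.2 i, ← IKAct.tyv_im π σ hσ (im σ.symm (t i)), IKAct.im_im]
  · intro t ht
    rw [Finset.mem_filter] at ht ⊢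
    refine ⟨Finset.mem_univ _, fun i => ?_⟩
    rw [IKAct.tyv_im π σ hσ]
    exact ht.2 i
  · intro t _
    funext i
    exact IKAct.im_im σ (t i)
  · intro t _
    funext i
    exact IKAct.im_im' σ (t i)
  · intro t _
    have h := IKAct.co_act d p P σ z hz (fun i => im σ.symm (t i))
    have h2 : (fun i => im σ (im σ.symm (t i))) = t := funext fun i => IKAct.im_im σ (t i)
    rw [h2] at h
    exact h

end Pool.Agent.Work.MP_1233f5_ag.Q
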