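import Pool.Agent.Work.MP_1233f5_ag.Q.Stmts

/-! MP_1233f5_ag, block Q, item KCh: `kap` of a chain is a multigraded chain. -/

set_option autoImplicit false

namespace Pool.Agent.Work.MP_1233f5_ag.Q

open Finset
open Pool.Agent.Work.MP_1233f5_ag.V (vm vw Mo tyv dd rCh rcyc rVan rNo ML theta)
open Pool.Agent.Work.MP_1233f5_ag.Y

namespace IKCh

variable {K : Type} [Field K] {α : Type} [Fintype α] [DecidableEq α]

open Classical in
theorem kap_apply (π : α → Fin 3) (p : ℕ) (z : Lx K α) (s : Fin p → (Fin 3 → ℕ)) :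
    kap π p z s = ∑ t ∈ univ.filter (fun t : Fin p → Finset α => ∀ i, tyv π (t i) = s i),
      BrgX.co p t z := by
  unfold kap
  rw [LinearMap.pi_apply, LinearMap.sum_apply]

theorem alt (d p : ℕ) (P : Finset α) (π : α → Fin 3) (z : Lx K α) (hz : z ∈ Mt K d P p)
    (σ : Equiv.Perm (Fin p)) (s : Fin p → (Fin 3 → ℕ)) :
    kap π p z (s ∘ σ) = ((Equiv.Perm.sign σ : ℤ) : K) * kap π p z s := by
  classical
  rw [kap_apply, kap_apply, Finset.mul_sum]
  refine Finset.sum_bij' (fun t _ => t ∘ σ.symm) (fun t _ => t ∘ σ) ?_ ?_ ?_ ?_ ?_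
  · intro t ht
    rw [Finset.mem_filter] at ht ⊢
    refine ⟨Finset.mem_univ _, fun i => ?_⟩
    have h := ht.2 (σ.symm i)
    rw [Function.comp_apply, h, Function.comp_apply, Equiv.apply_symm_apply]
  · intro t ht
    rw [Finset.mem_filter] at ht ⊢
    refine ⟨Finset.mem_univ _, fun i => ?_⟩
    rw [Function.comp_apply, ht.2 (σ i), Function.comp_apply]
  · intro t _
    funext i
    simp
  · intro t _
    funext i
    simp
  · intro t _
    have h := BrgX.co_alt hz σ (t ∘ σ.symm)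
    have h2 : (t ∘ σ.symm) ∘ σ = t := by
      funext i
      simp
    rw [h2] at h
    exact h

theorem sum_tyv (π : α → Fin 3) (e : Finset α) : ∑ j, tyv π e j = e.card := by
  unfold tyv
  exact (Finset.card_eq_sum_card_fiberwise (fun x _ => Finset.mem_univ (π x))).symm

theorem le_tyv (d p : ℕ) (P : Finset α) (π : α → Fin 3) (t : Fin p → Finset α)
    (ht : vm d P p t) : ∑ i, tyv π (t i) ≤ tyv π P := by
  intro j
  rw [Finset.sum_apply]
  unfold tyv
  rw [← Finset.card_biUnion]
  · refine Finset.card_le_card (fun x hx => ?_)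
    rw [Finset.mem_biUnion] at hx
    obtain ⟨i, _, hi⟩ := hx
    rw [Finset.mem_filter] at hi ⊢
    exact ⟨(ht.1 i).2 hi.1, hi.2⟩
  · intro i _ k _ hik
    exact Finset.disjoint_filter_filter (ht.2 i k hik)

end IKCh

theorem pr_KCh : S_KCh := by
  intro K _ _ α _ _ d p P π z hz
  classical
  refine ⟨fun σ s => IKCh.alt d p P π z hz σ s, fun s hs => ?_⟩
  rw [IKCh.kap_apply] at hs
  obtain ⟨t, ht, hne⟩ := Finset.exists_ne_zero_of_sum_ne_zero hs
  rw [Finset.mem_filter] at ht
  have hvm : vm d P p t := by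
    by_contra h
    exact hne (BrgX.co_supp hz t h)
  have hs' : s = fun i => tyv π (t i) := funext fun i => (ht.2 i).symm
  rw [hs']
  refine ⟨fun i => ?_, ?_⟩
  · unfold Mo
    rw [Finset.mem_piAntidiag]
    refine ⟨?_, fun j _ => Finset.mem_univ j⟩
    rw [IKCh.sum_tyv]
    exact (hvm.1 i).1
  · exact IKCh.le_tyv d p P π t hvm

end Pool.Agent.Work.MP_1233f5_ag.Q
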