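import Pool.Agent.Work.MP_1233f5_ag.Q.Stmts

/-! MP_1233f5_ag, block Q: `kap` and the differentials. -/

set_option autoImplicit false
set_option linter.unusedSectionVars false

namespace Pool.Agent.Work.MP_1233f5_ag.Q

open Finset
open Pool.Agent.Work.MP_1233f5_ag.V (vm vw Mo tyv dd rCh rcyc rVan rNo ML theta)
open Pool.Agent.Work.MP_1233f5_ag.Y

namespace IKD

section
variable {K : Type} [Field K] {α : Type} [Fintype α] [DecidableEq α]

theorem kap_apply (π : α → Fin 3) (p : ℕ) (z : Lx K α) (s : Fin p → (Fin 3 → ℕ)) :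
    kap π p z s = ∑ t : Fin p → Finset α,
      if ∀ i, tyv π (t i) = s i then BrgX.co p t z else 0 := by
  classical
  unfold kap
  rw [LinearMap.pi_apply, LinearMap.sum_apply, sum_filter]

theorem sum_ty (π : α → Fin 3) (e : Finset α) : ∑ j, tyv π e j = e.card := by
  unfold tyv
  exact (card_eq_sum_card_fiberwise fun x _ => by simp).symm

end

end IKD

theorem pr_KD : S_KD := by
  intro K _ _ α _ _ d p P π z hz s
  classical
  rw [IKD.kap_apply]
  unfold dd
  have h1 : ∀ b : Fin 3 → ℕ, kap π (p + 1) z (Fin.cons b s : Fin (p + 1) → (Fin 3 → ℕ)) =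
      ∑ t : Fin p → Finset α, ∑ e : Finset α,
        if (∀ i, tyv π (t i) = s i) ∧ tyv π e = b then
          BrgX.co (p + 1) (Fin.cons e t : Fin (p + 1) → Finset α) z else 0 := by
    intro b
    rw [IKD.kap_apply, ← (Fin.consEquiv (fun _ : Fin (p + 1) => Finset α)).sum_comp,
      Fintype.sum_prod_type, sum_comm]
    refine sum_congr rfl fun t _ => sum_congr rfl fun e _ => ?_
    have h2 : (Fin.consEquiv (fun _ : Fin (p + 1) => Finset α)) (e, t) =
        (Fin.cons e t : Fin (p + 1) → Finset α) := rfl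
    rw [h2]
    have h3 : (∀ i : Fin (p + 1), tyv π ((Fin.cons e t : Fin (p + 1) → Finset α) i) =
        (Fin.cons b s : Fin (p + 1) → (Fin 3 → ℕ)) i) ↔
        ((∀ i, tyv π (t i) = s i) ∧ tyv π e = b) := by
      rw [Fin.forall_fin_succ]
      simp only [Fin.cons_zero, Fin.cons_succ]
      exact and_comm
    by_cases h4 : (∀ i, tyv π (t i) = s i) ∧ tyv π e = b
    · rw [if_pos h4, if_pos (h3.2 h4)]
    · rw [if_neg h4, if_neg fun h => h4 (h3.1 h)]
  rw [sum_congr rfl fun b _ => h1 b, sum_comm]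
  refine sum_congr rfl fun t _ => ?_
  rw [BrgX.co_Dx, sum_comm]
  by_cases ht : ∀ i, tyv π (t i) = s i
  · rw [if_pos ht]
    refine sum_congr rfl fun e _ => ?_
    by_cases he : tyv π e ∈ Mo 3 d
    · rw [sum_eq_single_of_mem (tyv π e) he]
      · rw [if_pos ⟨ht, rfl⟩]
      · intro b _ hb
        rw [if_neg]
        exact fun h => hb h.2.symm
    · have h5 : BrgX.co (p + 1) (Fin.cons e t : Fin (p + 1) → Finset α) z = 0 := by
        refine BrgX.co_supp hz _ fun hv => he ?_
        have h6 := (hv.1 0).1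
        rw [Fin.cons_zero] at h6
        unfold Mo
        rw [mem_piAntidiag]
        exact ⟨by rw [IKD.sum_ty, h6], fun i _ => mem_univ i⟩
      rw [h5]
      exact sum_eq_zero fun b _ => by simp
  · rw [if_neg ht]
    exact sum_eq_zero fun e _ => sum_eq_zero fun b _ => if_neg fun h => ht h.1

end Pool.Agent.Work.MP_1233f5_ag.Q
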