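import Pool.Agent.Work.MP_1233f5_ag.Q.Stmts

/-! MP_1233f5_ag, block Q, item KKer: the kernel of `kap`. -/

set_option autoImplicit false

namespace Pool.Agent.Work.MP_1233f5_ag.Q

open Finset
open Pool.Agent.Work.MP_1233f5_ag.V (vm vw Mo tyv dd rCh rcyc rVan rNo ML theta)
open Pool.Agent.Work.MP_1233f5_ag.Y

namespace IKKer

theorem kap_apply {K : Type} [Field K] {α : Type} [Fintype α] [DecidableEq α]
    (π : α → Fin 3) (p : ℕ) (z : Lx K α) (s : Fin p → (Fin 3 → ℕ)) (A : Finset (Fin p → Finset α))
    (hA : ∀ t, t ∈ A ↔ ∀ i, tyv π (t i) = s i) : kap π p z s = ∑ t ∈ A, BrgX.co p t z := by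
  unfold kap
  rw [LinearMap.pi_apply, LinearMap.sum_apply]
  refine Finset.sum_congr ?_ (fun _ _ => rfl)
  ext t
  rw [hA t, Finset.mem_filter]
  exact and_iff_right (Finset.mem_univ t)

end IKKer

theorem pr_KKer (h1 : S_KLift) (h2 : S_SymC) : S_KKer := by
  classical
  intro K _ _ α _ _ d p P π z hz hk
  have hsym : ∀ t t' : Fin p → Finset α, vm d P p t → vm d P p t' →
      (∀ i, tyv π (t i) = tyv π (t' i)) →
      symC (act K α) P π (mo t : Lx K α) = symC (act K α) P π (mo t' : Lx K α) := by
    intro t t' ht ht' hty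
    obtain ⟨σ, hσ, hπ, him⟩ := (h1 α d p P π).2 t t' ht ht' hty
    have e : (mo t' : Lx K α) = act K α σ (mo t) := by
      rw [act_mo]
      congr 1
      funext i
      exact (him i).symm
    rw [e]
    exact (((h2 K α (Lx K α) (act K α) P π).1 σ hσ hπ (mo t)).1).symm
  have key : ∑ t : Fin p → Finset α,
      symC (act K α) P π (BrgX.co p t z • (mo t : Lx K α)) = 0 := by
    rw [← Finset.sum_fiberwise_of_maps_to
      (t := univ.image (fun (t : Fin p → Finset α) (i : Fin p) => tyv π (t i)))
      (g := fun (t : Fin p → Finset α) (i : Fin p) => tyv π (t i))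
      (fun t _ => mem_image_of_mem _ (mem_univ t))]
    refine Finset.sum_eq_zero (fun s _ => ?_)
    by_cases hs : ∃ t0 : Fin p → Finset α, vm d P p t0 ∧ ∀ i, tyv π (t0 i) = s i
    · obtain ⟨t0, ht0, hs0⟩ := hs
      have e1 : ∀ t ∈ univ.filter (fun t : Fin p → Finset α => (fun i => tyv π (t i)) = s),
          symC (act K α) P π (BrgX.co p t z • (mo t : Lx K α)) =
            BrgX.co p t z • symC (act K α) P π (mo t0 : Lx K α) := by
        intro t ht
        have ht' : (fun i => tyv π (t i)) = s := (Finset.mem_filter.1 ht).2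
        rw [map_smul]
        by_cases hv : vm d P p t
        · rw [hsym t t0 hv ht0 (fun i => by rw [hs0 i]; exact congrFun ht' i)]
        · rw [BrgX.co_supp hz t hv, zero_smul, zero_smul]
      rw [Finset.sum_congr rfl e1, ← Finset.sum_smul,
        ← IKKer.kap_apply π p z s (univ.filter
          (fun t : Fin p → Finset α => (fun i => tyv π (t i)) = s)) (fun t => by
            rw [Finset.mem_filter]
            exact ⟨fun h i => congrFun h.2 i, fun h => ⟨Finset.mem_univ t, funext h⟩⟩),
        hk, Pi.zero_apply, zero_smul]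
    · refine Finset.sum_eq_zero (fun t ht => ?_)
      have ht' : (fun i => tyv π (t i)) = s := (Finset.mem_filter.1 ht).2
      have hv : ¬ vm d P p t := fun hv => hs ⟨t, hv, fun i => congrFun ht' i⟩
      rw [BrgX.co_supp hz t hv, zero_smul, map_zero]
  have hrep : symC (act K α) P π z = symC (act K α) P π (((p.factorial : K)⁻¹) •
      ∑ t : Fin p → Finset α, BrgX.co p t z • (mo t : Lx K α)) :=
    congrArg _ (BrgX.rep hz)
  rw [hrep, map_smul, map_sum, key, smul_zero]

end Pool.Agent.Work.MP_1233f5_ag.Q
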