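import Pool.Agent.Work.MP_1233f5_ag.Q.Stmts
import Pool.Agent.Work.MP_1233f5_ag.V.I_TransT

/-! MP_1233f5_ag, block Q, item KLift: tuples of types lift to matchings of `P`, and two lifts are
conjugate under the permutations moving only points of `P` and preserving the colours. -/

set_option autoImplicit false

namespace Pool.Agent.Work.MP_1233f5_ag.Q

open Finset
open Pool.Agent.Work.MP_1233f5_ag.V (vm vw Mo tyv dd rCh rcyc rVan rNo ML theta)
open Pool.Agent.Work.MP_1233f5_ag.Y

namespace IKLift

open Pool.Agent.Work.MP_1233f5_ag.V (LiftT_choose LiftT_sum LiftT_sum_tyv)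
open Pool.Agent.Work.MP_1233f5_ag.V.TransT (blk blk_eq)

theorem tyv_sdiff {α : Type} [DecidableEq α] {n : ℕ} (π : α → Fin n) {P U : Finset α}
    (hU : U ⊆ P) (j : Fin n) : tyv π U j + tyv π (P \ U) j = tyv π P j := by
  unfold tyv
  rw [← Finset.card_union_of_disjoint]
  · rw [← Finset.filter_union, Finset.union_sdiff_of_subset hU]
  · exact Finset.disjoint_filter_filter disjoint_sdiff

/-- tuples of types lift to matchings of `P`. -/
theorem lift {α : Type} [DecidableEq α] {n : ℕ} (d p : ℕ) (P : Finset α) (π : α → Fin n) :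
    ∀ s : Fin p → (Fin n → ℕ), vw d (tyv π P) p s →
      ∃ t : Fin p → Finset α, vm d P p t ∧ ∀ i, tyv π (t i) = s i := by
  induction p with
  | zero =>
    intro s hs
    exact ⟨fun _ => ∅, ⟨fun i => i.elim0, fun i => i.elim0⟩, fun i => i.elim0⟩
  | succ p ih =>
    intro s hs
    obtain ⟨hs1, hs2⟩ := hs
    have hsum : ∀ j, s 0 j + ∑ i : Fin p, s i.succ j ≤ tyv π P j := by
      intro j
      have := hs2 j
      rw [Finset.sum_apply, Fin.sum_univ_succ] at this
      exact this
    obtain ⟨t, ht, hts⟩ := ih (fun i => s i.succ) ⟨fun i => hs1 i.succ, by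
      intro j
      rw [Finset.sum_apply]
      exact (Nat.le_add_left _ _).trans (hsum j)⟩
    have hUP : univ.biUnion t ⊆ P := Finset.biUnion_subset.2 fun i _ => (ht.1 i).2
    obtain ⟨e, he, hev⟩ := LiftT_choose π (P \ univ.biUnion t) (s 0) (by
      intro j
      have h1 := tyv_sdiff π hUP j
      have h2 := LiftT_sum_tyv π t ht.2 j
      have h3 : ∑ i, tyv π (t i) j = ∑ i : Fin p, s i.succ j :=
        Finset.sum_congr rfl fun i _ => by rw [hts i]
      have := hsum j
      omega)
    have hec : e.card = d := by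
      rw [← LiftT_sum π e, hev]
      exact (Finset.mem_piAntidiag.1 (hs1 0)).1
    have hdis : ∀ i, Disjoint e (t i) := by
      intro i
      rw [Finset.disjoint_left]
      intro x hx hxi
      have h1 := (Finset.mem_sdiff.1 (he hx)).2
      exact h1 (Finset.mem_biUnion.2 ⟨i, Finset.mem_univ _, hxi⟩)
    refine ⟨Fin.cons e t, ⟨?_, ?_⟩, ?_⟩
    · intro i
      refine Fin.cases ?_ (fun i => ?_) i
      · rw [Fin.cons_zero]
        exact ⟨hec, he.trans sdiff_subset⟩
      · rw [Fin.cons_succ]
        exact ht.1 i
    · intro i j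
      refine Fin.cases ?_ (fun i => ?_) i
      · refine Fin.cases ?_ (fun j => ?_) j
        · intro h
          exact absurd rfl h
        · intro _
          rw [Fin.cons_zero, Fin.cons_succ]
          exact hdis j
      · refine Fin.cases ?_ (fun j => ?_) j
        · intro _
          rw [Fin.cons_zero, Fin.cons_succ]
          exact (hdis i).symm
        · intro h
          rw [Fin.cons_succ, Fin.cons_succ]
          exact ht.2 i j fun h' => h (by rw [h'])
    · intro i
      refine Fin.cases ?_ (fun i => ?_) i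
      · rw [Fin.cons_zero]
        exact hev
      · rw [Fin.cons_succ]
        exact hts i

theorem card_some {α : Type} [DecidableEq α] {n p d : ℕ} (π : α → Fin n) {P : Finset α}
    {t : Fin p → Finset α} (ht : vm d P p t) (j : Fin n) (i : Fin p) :
    ((P.filter fun a => π a = j).filter fun a => blk t a = some i).card = tyv π (t i) j := by
  unfold tyv
  congr 1
  ext a
  simp only [Finset.mem_filter, blk_eq ht.2]
  constructor
  · rintro ⟨⟨_, h1⟩, h2⟩
    exact ⟨h2, h1⟩
  · rintro ⟨h2, h1⟩
    exact ⟨⟨(ht.1 i).2 h2, h1⟩, h2⟩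

theorem card_total {α : Type} [DecidableEq α] {n p d : ℕ} (π : α → Fin n) {P : Finset α}
    {t : Fin p → Finset α} (ht : vm d P p t) (j : Fin n) :
    (P.filter fun a => π a = j).card =
      ((P.filter fun a => π a = j).filter fun a => blk t a = none).card +
        ∑ i, tyv π (t i) j := by
  rw [Finset.card_eq_sum_card_fiberwise (f := blk t) (t := univ) (fun _ _ => Finset.mem_univ _),
    Fintype.sum_option]
  congr 1
  exact Finset.sum_congr rfl fun i _ => card_some π ht j i

theorem card_eq {α : Type} [DecidableEq α] {n p d : ℕ} (π : α → Fin n) {P : Finset α}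
    {t t' : Fin p → Finset α} (ht : vm d P p t) (ht' : vm d P p t')
    (h : ∀ i, tyv π (t i) = tyv π (t' i)) (j : Fin n) (o : Option (Fin p)) :
    ((P.filter fun a => π a = j).filter fun a => blk t a = o).card =
      ((P.filter fun a => π a = j).filter fun a => blk t' a = o).card := by
  cases o with
  | some i => rw [card_some π ht, card_some π ht', h]
  | none =>
    have h1 := card_total π ht j
    have h2 := card_total π ht' j
    have h3 : ∑ i, tyv π (t i) j = ∑ i, tyv π (t' i) j :=
      Finset.sum_congr rfl fun i _ => by rw [h i]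
    omega

/-- the label of a point: colour and block inside `P`, the point itself outside. -/
noncomputable def lab {α : Type} [DecidableEq α] {n p : ℕ} (π : α → Fin n) (P : Finset α)
    (t : Fin p → Finset α) (a : α) : (Fin n × Option (Fin p)) ⊕ α :=
  if a ∈ P then Sum.inl (π a, blk t a) else Sum.inr a

theorem lab_inl {α : Type} [DecidableEq α] {n p : ℕ} (π : α → Fin n) (P : Finset α)
    (t : Fin p → Finset α) (a : α) (j : Fin n) (o : Option (Fin p)) :
    lab π P t a = Sum.inl (j, o) ↔ (a ∈ P ∧ π a = j) ∧ blk t a = o := by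
  unfold lab
  by_cases ha : a ∈ P
  · rw [if_pos ha]
    constructor
    · intro h
      have h1 := Sum.inl.inj h
      exact ⟨⟨ha, congrArg Prod.fst h1⟩, congrArg Prod.snd h1⟩
    · rintro ⟨⟨_, h1⟩, h2⟩
      rw [h1, h2]
  · rw [if_neg ha]
    constructor
    · intro h
      exact absurd h (by simp)
    · rintro ⟨⟨h1, _⟩, _⟩
      exact absurd h1 ha

theorem lab_inr {α : Type} [DecidableEq α] {n p : ℕ} (π : α → Fin n) (P : Finset α)
    (t : Fin p → Finset α) (a x : α) :
    lab π P t a = Sum.inr x ↔ a ∉ P ∧ a = x := by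
  unfold lab
  by_cases ha : a ∈ P
  · rw [if_pos ha]
    constructor
    · intro h
      exact absurd h (by simp)
    · rintro ⟨h1, _⟩
      exact absurd ha h1
  · rw [if_neg ha]
    constructor
    · intro h
      exact ⟨ha, Sum.inr.inj h⟩
    · rintro ⟨_, h1⟩
      rw [h1]

end IKLift

open IKLift Pool.Agent.Work.MP_1233f5_ag.V.TransT in
theorem pr_KLift : S_KLift := by
  classical
  intro α _ _ d p P π
  refine ⟨lift d p P π, ?_⟩
  intro t t' ht ht' h
  let f : α → (Fin 3 × Option (Fin p)) ⊕ α := lab π P t
  let f' : α → (Fin 3 × Option (Fin p)) ⊕ α := lab π P t'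
  have hcard : ∀ c, Fintype.card {a // f a = c} = Fintype.card {b // f' b = c} := by
    intro c
    rw [Fintype.card_subtype, Fintype.card_subtype]
    rcases c with ⟨j, o⟩ | x
    · have h1 := card_eq π ht ht' h j o
      have h2 : ∀ s : Fin p → Finset α, (univ.filter fun a => lab π P s a = Sum.inl (j, o)) =
          ((P.filter fun a => π a = j).filter fun a => blk s a = o) := by
        intro s
        ext a
        simp only [Finset.mem_filter, Finset.mem_univ, true_and]
        exact lab_inl π P s a j o
      show (univ.filter fun a => lab π P t a = Sum.inl (j, o)).card =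
        (univ.filter fun a => lab π P t' a = Sum.inl (j, o)).card
      rw [h2 t, h2 t']
      exact h1
    · have h2 : (univ.filter fun a => lab π P t a = Sum.inr x) =
          (univ.filter fun a => lab π P t' a = Sum.inr x) := by
        ext a
        simp only [Finset.mem_filter, Finset.mem_univ, true_and]
        rw [lab_inr, lab_inr]
      exact congrArg Finset.card h2
  let e : ∀ c, {a // f a = c} ≃ {b // f' b = c} := fun c => Fintype.equivOfCardEq (hcard c)
  let σ : Equiv.Perm α := Equiv.ofFiberEquiv e
  have hσ : ∀ a, f' (σ a) = f a := fun a => Equiv.ofFiberEquiv_map e a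
  have hout : ∀ a, a ∉ P → σ a = a := by
    intro a ha
    have h1 : f a = Sum.inr a := (lab_inr π P t a a).2 ⟨ha, rfl⟩
    have h2 := hσ a
    rw [h1] at h2
    exact ((lab_inr π P t' (σ a) a).1 h2).2
  have hin : ∀ a, a ∈ P → (σ a ∈ P ∧ π (σ a) = π a) ∧ blk t' (σ a) = blk t a := by
    intro a ha
    have h1 : f a = Sum.inl (π a, blk t a) := (lab_inl π P t a _ _).2 ⟨⟨ha, rfl⟩, rfl⟩
    have h2 := hσ a
    rw [h1] at h2
    exact (lab_inl π P t' (σ a) _ _).1 h2
  refine ⟨σ, hout, fun a => ?_, fun i => ?_⟩
  · by_cases ha : a ∈ P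
    · exact (hin a ha).1.2
    · rw [hout a ha]
  · ext b
    rw [mem_im, ← blk_eq ht.2, ← blk_eq ht'.2]
    have hinv : σ (σ⁻¹ b) = b := Equiv.apply_symm_apply σ b
    by_cases hb : σ⁻¹ b ∈ P
    · have h2 := (hin _ hb).2
      rw [hinv] at h2
      rw [h2]
    · have h3 := hout _ hb
      rw [hinv] at h3
      rw [← h3] at hb
      rw [blk_eq ht.2, blk_eq ht'.2]
      constructor
      · intro h4
        exact absurd ((ht.1 i).2 h4) (by rw [← h3]; exact hb)
      · intro h4
        exact absurd ((ht'.1 i).2 h4) hb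

end Pool.Agent.Work.MP_1233f5_ag.Q
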