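import Pool.Agent.Work.MP_1233f5_ag.Q.Stmts

/-! MP_1233f5_ag, block Q, item KM: types of cycles and boundaries. -/

set_option autoImplicit false
set_option linter.unusedSectionVars false

namespace Pool.Agent.Work.MP_1233f5_ag.Q

open Finset
open Pool.Agent.Work.MP_1233f5_ag.V (vm vw Mo tyv dd rCh rcyc rVan rNo ML theta)
open Pool.Agent.Work.MP_1233f5_ag.Y

namespace IKM

open Classical in
theorem symC_set {K : Type} [Field K] {α : Type} [Fintype α] (P : Finset α) (π : α → Fin 3)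
    {H : Type} [AddCommGroup H] [Module K H] (ρ : Equiv.Perm α →* Module.End K H) :
    ∃ S : Finset (Equiv.Perm α), S.Nonempty ∧ (∀ σ ∈ S, Sup P σ ∧ ∀ a, π (σ a) = π a) ∧
      ∀ z : H, symC ρ P π z = ∑ σ ∈ S, ρ σ z := by
  refine ⟨univ.filter (fun σ : Equiv.Perm α => Sup P σ ∧ ∀ a, π (σ a) = π a), ⟨1, ?_⟩, ?_, ?_⟩
  · simp only [mem_filter, mem_univ, true_and]
    exact ⟨U.sup_one P, fun _ => rfl⟩
  · intro σ hσ
    exact (mem_filter.1 hσ).2
  · intro z
    unfold symC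
    rw [LinearMap.sum_apply]

variable {K : Type} [Field K] {α : Type} [Fintype α] [DecidableEq α]

theorem symC_Dx (P : Finset α) (π : α → Fin 3) (z : Lx K α) :
    symC (act K α) P π (Dx z) = Dx (symC (act K α) P π z) := by
  obtain ⟨S, _, _, hS⟩ := symC_set P π (act K α)
  rw [hS, hS, map_sum]
  exact sum_congr rfl fun σ _ => act_Dx σ z

theorem act_Mt_sup {d p : ℕ} {P : Finset α} {σ : Equiv.Perm α} (h : Sup P σ) {x : Lx K α}
    (hx : x ∈ Mt K d P p) : act K α σ x ∈ Mt K d P p := by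
  have h1 := act_Mt σ hx
  rwa [U.sup_im h] at h1

theorem symC_Mt {d p : ℕ} {P : Finset α} (π : α → Fin 3) {x : Lx K α} (hx : x ∈ Mt K d P p) :
    symC (act K α) P π x ∈ Mt K d P p := by
  obtain ⟨S, _, hS2, hS⟩ := symC_set P π (act K α)
  rw [hS]
  exact Submodule.sum_mem _ fun σ hσ => act_Mt_sup (hS2 σ hσ).1 hx

theorem kap_symC [CharZero K] (hA : S_KAct) {d p : ℕ} (P : Finset α) (π : α → Fin 3) :
    ∃ N : K, N ≠ 0 ∧ ∀ z ∈ Mt K d P p, kap π p (symC (act K α) P π z) = N • kap π p z := by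
  obtain ⟨S, hS1, hS2, hS⟩ := symC_set P π (act K α)
  refine ⟨(S.card : K), Nat.cast_ne_zero.2 (card_pos.2 hS1).ne', fun z hz => ?_⟩
  rw [hS, map_sum, sum_congr rfl (fun σ hσ => hA K α d p P π σ (hS2 σ hσ).2 z hz), sum_const,
    Nat.cast_smul_eq_nsmul]

end IKM

open IKM

theorem pr_KM (hC : S_KCh) (hD : S_KD) (hA : S_KAct) (hK : S_KKer) (hS : S_KSurj)
    (hY : S_SymC) : S_KM := by
  intro K _ _ α _ _ d p P π
  have hkd : ∀ p, ∀ y ∈ Mt K d P (p + 1), ∀ s : Fin p → (Fin 3 → ℕ),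
      dd (Mo 3 d) (kap π (p + 1) y) s = kap π p (Dx y) s := fun p => hD K α d p P π
  have hkc : ∀ p, ∀ y ∈ Mt K d P p, rCh (vw d (tyv π P)) p (kap π p y) := fun p =>
    hC K α d p P π
  refine ⟨?_, ?_, ?_, ?_⟩
  · rintro z ⟨hz, hz0⟩
    have hz1 : Dx z = 0 := hz0
    refine ⟨hkc p z hz, ?_⟩
    rcases p with _ | p
    · trivial
    · intro t _
      rw [hkd p z hz t, hz1, map_zero]
      rfl
  · rintro z ⟨y, hy, rfl⟩
    exact ⟨kap π (p + 1) y, hkc (p + 1) y hy, fun t _ => hkd p y hy t,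
      fun t ht => (hkc p _ (Dx_mem hy)).2 t ht⟩
  · rintro z ⟨hz, _⟩ ⟨g, hg, hgz, hzs⟩
    obtain ⟨y, hy, rfl⟩ := hS K α d (p + 1) P π g hg
    have h0 : kap π p (z - Dx y) = 0 := by
      funext t
      rw [map_sub]
      show kap π p z t - kap π p (Dx y) t = 0
      by_cases ht : vw d (tyv π P) p t
      · rw [← hkd p y hy t, hgz t ht, sub_self]
      · have h1 : kap π p z t = 0 := by
          by_contra hc
          exact ht (hzs t hc)
        have h2 : kap π p (Dx y) t = 0 := by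
          by_contra hc
          exact ht ((hkc p _ (Dx_mem hy)).2 t hc)
        rw [h1, h2, sub_zero]
    have h1 := hK K α d p P π _ (Submodule.sub_mem _ hz (Dx_mem hy)) h0
    rw [map_sub, sub_eq_zero, symC_Dx] at h1
    rw [h1]
    exact ⟨_, symC_Mt π hy, rfl⟩
  · rintro c ⟨hc1, hc2⟩
    obtain ⟨m, hm, rfl⟩ := hS K α d p P π c hc1
    obtain ⟨N, hN, hN2⟩ := kap_symC (K := K) hA (d := d) (p := p) P π
    have hinv := (hY K α (Lx K α) (act K α) P π).2.2.1 m
    have hDx : Dx (symC (act K α) P π m) = 0 := by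
      rw [← symC_Dx]
      rcases p with _ | p
      · rw [Dx_zero_chain hm, map_zero]
      · apply hK K α d p P π _ (Dx_mem hm)
        funext t
        show kap π p (Dx m) t = 0
        by_cases ht : vw d (tyv π P) p t
        · rw [← hkd p m hm t]
          exact hc2 t ht
        · by_contra hcon
          exact ht ((hkc p _ (Dx_mem hm)).2 t hcon)
    refine ⟨N⁻¹ • symC (act K α) P π m, ⟨Submodule.smul_mem _ _ (symC_Mt π hm), ?_⟩, ?_, ?_⟩
    · show Dx (N⁻¹ • symC (act K α) P π m) = 0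
      rw [map_smul, hDx, smul_zero]
    · intro σ h1 h2
      rw [map_smul, hinv σ h1 h2]
    · rw [map_smul, hN2 m hm, smul_smul, inv_mul_cancel₀ hN, one_smul]

end Pool.Agent.Work.MP_1233f5_ag.Q
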