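import Pool.Agent.Work.MP_1233f5_ag.Q.Defs

/-! MP_1233f5_ag, block Q: statements of the items, part P (section (10) of note 4509: the plane
curve `x^r = y^(r-1) z`).  A monomial `x^a y^b z^c` on the curve is determined by its degree and
by `ex = a + r c` (put `x = t`, `y = 1`, `z = t^r`); its normal form has `a < r`. -/

set_option autoImplicit false

namespace Pool.Agent.Work.MP_1233f5_ag.Q

open Finset
open Pool.Agent.Work.MP_1233f5_ag.V (vm vw Mo tyv dd rCh rcyc rVan rNo Pred ML theta)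
open Pool.Agent.Work.MP_1233f5_ag.Y

/-- the exponent of a monomial on the curve. -/
def ex (r : ℕ) (s : Fin 3 → ℕ) : ℕ := s 0 + r * s 2

/-- tuples of monomials of degree `r + 1` (different from the powers `x_j ^ (r + 1)`, `j ∈ J`)
for which the complementary monomial on the curve (total degree `D`, total exponent `E`) exists;
its normal form `s` has `s j ≤ r` for `j ∈ J`. -/
def vC (r D E : ℕ) (J : Finset (Fin 3)) : Pred (Fin 3 → ℕ) := fun p t =>
  (∀ i, t i ∈ Mo 3 (r + 1)) ∧ (∀ j ∈ J, ∀ i, t i ≠ Pi.single j (r + 1)) ∧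
  ∃ s : Fin 3 → ℕ, s 0 < r ∧ (∀ j ∈ J, s j ≤ r) ∧ ∑ a, s a + p * (r + 1) = D ∧
    ex r s + ∑ i, ex r (t i) = E

/-- [PNf] normal forms.  (1) uniqueness; (2) multiplication: if `s` is the normal form of
`s' + b` then `s' j + b j ≤ s j` for `j = 1, 2` (`s 2 = s' 2 + b 2 + k`,
`s 1 = s' 1 + b 1 + (r - 1) k`, `k = (s' 0 + b 0) / r`); (3) existence: every `s'` has a normal
form. -/
def S_PNf : Prop :=
  ∀ r : ℕ, 1 ≤ r →
    (∀ s s' : Fin 3 → ℕ, s 0 < r → s' 0 < r → ∑ a, s a = ∑ a, s' a → ex r s = ex r s' → s = s') ∧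
    (∀ s s' b : Fin 3 → ℕ, s 0 < r → ∑ a, s a = ∑ a, s' a + ∑ a, b a →
      ex r s = ex r s' + ex r b → s' 1 + b 1 ≤ s 1 ∧ s' 2 + b 2 ≤ s 2) ∧
    (∀ s' : Fin 3 → ℕ, ∃ s : Fin 3 → ℕ, s 0 < r ∧ ∑ a, s a = ∑ a, s' a ∧ ex r s = ex r s' ∧
      s' 1 ≤ s 1 ∧ s' 2 ≤ s 2)

/-- [PRS] from the quotient by one more power back.  Proof: copy of `V.pr_RS` (`Bd/B02.lean`),
with the lemmas `vJ_perm`, `vJ_mono`, `lemA`, `lemB`, `lemC`, `lemD`, `vJ_cons_removeNth` for `vC`
(from `S_PNf`). -/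
def S_PRS : Prop :=
  ∀ (K : Type) [Field K] [CharZero K] (r D E p : ℕ) (J : Finset (Fin 3)) (i : Fin 3),
    1 ≤ r → i ≠ 0 → (0 : Fin 3) ∉ J → i ∉ J →
    rVan K (Mo 3 (r + 1)) (vC r D E (insert i J)) p → rVan K (Mo 3 (r + 1)) (vC r D E J) p

/-- [PLift] passing to the quotient by one more power.  Proof: copy of `V.pr_Lift`
(`Bd/B01.lean`).  The only point is the claim there: `t` valid for `J`, `cons b'' s` valid for
`insert i J`, `s` (length `k`) not valid for `insert i J`, and `cons b' t` is a rearrangement of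
`cons x_i^(r+1) s`; then `cons b' t` is valid for `J`: let `e` be the normal form of the
coefficient of `s` (it exists: `s''` times `b''`), `f` that of `t`; `f + x_i^(r+1)` and `e + b'`
have the same normal form.  For `j ∈ J` (so `j ≠ i`) `e j ≤ (f + x_i^(r+1)) j = f j ≤ r`
(`S_PNf` (2); `f + x_i^(r+1)` is itself a normal form).  So `s` fails at `i`: `e i ≥ r + 1`, and
`e - x_i^(r+1)` is the coefficient of `cons b' t`. -/
def S_PLift : Prop :=
  ∀ (K : Type) [Field K] [CharZero K] (r D E p : ℕ) (J : Finset (Fin 3)) (i : Fin 3),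
    1 ≤ r → i ≠ 0 → (0 : Fin 3) ∉ J → i ∉ J →
    rNo K (Mo 3 (r + 1)) (vC r D E J) p → rNo K (Mo 3 (r + 1)) (vC r D E (insert i J)) p

/-- the labels of the Artinian quotient. -/
def MP (r : ℕ) : Finset (Fin 3 → ℕ) :=
  (Mo 3 (r + 1)).filter (fun v => v ≠ Pi.single 1 (r + 1) ∧ v ≠ Pi.single 2 (r + 1))

/-- [PDual] complementary tuples.  Proof: `V.Dual.abstract` (`V/I_Dual.lean`; model `pr_Dual`
there) with `M' = MP r`: if `a` is the coefficient of `t` then `(r - 1 - a 0, r - a 1, r - a 2)`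
is the coefficient of the complementary tuple. -/
def S_PDual : Prop :=
  ∀ (K : Type) [Field K] [CharZero K] (r p j D D' E E' : ℕ), 1 ≤ r → p + j = (MP r).card →
    D + D' = (MP r).card * (r + 1) + (3 * r - 1) →
    E + E' = ∑ v ∈ MP r, ex r v + (r - 1 + r * r) →
    rNo K (Mo 3 (r + 1)) (vC r D' E' {1, 2}) j → rVan K (Mo 3 (r + 1)) (vC r D E {1, 2}) p

/-- [PCo] the coincidences of exponents.  (1) elements of `Mo 3 (r + 1)` with the same `ex` are
equal or form one of three pairs, so: there is an involution-free description: for every finite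
set `S` of labels there is a set `X ⊆ S` of at most three labels such that for `v ∈ S \ X` every
other label `v'` of `Mo 3 (r + 1)` with `ex r v' = ex r v` is in `X` (take from each pair
`(r+1,0,0)~(1,r-1,1)`, `(r,1,0)~(0,r,1)`, `(r,0,1)~(0,r-1,2)` the first one if it is in `S`, else
the second one if it is in `S`).  (2) `ex` is injective on `Mo 3 (r - 2)`. -/
def S_PCo : Prop :=
  ∀ r : ℕ, 2 ≤ r →
    (∀ S ⊆ Mo 3 (r + 1), ∃ X ⊆ S, X.card ≤ 3 ∧ ∀ v ∈ S \ X, ∀ v' ∈ Mo 3 (r + 1),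
      ex r v' = ex r v → v' = v ∨ v' ∈ X) ∧
    (∀ v ∈ Mo 3 (r - 2), ∀ v' ∈ Mo 3 (r - 2), ex r v = ex r v' → v = v')

/-- [PGreen] Green's vanishing on the curve.  Proof: model `V/I_Green.lean`.  Suppose `c t ≠ 0`
(`t` injective, `Alt.eq_zero`).  `X` from `S_PCo` for `S` = set of entries of `t`; choose an
embedding `e : L → Fin j`, `L = ↥(Mo 3 (r - 2))`, into the places with `t (e l) ∉ X` (at least
`j - 3` places).  For `a ∈ Mo 3 (r - 2)` let
`W a = ∑_{x : L → Mo 3 (r+1), coefficient of ext x is a} c (ext x) ∏_l λ_l ^ ex (x l)` in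
`MvPolynomial L K` (`ext x` = `t` with the entries at `e l` replaced by `x l`).  As in `Wp_sum`,
`∑_a λ_l ^ ex a * W a = 0` for every `l` (for `x` fixed outside `l` the exponent of `λ_l` in the
terms does not depend on `x l`, and `∑_v c (..v..) = 0`).  The determinant of `λ_l ^ ex a` is not
zero (the exponents are different, `S_PCo` (2); as `Green.det_ne`), so `W a = 0`.  The coefficient
of `∏ λ_l ^ ex (t (e l))` in `W a`, `a` the coefficient of `t`, is `∑ c (ext x)` over the `x` with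
`ex (x l) = ex (t (e l))` for all `l`; if `x l ≠ t (e l)` for some `l` then `x l ∈ X` is an entry
of `t` at a place not in the range of `e`, so `ext x` has a repetition and `c (ext x) = 0`.
So `c t = 0`. -/
def S_PGreen : Prop :=
  ∀ (K : Type) [Field K] [CharZero K] (r j E : ℕ), 2 ≤ r → (Mo 3 (r - 2)).card + 3 ≤ j →
    rNo K (Mo 3 (r + 1)) (vC r (j * (r + 1) + (r - 2)) E ∅) j

/-- [PVan] the vanishing on the curve.  Proof: as `V.pr_LemD` (`Bd/B01.lean`): `S_PRS` twice
(`{1,2} → {2} → ∅`), `S_PDual`, `S_PLift` twice, `S_PGreen` with `j = (MP r).card - (2 r + 1)`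
(`(MP r).card = C(r+3,2) - 2`, `(Mo 3 (r-2)).card = C(r,2)`, `j - C(r,2) = r ≥ 3`;
`D' = j (r + 1) + (r - 2)`); if `E` is larger than the sum in `S_PDual` there are no chains. -/
def S_PVan : Prop :=
  ∀ (K : Type) [Field K] [CharZero K] (r E : ℕ), 3 ≤ r →
    rVan K (Mo 3 (r + 1)) (vC r ((2 * r + 1) * (r + 2)) E ∅) (2 * r + 1)

/-- `x^r`. -/
def al (r : ℕ) : Fin 3 → ℕ := ![r, 0, 0]

/-- `y^(r-1) z`. -/
def be (r : ℕ) : Fin 3 → ℕ := ![0, r - 1, 1]

/-- [PS] planar surjectivity: every cycle `c` of weight `w` (`∑ w = (2 r + 1)(r + 2)`) is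
`(x^r - y^(r-1) z) y` modulo boundaries.  Proof: `D = ∑ w`, `E = ex r w`, `p = 2 r + 1`.  `c` is a
chain and a cycle for `vC r D E ∅` (normal form of `w - ∑ t`; if `t` is valid for `vC` but not for
`vw w` all terms vanish), so `c = dd g` with `g` from `S_PVan` (for all `t`; if `t` is not valid
both sides are zero).  For a `(p+1)`-tuple `T` with `g T ≠ 0` and coefficient `a` (normal form)
the weight `∑ T + a` has sum `D` and exponent `E`; let `g_m T = g T` if `(∑ T + a) 2 = m` and `0`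
otherwise.  The weights `u` with sum `D` and exponent `E` are
`u(n) = (E - r n, D - E + (r - 1) n, n)`, `n = u 2`; `u(n) + be r = u(n+1) + al r` as integers.
For `v` with `∑ v + r = D`, `ex r v + r = E` and `n = v 2` put
`y v = [w 2 ≤ n] c - ∑_{m ≤ n} dd g_m`, for the other `v` put `y v = 0`.  Support: fix `t`; the
`n` with `∑ t ≤ u(n)` form an interval, the terms of index `m` (`[m = w 2] c t - dd g_m t`) are
zero unless `∑ t ≤ u(m)`, and their total sum is zero; so if `y v t ≠ 0` then `∑ t ≤ u(n)` and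
`∑ t ≤ u(n+1)`, i.e. `∑ t ≤ v` (and `al r ≤ u(n)`, `be r ≤ u(n+1)`).  Cycle: `dd c = 0`,
`dd dd = 0`.  The relation at `u`, `n = u 2`: `y(u - al) - y(u - be) - [u = w] c = - dd g_n`. -/
def S_PS : Prop :=
  ∀ (K : Type) [Field K] [CharZero K] (r : ℕ) (w : Fin 3 → ℕ), 3 ≤ r →
    ∑ a, w a = (2 * r + 1) * (r + 2) → ∀ c ∈ ZT K (r + 1) w (2 * r + 1),
    ∃ y : (Fin 3 → ℕ) → ((Fin (2 * r + 1) → (Fin 3 → ℕ)) → K),
      (∀ v, y v ∈ ZT K (r + 1) v (2 * r + 1)) ∧
      (∀ v, y v ≠ 0 → ∑ a, v a + r = ∑ a, w a ∧ ex r v + r = ex r w) ∧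
      ∀ u : Fin 3 → ℕ, ∑ a, u a = ∑ a, w a → ex r u = ex r w →
        (fun t => (if (∀ a, al r a ≤ u a) then y (u - al r) t else 0) -
          (if (∀ a, be r a ≤ u a) then y (u - be r) t else 0) - (if u = w then c t else 0)) ∈
            BT K (r + 1) u (2 * r + 1)

end Pool.Agent.Work.MP_1233f5_ag.Q
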