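import Pool.Agent.Work.MP_1233f5_ag.Q.Stmts
import Pool.Agent.Work.MP_1233f5_ag.Q.StmtsP

/-! MP_1233f5_ag, block Q, item Lin3: the linear algebra of section (9) of note 4509. -/

set_option autoImplicit false

namespace Pool.Agent.Work.MP_1233f5_ag.Q

open Finset
open Pool.Agent.Work.MP_1233f5_ag.V (vm vw Mo tyv dd rCh rcyc rVan rNo ML theta)
open Pool.Agent.Work.MP_1233f5_ag.Y

namespace ILin3

section abs
variable {K : Type} [Field K] {H : Type} [AddCommGroup H] [Module K H]
  {V : Type} [AddCommGroup V] [Module K V]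

open Classical in
/-- multiplication of a family by the monomial `s`. -/
noncomputable def M (s : Fin 3 → ℕ) : ((Fin 3 → ℕ) → V) →ₗ[K] ((Fin 3 → ℕ) → V) :=
  LinearMap.pi (fun u => if s ≤ u then LinearMap.proj (u - s) else 0)

theorem M_apply (s : Fin 3 → ℕ) (y : (Fin 3 → ℕ) → V) (u : Fin 3 → ℕ) :
    M (K := K) s y u = open Classical in if s ≤ u then y (u - s) else 0 := by
  unfold M
  rw [LinearMap.pi_apply]
  split_ifs <;> simp

open Classical in
/-- evaluation of a family. -/
noncomputable def E (j : ℕ) (W : Fin 3 → ℕ) (φ : (ℕ → (Fin 3 → ℕ)) → (V →ₗ[K] H))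
    (s : ℕ → (Fin 3 → ℕ)) : ((Fin 3 → ℕ) → V) →ₗ[K] H :=
  if ∑ i ∈ range j, s i ≤ W then (φ s).comp (LinearMap.proj (W - ∑ i ∈ range j, s i)) else 0

/-- substitution of `a - b` at the last `m` places. -/
noncomputable def G (j : ℕ) (a b : Fin 3 → ℕ)
    (F : (ℕ → (Fin 3 → ℕ)) → (((Fin 3 → ℕ) → V) →ₗ[K] H)) :
    ℕ → (ℕ → (Fin 3 → ℕ)) → (((Fin 3 → ℕ) → V) →ₗ[K] H)
  | 0, s => F s
  | m + 1, s => G j a b F m (Function.update s (j - (m + 1)) a) -
      G j a b F m (Function.update s (j - (m + 1)) b)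

variable {j : ℕ} {a b : Fin 3 → ℕ} {F : (ℕ → (Fin 3 → ℕ)) → (((Fin 3 → ℕ) → V) →ₗ[K] H)}

theorem G_loc (hF : ∀ s s' : ℕ → (Fin 3 → ℕ), (∀ i < j, s i = s' i) → F s = F s') :
    ∀ m, m ≤ j → ∀ s s' : ℕ → (Fin 3 → ℕ), (∀ i < j - m, s i = s' i) →
      G j a b F m s = G j a b F m s' := by
  intro m
  induction m with
  | zero =>
    intro _ s s' h
    exact hF s s' (by simpa using h)
  | succ m ih =>
    intro hm s s' h
    have key : ∀ x : Fin 3 → ℕ, ∀ i < j - m, Function.update s (j - (m + 1)) x i =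
        Function.update s' (j - (m + 1)) x i := by
      intro x i hi
      by_cases h1 : i = j - (m + 1)
      · subst h1
        rw [Function.update_self, Function.update_self]
      · rw [Function.update_of_ne h1, Function.update_of_ne h1]
        exact h i (by omega)
    show G j a b F m _ - G j a b F m _ = G j a b F m _ - G j a b F m _
    rw [ih (by omega) _ _ (key a), ih (by omega) _ _ (key b)]

theorem G_kill {A : Set (Fin 3 → ℕ)} (ha : a ∈ A) (hb : b ∈ A) (n : (Fin 3 → ℕ) → V)
    (hF : ∀ s : ℕ → (Fin 3 → ℕ), (∀ i < j, s i ∈ A) → F s n = 0) :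
    ∀ m, m ≤ j → ∀ s : ℕ → (Fin 3 → ℕ), (∀ i < j - m, s i ∈ A) → G j a b F m s n = 0 := by
  intro m
  induction m with
  | zero =>
    intro _ s h
    exact hF s (by simpa using h)
  | succ m ih =>
    intro hm s h
    have key : ∀ x ∈ A, ∀ i < j - m, Function.update s (j - (m + 1)) x i ∈ A := by
      intro x hx i hi
      by_cases h1 : i = j - (m + 1)
      · subst h1
        rwa [Function.update_self]
      · rw [Function.update_of_ne h1]
        exact h i (by omega)
    show (G j a b F m _ - G j a b F m _) n = 0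
    rw [LinearMap.sub_apply, ih (by omega) _ (key a ha), ih (by omega) _ (key b hb), sub_zero]

theorem skp_update {i k : ℕ} (hk : k < i) (s : ℕ → (Fin 3 → ℕ)) (x : Fin 3 → ℕ) :
    skp k (Function.update s i x) = Function.update (skp k s) (i - 1) x := by
  funext l
  unfold skp
  by_cases h1 : l = i - 1
  · subst h1
    rw [Function.update_self, if_neg (by omega)]
    have h2 : i - 1 + 1 = i := by omega
    rw [h2, Function.update_self]
  · rw [Function.update_of_ne h1]
    by_cases h2 : l < k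
    · rw [if_pos h2, if_pos h2, Function.update_of_ne (by omega)]
    · rw [if_neg h2, if_neg h2, Function.update_of_ne (by omega)]

theorem EX {A : Set (Fin 3 → ℕ)} (ha : a ∈ A) (hb : b ∈ A) (y : (Fin 3 → ℕ) → V)
    (hloc : ∀ s s' : ℕ → (Fin 3 → ℕ), (∀ i < j, s i = s' i) → F s = F s')
    (hF : ∀ s : ℕ → (Fin 3 → ℕ), (∀ k < j + 1, s k ∈ A) →
      ∑ k ∈ range (j + 1), F (skp k s) (M (K := K) (s k) y) = 0) :
    ∀ m i : ℕ, i + m = j + 1 → ∀ s : ℕ → (Fin 3 → ℕ), (∀ k < i, s k ∈ A) →
      ∑ k ∈ range i, G j a b F m (skp k s) (M (K := K) (s k) y) +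
        m • G j a b F (m - 1) s (M (K := K) a y - M (K := K) b y) = 0 := by
  intro m
  induction m with
  | zero =>
    intro i hi s hs
    obtain rfl : i = j + 1 := by omega
    rw [zero_smul, add_zero]
    exact hF s hs
  | succ m ih =>
    intro i hi s hs
    have key : ∀ x ∈ A, ∀ k < i + 1, Function.update s i x k ∈ A := by
      intro x hx k hk
      by_cases h1 : k = i
      · subst h1
        rwa [Function.update_self]
      · rw [Function.update_of_ne h1]
        exact hs k (by omega)
    have e1 := ih (i + 1) (by omega) (Function.update s i a) (key a ha)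
    have e2 := ih (i + 1) (by omega) (Function.update s i b) (key b hb)
    rw [sum_range_succ] at e1 e2
    rw [Function.update_self] at e1 e2
    have l1 : ∀ x : Fin 3 → ℕ, G j a b F m (skp i (Function.update s i x)) = G j a b F m s := by
      intro x
      apply G_loc hloc m (by omega)
      intro l hl
      unfold skp
      rw [if_pos (by omega), Function.update_of_ne (by omega)]
    rw [l1] at e1 e2
    have l2 : ∀ x : Fin 3 → ℕ, ∑ k ∈ range i, G j a b F m (skp k (Function.update s i x))
        (M (K := K) (Function.update s i x k) y) =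
        ∑ k ∈ range i, G j a b F m (Function.update (skp k s) (i - 1) x)
          (M (K := K) (s k) y) := by
      intro x
      refine sum_congr rfl fun k hk => ?_
      have hk' := mem_range.1 hk
      rw [skp_update hk', Function.update_of_ne (by omega)]
    rw [l2] at e1 e2
    have l3 : ∑ k ∈ range i, G j a b F (m + 1) (skp k s) (M (K := K) (s k) y) =
        ∑ k ∈ range i, G j a b F m (Function.update (skp k s) (i - 1) a)
          (M (K := K) (s k) y) -
        ∑ k ∈ range i, G j a b F m (Function.update (skp k s) (i - 1) b)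
          (M (K := K) (s k) y) := by
      rw [← sum_sub_distrib]
      refine sum_congr rfl fun k hk => ?_
      have h1 : j - (m + 1) = i - 1 := by omega
      show (G j a b F m (Function.update (skp k s) (j - (m + 1)) a) -
        G j a b F m (Function.update (skp k s) (j - (m + 1)) b)) _ = _
      rw [h1, LinearMap.sub_apply]
    have l4 : m • G j a b F (m - 1) (Function.update s i a) (M (K := K) a y - M (K := K) b y) -
        m • G j a b F (m - 1) (Function.update s i b) (M (K := K) a y - M (K := K) b y) =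
        m • G j a b F m s (M (K := K) a y - M (K := K) b y) := by
      rcases m with _ | m
      · simp
      · have h1 : j - (m + 1) = i := by omega
        rw [← smul_sub]
        congr 1
        show _ = (G j a b F m (Function.update s (j - (m + 1)) a) -
          G j a b F m (Function.update s (j - (m + 1)) b)) _
        rw [h1, LinearMap.sub_apply]
        rfl
    have l5 : G j a b F m s (M (K := K) a y - M (K := K) b y) =
        G j a b F m s (M (K := K) a y) - G j a b F m s (M (K := K) b y) := map_sub _ _ _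
    have e3 := congrArg₂ (fun p q => p - q) e1 e2
    simp only [sub_zero] at e3
    rw [l3, add_smul, one_smul, Nat.add_sub_cancel, ← l4, l5, ← e3]
    abel

theorem abs [CharZero K] (W : Fin 3 → ℕ) (φ : (ℕ → (Fin 3 → ℕ)) → (V →ₗ[K] H))
    (Z B : (Fin 3 → ℕ) → Submodule K V) (hmono : ∀ w s, Z w ≤ Z (w + s))
    (A : Set (Fin 3 → ℕ)) (ha : a ∈ A) (hb : b ∈ A)
    (hloc : ∀ s s' : ℕ → (Fin 3 → ℕ), (∀ i < j, s i = s' i) → φ s = φ s')
    (hbd : ∀ s : ℕ → (Fin 3 → ℕ), (∀ i < j, s i ∈ A) → ∀ w : Fin 3 → ℕ,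
        w + ∑ i ∈ range j, s i = W → ∀ c ∈ B w, φ s c = 0)
    (hex : ∀ s : ℕ → (Fin 3 → ℕ), (∀ i < j + 1, s i ∈ A) → ∀ w : Fin 3 → ℕ,
        w + ∑ i ∈ range (j + 1), s i = W →
        ∀ c ∈ Z w, ∑ k ∈ range (j + 1), φ (skp k s) c = 0)
    (hPS : ∀ s : ℕ → (Fin 3 → ℕ), (∀ i < j, s i ∈ A) → ∀ w : Fin 3 → ℕ,
        w + ∑ i ∈ range j, s i = W → ∀ c ∈ Z w, ∃ y : (Fin 3 → ℕ) → V, (∀ v, y v ∈ Z v) ∧
          ∀ u, M (K := K) a y u - M (K := K) b y u - (Pi.single w c : (Fin 3 → ℕ) → V) u ∈ B u) :
    ∀ s : ℕ → (Fin 3 → ℕ), (∀ i < j, s i ∈ A) → ∀ w : Fin 3 → ℕ,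
      w + ∑ i ∈ range j, s i = W → ∀ c ∈ Z w, φ s c = 0 := by
  classical
  -- facts on `E`
  have Eval : ∀ (s : ℕ → (Fin 3 → ℕ)) (w : Fin 3 → ℕ), w + ∑ i ∈ range j, s i = W →
      ∀ n : (Fin 3 → ℕ) → V, E j W φ s n = φ s (n w) := by
    intro s w hw n
    unfold E
    have h1 : ∑ i ∈ range j, s i ≤ W := by
      rw [← hw]
      exact le_add_of_nonneg_left (fun _ => Nat.zero_le _)
    have h2 : W - ∑ i ∈ range j, s i = w := by
      rw [← hw, add_tsub_cancel_right]
    rw [if_pos h1, h2]
    rfl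
  have Eval0 : ∀ (s : ℕ → (Fin 3 → ℕ)), ¬ (∑ i ∈ range j, s i ≤ W) →
      ∀ n : (Fin 3 → ℕ) → V, E j W φ s n = 0 := by
    intro s hs n
    unfold E
    rw [if_neg hs]
    rfl
  have Eloc : ∀ s s' : ℕ → (Fin 3 → ℕ), (∀ i < j, s i = s' i) → E j W φ s = E j W φ s' := by
    intro s s' h
    unfold E
    have h1 : ∑ i ∈ range j, s i = ∑ i ∈ range j, s' i :=
      sum_congr rfl fun i hi => h i (mem_range.1 hi)
    rw [h1, hloc s s' h]
  have Ebd : ∀ n : (Fin 3 → ℕ) → V, (∀ u, n u ∈ B u) →
      ∀ s : ℕ → (Fin 3 → ℕ), (∀ i < j, s i ∈ A) → E j W φ s n = 0 := by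
    intro n hn s hs
    by_cases h1 : ∑ i ∈ range j, s i ≤ W
    · have h2 : (W - ∑ i ∈ range j, s i) + ∑ i ∈ range j, s i = W := tsub_add_cancel_of_le h1
      rw [Eval s _ h2]
      exact hbd s hs _ h2 _ (hn _)
    · exact Eval0 s h1 n
  have skp_sum : ∀ (s : ℕ → (Fin 3 → ℕ)) (J k : ℕ), k < J + 1 →
      s k + ∑ i ∈ range J, skp k s i = ∑ i ∈ range (J + 1), s i := by
    intro s J k hk
    induction J with
    | zero =>
      obtain rfl : k = 0 := by omega
      simp
    | succ J ih =>
      by_cases h1 : k < J + 1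
      · rw [sum_range_succ, ← add_assoc, ih h1, sum_range_succ (fun i => s i) (J + 1)]
        congr 1
        unfold skp
        rw [if_neg (by omega)]
      · obtain rfl : k = J + 1 := by omega
        rw [sum_range_succ (fun i => s i) (J + 1), add_comm]
        congr 1
        refine sum_congr rfl fun i hi => ?_
        unfold skp
        rw [if_pos (mem_range.1 hi)]
  have Eex : ∀ y : (Fin 3 → ℕ) → V, (∀ u, y u ∈ Z u) →
      ∀ s : ℕ → (Fin 3 → ℕ), (∀ k < j + 1, s k ∈ A) →
      ∑ k ∈ range (j + 1), E j W φ (skp k s) (M (K := K) (s k) y) = 0 := by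
    intro y hy s hs
    by_cases h1 : ∑ i ∈ range (j + 1), s i ≤ W
    · have h2 : (W - ∑ i ∈ range (j + 1), s i) + ∑ i ∈ range (j + 1), s i = W :=
        tsub_add_cancel_of_le h1
      rw [← hex s hs _ h2 (y (W - ∑ i ∈ range (j + 1), s i)) (hy _)]
      refine sum_congr rfl fun k hk => ?_
      have h3 := skp_sum s j k (mem_range.1 hk)
      rw [Eval (skp k s) ((W - ∑ i ∈ range (j + 1), s i) + s k)
        (by rw [add_assoc, h3, h2]), M_apply, if_pos (le_add_of_nonneg_left (fun _ => Nat.zero_le _)),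
        add_tsub_cancel_right]
    · refine sum_eq_zero fun k hk => ?_
      have h3 := skp_sum s j k (mem_range.1 hk)
      by_cases h4 : ∑ i ∈ range j, skp k s i ≤ W
      · rw [Eval (skp k s) (W - ∑ i ∈ range j, skp k s i) (tsub_add_cancel_of_le h4), M_apply,
          if_neg, map_zero]
        intro h5
        apply h1
        rw [← h3]
        exact (add_le_add_left h5 _).trans (le_of_eq (tsub_add_cancel_of_le h4))
      · exact Eval0 _ h4 _
  have MZ : ∀ (s : Fin 3 → ℕ) (y : (Fin 3 → ℕ) → V), (∀ u, y u ∈ Z u) →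
      ∀ u, M (K := K) s y u ∈ Z u := by
    intro s y hy u
    rw [M_apply]
    split_ifs with h
    · have h1 := hmono (u - s) s (hy _)
      rwa [tsub_add_cancel_of_le h] at h1
    · exact Submodule.zero_mem _
  -- the claim
  have step : ∀ i, i ≤ j →
      (1 ≤ i → ∀ s : ℕ → (Fin 3 → ℕ), (∀ k < i - 1, s k ∈ A) →
        ∀ n : (Fin 3 → ℕ) → V, (∀ u, n u ∈ Z u) → G j a b (E j W φ) (j - i + 1) s n = 0) →
      ∀ s : ℕ → (Fin 3 → ℕ), (∀ k < i, s k ∈ A) →
      ∀ n : (Fin 3 → ℕ) → V, (∀ u, n u ∈ Z u) → G j a b (E j W φ) (j - i) s n = 0 := by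
    intro i hi hprev s hs
    have hs' : ∀ k < j - (j - i), s k ∈ A := by
      intro k hk
      exact hs k (by omega)
    have S1 : ∀ y : (Fin 3 → ℕ) → V, (∀ u, y u ∈ Z u) →
        G j a b (E j W φ) (j - i) s (M (K := K) a y - M (K := K) b y) = 0 := by
      intro y hy
      have h1 := EX ha hb y Eloc (Eex y hy) (j - i + 1) i (by omega) s hs
      rw [sum_eq_zero, zero_add, Nat.add_sub_cancel, ← Nat.cast_smul_eq_nsmul K,
        smul_eq_zero] at h1
      · rcases h1 with h1 | h1
        · exfalso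
          exact Nat.cast_ne_zero.2 (Nat.succ_ne_zero (j - i)) h1
        · exact h1
      · intro k hk
        have hk' := mem_range.1 hk
        refine hprev (by omega) _ ?_ _ (MZ _ y hy)
        intro l hl
        unfold skp
        split_ifs
        · exact hs l (by omega)
        · exact hs (l + 1) (by omega)
    have S2 : ∀ s' : ℕ → (Fin 3 → ℕ), (∀ i < j, s' i ∈ A) → ∀ w : Fin 3 → ℕ,
        w + ∑ i ∈ range j, s' i = W → ∀ c ∈ Z w,
        G j a b (E j W φ) (j - i) s (Pi.single w c) = 0 := by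
      intro s' hs1 w hw c hc
      obtain ⟨y, hy, hy2⟩ := hPS s' hs1 w hw c hc
      have h1 := G_kill ha hb (M (K := K) a y - M (K := K) b y - Pi.single w c)
        (Ebd _ (fun u => hy2 u)) (j - i) (by omega) s hs'
      rw [map_sub, S1 y hy, zero_sub, neg_eq_zero] at h1
      exact h1
    intro n hn
    set U : Finset (Fin 3 → ℕ) := (Finset.Icc 0 W).filter
      (fun u => ∃ s' : ℕ → (Fin 3 → ℕ), (∀ i < j, s' i ∈ A) ∧ u + ∑ i ∈ range j, s' i = W) with hU
    have h1 := G_kill ha hb (n - ∑ u ∈ U, (Pi.single u (n u) : (Fin 3 → ℕ) → V))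
      (F := E j W φ) (j := j) (by
        intro s' hs1
        by_cases h2 : ∑ i ∈ range j, s' i ≤ W
        · have h3 : (W - ∑ i ∈ range j, s' i) + ∑ i ∈ range j, s' i = W :=
            tsub_add_cancel_of_le h2
          have h4 : (W - ∑ i ∈ range j, s' i) ∈ U := by
            rw [hU, mem_filter, Finset.mem_Icc]
            exact ⟨⟨fun _ => Nat.zero_le _, tsub_le_self⟩, s', hs1, h3⟩
          rw [Eval s' _ h3, Pi.sub_apply, Finset.sum_apply,
            sum_eq_single_of_mem _ h4 (fun u _ hu => Pi.single_eq_of_ne (Ne.symm hu) _),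
            Pi.single_eq_same, sub_self, map_zero]
        · exact Eval0 s' h2 _) (j - i) (by omega) s hs'
    rw [map_sub, map_sum, sum_eq_zero, sub_zero] at h1
    · exact h1
    · intro u hu
      rw [hU, mem_filter] at hu
      obtain ⟨_, s', hs1, hs2⟩ := hu
      exact S2 s' hs1 u hs2 _ (hn u)
  have claim : ∀ i, i ≤ j → ∀ s : ℕ → (Fin 3 → ℕ), (∀ k < i, s k ∈ A) →
      ∀ n : (Fin 3 → ℕ) → V, (∀ u, n u ∈ Z u) → G j a b (E j W φ) (j - i) s n = 0 := by
    intro i
    induction i with
    | zero =>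
      intro hi
      exact step 0 hi (fun h => absurd h (by omega))
    | succ i ih =>
      intro hi
      refine step (i + 1) hi (fun _ s hs n hn => ?_)
      have h1 := ih (by omega) s hs n hn
      have h2 : j - (i + 1) + 1 = j - i := by omega
      rw [h2]
      exact h1
  intro s hs w hw c hc
  have h1 := claim j le_rfl s hs (Pi.single w c) (by
    intro u
    by_cases h : u = w
    · subst h
      rwa [Pi.single_eq_same]
    · rw [Pi.single_eq_of_ne h]
      exact Submodule.zero_mem _)
  rw [Nat.sub_self] at h1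
  have h2 : E j W φ s (Pi.single w c) = 0 := h1
  rwa [Eval s w hw, Pi.single_eq_same] at h2

end abs

theorem ZT_mono {K : Type} [Field K] (d p : ℕ) (w s : Fin 3 → ℕ) :
    ZT K d w p ≤ ZT K d (w + s) p := by
  rintro c ⟨⟨h1, h2⟩, h3⟩
  refine ⟨⟨h1, fun t ht => ⟨(h2 t ht).1, (h2 t ht).2.trans
    (le_add_of_nonneg_right (fun _ => Nat.zero_le _))⟩⟩, ?_⟩
  rcases p with _ | p
  · trivial
  · intro t ht
    by_cases h4 : ∑ i, t i ≤ w
    · exact h3 t ⟨ht.1, h4⟩
    · refine sum_eq_zero fun x _ => ?_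
      by_contra hx
      apply h4
      have h5 := (h2 _ hx).2
      rw [Fin.sum_univ_succ] at h5
      simp only [Fin.cons_zero, Fin.cons_succ] at h5
      exact le_trans (le_add_of_nonneg_left (fun _ => Nat.zero_le _)) h5

theorem al_mem {r : ℕ} : al r ∈ Mo 3 r := by
  unfold Mo
  rw [Finset.mem_piAntidiag]
  refine ⟨?_, fun _ _ => mem_univ _⟩
  simp [al, Fin.sum_univ_three]

theorem be_mem {r : ℕ} (hr : 1 ≤ r) : be r ∈ Mo 3 r := by
  unfold Mo
  rw [Finset.mem_piAntidiag]
  refine ⟨?_, fun _ _ => mem_univ _⟩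
  simp [be, Fin.sum_univ_three]
  omega

end ILin3

open ILin3

theorem pr_Lin3 (hPS : S_PS) : S_Lin3 := by
  intro K _ _ H _ _ r j W φ hr hW hloc hbd hex
  have hsum : ∀ s : ℕ → (Fin 3 → ℕ), (∀ i < j, s i ∈ Mo 3 r) → ∀ w : Fin 3 → ℕ,
      w + ∑ i ∈ range j, s i = W → ∑ a, w a = (2 * r + 1) * (r + 2) := by
    intro s hs w hw
    have h1 : ∑ a, W a = ∑ a, w a + j * r := by
      rw [← hw]
      simp only [Pi.add_apply, Finset.sum_apply, sum_add_distrib]
      congr 1
      rw [sum_comm]
      rw [sum_congr rfl (fun i hi => ?_), sum_const, card_range, smul_eq_mul]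
      have h2 := hs i (mem_range.1 hi)
      unfold Mo at h2
      rw [Finset.mem_piAntidiag] at h2
      exact h2.1
    omega
  refine abs (a := al r) (b := be r) W φ (fun w => ZT K (r + 1) w (2 * r + 1))
    (fun w => BT K (r + 1) w (2 * r + 1)) (fun w s => ZT_mono _ _ w s)
    (↑(Mo 3 r)) al_mem (be_mem (by omega)) hloc hbd hex ?_
  intro s hs w hw c hc
  obtain ⟨y, hy1, hy2, hy3⟩ := hPS K r w hr (hsum s hs w hw) c hc
  refine ⟨y, hy1, fun u => ?_⟩
  by_cases hu : ∑ a, u a = ∑ a, w a ∧ ex r u = ex r w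
  · have h1 := hy3 u hu.1 hu.2
    have e : M (K := K) (al r) y u - M (K := K) (be r) y u -
        (Pi.single w c : (Fin 3 → ℕ) → ((Fin (2 * r + 1) → (Fin 3 → ℕ)) → K)) u =
        (fun t => (if (∀ a, al r a ≤ u a) then y (u - al r) t else 0) -
          (if (∀ a, be r a ≤ u a) then y (u - be r) t else 0) - (if u = w then c t else 0)) := by
      funext t
      rw [M_apply, M_apply]
      simp only [Pi.sub_apply]
      congr 1
      · congr 1
        · by_cases h : al r ≤ u
          · rw [if_pos h, if_pos (fun a => h a)]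
          · rw [if_neg h, if_neg (fun h' => h (fun a => h' a))]
            rfl
        · by_cases h : be r ≤ u
          · rw [if_pos h, if_pos (fun a => h a)]
          · rw [if_neg h, if_neg (fun h' => h (fun a => h' a))]
            rfl
      · by_cases h : u = w
        · subst h
          rw [Pi.single_eq_same, if_pos rfl]
        · rw [Pi.single_eq_of_ne h, if_neg h]
          rfl
    rw [e]
    exact h1
  · have e1 : M (K := K) (al r) y u = 0 := by
      rw [M_apply]
      split_ifs with h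
      · by_contra hc
        apply hu
        obtain ⟨h1, h2⟩ := hy2 _ hc
        have a0 := h 0
        simp only [al, Matrix.cons_val_zero] at a0
        rw [Fin.sum_univ_three, Fin.sum_univ_three] at h1 ⊢
        simp [al, ex] at h1 h2 ⊢
        constructor
        · omega
        · omega
      · rfl
    have e2 : M (K := K) (be r) y u = 0 := by
      rw [M_apply]
      split_ifs with h
      · by_contra hc
        apply hu
        obtain ⟨h1, h2⟩ := hy2 _ hc
        have a1 := h 1
        have a2 := h 2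
        simp [be] at a1 a2
        rw [Fin.sum_univ_three, Fin.sum_univ_three] at h1 ⊢
        simp [be, ex] at h1 h2 ⊢
        constructor
        · omega
        · obtain ⟨k, hk⟩ : ∃ k, u 2 = k + 1 := ⟨u 2 - 1, by omega⟩
          rw [hk] at h2 ⊢
          rw [Nat.add_sub_cancel] at h2
          rw [Nat.mul_add, Nat.mul_one]
          omega
      · rfl
    have e3 : (Pi.single w c : (Fin 3 → ℕ) → ((Fin (2 * r + 1) → (Fin 3 → ℕ)) → K)) u = 0 := by
      apply Pi.single_eq_of_ne
      rintro rfl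
      exact hu ⟨rfl, rfl⟩
    rw [e1, e2, e3, sub_zero, sub_zero]
    exact Submodule.zero_mem _

end Pool.Agent.Work.MP_1233f5_ag.Q
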