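import Pool.Agent.Work.MP_1233f5_ag.Q.Stmts

/-! MP_1233f5_ag, block Q, item ML4: from cycles antisymmetric in four points to all cycles
(by helper67). -/

set_option autoImplicit false

namespace Pool.Agent.Work.MP_1233f5_ag.Q

open Finset
open Pool.Agent.Work.MP_1233f5_ag.V (vm vw Mo tyv dd rCh rcyc rVan rNo ML theta)
open Pool.Agent.Work.MP_1233f5_ag.Y

theorem pr_ML4 (hRep : S_Rep3) (hKM : S_KM) (hSym : S_SymC) : S_ML4 := by
  intro K _ _ d T T' p hd hTT hle hAnt
  refine prf_Brg K d T p ?_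
  refine hRep K (Fin (p * d + T)) (Lx K (Fin (p * d + T))) (act K (Fin (p * d + T))) univ
    (Cy K d univ p) (Bd K d univ p) (fun σ hσ z hz => act_Cy_sup hσ (subset_refl _) hz)
    (fun σ hσ z hz => act_Bd_sup hσ (subset_refl _) hz) ?_
    (fun Q _ hQ z hz hz' => hAnt Q hQ z hz hz')
  intro π z hz hInv
  obtain ⟨h1, -, h3, -⟩ := hKM K (Fin (p * d + T)) d p univ π
  have hk := h1 z hz
  have hw : ∑ a, tyv π (univ : Finset (Fin (p * d + T))) a = p * d + T := by
    have h4 : ∑ a, tyv π (univ : Finset (Fin (p * d + T))) a =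
        (univ : Finset (Fin (p * d + T))).card := by
      unfold tyv
      exact (Finset.card_eq_sum_card_fiberwise (f := π) (s := univ) (t := univ)
        (fun _ _ => Finset.mem_coe.2 (Finset.mem_univ _))).symm
    rw [h4, Finset.card_univ, Fintype.card_fin]
  have hV : rVan K (Mo 3 d) (vw d (tyv π (univ : Finset (Fin (p * d + T))))) p :=
    Pool.Agent.Work.MP_1233f5_ag.V.h_LemD K 3 d p T T' _ (by norm_num) hd hw hTT (by
      have e1 : T' + 3 - 1 = T' + 2 := by omega
      have e2 : d + 3 - 1 = d + 2 := by omega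
      rw [e1, e2]
      exact hle)
  have hb : kap π p z ∈ BT K d (tyv π (univ : Finset (Fin (p * d + T)))) p := by
    obtain ⟨g, hg, hg'⟩ := hV (kap π p z) hk.1 hk.2
    exact ⟨g, hg, hg', hk.1.2⟩
  have hs := h3 z hz hb
  obtain ⟨-, ⟨N, hN, hN'⟩, -⟩ := hSym K (Fin (p * d + T)) (Lx K (Fin (p * d + T)))
    (act K (Fin (p * d + T))) univ π
  rw [hN' z hInv] at hs
  have h5 := Submodule.smul_mem _ N⁻¹ hs
  rwa [smul_smul, inv_mul_cancel₀ hN, one_smul] at h5

end Pool.Agent.Work.MP_1233f5_ag.Q
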