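import Pool.Agent.Work.MP_1233f5_ag.Q.Stmts

/-! MP_1233f5_ag, block Q, item Main4 (helper18). -/

set_option autoImplicit false

namespace Pool.Agent.Work.MP_1233f5_ag.Q

open Finset
open Pool.Agent.Work.MP_1233f5_ag.V (ML)
open Pool.Agent.Work.MP_1233f5_ag.Y

namespace IMain4

theorem ch (r : ℕ) (hr : 4 ≤ r) :
    (2 * (r + 1) + 2) + 3 + ((r - 2) + 2).choose 2 ≤ ((r + 1) + 2).choose 2 := by
  obtain ⟨s, rfl⟩ : ∃ s, r = s + 4 := ⟨r - 4, by omega⟩
  have e : s + 4 - 2 + 2 = s + 4 := by omega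
  rw [e]
  have h0 : (s + 4 + 1 + 2).choose 2 = (s + 4).choose 2 + (s + 4) + (s + 5) + (s + 6) := by
    have h1 : (s + 5).choose 2 = (s + 4).choose 1 + (s + 4).choose 2 := Nat.choose_succ_succ _ _
    have h2 : (s + 6).choose 2 = (s + 5).choose 1 + (s + 5).choose 2 := Nat.choose_succ_succ _ _
    have h3 : (s + 7).choose 2 = (s + 6).choose 1 + (s + 6).choose 2 := Nat.choose_succ_succ _ _
    rw [Nat.choose_one_right] at h1 h2 h3
    have h4 : s + 4 + 1 + 2 = s + 7 := by ring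
    rw [h4]
    omega
  rw [h0]
  omega

end IMain4

theorem pr_Main4 (h1 : S_ML4) (h2 : S_An4) : S_Main4 := by
  intro K _ _ d hd
  obtain ⟨r, rfl⟩ : ∃ r, d = r + 1 := ⟨d - 1, by omega⟩
  have hr : 4 ≤ r := by omega
  refine h1 K (r + 1) (2 * (r + 1)) (r - 2) (2 * (r + 1) + 2) (by omega) (by omega)
    (IMain4.ch r hr) ?_
  intro Q hQ z hz ha
  have e : 2 * (r + 1) + 2 = 2 * r + 4 := by ring
  have hc : Fintype.card (Fin ((2 * (r + 1) + 2) * (r + 1) + 2 * (r + 1))) =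
      (2 * r + 4) * (r + 1) + (2 * r + 2) := by
    rw [Fintype.card_fin]; ring
  have key : ∀ p : ℕ, p = 2 * r + 4 →
      ∀ z ∈ Cy K (r + 1) (univ : Finset (Fin ((2 * (r + 1) + 2) * (r + 1) + 2 * (r + 1)))) p,
      AntQ (act K (Fin ((2 * (r + 1) + 2) * (r + 1) + 2 * (r + 1)))) Q z →
      z ∈ Bd K (r + 1) (univ : Finset (Fin ((2 * (r + 1) + 2) * (r + 1) + 2 * (r + 1)))) p := by
    intro p hp
    subst hp
    exact h2 K (Fin ((2 * (r + 1) + 2) * (r + 1) + 2 * (r + 1))) r Q hr hc hQ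
  exact key _ e z hz ha

end Pool.Agent.Work.MP_1233f5_ag.Q
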