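import Pool.Agent.Work.MP_1233f5_ag.Q.StmtsP

/-! MP_1233f5_ag, block Q, item PCo: coincidences of exponents. -/

set_option autoImplicit false

namespace Pool.Agent.Work.MP_1233f5_ag.Q

open Finset
open Pool.Agent.Work.MP_1233f5_ag.V (vm vw Mo tyv dd rCh rcyc rVan rNo Pred ML theta)

namespace IPCo

lemma mem_Mo {d : ℕ} {v : Fin 3 → ℕ} (h : v ∈ Mo 3 d) : v 0 + v 1 + v 2 = d := by
  have h1 : ∑ i, v i = d := by
    have := h
    unfold Mo at this
    rw [Finset.mem_piAntidiag] at this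
    exact this.1
  rw [Fin.sum_univ_three] at h1
  exact h1

lemma ext3 {v v' : Fin 3 → ℕ} (h0 : v 0 = v' 0) (h1 : v 1 = v' 1) (h2 : v 2 = v' 2) : v = v' := by
  funext i
  fin_cases i
  · exact h0
  · exact h1
  · exact h2

/-- the first and the second element of the pair number `i`. -/
def A (r : ℕ) : Fin 3 → (Fin 3 → ℕ) := ![![r + 1, 0, 0], ![r, 1, 0], ![r, 0, 1]]
def B (r : ℕ) : Fin 3 → (Fin 3 → ℕ) := ![![1, r - 1, 1], ![0, r, 1], ![0, r - 1, 2]]

lemma small {r a a' c c' : ℕ} (hr : 2 ≤ r) (ha : a ≤ r + 1) (h : a + r * c = a' + r * c')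
    (hc : c < c') : c' = c + 1 ∧ a = a' + r := by
  obtain ⟨m, rfl⟩ : ∃ m, c' = c + 1 + m := ⟨c' - (c + 1), by omega⟩
  have h2 : a = a' + r + r * m := by
    have : r * (c + 1 + m) = r * c + r + r * m := by ring
    omega
  have hm : m = 0 := by
    rcases Nat.eq_zero_or_pos m with h0 | h0
    · exact h0
    · exfalso
      have : r * 1 ≤ r * m := Nat.mul_le_mul_left r h0
      omega
  subst hm
  exact ⟨rfl, by simpa using h2⟩

/-- coincidences of exponents come from the three pairs. -/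
lemma pair {r : ℕ} (hr : 2 ≤ r) {v v' : Fin 3 → ℕ} (hv : v ∈ Mo 3 (r + 1)) (hv' : v' ∈ Mo 3 (r + 1))
    (h : ex r v = ex r v') (hc : v 2 < v' 2) : ∃ i, v = A r i ∧ v' = B r i := by
  have e1 := mem_Mo hv
  have e2 := mem_Mo hv'
  unfold ex at h
  obtain ⟨h1, h2⟩ := small hr (by omega) h hc
  have h3 : v' 0 = 0 ∨ v' 0 = 1 := by omega
  rcases h3 with h3 | h3
  · have h4 : v 2 = 0 ∨ v 2 = 1 := by omega
    rcases h4 with h4 | h4
    · refine ⟨1, ext3 ?_ ?_ ?_, ext3 ?_ ?_ ?_⟩ <;> simp [A, B] <;> omega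
    · refine ⟨2, ext3 ?_ ?_ ?_, ext3 ?_ ?_ ?_⟩ <;> simp [A, B] <;> omega
  · refine ⟨0, ext3 ?_ ?_ ?_, ext3 ?_ ?_ ?_⟩ <;> simp [A, B] <;> omega

lemma eq_of {r : ℕ} {d : ℕ} {v v' : Fin 3 → ℕ} (hv : v ∈ Mo 3 d) (hv' : v' ∈ Mo 3 d)
    (h : ex r v = ex r v') (hc : v 2 = v' 2) : v = v' := by
  have e1 := mem_Mo hv
  have e2 := mem_Mo hv'
  unfold ex at h
  rw [hc] at h
  exact ext3 (by omega) (by omega) hc

end IPCo

open IPCo

theorem pr_PCo : S_PCo := by
  intro r hr
  refine ⟨?_, ?_⟩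
  · intro S hS
    classical
    refine ⟨S ∩ Finset.univ.image (fun i : Fin 3 => if A r i ∈ S then A r i else B r i),
      Finset.inter_subset_left, ?_, ?_⟩
    · refine (Finset.card_le_card Finset.inter_subset_right).trans ?_
      refine Finset.card_image_le.trans ?_
      simp
    · intro v hv v' hv' h
      have hvS : v ∈ S := (Finset.mem_sdiff.1 hv).1
      have hvX := (Finset.mem_sdiff.1 hv).2
      rcases lt_trichotomy (v 2) (v' 2) with hlt | heq | hgt
      · exfalso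
        obtain ⟨i, h1, h2⟩ := pair hr (hS hvS) hv' h.symm hlt
        apply hvX
        rw [Finset.mem_inter]
        refine ⟨hvS, Finset.mem_image.2 ⟨i, Finset.mem_univ _, ?_⟩⟩
        rw [if_pos (h1 ▸ hvS), h1]
      · left
        exact eq_of hv' (hS hvS) h heq.symm
      · right
        obtain ⟨i, h1, h2⟩ := pair hr hv' (hS hvS) h hgt
        by_cases hA : A r i ∈ S
        · rw [Finset.mem_inter]
          refine ⟨h1 ▸ hA, Finset.mem_image.2 ⟨i, Finset.mem_univ _, ?_⟩⟩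
          rw [if_pos hA, h1]
        · exfalso
          apply hvX
          rw [Finset.mem_inter]
          refine ⟨hvS, Finset.mem_image.2 ⟨i, Finset.mem_univ _, ?_⟩⟩
          rw [if_neg hA, h2]
  · intro v hv v' hv' h
    have e1 := mem_Mo hv
    have e2 := mem_Mo hv'
    rcases lt_trichotomy (v 2) (v' 2) with hlt | heq | hgt
    · exfalso
      unfold ex at h
      obtain ⟨h1, h2⟩ := small hr (by omega) h hlt
      omega
    · exact eq_of hv hv' h heq
    · exfalso
      unfold ex at h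
      obtain ⟨h1, h2⟩ := small hr (by omega) h.symm hgt
      omega

end Pool.Agent.Work.MP_1233f5_ag.Q
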