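import Pool.Agent.Work.MP_1233f5_ag.Q.StmtsP
import Pool.Agent.Work.MP_1233f5_ag.V.I_Dual

/-! MP_1233f5_ag, block Q, item PDual: complementary tuples on the curve. -/

set_option autoImplicit false

namespace Pool.Agent.Work.MP_1233f5_ag.Q

open Finset
open Pool.Agent.Work.MP_1233f5_ag.V (Mo rNo rVan)

namespace IPDual

lemma mem_MP {r D E q : ℕ} {t : Fin q → (Fin 3 → ℕ)} (h : vC r D E {1, 2} q t) :
    ∀ i, t i ∈ MP r := by
  intro i
  obtain ⟨h1, h2, _⟩ := h
  rw [MP, Finset.mem_filter]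
  exact ⟨h1 i, h2 1 (by simp) i, h2 2 (by simp) i⟩

/-- the condition for tuples of labels in `MP r`. -/
lemma vC_iff {r D E q : ℕ} {t : Fin q → (Fin 3 → ℕ)} (ht : ∀ i, t i ∈ MP r) :
    vC r D E {1, 2} q t ↔ ∃ x y z : ℕ, x < r ∧ y ≤ r ∧ z ≤ r ∧ x + y + z + q * (r + 1) = D ∧
      x + r * z + ∑ i, ex r (t i) = E := by
  constructor
  · rintro ⟨_, _, s, h0, h1, h2, h3⟩
    refine ⟨s 0, s 1, s 2, h0, h1 1 (by simp), h1 2 (by simp), ?_, ?_⟩
    · rw [← h2, Fin.sum_univ_three]
    · rw [← h3, ex]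
  · rintro ⟨x, y, z, h0, h1, h2, h3, h4⟩
    refine ⟨fun i => (Finset.mem_filter.1 (ht i)).1, ?_, ![x, y, z], ?_, ?_, ?_, ?_⟩
    · intro j hj i
      have := (Finset.mem_filter.1 (ht i)).2
      simp only [Finset.mem_insert, Finset.mem_singleton] at hj
      rcases hj with rfl | rfl
      · exact this.1
      · exact this.2
    · simpa using h0
    · intro j hj
      simp only [Finset.mem_insert, Finset.mem_singleton] at hj
      rcases hj with rfl | rfl
      · simpa using h1
      · simpa using h2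
    · rw [← h3, Fin.sum_univ_three]
      simp
    · rw [← h4, ex]
      simp

lemma sum_MP {r p j q l : ℕ} (hcard : p + j = (MP r).card) (t : Fin q → (Fin 3 → ℕ))
    (s : Fin l → (Fin 3 → ℕ)) (hql : q + l = p + j) (hinj : Function.Injective (Sum.elim t s))
    (hval : ∀ x, Sum.elim t s x ∈ MP r) :
    ∑ i, ex r (t i) + ∑ i, ex r (s i) = ∑ v ∈ MP r, ex r v := by
  classical
  have himg : univ.image (Sum.elim t s) = MP r := by
    apply Finset.eq_of_subset_of_card_le
    · intro v hv
      obtain ⟨x, _, rfl⟩ := Finset.mem_image.1 hv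
      exact hval x
    · rw [Finset.card_image_of_injective _ hinj]
      simp [← hcard, hql]
  rw [← himg, Finset.sum_image (fun x _ y _ h => hinj h), Fintype.sum_sum_type]
  simp

lemma flip_aux {r p j q l D D' E E' : ℕ} (hr : 1 ≤ r) (hcard : p + j = (MP r).card)
    (hD : D + D' = (MP r).card * (r + 1) + (3 * r - 1))
    (hE : E + E' = ∑ v ∈ MP r, ex r v + (r - 1 + r * r))
    (t : Fin q → (Fin 3 → ℕ)) (s : Fin l → (Fin 3 → ℕ)) (hql : q + l = p + j)
    (hinj : Function.Injective (Sum.elim t s)) (hval : ∀ x, Sum.elim t s x ∈ MP r)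
    (h : vC r D E {1, 2} q t) : vC r D' E' {1, 2} l s := by
  have hs := sum_MP hcard t s hql hinj hval
  rw [vC_iff (t := t) (fun i => hval (Sum.inl i))] at h
  rw [vC_iff (t := s) (fun i => hval (Sum.inr i))]
  obtain ⟨x, y, z, hx, hy, hz, h1, h2⟩ := h
  refine ⟨r - 1 - x, r - y, r - z, by omega, by omega, by omega, ?_, ?_⟩
  · have e1 : (MP r).card * (r + 1) = q * (r + 1) + l * (r + 1) := by
      rw [← hcard, ← hql]; ring
    rw [e1] at hD
    omega
  · have e2 : r * (r - z) + r * z = r * r := by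
      rw [← mul_add, Nat.sub_add_cancel hz]
    omega

end IPDual

theorem pr_PDual : S_PDual := by
  intro K _ _ r p j D D' E E' hr hcard hD hE hno
  classical
  refine Pool.Agent.Work.MP_1233f5_ag.V.Dual.abstract (Mo 3 (r + 1)) (MP r) (vC r D E {1, 2})
    (vC r D' E' {1, 2}) p j hcard.symm ?_ ?_ ?_ ?_ hno
  · intro t ht
    exact IPDual.mem_MP ht
  · intro σ t ht
    have htM := IPDual.mem_MP ht
    rw [IPDual.vC_iff htM] at ht
    rw [IPDual.vC_iff (t := t ∘ σ) (fun i => htM (σ i))]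
    obtain ⟨x, y, z, h1, h2, h3, h4, h5⟩ := ht
    refine ⟨x, y, z, h1, h2, h3, h4, ?_⟩
    have e : ∑ i, ex r ((t ∘ σ) i) = ∑ i, ex r (t i) :=
      Equiv.sum_comp σ (fun i => ex r (t i))
    rw [e]
    exact h5
  · intro t s hinj hval ht
    exact IPDual.flip_aux hr hcard hD hE t s rfl hinj hval ht
  · intro j' hj u s hinj hval hs
    refine IPDual.flip_aux (p := p) (j := j) (E := E') (E' := E) hr hcard
      (by rw [← hD]; ring) (by rw [← hE]; ring) s u (by omega) ?_ ?_ hs
    · have : Sum.elim s u = Sum.elim u s ∘ (Equiv.sumComm (Fin j') (Fin (p + 1))) := by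
        funext x
        rcases x with i | i <;> rfl
      rw [this]
      exact hinj.comp (Equiv.injective _)
    · rintro (i | i)
      · exact hval (Sum.inr i)
      · exact hval (Sum.inl i)

end Pool.Agent.Work.MP_1233f5_ag.Q
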