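import Pool.Agent.Work.MP_1233f5_ag.Q.StmtsP
import Pool.Agent.Work.MP_1233f5_ag.V.I_Green

/-! Item PGreen of block Q of MP_1233f5_ag (helper65): Green's vanishing on the curve. -/

set_option autoImplicit false

namespace Pool.Agent.Work.MP_1233f5_ag.Q

open Finset
open Pool.Agent.Work.MP_1233f5_ag.V (vm vw Mo tyv dd rCh rcyc rVan rNo Pred ML theta)

namespace IPGreen

open Pool.Agent.Work.MP_1233f5_ag.V.Green (mem_Mo removeNth_update ext ext_self ext_update)

variable {K : Type} [Field K]

theorem ex_add (r : ℕ) (s b : Fin 3 → ℕ) : ex r (s + b) = ex r s + ex r b := by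
  simp only [ex, Pi.add_apply]
  ring

/-- the cycle condition holds everywhere. -/
theorem dd_zero (hN : S_PNf) {r D E p : ℕ} (hr : 1 ≤ r) {c : (Fin (p + 1) → (Fin 3 → ℕ)) → K}
    (hc : rCh (vC r D E ∅) (p + 1) c) (hz : rcyc (Mo 3 (r + 1)) (vC r D E ∅) (p + 1) c)
    (t : Fin p → (Fin 3 → ℕ)) : dd (Mo 3 (r + 1)) c t = 0 := by
  by_cases ht : vC r D E ∅ p t
  · exact hz t ht
  · simp only [dd]
    refine Finset.sum_eq_zero (fun b _ => ?_)
    by_contra h
    obtain ⟨h2, -, s, hs0, -, hs1, hs2⟩ := hc.2 _ h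
    apply ht
    refine ⟨fun i => by have := h2 i.succ; simpa using this, by simp, ?_⟩
    obtain ⟨s', h3, h4, h5, -⟩ := (hN r hr).2.2 (s + b)
    have hb : ∑ a, b a = r + 1 := mem_Mo.mp (by simpa using h2 0)
    refine ⟨s', h3, by simp, ?_, ?_⟩
    · rw [h4, ← hs1]
      simp only [Pi.add_apply, Finset.sum_add_distrib, hb]
      ring
    · rw [h5, ex_add, ← hs2, Fin.sum_univ_succ]
      simp only [Fin.cons_zero, Fin.cons_succ]
      ring

theorem sum_update (hN : S_PNf) {r D E p : ℕ} (hr : 1 ≤ r)
    {c : (Fin (p + 1) → (Fin 3 → ℕ)) → K}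
    (hc : rCh (vC r D E ∅) (p + 1) c) (hz : rcyc (Mo 3 (r + 1)) (vC r D E ∅) (p + 1) c)
    (s : Fin (p + 1) → (Fin 3 → ℕ)) (i : Fin (p + 1)) :
    ∑ v ∈ Mo 3 (r + 1), c (Function.update s i v) = 0 := by
  have h1 : ∀ v, c (Function.update s i v) = (-1) ^ (i : ℕ) * c (Fin.cons v (i.removeNth s)) := by
    intro v
    have h2 := hc.1.cons_removeNth (Function.update s i v) i
    rw [Function.update_self, removeNth_update] at h2
    rw [h2, ← mul_assoc, ← pow_add, ← two_mul, pow_mul]
    simp
  simp only [h1]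
  rw [← Finset.mul_sum]
  have := dd_zero hN hr hc hz (i.removeNth s)
  simp only [dd] at this
  rw [this, mul_zero]

/-- the exponents. -/
noncomputable def Ex {L : Type} [Fintype L] (r : ℕ) (x : L → (Fin 3 → ℕ)) : L →₀ ℕ :=
  Finsupp.equivFunOnFinite.symm (fun l => ex r (x l))

theorem Ex_apply {L : Type} [Fintype L] (r : ℕ) (x : L → (Fin 3 → ℕ)) (l : L) :
    Ex r x l = ex r (x l) := rfl

/-- the determinant of the matrix of monomials. -/
theorem det_ne {r T : ℕ} (hi : ∀ v ∈ Mo 3 T, ∀ v' ∈ Mo 3 T, ex r v = ex r v' → v = v') :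
    (Matrix.of (fun (l a : ↥(Mo 3 T)) =>
    (MvPolynomial.monomial (Finsupp.single l (ex r a.1)) (1 : K)
      : MvPolynomial ↥(Mo 3 T) K))).det ≠ 0 := by
  intro h
  have h1 := congrArg (MvPolynomial.coeff (Ex r (fun l : ↥(Mo 3 T) => l.1))) h
  rw [Matrix.det_apply, MvPolynomial.coeff_sum, MvPolynomial.coeff_zero] at h1
  have h2 : ∀ σ : Equiv.Perm ↥(Mo 3 T),
      MvPolynomial.coeff (Ex r (fun l : ↥(Mo 3 T) => l.1)) (Equiv.Perm.sign σ • ∏ i, (Matrix.of
        (fun (l a : ↥(Mo 3 T)) => (MvPolynomial.monomial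
          (Finsupp.single l (ex r a.1)) (1 : K)
            : MvPolynomial ↥(Mo 3 T) K))) (σ i) i) = if σ = 1 then 1 else 0 := by
    intro σ
    simp only [Matrix.of_apply]
    have h3 : (∏ i : ↥(Mo 3 T), (MvPolynomial.monomial
          (Finsupp.single (σ i) (ex r i.1)) (1 : K)
            : MvPolynomial ↥(Mo 3 T) K)) =
        MvPolynomial.monomial (Ex r (fun l : ↥(Mo 3 T) => (σ⁻¹ l).1)) 1 := by
      have h4 : (∑ x : ↥(Mo 3 T), Finsupp.single (σ x) (ex r x.1)) =
          Ex r (fun l : ↥(Mo 3 T) => (σ⁻¹ l).1) := by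
        ext l
        rw [Finsupp.finset_sum_apply, Ex_apply]
        rw [Finset.sum_eq_single (σ⁻¹ l)]
        · simp
        · intro b _ hb
          rw [Finsupp.single_apply, if_neg]
          intro h; apply hb; rw [← h]; simp
        · intro h; exact absurd (Finset.mem_univ _) h
      rw [← MvPolynomial.monomial_sum_one, h4]
    rw [h3]
    by_cases hs : σ = 1
    · subst hs
      simp [MvPolynomial.coeff_monomial]
    · rw [if_neg hs]
      have h4 : Ex r (fun l : ↥(Mo 3 T) => (σ⁻¹ l).1) ≠ Ex r (fun l : ↥(Mo 3 T) => l.1) := by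
        intro h5
        apply hs
        have h7 : σ⁻¹ = 1 := by
          apply Equiv.ext
          intro l
          have h6 := DFunLike.congr_fun h5 l
          rw [Ex_apply, Ex_apply] at h6
          have := hi _ (σ⁻¹ l).2 _ l.2 h6
          exact Subtype.ext this
        exact inv_eq_one.mp h7
      rcases Int.units_eq_one_or (Equiv.Perm.sign σ) with h8 | h8 <;> rw [h8]
      · rw [one_smul, MvPolynomial.coeff_monomial, if_neg h4]
      · rw [Units.neg_smul, one_smul, MvPolynomial.coeff_neg, MvPolynomial.coeff_monomial,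
          if_neg h4, neg_zero]
  rw [Finset.sum_congr rfl (fun σ _ => h2 σ)] at h1
  simp at h1

section main2

variable {r E p : ℕ} {c : (Fin (p + 1) → (Fin 3 → ℕ)) → K}
  {L : Type} [Fintype L] [DecidableEq L] (e : L ↪ Fin (p + 1)) (t0 : Fin (p + 1) → (Fin 3 → ℕ))

open Classical in
/-- sum of the exponents at the places not in the range. -/
noncomputable def tau (r : ℕ) : ℕ := ∑ i ∈ univ.filter (fun i => ¬ ∃ l, e l = i), ex r (t0 i)

omit [DecidableEq L] in
theorem sum_ext (x : L → (Fin 3 → ℕ)) :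
    ∑ i, ex r (ext e t0 x i) = ∑ l, ex r (x l) + tau e t0 r := by
  classical
  rw [← Finset.sum_filter_add_sum_filter_not univ (fun i => ∃ l, e l = i)]
  congr 1
  · have h1 : univ.filter (fun i => ∃ l, e l = i) = univ.map e := by
      ext i; simp
    rw [h1, Finset.sum_map]
    refine Finset.sum_congr rfl (fun l _ => ?_)
    have : ext e t0 x (e l) = x l := e.injective.extend_apply _ _ _
    rw [this]
  · unfold tau
    refine Finset.sum_congr rfl (fun i hi => ?_)
    rw [Finset.mem_filter] at hi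
    have : ext e t0 x i = t0 i := Function.extend_apply' _ _ _ hi.2
    rw [this]

/-- the coefficient of a valid tuple. -/
theorem coef {t : Fin (p + 1) → (Fin 3 → ℕ)}
    (ht : vC r ((p + 1) * (r + 1) + (r - 2)) E ∅ (p + 1) t) :
    ∃ a ∈ Mo 3 (r - 2), ex r a + ∑ i, ex r (t i) = E := by
  obtain ⟨-, -, s, hs0, -, hs1, hs2⟩ := ht
  refine ⟨s, mem_Mo.mpr ?_, hs2⟩
  rw [add_comm] at hs1
  exact Nat.add_left_cancel hs1

/-- the generating polynomials. -/
noncomputable def Wp (c : (Fin (p + 1) → (Fin 3 → ℕ)) → K) (r E : ℕ)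
    (a : Fin 3 → ℕ) : MvPolynomial L K :=
  ∑ x ∈ Fintype.piFinset (fun _ : L => Mo 3 (r + 1)),
    if ex r a + ∑ i, ex r (ext e t0 x i) = E then MvPolynomial.monomial (Ex r x) (c (ext e t0 x))
    else 0

theorem Wp_coeff (x0 : L → (Fin 3 → ℕ)) (h0 : ∀ l, x0 l ∈ Mo 3 (r + 1)) (a : Fin 3 → ℕ)
    (ha : ex r a + ∑ i, ex r (ext e t0 x0 i) = E)
    (hx0 : ∀ x : L → (Fin 3 → ℕ), (∀ l, x l ∈ Mo 3 (r + 1)) → x ≠ x0 →
      (∀ l, ex r (x l) = ex r (x0 l)) → c (ext e t0 x) = 0) :
    MvPolynomial.coeff (Ex r x0) (Wp e t0 c r E a) = c (ext e t0 x0) := by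
  rw [Wp, MvPolynomial.coeff_sum, Finset.sum_eq_single x0]
  · rw [if_pos ha, MvPolynomial.coeff_monomial, if_pos rfl]
  · intro x hxm hx
    split_ifs
    · rw [MvPolynomial.coeff_monomial]
      split_ifs with h2
      · refine hx0 x (Fintype.mem_piFinset.mp hxm) hx (fun l => ?_)
        have := DFunLike.congr_fun h2 l
        simpa only [Ex_apply] using this
      · rfl
    · simp
  · intro h
    exact absurd (Fintype.mem_piFinset.mpr h0) h

theorem Wp_sum (hN : S_PNf) (hr : 1 ≤ r)
    (hi : ∀ v ∈ Mo 3 (r - 2), ∀ v' ∈ Mo 3 (r - 2), ex r v = ex r v' → v = v')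
    (hc : rCh (vC r ((p + 1) * (r + 1) + (r - 2)) E ∅) (p + 1) c)
    (hz : rcyc (Mo 3 (r + 1)) (vC r ((p + 1) * (r + 1) + (r - 2)) E ∅) (p + 1) c) (l : L) :
    ∑ a ∈ Mo 3 (r - 2), MvPolynomial.monomial (Finsupp.single l (ex r a)) (1 : K) *
      Wp e t0 c r E a = 0 := by
  -- expand
  have h1 : ∑ a ∈ Mo 3 (r - 2), MvPolynomial.monomial (Finsupp.single l (ex r a)) (1 : K) *
      Wp e t0 c r E a = ∑ x ∈ Fintype.piFinset (fun _ : L => Mo 3 (r + 1)),
        MvPolynomial.monomial (Finsupp.single l (E - ∑ i, ex r (ext e t0 x i)) + Ex r x)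
          (c (ext e t0 x)) := by
    simp only [Wp, Finset.mul_sum]
    rw [Finset.sum_comm]
    refine Finset.sum_congr rfl (fun x _ => ?_)
    by_cases hx : c (ext e t0 x) = 0
    · rw [hx]
      simp
    · obtain ⟨a0, ha0, ha1⟩ := coef (hc.2 _ hx)
      rw [Finset.sum_eq_single a0]
      · rw [if_pos ha1, MvPolynomial.monomial_mul, one_mul]
        have h2 : ex r a0 = E - ∑ i, ex r (ext e t0 x i) := by omega
        rw [h2]
      · intro b hb hb'
        rw [if_neg, mul_zero]
        intro h3
        apply hb'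
        refine hi b hb a0 ha0 ?_
        omega
      · intro h
        exact absurd ha0 h
  rw [h1]
  -- group by the entries different from `l`
  rw [← Finset.sum_fiberwise_of_maps_to
    (g := fun x : L → (Fin 3 → ℕ) => Function.update x l 0)
    (t := (Fintype.piFinset (fun _ : L => Mo 3 (r + 1))).image (fun x => Function.update x l 0))
    (fun x hx => Finset.mem_image_of_mem _ hx)]
  refine Finset.sum_eq_zero (fun q hq => ?_)
  rw [Finset.mem_image] at hq
  obtain ⟨x1, hx1, rfl⟩ := hq
  rw [Fintype.mem_piFinset] at hx1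
  have h2 : ∑ x ∈ (Fintype.piFinset (fun _ : L => Mo 3 (r + 1))).filter
      (fun x => Function.update x l 0 = Function.update x1 l 0),
        MvPolynomial.monomial (Finsupp.single l (E - ∑ i, ex r (ext e t0 x i)) + Ex r x)
          (c (ext e t0 x)) = ∑ v ∈ Mo 3 (r + 1),
        MvPolynomial.monomial
          (Finsupp.single l (E - ∑ i, ex r (ext e t0 (Function.update x1 l v) i)) +
          Ex r (Function.update x1 l v)) (c (ext e t0 (Function.update x1 l v))) := by
    refine Finset.sum_bij' (fun x _ => x l) (fun v _ => Function.update x1 l v) ?_ ?_ ?_ ?_ ?_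
    · intro x hx
      rw [Finset.mem_filter, Fintype.mem_piFinset] at hx
      exact hx.1 l
    · intro v hv
      rw [Finset.mem_filter, Fintype.mem_piFinset]
      refine ⟨fun l' => ?_, by simp⟩
      by_cases h : l' = l
      · subst h; simpa using hv
      · rw [Function.update_of_ne h]; exact hx1 l'
    · intro x hx
      rw [Finset.mem_filter] at hx
      funext l'
      by_cases h : l' = l
      · subst h; simp
      · rw [Function.update_of_ne h]
        have := congrFun hx.2 l'
        rw [Function.update_of_ne h, Function.update_of_ne h] at this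
        exact this.symm
    · intro v _; simp
    · intro x hx
      rw [Finset.mem_filter] at hx
      have h3 : Function.update x1 l (x l) = x := by
        funext l'
        by_cases h : l' = l
        · subst h; simp
        · rw [Function.update_of_ne h]
          have := congrFun hx.2 l'
          rw [Function.update_of_ne h, Function.update_of_ne h] at this
          exact this.symm
      rw [h3]
  rw [h2]
  -- the exponent does not depend on `v`
  obtain ⟨R, hR⟩ : ∃ R : ℕ, R = ∑ l' ∈ univ.erase l, ex r (x1 l') + tau e t0 r := ⟨_, rfl⟩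
  have h4 : ∀ v, ∑ i, ex r (ext e t0 (Function.update x1 l v) i) = ex r v + R := by
    intro v
    rw [sum_ext, ← Finset.add_sum_erase _ _ (Finset.mem_univ l), Function.update_self, hR,
      add_assoc]
    congr 2
    refine Finset.sum_congr rfl (fun l' hl' => ?_)
    rw [Function.update_of_ne (Finset.ne_of_mem_erase hl')]
  have h5 : ∀ v ∈ Mo 3 (r + 1), MvPolynomial.monomial
      (Finsupp.single l (E - ∑ i, ex r (ext e t0 (Function.update x1 l v) i)) +
          Ex r (Function.update x1 l v)) (c (ext e t0 (Function.update x1 l v))) =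
      MvPolynomial.monomial (Finsupp.equivFunOnFinite.symm
        (fun l' => if l' = l then E - R else ex r (x1 l')))
        (c (ext e t0 (Function.update x1 l v))) := by
    intro v _
    by_cases hx : c (ext e t0 (Function.update x1 l v)) = 0
    · rw [hx]; simp
    · obtain ⟨a0, -, ha1⟩ := coef (hc.2 _ hx)
      rw [h4] at ha1 ⊢
      congr 2
      ext l'
      rw [Finsupp.add_apply, Ex_apply]
      change _ = (if l' = l then E - R else ex r (x1 l'))
      by_cases h : l' = l
      · subst h
        rw [Finsupp.single_eq_same, Function.update_self, if_pos rfl]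
        omega
      · rw [Finsupp.single_eq_of_ne h, Function.update_of_ne h, if_neg h, zero_add]
  rw [Finset.sum_congr rfl h5, ← map_sum]
  have h7 : ∑ v ∈ Mo 3 (r + 1), c (ext e t0 (Function.update x1 l v)) = 0 := by
    simp only [ext_update]
    exact sum_update hN hr hc hz _ _
  rw [h7, map_zero]

end main2

end IPGreen

theorem pr_PGreen (hN : S_PNf) (hCo : S_PCo) : S_PGreen := by
  intro K _ _ r j E hr hj c hc hz t
  classical
  by_contra hne
  obtain ⟨hX, hi⟩ := hCo r hr
  obtain ⟨p, rfl⟩ : ∃ p, j = p + 1 := ⟨j - 1, by omega⟩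
  have hv := hc.2 _ hne
  have hinj : Function.Injective t := by
    intro i k hik
    by_contra h
    exact hne (hc.1.eq_zero h hik)
  obtain ⟨X, hXS, hX3, hX4⟩ := hX (univ.image t) (by
    intro v hv'
    rw [Finset.mem_image] at hv'
    obtain ⟨i, -, rfl⟩ := hv'
    exact hv.1 i)
  -- the places outside `X`
  have hcardX : (univ.filter (fun i => t i ∈ X)).card ≤ 3 := by
    refine le_trans ?_ hX3
    exact Finset.card_le_card_of_injOn t (fun i hi' => by
      have h := (Finset.mem_filter.mp (Finset.mem_coe.mp hi')).2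
      exact Finset.mem_coe.mpr h) (fun i _ k _ h => hinj h)
  have hcard2 : (Mo 3 (r - 2)).card ≤ (univ.filter (fun i => ¬ t i ∈ X)).card := by
    have h := Finset.card_filter_add_card_filter_not (s := (univ : Finset (Fin (p + 1))))
      (fun i => t i ∈ X)
    rw [Finset.card_univ, Fintype.card_fin] at h
    omega
  obtain ⟨e0⟩ : Nonempty (↥(Mo 3 (r - 2)) ↪ ↥(univ.filter (fun i : Fin (p + 1) => ¬ t i ∈ X))) :=
    Function.Embedding.nonempty_of_card_le (by
      rw [Fintype.card_coe, Fintype.card_coe]; exact hcard2)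
  obtain ⟨e, he⟩ : ∃ e : ↥(Mo 3 (r - 2)) ↪ Fin (p + 1), ∀ l, ¬ t (e l) ∈ X :=
    ⟨e0.trans (Function.Embedding.subtype _), fun l => (Finset.mem_filter.mp (e0 l).2).2⟩
  have hdet := IPGreen.det_ne (K := K) (r := r) (T := r - 2) hi
  have hW : (fun a : ↥(Mo 3 (r - 2)) => IPGreen.Wp e t c r E a.1) = 0 := by
    apply Matrix.eq_zero_of_mulVec_eq_zero hdet
    funext l
    simp only [Matrix.mulVec, dotProduct, Matrix.of_apply, Pi.zero_apply]
    have := IPGreen.Wp_sum (E := E) e t hN (by omega) hi hc hz l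
    rw [← Finset.sum_coe_sort] at this
    exact this
  obtain ⟨a, ha, ha1⟩ := IPGreen.coef hv
  have h1 := congrFun hW ⟨a, ha⟩
  simp only [Pi.zero_apply] at h1
  have hself : V.Green.ext e t (fun l => t (e l)) = t := V.Green.ext_self e t
  have h2 := IPGreen.Wp_coeff (c := c) (r := r) (E := E) e t (fun l => t (e l))
    (fun l => hv.1 (e l)) a (by rw [hself]; exact ha1) (by
      intro x hx hne' hex
      obtain ⟨l, hl⟩ : ∃ l, x l ≠ t (e l) := by
        by_contra h
        push_neg at h
        exact hne' (funext h)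
      have h3 := hX4 (t (e l)) (Finset.mem_sdiff.mpr
        ⟨Finset.mem_image_of_mem _ (Finset.mem_univ _), he l⟩) (x l) (hx l) (hex l)
      rcases h3 with h3 | h3
      · exact absurd h3 hl
      · obtain ⟨k, -, hk⟩ := Finset.mem_image.mp (hXS h3)
        have hkr : ¬ ∃ l', e l' = k := by
          rintro ⟨l', rfl⟩
          exact he l' (by rw [hk]; exact h3)
        have h5 : V.Green.ext e t x (e l) = x l := e.injective.extend_apply _ _ _
        have h6 : V.Green.ext e t x k = t k := Function.extend_apply' _ _ _ hkr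
        refine hc.1.eq_zero (i := e l) (j := k) (fun h => hkr ⟨l, h⟩) ?_
        rw [h5, h6, hk])
  rw [h1, hself] at h2
  exact hne (by rw [← h2]; simp)

end Pool.Agent.Work.MP_1233f5_ag.Q
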