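import Pool.Agent.Work.MP_1233f5_ag.Q.Stmts

/-! MP_1233f5_ag, block Q: the item PL. -/

set_option autoImplicit false

namespace Pool.Agent.Work.MP_1233f5_ag.Q

theorem pr_PL (hPLb : S_PLb) (hPLF : S_PLF) : S_PL := by
  intro K _ _ α _ _ H _ _ ρ r j
  induction j with
  | zero =>
    intro τ hr hj P T G hG
    refine hPLF K α H ρ r 0 τ P T G hr (by omega) hG ?_
    exact hPLb K α H ρ r 0 τ P T G hr hj hG (fun j' hj' => by omega)
  | succ j ih =>
    intro τ hr hj P T G hG
    refine hPLF K α H ρ r (j + 1) τ P T G hr (by omega) hG ?_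
    refine hPLb K α H ρ r (j + 1) τ P T G hr hj hG (fun j' hj' => ?_)
    obtain rfl : j = j' := by omega
    exact ih (τ + 1) hr (by omega)

end Pool.Agent.Work.MP_1233f5_ag.Q
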