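import Pool.Agent.Work.MP_1233f5_ag.Q.Stmts

/-! MP_1233f5_ag, block Q, item PLa: one letter of `Q` in the sets. -/

set_option autoImplicit false

namespace Pool.Agent.Work.MP_1233f5_ag.Q

open Finset
open Pool.Agent.Work.MP_1233f5_ag.Y

namespace IPLa

variable {α : Type} [DecidableEq α]

theorem cns_tail {β : Type} (n : ℕ → β) : cns (n 0) (fun k => n (k + 1)) = n := by
  funext k
  unfold cns
  rcases Nat.eq_zero_or_pos k with h | h
  · subst h; simp
  · have h1 : k ≠ 0 := by omega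
    have h2 : k - 1 + 1 = k := by omega
    simp [h1, h2]

theorem mem_rs (P : Finset α) (j : ℕ) (n : ℕ → Finset α) (a : α) :
    a ∈ rs P j n ↔ a ∈ P ∧ ∀ i < j, a ∉ n i := by
  unfold rs
  simp only [mem_sdiff, mem_biUnion, mem_range, not_exists, not_and]

theorem mem_tt (τ : ℕ) (T : ℕ → Finset α) (a : α) :
    a ∈ tt τ T ↔ ∃ i < τ, a ∈ T i := by
  unfold tt
  simp only [mem_biUnion, mem_range]

theorem mem_tt_succ (τ : ℕ) (T : ℕ → Finset α) (Y : Finset α) (a : α) :
    a ∈ tt (τ + 1) (Function.update T τ Y) ↔ a ∈ tt τ T ∨ a ∈ Y := by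
  rw [mem_tt, mem_tt]
  constructor
  · rintro ⟨i, hi, ha⟩
    rcases Nat.lt_succ_iff_lt_or_eq.1 hi with h | h
    · left
      refine ⟨i, h, ?_⟩
      rwa [Function.update_of_ne (by omega)] at ha
    · right
      subst h
      rwa [Function.update_self] at ha
  · rintro (⟨i, hi, ha⟩ | ha)
    · refine ⟨i, by omega, ?_⟩
      rwa [Function.update_of_ne (by omega)]
    · refine ⟨τ, by omega, ?_⟩
      rwa [Function.update_self]

/-- the case `i = 0`. -/
theorem zero_case {K : Type} [Field K] [CharZero K] [Fintype α] {H : Type}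
    [AddCommGroup H] [Module K H] (hF : S_Frz4) (ρ : Equiv.Perm α →* Module.End K H)
    (r j τ : ℕ) (P : Finset α) (T : ℕ → Finset α) (G : (ℕ → Finset α) → (Lx K α →ₗ[K] H))
    (hr : 1 ≤ r) (hG : GA ρ r (j + 1) τ P T G) (hPL : PLh ρ r j (τ + 1)) (n : ℕ → Finset α)
    (hn : NV r P (j + 1) n) (y : Lx K α)
    (hy : y ∈ Cy K (r + 1) (rs P (j + 1) n ∪ tt τ T) (2 * r + 1))
    (l : α) (hl : l ∈ n 0) (Y : Finset α) (hY : Y ⊆ rs P (j + 1) n) (hY3 : Y.card = 3) :
    asym ρ (insert l Y) (G n y) = 0 := by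
  have h0 : insert l ((n 0).erase l) = n 0 := insert_erase hl
  have hlP : l ∈ P := hn.sub 0 (by omega) hl
  have hYP : Y ⊆ P := fun a ha => ((mem_rs P (j + 1) n a).1 (hY ha)).1
  have hYn : ∀ a ∈ Y, ∀ i < j + 1, a ∉ n i := fun a ha => ((mem_rs P (j + 1) n a).1 (hY ha)).2
  have hgP : (n 0).erase l ⊆ P := (erase_subset _ _).trans (hn.sub 0 (by omega))
  have hlY : l ∉ Y := fun h => hYn l h 0 (by omega) hl
  have hlg : l ∉ (n 0).erase l := notMem_erase l _
  have hdis : Disjoint Y ((n 0).erase l) := by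
    rw [disjoint_left]
    intro a ha hb
    exact hYn a ha 0 (by omega) (mem_of_mem_erase hb)
  have hgc : ((n 0).erase l).card + 1 = r := by
    rw [card_erase_add_one hl]
    exact hn.card 0 (by omega)
  have key := hF K α H ρ r j τ P T G l Y ((n 0).erase l) hr hG hlP hYP hgP hlY hlg hdis hY3 hgc
  have hNV : NV r (P \ (insert l Y ∪ (n 0).erase l)) j (fun k => n (k + 1)) := by
    refine ⟨fun i hi => hn.card (i + 1) (by omega), ?_, ?_⟩
    · intro i hi a ha
      have ha' : a ∈ n (i + 1) := ha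
      rw [mem_sdiff, mem_union, mem_insert, mem_erase]
      refine ⟨hn.sub (i + 1) (by omega) ha', ?_⟩
      have hd : Disjoint (n 0) (n (i + 1)) := hn.dis 0 (by omega) (i + 1) (by omega) (by omega)
      have ha0 : a ∉ n 0 := fun h => (disjoint_left.1 hd) h ha'
      rintro ((h | h) | h)
      · subst h; exact ha0 hl
      · exact hYn a h (i + 1) (by omega) ha'
      · exact ha0 h.2
    · intro i hi k hk hik
      exact hn.dis (i + 1) (by omega) (k + 1) (by omega) (by omega)
  have hset : rs (P \ (insert l Y ∪ (n 0).erase l)) j (fun k => n (k + 1)) ∪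
      tt (τ + 1) (Function.update T τ Y) = rs P (j + 1) n ∪ tt τ T := by
    ext a
    rw [mem_union, mem_union, mem_rs, mem_rs, mem_tt_succ, mem_sdiff, mem_union, mem_insert,
      mem_erase]
    constructor
    · rintro (⟨⟨h1, h2⟩, h3⟩ | h | h)
      · left
        refine ⟨h1, ?_⟩
        intro i hi hai
        rcases Nat.eq_zero_or_pos i with h | h
        · subst h
          apply h2
          by_cases hal : a = l
          · exact Or.inl (Or.inl hal)
          · exact Or.inr ⟨hal, hai⟩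
        · have h4 := h3 (i - 1) (by omega)
          apply h4
          have h5 : i - 1 + 1 = i := by omega
          change a ∈ n (i - 1 + 1)
          rw [h5]; exact hai
      · right; exact h
      · left
        exact ⟨hYP h, hYn a h⟩
    · rintro (⟨h1, h2⟩ | h)
      · by_cases haY : a ∈ Y
        · right; right; exact haY
        · left
          refine ⟨⟨h1, ?_⟩, fun i hi => h2 (i + 1) (by omega)⟩
          rintro ((h | h) | h)
          · subst h; exact h2 0 (by omega) hl
          · exact haY h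
          · exact h2 0 (by omega) h.2
      · right; left; exact h
  have hy' : y ∈ Cy K (r + 1) (rs (P \ (insert l Y ∪ (n 0).erase l)) j (fun k => n (k + 1)) ∪
      tt (τ + 1) (Function.update T τ Y)) (2 * r + 1) := by
    rw [hset]; exact hy
  have hz := hPL _ _ _ key _ hNV y hy'
  have hz' : asym ρ (insert l Y) (G (cns (insert l ((n 0).erase l)) (fun k => n (k + 1))) y) = 0 :=
    hz
  rw [h0, cns_tail n] at hz'
  exact hz'

end IPLa

open IPLa in
theorem pr_PLa (hF : S_Frz4) : S_PLa := by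
  intro K _ _ α _ _ H _ _ ρ r j τ P T G hr hG hPL n hn y hy i hi l hl Y hY hY3
  -- move the index `i` to `0`
  let σ : Equiv.Perm (Fin (j + 1)) := Equiv.swap ⟨0, by omega⟩ ⟨i, hi⟩
  let n' : ℕ → Finset α := fun k => if h : k < j + 1 then n ((σ ⟨k, h⟩ : Fin (j + 1)) : ℕ) else n k
  have hn' : ∀ k : Fin (j + 1), n' (k : ℕ) = n ((σ k : Fin (j + 1)) : ℕ) := by
    intro k
    show (if h : (k : ℕ) < j + 1 then n ((σ ⟨(k : ℕ), h⟩ : Fin (j + 1)) : ℕ) else n k) = _
    rw [dif_pos k.2]
  have hGn : G n' = G n := hG.sym σ n n' hn'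
  have hn'0 : n' 0 = n i := by
    have h := hn' ⟨0, by omega⟩
    have h2 : σ ⟨0, by omega⟩ = ⟨i, hi⟩ := Equiv.swap_apply_left _ _
    rw [h2] at h
    exact h
  have hval : ∀ k < j + 1, ∃ k' < j + 1, n' k = n k' := by
    intro k hk
    exact ⟨_, (σ ⟨k, hk⟩).2, hn' ⟨k, hk⟩⟩
  have hval' : ∀ k < j + 1, ∃ k' < j + 1, n k = n' k' := by
    intro k hk
    refine ⟨((σ.symm ⟨k, hk⟩ : Fin (j + 1)) : ℕ), (σ.symm ⟨k, hk⟩).2, ?_⟩
    rw [hn' (σ.symm ⟨k, hk⟩), Equiv.apply_symm_apply]
  have hNV : NV r P (j + 1) n' := by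
    refine ⟨?_, ?_, ?_⟩
    · intro k hk
      obtain ⟨k', hk', he⟩ := hval k hk
      rw [he]; exact hn.card k' hk'
    · intro k hk
      obtain ⟨k', hk', he⟩ := hval k hk
      rw [he]; exact hn.sub k' hk'
    · intro a ha b hb hab
      have ea := hn' ⟨a, ha⟩
      have eb := hn' ⟨b, hb⟩
      have h1 : n' a = n ((σ ⟨a, ha⟩ : Fin (j + 1)) : ℕ) := ea
      have h2 : n' b = n ((σ ⟨b, hb⟩ : Fin (j + 1)) : ℕ) := eb
      rw [h1, h2]
      apply hn.dis _ (σ ⟨a, ha⟩).2 _ (σ ⟨b, hb⟩).2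
      intro h
      have h3 := σ.injective (Fin.ext h)
      exact hab (congrArg Fin.val h3)
  have hrs : rs P (j + 1) n' = rs P (j + 1) n := by
    ext a
    rw [mem_rs, mem_rs]
    constructor
    · rintro ⟨h1, h2⟩
      refine ⟨h1, fun k hk => ?_⟩
      obtain ⟨k', hk', he⟩ := hval' k hk
      rw [he]; exact h2 k' hk'
    · rintro ⟨h1, h2⟩
      refine ⟨h1, fun k hk => ?_⟩
      obtain ⟨k', hk', he⟩ := hval k hk
      rw [he]; exact h2 k' hk'
  have hmain := zero_case hF ρ r j τ P T G hr hG hPL n' hNV y (by rw [hrs]; exact hy) l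
    (by rw [hn'0]; exact hl) Y (by rw [hrs]; exact hY) hY3
  rw [hGn] at hmain
  exact hmain

end Pool.Agent.Work.MP_1233f5_ag.Q
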