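import Pool.Agent.Work.MP_1233f5_ag.Q.StmtsP

/-! MP_1233f5_ag, block Q, item PLift (helper9): passing to the quotient by one more power on the
curve `x^r = y^(r-1) z` (copy of `V.pr_Lift`). -/

set_option autoImplicit false

namespace Pool.Agent.Work.MP_1233f5_ag.Q

open Finset
open Pool.Agent.Work.MP_1233f5_ag.V (Alt wdg dd_wdg dd_wdg_zero dd_dd Mo dd rCh rcyc rVan rNo
  Lift_single_mem)

namespace IPLift

theorem perm (r D E : ℕ) (J : Finset (Fin 3)) {p : ℕ}
    (t : Fin p → (Fin 3 → ℕ)) (σ : Equiv.Perm (Fin p)) :
    vC r D E J p (t ∘ σ) ↔ vC r D E J p t := by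
  have hs : ∑ i, ex r ((t ∘ σ) i) = ∑ i, ex r (t i) := Equiv.sum_comp σ (fun i => ex r (t i))
  unfold vC
  rw [hs]
  have h1 : (∀ i, (t ∘ σ) i ∈ Mo 3 (r + 1)) ↔ ∀ i, t i ∈ Mo 3 (r + 1) :=
    ⟨fun h i => by simpa using h (σ.symm i), fun h i => h (σ i)⟩
  have h2 : ∀ j, (∀ i, (t ∘ σ) i ≠ Pi.single j (r + 1)) ↔ ∀ i, t i ≠ Pi.single j (r + 1) :=
    fun j => ⟨fun h i => by simpa using h (σ.symm i), fun h i => h (σ i)⟩
  rw [h1]
  simp only [h2]

theorem sum_Mo {d : ℕ} {v : Fin 3 → ℕ} (h : v ∈ Mo 3 d) : ∑ a, v a = d := by
  unfold Mo at h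
  exact (mem_piAntidiag.mp h).1

theorem ex_add (r : ℕ) (u v : Fin 3 → ℕ) : ex r (u + v) = ex r u + ex r v := by
  unfold ex
  simp only [Pi.add_apply]
  ring

end IPLift

theorem pr_PLift (hNf : S_PNf) : S_PLift := by
  classical
  intro K _ _ r Dg E p J i hr hi0 h0J hiJ hno
  obtain ⟨-, hN2, hN3⟩ := hNf r hr
  have hsub : ∀ (q : ℕ) (t : Fin q → (Fin 3 → ℕ)), vC r Dg E (insert i J) q t →
      vC r Dg E J q t := by
    rintro q t ⟨h1, h2, s, h3, h4, h5, h6⟩
    exact ⟨h1, fun j hj => h2 j (mem_insert_of_mem hj), s, h3,
      fun j hj => h4 j (mem_insert_of_mem hj), h5, h6⟩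
  rcases p with _ | k
  · intro c hc _ t
    exact hno c ⟨hc.1, fun t' ht' => hsub _ _ (hc.2 t' ht')⟩ trivial t
  · intro c hc hcyc t0
    set M := Mo 3 (r + 1) with hM
    set b : Fin 3 → ℕ := Pi.single i (r + 1) with hb
    have hbM : b ∈ M := Lift_single_mem (r + 1) i
    set D : (Fin k → (Fin 3 → ℕ)) → K := dd M c with hD
    let f : (Fin (k + 1) → (Fin 3 → ℕ)) → K := fun t => c t - wdg b D t
    let g : (Fin (k + 1) → (Fin 3 → ℕ)) → K :=
      fun t => if vC r Dg E J (k + 1) t then f t else 0
    have hDalt : Alt k D := hc.1.dd M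
    have hfalt : Alt (k + 1) f := hc.1.sub (hDalt.wdg b)
    have hgalt : Alt (k + 1) g := by
      intro σ t
      by_cases h : vC r Dg E J (k + 1) t
      · have h' : vC r Dg E J (k + 1) (t ∘ σ) := (IPLift.perm r Dg E J t σ).mpr h
        simp only [g, if_pos h, if_pos h', hfalt σ t]
      · have h' : ¬ vC r Dg E J (k + 1) (t ∘ σ) :=
          fun h' => h ((IPLift.perm r Dg E J t σ).mp h')
        simp only [g, if_neg h, if_neg h', mul_zero]
    -- the claim
    have claim : ∀ (t : Fin k → (Fin 3 → ℕ)), vC r Dg E J k t → ∀ b' ∈ M,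
        f (Fin.cons b' t) ≠ 0 → vC r Dg E J (k + 1) (Fin.cons b' t) := by
      intro t ht b' hb' hf
      by_cases hc0 : c (Fin.cons b' t) = 0
      · have hw : wdg b D (Fin.cons b' t) ≠ 0 := by
          intro h
          apply hf
          simp only [f, hc0, h, sub_zero]
        unfold wdg at hw
        obtain ⟨m, -, hm⟩ := Finset.exists_ne_zero_of_sum_ne_zero hw
        have hmb : (Fin.cons b' t : Fin (k + 1) → (Fin 3 → ℕ)) m = b := by
          by_contra h
          exact hm (if_neg h)
        rw [if_pos hmb] at hm
        set s : Fin k → (Fin 3 → ℕ) := m.removeNth (Fin.cons b' t : Fin (k + 1) → (Fin 3 → ℕ))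
          with hs
        have hDs : D s ≠ 0 := right_ne_zero_of_mul hm
        have hDs' := hDs
        rw [hD] at hDs'
        unfold dd at hDs'
        obtain ⟨b'', hb'', hcb⟩ := Finset.exists_ne_zero_of_sum_ne_zero hDs'
        obtain ⟨hGM, hGne, s'', hs0, hsJ, hsD, hsE⟩ := hc.2 _ hcb
        obtain ⟨htM, htne, ft, hf0, hfJ, hfD, hfE⟩ := ht
        -- sums of the exponents
        have hex : ex r b' + ∑ l, ex r (t l) = ex r b + ∑ l, ex r (s l) := by
          have h1 : ∑ l, ex r ((Fin.cons b' t : Fin (k + 1) → (Fin 3 → ℕ)) l)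
              = ex r b' + ∑ l, ex r (t l) := by
            rw [Fin.sum_univ_succ]
            simp
          have h2 : ∑ l, ex r ((Fin.cons b' t : Fin (k + 1) → (Fin 3 → ℕ)) l)
              = ex r b + ∑ l, ex r (s l) := by
            rw [Fin.sum_univ_succAbove _ m, hmb]
            rfl
          rw [← h1, h2]
        have hsMo : ∀ l, s l ∈ Mo 3 (r + 1) := by
          intro l
          have := hGM l.succ
          simpa using this
        have hsne : ∀ j ∈ insert i J, ∀ l, s l ≠ Pi.single j (r + 1) := by
          intro j hj l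
          have := hGne j hj l.succ
          simpa using this
        rw [Fin.sum_univ_succ] at hsE
        simp only [Fin.cons_zero, Fin.cons_succ] at hsE
        -- the coefficient of `s`
        obtain ⟨e, he0, heD, heE, -, -⟩ := hN3 (s'' + b'')
        rw [IPLift.ex_add] at heE
        have hb''s : ∑ a, b'' a = r + 1 := IPLift.sum_Mo hb''
        have hb's : ∑ a, b' a = r + 1 := IPLift.sum_Mo hb'
        have hbs : ∑ a, b a = r + 1 := IPLift.sum_Mo hbM
        have heD' : ∑ a, e a = ∑ a, s'' a + ∑ a, b'' a := by
          rw [heD, ← Finset.sum_add_distrib]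
          rfl
        have heD2 : ∑ a, e a + k * (r + 1) = Dg := by
          have h1 : (k + 1) * (r + 1) = k * (r + 1) + (r + 1) := by ring
          rw [h1] at hsD
          omega
        have heE2 : ex r e + ∑ l, ex r (s l) = E := by omega
        have hnot : ¬ vC r Dg E (insert i J) k s := fun h => hDs (hcyc s h)
        have hexj : ∃ j ∈ insert i J, r < e j := by
          by_contra hcon
          push Not at hcon
          exact hnot ⟨hsMo, hsne, e, he0, hcon, heD2, heE2⟩
        have hbj : ∀ j, j ≠ i → b j = 0 := fun j hj => by simp [hb, hj]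
        have hbi : b i = r + 1 := by simp [hb]
        -- comparison of the normal forms
        have hF0 : (ft + b) 0 < r := by
          rw [Pi.add_apply, hbj 0 (Ne.symm hi0), add_zero]
          exact hf0
        have hFD : ∑ a, (ft + b) a = ∑ a, e a + ∑ a, b' a := by
          have h1 : ∑ a, (ft + b) a = ∑ a, ft a + ∑ a, b a := by
            rw [← Finset.sum_add_distrib]
            rfl
          rw [h1]
          omega
        have hFE : ex r (ft + b) = ex r e + ex r b' := by
          rw [IPLift.ex_add]
          omega
        obtain ⟨hF1, hF2⟩ := hN2 (ft + b) e b' hF0 hFD hFE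
        have hle : ∀ j : Fin 3, j ≠ 0 → e j ≤ ft j + b j := by
          intro j hj
          rw [Pi.add_apply] at hF1 hF2
          fin_cases j
          · exact absurd rfl hj
          · show e 1 ≤ ft 1 + b 1
            omega
          · show e 2 ≤ ft 2 + b 2
            omega
        have heJ : ∀ j ∈ J, e j ≤ r := by
          intro j hj
          have hj0 : j ≠ 0 := fun h => h0J (h ▸ hj)
          have hji : j ≠ i := fun h => hiJ (h ▸ hj)
          have h1 := hle j hj0
          rw [hbj j hji, add_zero] at h1
          exact h1.trans (hfJ j hj)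
        have hei : r + 1 ≤ e i := by
          obtain ⟨j, hj, hlt⟩ := hexj
          rcases mem_insert.mp hj with h | h
          · rw [h] at hlt
            exact hlt
          · exact absurd (heJ j h) (not_le.mpr hlt)
        -- the coefficient of `cons b' t`
        have hge : (e - b) + b = e := by
          funext a
          show e a - b a + b a = e a
          by_cases ha : a = i
          · rw [ha, hbi]
            omega
          · rw [hbj a ha]
            omega
        have hgD : ∑ a, (e - b) a + (r + 1) = ∑ a, e a := by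
          rw [← hbs, ← Finset.sum_add_distrib]
          exact Finset.sum_congr rfl fun a _ => congrFun hge a
        have hgE : ex r (e - b) + ex r b = ex r e := by
          rw [← IPLift.ex_add, hge]
        refine ⟨?_, ?_, e - b, ?_, ?_, ?_, ?_⟩
        · intro l
          refine Fin.cases ?_ (fun l => ?_) l
          · simpa using hb'
          · simpa using htM l
        · intro j' hj' l
          have hne : j' ≠ i := fun h => hiJ (h ▸ hj')
          rcases eq_or_ne l m with rfl | hlm
          · rw [hmb, hb]
            intro h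
            have h1 := congrFun h i
            rw [Pi.single_eq_same, Pi.single_eq_of_ne hne.symm] at h1
            omega
          · obtain ⟨l', rfl⟩ := Fin.exists_succAbove_eq hlm
            exact hsne j' (mem_insert_of_mem hj') l'
        · show e 0 - b 0 < r
          omega
        · intro j hj
          show e j - b j ≤ r
          have := heJ j hj
          omega
        · have h1 : (k + 1) * (r + 1) = k * (r + 1) + (r + 1) := by ring
          rw [h1]
          omega
        · rw [Fin.sum_univ_succ]
          simp only [Fin.cons_zero, Fin.cons_succ]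
          omega
      · exact hsub _ _ (hc.2 _ hc0)
    have hgcyc : rcyc M (vC r Dg E J) (k + 1) g := by
      intro t ht
      have h1 : dd M g t = dd M f t := by
        unfold dd
        refine Finset.sum_congr rfl fun b' hb' => ?_
        by_cases h : vC r Dg E J (k + 1) (Fin.cons b' t)
        · simp only [g, if_pos h]
        · simp only [g, if_neg h]
          by_contra hne
          exact h (claim t ht b' hb' (Ne.symm hne))
      rw [h1]
      have h2 : dd M f t = D t - dd M (wdg b D) t := by
        simp only [f, hD, dd]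
        rw [← Finset.sum_sub_distrib]
      rw [h2]
      rcases k with _ | k'
      · rw [dd_wdg_zero M hbM D t, sub_self]
      · have h3 := dd_wdg M hbM D t
        have h4 : wdg b (dd M D) t = 0 := by
          unfold wdg
          refine Finset.sum_eq_zero fun l _ => ?_
          split_ifs
          · rw [hD, dd_dd M hc.1, mul_zero]
          · rfl
        rw [h4, add_zero] at h3
        rw [h3, sub_self]
    have hg0 := hno g ⟨hgalt, fun t ht => by
      by_contra h
      exact ht (if_neg h)⟩ hgcyc
    by_contra hne
    have hG' := hc.2 t0 hne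
    have h1 := hg0 t0
    simp only [g, if_pos (hsub _ _ hG'), f] at h1
    have h2 : wdg b D t0 = 0 := by
      unfold wdg
      refine Finset.sum_eq_zero fun l _ => ?_
      rw [if_neg]
      exact hG'.2.1 i (mem_insert_self _ _) l
    rw [h2, sub_zero] at h1
    exact hne h1

end Pool.Agent.Work.MP_1233f5_ag.Q
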