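import Pool.Agent.Work.MP_1233f5_ag.Q.StmtsP

/-! MP_1233f5_ag, block Q, item PNf: normal forms on the curve (helper90). -/

set_option autoImplicit false

namespace Pool.Agent.Work.MP_1233f5_ag.Q

namespace IPNf

theorem key2 {r a a' c c' : ℕ} (ha : a < r) (h : a + r * c = a' + r * c') : c' ≤ c := by
  by_contra hlt
  push Not at hlt
  obtain ⟨k, rfl⟩ := Nat.exists_eq_add_of_lt hlt
  have : r * (c + k + 1) = r * c + r * k + r := by ring
  have h0 : 0 ≤ r * k := Nat.zero_le _
  omega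

theorem key1 {r a a' c c' : ℕ} (ha : a < r) (ha' : a' < r) (h : a + r * c = a' + r * c') :
    c = c' ∧ a = a' := by
  have h1 := key2 ha h
  have h2 := key2 ha' h.symm
  have h3 : c = c' := le_antisymm h2 h1
  subst h3
  exact ⟨rfl, by omega⟩

end IPNf

theorem pr_PNf : S_PNf := by
  intro r hr
  refine ⟨?_, ?_, ?_⟩
  · intro s s' h0 h0' hs he
    simp only [Fin.sum_univ_three] at hs
    unfold ex at he
    obtain ⟨h2, h1⟩ := IPNf.key1 h0 h0' he
    funext i
    fin_cases i
    · exact h1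
    · change s 1 = s' 1
      omega
    · exact h2
  · intro s s' b h0 hs he
    simp only [Fin.sum_univ_three] at hs
    unfold ex at he
    have he' : s 0 + r * s 2 = (s' 0 + b 0) + r * (s' 2 + b 2) := by
      rw [he]; ring
    have h2 := IPNf.key2 h0 he'
    refine ⟨?_, h2⟩
    obtain ⟨k, hk⟩ := Nat.exists_eq_add_of_le h2
    obtain ⟨q, rfl⟩ := Nat.exists_eq_add_of_le hr
    rw [hk] at he' hs
    have h3 : (1 + q) * (s' 2 + b 2 + k) = (1 + q) * (s' 2 + b 2) + (k + q * k) := by ring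
    rw [h3] at he'
    have h4 : 0 ≤ q * k := Nat.zero_le _
    omega
  · intro s'
    have hr0 : 0 < r := hr
    refine ⟨![s' 0 % r, s' 1 + (r - 1) * (s' 0 / r), s' 2 + s' 0 / r], ?_, ?_, ?_, ?_, ?_⟩
    · simpa using Nat.mod_lt _ hr0
    · simp only [Fin.sum_univ_three]
      change s' 0 % r + (s' 1 + (r - 1) * (s' 0 / r)) + (s' 2 + s' 0 / r) = s' 0 + s' 1 + s' 2
      have h := Nat.mod_add_div (s' 0) r
      obtain ⟨q, rfl⟩ := Nat.exists_eq_add_of_le hr
      have h5 : 1 + q - 1 = q := by omega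
      rw [h5]
      have h6 : (1 + q) * (s' 0 / (1 + q)) = s' 0 / (1 + q) + q * (s' 0 / (1 + q)) := by ring
      rw [h6] at h
      omega
    · change s' 0 % r + r * (s' 2 + s' 0 / r) = s' 0 + r * s' 2
      have h := Nat.mod_add_div (s' 0) r
      have h6 : r * (s' 2 + s' 0 / r) = r * s' 2 + r * (s' 0 / r) := by ring
      rw [h6]
      omega
    · change s' 1 ≤ s' 1 + (r - 1) * (s' 0 / r)
      exact Nat.le_add_right _ _
    · change s' 2 ≤ s' 2 + s' 0 / r
      exact Nat.le_add_right _ _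

end Pool.Agent.Work.MP_1233f5_ag.Q
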