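import Pool.Agent.Work.MP_1233f5_ag.Q.StmtsP

/-! MP_1233f5_ag, block Q, item PRS (helper82): from the quotient by one more power back. -/

set_option autoImplicit false

namespace Pool.Agent.Work.MP_1233f5_ag.Q

open Finset
open Pool.Agent.Work.MP_1233f5_ag.V
open Pool.Agent.Work.MP_1233f5_ag.Y

namespace IPRS

theorem cons_sum_apply {n q : ℕ} (b : Fin n → ℕ) (t : Fin q → (Fin n → ℕ)) (j : Fin n) :
    (∑ k, (Fin.cons b t : Fin (q + 1) → (Fin n → ℕ)) k j) = b j + ∑ k, t k j := by
  rw [Fin.sum_univ_succ]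
  simp

theorem ex_add (r : ℕ) (s b : Fin 3 → ℕ) : ex r (s + b) = ex r s + ex r b := by
  unfold ex
  simp only [Pi.add_apply]
  ring

theorem sum_add3 (s b : Fin 3 → ℕ) : ∑ a, (s + b) a = ∑ a, s a + ∑ a, b a := by
  simp only [Pi.add_apply, Finset.sum_add_distrib]

theorem mem_sum {d : ℕ} {b : Fin 3 → ℕ} (h : b ∈ Mo 3 d) : ∑ a, b a = d := by
  simpa [Mo, Finset.mem_piAntidiag] using h

theorem ex_cons (r : ℕ) {q : ℕ} (b : Fin 3 → ℕ) (t : Fin q → (Fin 3 → ℕ)) :
    ∑ k, ex r ((Fin.cons b t : Fin (q + 1) → (Fin 3 → ℕ)) k) = ex r b + ∑ k, ex r (t k) := by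
  rw [Fin.sum_univ_succ]
  simp

theorem single_mem {n d : ℕ} (i : Fin n) : (Pi.single i d : Fin n → ℕ) ∈ Mo n d := by
  simp [Mo, Finset.mem_piAntidiag]

theorem vC_perm {r D E q : ℕ} {J : Finset (Fin 3)} (σ : Equiv.Perm (Fin q))
    (t : Fin q → (Fin 3 → ℕ)) : vC r D E J q (t ∘ σ) ↔ vC r D E J q t := by
  have h1 : ∑ k, ex r ((t ∘ σ) k) = ∑ k, ex r (t k) := by
    simpa using Equiv.sum_comp σ (fun k => ex r (t k))
  unfold vC
  rw [h1]
  constructor
  · rintro ⟨a1, a2, a3⟩
    refine ⟨fun k => ?_, fun j hj k => ?_, a3⟩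
    · have := a1 (σ.symm k); simpa using this
    · have := a2 j hj (σ.symm k); simpa using this
  · rintro ⟨a1, a2, a3⟩
    exact ⟨fun k => a1 _, fun j hj k => a2 j hj _, a3⟩

/-- `G'` implies `G`. -/
theorem vC_mono {r D E q : ℕ} {J : Finset (Fin 3)} {i : Fin 3}
    {t : Fin q → (Fin 3 → ℕ)} (h : vC r D E (insert i J) q t) : vC r D E J q t := by
  obtain ⟨a1, a2, s, s0, sJ, sD, sE⟩ := h
  exact ⟨a1, fun j hj => a2 j (mem_insert_of_mem hj), s, s0,
    fun j hj => sJ j (mem_insert_of_mem hj), sD, sE⟩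

theorem nf_le (hP : S_PNf) {r : ℕ} (hr : 1 ≤ r) {s s' b : Fin 3 → ℕ} (h0 : s 0 < r)
    (h1 : ∑ a, s a = ∑ a, s' a + ∑ a, b a) (h2 : ex r s = ex r s' + ex r b) {j : Fin 3}
    (hj : j ≠ 0) : s' j + b j ≤ s j := by
  obtain ⟨h3, h4⟩ := (hP r hr).2.1 s s' b h0 h1 h2
  fin_cases j
  · exact absurd rfl hj
  · exact h3
  · exact h4

theorem lemA (hP : S_PNf) {r D E q : ℕ} (hr : 1 ≤ r) {J : Finset (Fin 3)} {i : Fin 3}
    (hi0 : i ≠ 0) (_hJ0 : (0 : Fin 3) ∉ J)
    {t : Fin q → (Fin 3 → ℕ)} {b' : Fin 3 → ℕ} (h : vC r D E (insert i J) q t)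
    (h' : vC r D E J (q + 1) (Fin.cons b' t)) :
    vC r D E (insert i J) (q + 1) (Fin.cons b' t) := by
  obtain ⟨a1, a2, s, s0, sJ, sD, sE⟩ := h
  obtain ⟨a1', a2', s', s0', sJ', sD', sE'⟩ := h'
  have hb : ∑ a, b' a = r + 1 := by
    have := a1' 0
    rw [Fin.cons_zero] at this
    exact mem_sum this
  rw [ex_cons] at sE'
  have key : s' i + b' i ≤ s i := by
    refine nf_le hP hr s0 ?_ ?_ hi0
    · rw [hb]
      have e : (q + 1) * (r + 1) = q * (r + 1) + (r + 1) := by ring
      omega
    · omega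
  have hsi := sJ i (mem_insert_self i J)
  refine ⟨a1', fun j hj => ?_, s', s0', fun j hj => ?_, sD', ?_⟩
  · rcases mem_insert.mp hj with rfl | hj
    · intro k
      refine Fin.cases ?_ (fun k => ?_) k
      · intro e
        rw [Fin.cons_zero] at e
        rw [e, Pi.single_eq_same] at key
        omega
      · rw [Fin.cons_succ]; exact a2 j (mem_insert_self j J) k
    · exact a2' j hj
  · rcases mem_insert.mp hj with rfl | hj
    · omega
    · exact sJ' j hj
  · rw [ex_cons]; exact sE'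

theorem lemB (hP : S_PNf) {r D E q : ℕ} (hr : 1 ≤ r) {J : Finset (Fin 3)}
    (hJ0 : (0 : Fin 3) ∉ J)
    {t : Fin q → (Fin 3 → ℕ)} {b' b'' : Fin 3 → ℕ} (h : vC r D E J q t)
    (h' : vC r D E J (q + 2) (Fin.cons b'' (Fin.cons b' t : Fin (q + 1) → (Fin 3 → ℕ)))) :
    vC r D E J (q + 1) (Fin.cons b' t) := by
  obtain ⟨a1, a2, s, s0, sJ, sD, sE⟩ := h
  obtain ⟨a1', a2', s', s0', sJ', sD', sE'⟩ := h'
  have hb'' : ∑ a, b'' a = r + 1 := by
    have := a1' 0
    rw [Fin.cons_zero] at this
    exact mem_sum this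
  have hb' : ∑ a, b' a = r + 1 := by
    have := a1' 1
    exact mem_sum this
  rw [ex_cons, ex_cons] at sE'
  obtain ⟨s1, s10, s1D, s1E, -, -⟩ := (hP r hr).2.2 (s' + b'')
  rw [sum_add3] at s1D
  rw [ex_add] at s1E
  have e2 : (q + 2) * (r + 1) = q * (r + 1) + (r + 1) + (r + 1) := by ring
  have e1 : (q + 1) * (r + 1) = q * (r + 1) + (r + 1) := by ring
  refine ⟨fun k => ?_, fun j hj k => ?_, s1, s10, fun j hj => ?_, ?_, ?_⟩
  · have := a1' k.succ
    rwa [Fin.cons_succ] at this
  · have := a2' j hj k.succ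
    rwa [Fin.cons_succ] at this
  · have key : s1 j + b' j ≤ s j := by
      refine nf_le hP hr s0 ?_ ?_ (fun e => hJ0 (e ▸ hj))
      · rw [hb']
        omega
      · omega
    have := sJ j hj
    omega
  · omega
  · rw [ex_cons]
    omega

theorem lemC {r D E q : ℕ} {J : Finset (Fin 3)} {i : Fin 3} (hi0 : i ≠ 0) (hi : i ∉ J)
    {s : Fin q → (Fin 3 → ℕ)} (h : vC r D E J (q + 1) (Fin.cons (Pi.single i (r + 1)) s)) :
    vC r D E J q s := by
  obtain ⟨a1, a2, a, a0, aJ, aD, aE⟩ := h
  rw [ex_cons] at aE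
  have hs : ∑ k, (Pi.single i (r + 1) : Fin 3 → ℕ) k = r + 1 := mem_sum (single_mem i)
  have e1 : (q + 1) * (r + 1) = q * (r + 1) + (r + 1) := by ring
  refine ⟨fun k => ?_, fun j hj k => ?_, a + Pi.single i (r + 1), ?_, fun j hj => ?_, ?_, ?_⟩
  · have := a1 k.succ
    rwa [Fin.cons_succ] at this
  · have := a2 j hj k.succ
    rwa [Fin.cons_succ] at this
  · rw [Pi.add_apply, Pi.single_eq_of_ne (Ne.symm hi0), add_zero]
    exact a0
  · have e : j ≠ i := fun e => hi (e ▸ hj)
    rw [Pi.add_apply, Pi.single_eq_of_ne e, add_zero]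
    exact aJ j hj
  · rw [sum_add3, hs]
    omega
  · rw [ex_add]
    omega

theorem lemD {r D E q : ℕ} {J : Finset (Fin 3)} {i : Fin 3} (hi0 : i ≠ 0) (hi : i ∉ J)
    {s : Fin q → (Fin 3 → ℕ)} (h : vC r D E J q s) (h1 : ∀ k, s k ≠ Pi.single i (r + 1))
    (h2 : ¬ vC r D E (insert i J) q s) :
    vC r D E J (q + 1) (Fin.cons (Pi.single i (r + 1)) s) := by
  obtain ⟨a1, a2, a, a0, aJ, aD, aE⟩ := h
  have h3 : r + 1 ≤ a i := by
    by_contra hc
    apply h2
    refine ⟨a1, fun j hj => ?_, a, a0, fun j hj => ?_, aD, aE⟩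
    · rcases mem_insert.mp hj with rfl | hj
      · exact h1
      · exact a2 j hj
    · rcases mem_insert.mp hj with rfl | hj
      · omega
      · exact aJ j hj
  have hs : ∑ k, (Pi.single i (r + 1) : Fin 3 → ℕ) k = r + 1 := mem_sum (single_mem i)
  have e1 : (q + 1) * (r + 1) = q * (r + 1) + (r + 1) := by ring
  have ha : a = (a - Pi.single i (r + 1)) + Pi.single i (r + 1) := by
    funext j
    simp only [Pi.add_apply, Pi.sub_apply]
    by_cases e : j = i
    · rw [e, Pi.single_eq_same]; omega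
    · rw [Pi.single_eq_of_ne e]; omega
  refine ⟨fun k => ?_, fun j hj k => ?_, a - Pi.single i (r + 1), ?_, fun j hj => ?_, ?_, ?_⟩
  · refine Fin.cases ?_ (fun k => ?_) k
    · rw [Fin.cons_zero]; exact single_mem i
    · rw [Fin.cons_succ]; exact a1 k
  · refine Fin.cases ?_ (fun k => ?_) k
    · rw [Fin.cons_zero]
      intro e
      have e1 : j ≠ i := fun e => hi (e ▸ hj)
      have := congrFun e i
      rw [Pi.single_eq_same, Pi.single_eq_of_ne (Ne.symm e1)] at this
      omega
    · rw [Fin.cons_succ]; exact a2 j hj k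
  · exact lt_of_le_of_lt (Nat.sub_le _ _) a0
  · exact le_trans (Nat.sub_le _ _) (aJ j hj)
  · rw [ha, sum_add3, hs] at aD
    omega
  · rw [ha, ex_add] at aE
    rw [ex_cons]
    omega

/-- moving one entry to the front is a permutation. -/
theorem vC_cons_removeNth {r D E q : ℕ} {J : Finset (Fin 3)}
    (t : Fin (q + 1) → (Fin 3 → ℕ)) (k : Fin (q + 1)) :
    vC r D E J (q + 1) (Fin.cons (t k) (k.removeNth t)) ↔ vC r D E J (q + 1) t := by
  have h2 : t ∘ (k.cycleRange.symm) = Fin.cons (t k) (k.removeNth t) := by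
    funext l
    refine Fin.cases ?_ (fun l => ?_) l
    · simp [Fin.cycleRange_symm_zero]
    · simp [Fin.cycleRange_symm_succ, Fin.removeNth]
  rw [← h2]
  exact vC_perm _ _

end IPRS

open IPRS in
theorem pr_PRS (hP : S_PNf) : S_PRS := by
  classical
  intro K _ _ r D E p J i hr hi0 hJ0 hi H c hc hcy
  -- step 1
  obtain ⟨g1, hg1, hg1d⟩ := H (fun t => if vC r D E (insert i J) p t then c t else 0)
    ⟨by
      intro σ t
      show (if vC r D E (insert i J) p (t ∘ σ) then c (t ∘ σ) else 0) = _ *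
        (if vC r D E (insert i J) p t then c t else 0)
      rw [hc.1 σ t]
      by_cases h : vC r D E (insert i J) p t
      · rw [if_pos h, if_pos ((vC_perm σ t).mpr h)]
      · rw [if_neg h, if_neg (fun h' => h ((vC_perm σ t).mp h'))]; simp,
    by
      intro t ht
      by_contra h
      exact ht (if_neg h)⟩
    (by
      cases p with
      | zero => trivial
      | succ q =>
        intro t ht
        refine Eq.trans (Finset.sum_congr rfl (fun b' _ => ?_)) (hcy t (vC_mono ht))
        by_cases h : c (Fin.cons b' t) = 0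
        · show (if vC r D E (insert i J) (q + 1) (Fin.cons b' t) then c (Fin.cons b' t) else 0) = _
          rw [h, ite_self]
        · exact if_pos (lemA hP hr hi0 hJ0 ht (hc.2 _ h)))
  -- step 2
  set c' : (Fin p → (Fin 3 → ℕ)) → K :=
    fun t => if vC r D E J p t then c t - dd (Mo 3 (r + 1)) g1 t else 0 with hc'
  have hc'alt : Alt p c' := by
    intro σ t
    show (if vC r D E J p (t ∘ σ) then c (t ∘ σ) - dd (Mo 3 (r + 1)) g1 (t ∘ σ) else 0) = _ *
      (if vC r D E J p t then c t - dd (Mo 3 (r + 1)) g1 t else 0)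
    rw [hc.1 σ t, hg1.1.dd (Mo 3 (r + 1)) σ t]
    by_cases h : vC r D E J p t
    · rw [if_pos h, if_pos ((vC_perm σ t).mpr h)]; ring
    · rw [if_neg h, if_neg (fun h' => h ((vC_perm σ t).mp h'))]; simp
  have hc'0 : ∀ t, vC r D E (insert i J) p t → c' t = 0 := by
    intro t ht
    show (if vC r D E J p t then c t - dd (Mo 3 (r + 1)) g1 t else 0) = 0
    rw [if_pos (vC_mono ht), hg1d t ht, if_pos ht, sub_self]
  have hc'G : ∀ t, c' t ≠ 0 → vC r D E J p t := by
    intro t ht
    by_contra h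
    exact ht (if_neg h)
  -- step 3
  set u : (Fin p → (Fin 3 → ℕ)) → K :=
    fun t => if ∀ k, t k ≠ Pi.single i (r + 1) then c' t else 0 with hu
  have hualt : Alt p u := by
    intro σ t
    show (if ∀ k, (t ∘ σ) k ≠ Pi.single i (r + 1) then c' (t ∘ σ) else 0) = _ *
      (if ∀ k, t k ≠ Pi.single i (r + 1) then c' t else 0)
    rw [hc'alt σ t]
    have e : (∀ k, (t ∘ σ) k ≠ Pi.single i (r + 1)) ↔ ∀ k, t k ≠ Pi.single i (r + 1) := by
      constructor
      · intro h k
        have := h (σ.symm k)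
        simpa using this
      · intro h k
        exact h _
    by_cases h : ∀ k, t k ≠ Pi.single i (r + 1)
    · rw [if_pos h, if_pos (e.mpr h)]
    · rw [if_neg h, if_neg (fun h' => h (e.mp h'))]; simp
  have hhalt : Alt (p + 1) (wdg (Pi.single i (r + 1)) u) := hualt.wdg _
  have hhG : ∀ s, wdg (Pi.single i (r + 1)) u s ≠ 0 → vC r D E J (p + 1) s := by
    intro s hs
    obtain ⟨k, _, hk⟩ := Finset.exists_ne_zero_of_sum_ne_zero hs
    by_cases hk1 : s k = Pi.single i (r + 1)
    · rw [if_pos hk1] at hk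
      have hk2 : u (k.removeNth s) ≠ 0 := fun e => hk (by rw [e, mul_zero])
      by_cases hk3 : ∀ l, k.removeNth s l ≠ Pi.single i (r + 1)
      · have hk4 : u (k.removeNth s) = c' (k.removeNth s) := if_pos hk3
        rw [hk4] at hk2
        have h5 := lemD hi0 hi (hc'G _ hk2) hk3 (fun h => hk2 (hc'0 _ h))
        rw [← hk1] at h5
        exact (vC_cons_removeNth s k).mp h5
      · exact absurd (if_neg hk3) hk2
    · exact absurd (if_neg hk1) hk
  -- step 4
  have hdh : ∀ t, vC r D E J p t → dd (Mo 3 (r + 1)) (wdg (Pi.single i (r + 1)) u) t = c' t := by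
    cases p with
    | zero =>
      intro t _
      rw [dd_wdg_zero (Mo 3 (r + 1)) (single_mem i)]
      exact if_pos (fun k => k.elim0)
    | succ q =>
      -- cycle
      have hc'cy : ∀ t : Fin q → (Fin 3 → ℕ), vC r D E J q t → dd (Mo 3 (r + 1)) c' t = 0 := by
        intro t ht
        have e1 : dd (Mo 3 (r + 1)) c' t = dd (Mo 3 (r + 1)) c t - dd (Mo 3 (r + 1)) (dd (Mo 3 (r + 1)) g1) t := by
          show (∑ b ∈ Mo 3 (r + 1), c' (Fin.cons b t)) = (∑ b ∈ Mo 3 (r + 1), c (Fin.cons b t)) -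
            ∑ b ∈ Mo 3 (r + 1), dd (Mo 3 (r + 1)) g1 (Fin.cons b t)
          rw [← Finset.sum_sub_distrib]
          refine Finset.sum_congr rfl (fun b' _ => ?_)
          by_cases h : vC r D E J (q + 1) (Fin.cons b' t)
          · exact if_pos h
          · have e2 : c (Fin.cons b' t) = 0 := by
              by_contra h'
              exact h (hc.2 _ h')
            have e3 : dd (Mo 3 (r + 1)) g1 (Fin.cons b' t) = 0 := by
              by_contra h'
              obtain ⟨b'', _, hb''⟩ := Finset.exists_ne_zero_of_sum_ne_zero h'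
              exact h (lemB hP hr hJ0 ht (vC_mono (hg1.2 _ hb'')))
            rw [e2, e3, sub_self]
            exact if_neg h
        rw [e1, dd_dd (Mo 3 (r + 1)) hg1.1, hcy t ht, sub_zero]
      intro t ht
      have hW := dd_wdg (Mo 3 (r + 1)) (single_mem (d := r + 1) i) u
      by_cases h1 : ∀ k, t k ≠ Pi.single i (r + 1)
      · have h2 := hW t
        have h3 : wdg (Pi.single i (r + 1)) (dd (Mo 3 (r + 1)) u) t = 0 := by
          refine Finset.sum_eq_zero (fun k _ => ?_)
          exact if_neg (h1 k)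
        rw [h3, add_zero] at h2
        rw [h2]
        exact if_pos h1
      · push Not at h1
        obtain ⟨k, hk⟩ := h1
        have a1 := (hhalt.dd (Mo 3 (r + 1))).cons_removeNth t k
        have a2 := hc'alt.cons_removeNth t k
        have hG := (vC_cons_removeNth (r := r) (D := D) (E := E) (J := J) t k).mpr ht
        rw [hk] at a1 a2 hG
        have key : dd (Mo 3 (r + 1)) (wdg (Pi.single i (r + 1)) u) (Fin.cons (Pi.single i (r + 1)) (k.removeNth t)) =
            c' (Fin.cons (Pi.single i (r + 1)) (k.removeNth t)) := by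
          generalize k.removeNth t = s at hG
          by_cases h3 : ∀ l, s l ≠ Pi.single i (r + 1)
          · have h4 := hW (Fin.cons (Pi.single i (r + 1)) s)
            have h5 : u (Fin.cons (Pi.single i (r + 1)) s) = 0 := by
              refine if_neg ?_
              intro h
              exact h 0 (by rw [Fin.cons_zero])
            have h6 : wdg (Pi.single i (r + 1)) (dd (Mo 3 (r + 1)) u) (Fin.cons (Pi.single i (r + 1)) s) =
                dd (Mo 3 (r + 1)) u s := by
              show (∑ l : Fin (q + 1), _) = _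
              rw [Fin.sum_univ_succ]
              rw [if_pos (by rw [Fin.cons_zero]), cons_removeNth_zero]
              rw [Finset.sum_eq_zero]
              · simp
              · intro l _
                refine if_neg ?_
                rw [Fin.cons_succ]
                exact h3 l
            have h7 : dd (Mo 3 (r + 1)) u s = dd (Mo 3 (r + 1)) c' s - c' (Fin.cons (Pi.single i (r + 1)) s) := by
              show (∑ b ∈ Mo 3 (r + 1), u (Fin.cons b s)) = (∑ b ∈ Mo 3 (r + 1), c' (Fin.cons b s)) - _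
              rw [← Finset.add_sum_erase _ _ (single_mem (d := r + 1) i),
                ← Finset.add_sum_erase _ _ (single_mem (d := r + 1) i), h5, zero_add,
                add_sub_cancel_left]
              refine Finset.sum_congr rfl (fun b' hb' => ?_)
              refine if_pos ?_
              intro l
              refine Fin.cases ?_ (fun l => ?_) l
              · rw [Fin.cons_zero]; exact (mem_erase.mp hb').1
              · rw [Fin.cons_succ]; exact h3 l
            rw [h6, h7, h5, hc'cy s (lemC hi0 hi hG)] at h4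
            linear_combination h4
          · push Not at h3
            obtain ⟨l, hl⟩ := h3
            have e : (Fin.cons (Pi.single i (r + 1)) s : Fin (q + 1) → (Fin 3 → ℕ)) 0 =
                (Fin.cons (Pi.single i (r + 1)) s : Fin (q + 1) → (Fin 3 → ℕ)) l.succ := by
              rw [Fin.cons_zero, Fin.cons_succ, hl]
            rw [(hhalt.dd (Mo 3 (r + 1))).eq_zero (Fin.succ_ne_zero l).symm e,
              hc'alt.eq_zero (Fin.succ_ne_zero l).symm e]
        rw [a1, a2] at key
        have hne : ((-1 : K) ^ (k : ℕ)) ≠ 0 := pow_ne_zero _ (by simp)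
        exact mul_left_cancel₀ hne key
  -- step 5
  refine ⟨fun t => g1 t + wdg (Pi.single i (r + 1)) u t, ⟨hg1.1.add hhalt, ?_⟩, ?_⟩
  · intro t ht
    by_cases h : g1 t = 0
    · refine hhG t (fun h' => ht ?_)
      show g1 t + wdg (Pi.single i (r + 1)) u t = 0
      rw [h, h', add_zero]
    · exact vC_mono (hg1.2 t h)
  · intro t ht
    have e : dd (Mo 3 (r + 1)) (fun t => g1 t + wdg (Pi.single i (r + 1)) u t) t =
        dd (Mo 3 (r + 1)) g1 t + dd (Mo 3 (r + 1)) (wdg (Pi.single i (r + 1)) u) t := by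
      show (∑ b ∈ Mo 3 (r + 1), _) = (∑ b ∈ Mo 3 (r + 1), _) + ∑ b ∈ Mo 3 (r + 1), _
      rw [← Finset.sum_add_distrib]
    rw [e, hdh t ht]
    have e2 : c' t = c t - dd (Mo 3 (r + 1)) g1 t := if_pos ht
    rw [e2]; ring

end Pool.Agent.Work.MP_1233f5_ag.Q
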