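import Pool.Agent.Work.MP_1233f5_ag.Q.StmtsP

/-! MP_1233f5_ag, block Q, item PS: planar surjectivity (helper44). -/

set_option autoImplicit false

namespace Pool.Agent.Work.MP_1233f5_ag.Q

open Finset
open Pool.Agent.Work.MP_1233f5_ag.V (vm vw Mo tyv dd rCh rcyc rVan rNo Pred ML theta Alt dd_dd)

namespace IPS

theorem mem_Mo {d : ℕ} {v : Fin 3 → ℕ} : v ∈ Mo 3 d ↔ ∑ a, v a = d := by
  unfold Mo
  rw [Finset.mem_piAntidiag]
  exact ⟨fun h => h.1, fun h => ⟨h, fun i _ => Finset.mem_univ i⟩⟩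

theorem ex_add (r : ℕ) (s t : Fin 3 → ℕ) : ex r (s + t) = ex r s + ex r t := by
  unfold ex
  simp only [Pi.add_apply]
  ring

theorem ex_sum (r : ℕ) {q : ℕ} (t : Fin q → (Fin 3 → ℕ)) : ex r (∑ i, t i) = ∑ i, ex r (t i) := by
  unfold ex
  simp only [Finset.sum_apply]
  rw [Finset.sum_add_distrib, Finset.mul_sum]

theorem tot_sum {d q : ℕ} {t : Fin q → (Fin 3 → ℕ)} (h : ∀ i, t i ∈ Mo 3 d) :
    ∑ a, (∑ i, t i) a = q * d := by
  simp only [Finset.sum_apply]
  rw [Finset.sum_comm, Finset.sum_congr rfl (fun i _ => mem_Mo.mp (h i))]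
  simp

/-- the weights of total degree `D` and exponent `E`. -/
def IU (r D E : ℕ) (u : Fin 3 → ℕ) : Prop := ∑ a, u a = D ∧ ex r u = E

theorem tot_add (a b : Fin 3 → ℕ) : ∑ i, (a + b) i = ∑ i, a i + ∑ i, b i := by
  simp only [Pi.add_apply]
  rw [Finset.sum_add_distrib]

theorem vC_iff {r D E q : ℕ} {t : Fin q → (Fin 3 → ℕ)} :
    vC r D E ∅ q t ↔ (∀ i, t i ∈ Mo 3 (r + 1)) ∧
      ∃ s : Fin 3 → ℕ, s 0 < r ∧ IU r D E (∑ i, t i + s) := by
  unfold vC IU
  constructor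
  · rintro ⟨h1, -, s, h2, -, h3, h4⟩
    refine ⟨h1, s, h2, ?_, ?_⟩
    · rw [tot_add, tot_sum h1]
      omega
    · rw [ex_add, ex_sum]
      omega
  · rintro ⟨h1, s, h2, h3, h4⟩
    rw [tot_add, tot_sum h1] at h3
    rw [ex_add, ex_sum] at h4
    refine ⟨h1, fun j hj => absurd hj (Finset.notMem_empty j), s, h2,
      fun j hj => absurd hj (Finset.notMem_empty j), by omega, by omega⟩

theorem uniq {r D E : ℕ} (hP : S_PNf) (hr : 1 ≤ r) {S s s' : Fin 3 → ℕ} (h : s 0 < r)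
    (h' : s' 0 < r) (h1 : IU r D E (S + s)) (h2 : IU r D E (S + s')) : s = s' := by
  unfold IU at h1 h2
  rw [tot_add, ex_add] at h1 h2
  exact (hP r hr).1 s s' h h' (by omega) (by omega)

theorem exi {r D E : ℕ} (hP : S_PNf) (hr : 1 ≤ r) {S u : Fin 3 → ℕ} (hu : IU r D E u)
    (hS : S ≤ u) : ∃ s : Fin 3 → ℕ, s 0 < r ∧ IU r D E (S + s) := by
  obtain ⟨s, h1, h2, h3, -, -⟩ := (hP r hr).2.2 (u - S)
  have e : S + (u - S) = u := by
    funext a
    have h0 : S a ≤ u a := hS a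
    simp only [Pi.add_apply, Pi.sub_apply]
    omega
  refine ⟨s, h1, ?_⟩
  unfold IU at hu ⊢
  rw [← e, tot_add, ex_add] at hu
  rw [tot_add, ex_add]
  omega

/-- a weight is determined by its third coordinate. -/
theorem IU_ext {r D E : ℕ} {u u' : Fin 3 → ℕ} (h : IU r D E u) (h' : IU r D E u')
    (e : u 2 = u' 2) : u = u' := by
  unfold IU ex at h h'
  simp only [Fin.sum_univ_three] at h h'
  rw [e] at h
  have h0 : u 0 = u' 0 := by omega
  have h1 : u 1 = u' 1 := by omega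
  funext a
  fin_cases a
  · exact h0
  · exact h1
  · exact e

theorem IU_le {r D E : ℕ} {u : Fin 3 → ℕ} (h : IU r D E u) : u 2 ≤ D := by
  unfold IU at h
  simp only [Fin.sum_univ_three] at h
  omega

section
variable {K : Type} [Field K]

open Classical in
/-- the part of level `m`. -/
noncomputable def lv (r D E m : ℕ) {q : ℕ} (g : (Fin q → (Fin 3 → ℕ)) → K) :
    (Fin q → (Fin 3 → ℕ)) → K :=
  fun T => if ∃ s : Fin 3 → ℕ, s 0 < r ∧ IU r D E (∑ i, T i + s) ∧ (∑ i, T i + s) 2 = m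
    then g T else 0

theorem lv_alt {r D E m q : ℕ} {g : (Fin q → (Fin 3 → ℕ)) → K} (h : Alt q g) :
    Alt q (lv r D E m g) := by
  intro σ T
  have e : ∑ i, (T ∘ σ) i = ∑ i, T i := Equiv.sum_comp σ T
  unfold lv
  rw [e]
  split_ifs
  · exact h σ T
  · rw [mul_zero]

theorem lv_ne {r D E m q : ℕ} {g : (Fin q → (Fin 3 → ℕ)) → K} {T : Fin q → (Fin 3 → ℕ)}
    (h : lv r D E m g T ≠ 0) :
    g T ≠ 0 ∧ ∃ u, IU r D E u ∧ u 2 = m ∧ ∑ i, T i ≤ u := by
  unfold lv at h
  split_ifs at h with h1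
  · obtain ⟨s, -, h3, h4⟩ := h1
    exact ⟨h, _, h3, h4, fun a => by simp⟩
  · exact absurd rfl h

theorem lv_sum {r D E q L : ℕ} (hP : S_PNf) (hr : 1 ≤ r) (hL : D < L)
    {g : (Fin q → (Fin 3 → ℕ)) → K} (hg : ∀ T, g T ≠ 0 → vC r D E ∅ q T)
    (T : Fin q → (Fin 3 → ℕ)) : ∑ m ∈ range L, lv r D E m g T = g T := by
  by_cases h0 : g T = 0
  · rw [h0]
    apply Finset.sum_eq_zero
    intro m _
    unfold lv
    split_ifs
    · exact h0
    · rfl
  · obtain ⟨-, s, h2, h3⟩ := vC_iff.mp (hg T h0)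
    have hm : (∑ i, T i + s) 2 < L := lt_of_le_of_lt (IU_le h3) hL
    rw [Finset.sum_eq_single_of_mem _ (Finset.mem_range.mpr hm)]
    · unfold lv
      rw [if_pos ⟨s, h2, h3, rfl⟩]
    · intro m _ hne
      unfold lv
      rw [if_neg]
      rintro ⟨s', h5, h6, h7⟩
      apply hne
      rw [← h7, uniq hP hr h5 h2 h6 h3]

theorem sum_cons {q : ℕ} (b : Fin 3 → ℕ) (t : Fin q → (Fin 3 → ℕ)) :
    ∑ i, (Fin.cons b t : Fin (q + 1) → (Fin 3 → ℕ)) i = b + ∑ i, t i := by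
  rw [Fin.sum_univ_succ]
  simp only [Fin.cons_zero, Fin.cons_succ]

theorem dd_ne {r q : ℕ} {g : (Fin (q + 1) → (Fin 3 → ℕ)) → K} {t : Fin q → (Fin 3 → ℕ)}
    (h : dd (Mo 3 (r + 1)) g t ≠ 0) : ∃ b ∈ Mo 3 (r + 1), g (Fin.cons b t) ≠ 0 :=
  Finset.exists_ne_zero_of_sum_ne_zero h

theorem lv_dd_ne {r D E m q : ℕ} {g : (Fin (q + 1) → (Fin 3 → ℕ)) → K}
    (hg : ∀ T, g T ≠ 0 → vC r D E ∅ (q + 1) T) {t : Fin q → (Fin 3 → ℕ)}
    (h : dd (Mo 3 (r + 1)) (lv r D E m g) t ≠ 0) :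
    (∀ i, t i ∈ Mo 3 (r + 1)) ∧ ∃ u, IU r D E u ∧ u 2 = m ∧ ∑ i, t i ≤ u := by
  obtain ⟨b, -, hb⟩ := dd_ne h
  obtain ⟨h1, u, h2, h3, h4⟩ := lv_ne hb
  have h5 := (hg _ h1).1
  refine ⟨fun i => ?_, u, h2, h3, ?_⟩
  · have := h5 i.succ
    rwa [Fin.cons_succ] at this
  · rw [sum_cons] at h4
    exact le_trans (fun a => by simp) h4

/-- the term of level `m`. -/
noncomputable def ff (r D E : ℕ) (w : Fin 3 → ℕ) {q : ℕ} (c : (Fin q → (Fin 3 → ℕ)) → K)
    (g : (Fin (q + 1) → (Fin 3 → ℕ)) → K) (m : ℕ) : (Fin q → (Fin 3 → ℕ)) → K :=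
  fun t => (if m = w 2 then c t else 0) - dd (Mo 3 (r + 1)) (lv r D E m g) t

/-- the sum of the terms of level smaller than `n`. -/
noncomputable def yy (r D E : ℕ) (w : Fin 3 → ℕ) {q : ℕ} (c : (Fin q → (Fin 3 → ℕ)) → K)
    (g : (Fin (q + 1) → (Fin 3 → ℕ)) → K) (n : ℕ) : (Fin q → (Fin 3 → ℕ)) → K :=
  fun t => ∑ m ∈ range n, ff r D E w c g m t

theorem ff_alt {r D E q m : ℕ} {w : Fin 3 → ℕ} {c : (Fin q → (Fin 3 → ℕ)) → K}
    {g : (Fin (q + 1) → (Fin 3 → ℕ)) → K} (hc : Alt q c) (hg : Alt (q + 1) g) :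
    Alt q (ff r D E w c g m) := by
  unfold ff
  apply Pool.Agent.Work.MP_1233f5_ag.V.Alt.sub
  · split_ifs
    · exact hc
    · exact Pool.Agent.Work.MP_1233f5_ag.V.Alt.zero
  · exact Pool.Agent.Work.MP_1233f5_ag.V.Alt.dd _ (lv_alt hg)

theorem dd_ff [CharZero K] {r D E q m : ℕ} {w : Fin 3 → ℕ} {c : (Fin (q + 1) → (Fin 3 → ℕ)) → K}
    {g : (Fin (q + 2) → (Fin 3 → ℕ)) → K} (hg : Alt (q + 2) g)
    (hc : ∀ t, dd (Mo 3 (r + 1)) c t = 0) (t : Fin q → (Fin 3 → ℕ)) :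
    dd (Mo 3 (r + 1)) (ff r D E w c g m) t = 0 := by
  have h1 := dd_dd (Mo 3 (r + 1)) (lv_alt (r := r) (D := D) (E := E) (m := m) hg) t
  have h2 := hc t
  unfold ff
  by_cases h : m = w 2
  · simp only [if_pos h]
    unfold dd at h1 h2 ⊢
    rw [Finset.sum_sub_distrib]
    rw [h2, h1, sub_zero]
  · simp only [if_neg h]
    unfold dd at h1 ⊢
    rw [Finset.sum_sub_distrib]
    rw [h1, Finset.sum_const_zero, sub_zero]

theorem dd_yy [CharZero K] {r D E q n : ℕ} {w : Fin 3 → ℕ} {c : (Fin (q + 1) → (Fin 3 → ℕ)) → K}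
    {g : (Fin (q + 2) → (Fin 3 → ℕ)) → K} (hg : Alt (q + 2) g)
    (hc : ∀ t, dd (Mo 3 (r + 1)) c t = 0) (t : Fin q → (Fin 3 → ℕ)) :
    dd (Mo 3 (r + 1)) (yy r D E w c g n) t = 0 := by
  unfold yy
  show ∑ b ∈ Mo 3 (r + 1), ∑ m ∈ range n, ff r D E w c g m (Fin.cons b t) = 0
  rw [Finset.sum_comm]
  apply Finset.sum_eq_zero
  intro m _
  exact dd_ff hg hc t

theorem ff_ne {r D E q m : ℕ} {w : Fin 3 → ℕ} {c : (Fin q → (Fin 3 → ℕ)) → K}
    {g : (Fin (q + 1) → (Fin 3 → ℕ)) → K} (hw : IU r D E w)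
    (hc : ∀ t, c t ≠ 0 → vw (r + 1) w q t) (hg : ∀ T, g T ≠ 0 → vC r D E ∅ (q + 1) T)
    {t : Fin q → (Fin 3 → ℕ)} (h : ff r D E w c g m t ≠ 0) :
    (∀ i, t i ∈ Mo 3 (r + 1)) ∧ ∃ u, IU r D E u ∧ u 2 = m ∧ ∑ i, t i ≤ u := by
  by_cases h1 : dd (Mo 3 (r + 1)) (lv r D E m g) t = 0
  · unfold ff at h
    rw [h1, sub_zero] at h
    split_ifs at h with h2
    · obtain ⟨h3, h4⟩ := hc t h
      exact ⟨h3, w, hw, h2.symm, h4⟩
    · exact absurd rfl h
  · exact lv_dd_ne hg h1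

theorem ff_total {r D E q L : ℕ} {w : Fin 3 → ℕ} {c : (Fin q → (Fin 3 → ℕ)) → K}
    {g : (Fin (q + 1) → (Fin 3 → ℕ)) → K} (hP : S_PNf) (hr : 1 ≤ r) (hL : D < L)
    (hw : IU r D E w) (hg : ∀ T, g T ≠ 0 → vC r D E ∅ (q + 1) T)
    (hgd : ∀ t, dd (Mo 3 (r + 1)) g t = c t) (t : Fin q → (Fin 3 → ℕ)) :
    ∑ m ∈ range L, ff r D E w c g m t = 0 := by
  unfold ff
  rw [Finset.sum_sub_distrib, Finset.sum_ite_eq' (range L) (w 2) (fun _ => c t),
    if_pos (Finset.mem_range.mpr (lt_of_le_of_lt (IU_le hw) hL)), ← hgd t]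
  unfold dd
  rw [Finset.sum_comm, sub_eq_zero]
  apply Finset.sum_congr rfl
  intro b _
  rw [lv_sum hP hr hL hg]

theorem yy_ne {r D E q n : ℕ} {w : Fin 3 → ℕ} {c : (Fin q → (Fin 3 → ℕ)) → K}
    {g : (Fin (q + 1) → (Fin 3 → ℕ)) → K} (hP : S_PNf) (hr : 1 ≤ r) (hw : IU r D E w)
    (hc : ∀ t, c t ≠ 0 → vw (r + 1) w q t) (hg : ∀ T, g T ≠ 0 → vC r D E ∅ (q + 1) T)
    (hgd : ∀ t, dd (Mo 3 (r + 1)) g t = c t) {t : Fin q → (Fin 3 → ℕ)}
    (h : yy r D E w c g n t ≠ 0) :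
    (∀ i, t i ∈ Mo 3 (r + 1)) ∧ ∃ u1 u2, IU r D E u1 ∧ IU r D E u2 ∧ u1 2 < n ∧ n ≤ u2 2 ∧
      ∑ i, t i ≤ u1 ∧ ∑ i, t i ≤ u2 := by
  have h1 := ff_total (q := q) (L := n + (D + 1)) hP hr (by omega) hw hg hgd t
  rw [Finset.sum_range_add] at h1
  unfold yy at h
  obtain ⟨m1, hm1, h2⟩ := Finset.exists_ne_zero_of_sum_ne_zero h
  obtain ⟨h3, u1, h4, h5, h6⟩ := ff_ne hw hc hg h2
  have h7 : ∑ x ∈ range (D + 1), ff r D E w c g (n + x) t ≠ 0 := by
    intro h8
    rw [h8, add_zero] at h1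
    exact h h1
  obtain ⟨m2, -, h8⟩ := Finset.exists_ne_zero_of_sum_ne_zero h7
  obtain ⟨-, u2, h9, h10, h11⟩ := ff_ne hw hc hg h8
  refine ⟨h3, u1, u2, h4, h9, ?_, ?_, h6, h11⟩
  · rw [h5]
    exact Finset.mem_range.mp hm1
  · omega

end

/-- comparison of second coordinates. -/
theorem snd_le {r D E : ℕ} {u v : Fin 3 → ℕ} (hr : 1 ≤ r) (hu : IU r D E u) (hv : IU r D E v)
    {k : ℕ} (h : v 2 = u 2 + k) : v 1 = u 1 + (r - 1) * k := by
  unfold IU ex at hu hv
  simp only [Fin.sum_univ_three] at hu hv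
  obtain ⟨q, rfl⟩ := Nat.exists_eq_add_of_le hr
  rw [h] at hv
  have e1 : (1 + q) * (u 2 + k) = (1 + q) * u 2 + (k + q * k) := by ring
  rw [e1] at hv
  have e2 : 1 + q - 1 = q := by omega
  rw [e2]
  omega

theorem core {K : Type} [Field K] [CharZero K] (hP : S_PNf) {r q : ℕ} {w : Fin 3 → ℕ} (hr : 1 ≤ r)
    (hV : rVan K (Mo 3 (r + 1)) (vC r (∑ a, w a) (ex r w) ∅) (q + 1))
    {c : (Fin (q + 1) → (Fin 3 → ℕ)) → K} (hcZ : c ∈ ZT K (r + 1) w (q + 1)) :
    ∃ y : (Fin 3 → ℕ) → ((Fin (q + 1) → (Fin 3 → ℕ)) → K),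
      (∀ v, y v ∈ ZT K (r + 1) v (q + 1)) ∧
      (∀ v, y v ≠ 0 → ∑ a, v a + r = ∑ a, w a ∧ ex r v + r = ex r w) ∧
      ∀ u : Fin 3 → ℕ, ∑ a, u a = ∑ a, w a → ex r u = ex r w →
        (fun t => (if (∀ a, al r a ≤ u a) then y (u - al r) t else 0) -
          (if (∀ a, be r a ≤ u a) then y (u - be r) t else 0) - (if u = w then c t else 0)) ∈
            BT K (r + 1) u (q + 1) := by
  classical
  obtain ⟨⟨hcA, hcS⟩, hcc⟩ := hcZ
  set D : ℕ := ∑ a, w a with hD
  set E : ℕ := ex r w with hE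
  have hw : IU r D E w := ⟨hD.symm, hE.symm⟩
  -- `c` is a cycle everywhere
  have hc0 : ∀ t : Fin q → (Fin 3 → ℕ), dd (Mo 3 (r + 1)) c t = 0 := by
    intro t
    by_contra h
    obtain ⟨b, -, hb⟩ := dd_ne h
    obtain ⟨h1, h2⟩ := hcS _ hb
    apply h
    apply hcc t
    refine ⟨fun i => ?_, ?_⟩
    · have := h1 i.succ
      rwa [Fin.cons_succ] at this
    · rw [sum_cons] at h2
      exact le_trans (fun a => by simp) h2
  have hcC : ∀ t, c t ≠ 0 → vC r D E ∅ (q + 1) t := by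
    intro t ht
    obtain ⟨h1, h2⟩ := hcS t ht
    exact vC_iff.mpr ⟨h1, exi hP hr hw h2⟩
  obtain ⟨g, ⟨hgA, hgS⟩, hg⟩ := hV c ⟨hcA, hcC⟩ (fun t _ => hc0 t)
  have hgd : ∀ t, dd (Mo 3 (r + 1)) g t = c t := by
    intro t
    by_cases ht : vC r D E ∅ (q + 1) t
    · exact hg t ht
    · have h1 : c t = 0 := by
        by_contra h
        exact ht (hcC t h)
      rw [h1]
      by_contra h
      obtain ⟨b, -, hb⟩ := dd_ne h
      obtain ⟨h2, s, -, h4⟩ := vC_iff.mp (hgS _ hb)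
      apply ht
      refine vC_iff.mpr ⟨fun i => ?_, exi hP hr h4 ?_⟩
      · have := h2 i.succ
        rwa [Fin.cons_succ] at this
      · rw [sum_cons]
        intro a
        simp only [Pi.add_apply]
        omega
  have hyne : ∀ {n : ℕ} {t : Fin (q + 1) → (Fin 3 → ℕ)}, yy r D E w c g n t ≠ 0 →
      (∀ i, t i ∈ Mo 3 (r + 1)) ∧ ∃ u1 u2, IU r D E u1 ∧ IU r D E u2 ∧ u1 2 < n ∧ n ≤ u2 2 ∧
        ∑ i, t i ≤ u1 ∧ ∑ i, t i ≤ u2 := fun h => yy_ne hP hr hw hcS hgS hgd h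
  refine ⟨fun v => if ∑ a, v a + r = D ∧ ex r v + r = E then yy r D E w c g (v 2 + 1)
    else fun _ => 0, ?_, ?_, ?_⟩
  · intro v
    by_cases hv : ∑ a, v a + r = D ∧ ex r v + r = E
    · simp only [if_pos hv]
      refine ⟨⟨?_, ?_⟩, ?_⟩
      · apply Pool.Agent.Work.MP_1233f5_ag.V.Alt.sum
        intro m _
        exact ff_alt hcA hgA
      · intro t ht
        obtain ⟨h1, u1, u2, h2, h3, h4, h5, h6, h7⟩ := hyne ht
        refine ⟨h1, ?_⟩
        obtain ⟨k, hk⟩ := Nat.exists_eq_add_of_le (Nat.lt_succ_iff.mp h4)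
        -- the weight `v + al`
        have hva : IU r D E (v + al r) := by
          unfold IU
          rw [tot_add, ex_add]
          have e1 : ∑ i, al r i = r := by simp [al, Fin.sum_univ_three]
          have e2 : ex r (al r) = r := by simp [ex, al]
          rw [e1, e2]
          exact hv
        have hk' : (v + al r) 2 = u1 2 + k := by
          simp only [Pi.add_apply, al]
          simpa using hk
        have h8 := snd_le hr h2 hva hk'
        have h9 : (v + al r) 1 = v 1 := by simp [al]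
        rw [h9] at h8
        have h10 : r * (v 2 + 1) ≤ r * u2 2 := Nat.mul_le_mul_left r h5
        have h11 := h3.2
        have h12 := hv.2
        unfold ex at h11 h12
        have h13 : r * (v 2 + 1) = r * v 2 + r := by ring
        have a0 : (∑ i, t i) 0 ≤ u2 0 := h7 0
        have a1 : (∑ i, t i) 1 ≤ u1 1 := h6 1
        have a2 : (∑ i, t i) 2 ≤ u1 2 := h6 2
        have h14 : 0 ≤ (r - 1) * k := Nat.zero_le _
        intro a
        fin_cases a
        · show (∑ i, t i) 0 ≤ v 0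
          omega
        · show (∑ i, t i) 1 ≤ v 1
          omega
        · show (∑ i, t i) 2 ≤ v 2
          omega
      · intro t _
        exact dd_yy hgA hc0 t
    · simp only [if_neg hv]
      exact (ZT K (r + 1) v (q + 1)).zero_mem
  · intro v hv
    by_contra h
    apply hv
    simp only [if_neg h]
    rfl
  · intro u hu1 hu2
    have hu : IU r D E u := ⟨hu1, hu2⟩
    have hA : ∀ t : Fin (q + 1) → (Fin 3 → ℕ),
        (if (∀ a, al r a ≤ u a) then (if ∑ a, (u - al r) a + r = D ∧ ex r (u - al r) + r = E then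
          yy r D E w c g ((u - al r) 2 + 1) else fun _ => 0) t else 0) =
        yy r D E w c g (u 2 + 1) t := by
      intro t
      by_cases h : ∀ a, al r a ≤ u a
      · have e : (u - al r) + al r = u := by
          funext a
          have := h a
          simp only [Pi.add_apply, Pi.sub_apply]
          omega
        have e1 : ∑ i, al r i = r := by simp [al, Fin.sum_univ_three]
        have e2 : ex r (al r) = r := by simp [ex, al]
        have e3 : ∑ a, (u - al r) a + r = D ∧ ex r (u - al r) + r = E := by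
          have h1 := hu
          unfold IU at h1
          rw [← e, tot_add, ex_add, e1, e2] at h1
          exact h1
        have e4 : (u - al r) 2 = u 2 := by simp [al]
        rw [if_pos h, if_pos e3, e4]
      · rw [if_neg h]
        by_contra h0
        obtain ⟨-, u1, u2, -, h3, -, h5, -, -⟩ := hyne (Ne.symm h0)
        apply h
        have h6 : r * (u 2 + 1) ≤ r * u2 2 := Nat.mul_le_mul_left r h5
        have h7 : r * (u 2 + 1) = r * u 2 + r := by ring
        have h8 := h3.2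
        have h9 := hu.2
        unfold ex at h8 h9
        intro a
        fin_cases a
        · show r ≤ u 0
          omega
        · exact Nat.zero_le _
        · exact Nat.zero_le _
    have hB : ∀ t : Fin (q + 1) → (Fin 3 → ℕ),
        (if (∀ a, be r a ≤ u a) then (if ∑ a, (u - be r) a + r = D ∧ ex r (u - be r) + r = E then
          yy r D E w c g ((u - be r) 2 + 1) else fun _ => 0) t else 0) =
        yy r D E w c g (u 2) t := by
      intro t
      by_cases h : ∀ a, be r a ≤ u a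
      · have e : (u - be r) + be r = u := by
          funext a
          have := h a
          simp only [Pi.add_apply, Pi.sub_apply]
          omega
        have e1 : ∑ i, be r i = r := by
          simp [be, Fin.sum_univ_three]
          omega
        have e2 : ex r (be r) = r := by simp [ex, be]
        have e3 : ∑ a, (u - be r) a + r = D ∧ ex r (u - be r) + r = E := by
          have h1 := hu
          unfold IU at h1
          rw [← e, tot_add, ex_add, e1, e2] at h1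
          exact h1
        have e5 : 1 ≤ u 2 := by
          have := h 2
          simpa [be] using this
        have e4 : (u - be r) 2 + 1 = u 2 := by
          have : (u - be r) 2 = u 2 - 1 := by simp [be]
          rw [this]
          omega
        rw [if_pos h, if_pos e3, e4]
      · rw [if_neg h]
        by_contra h0
        obtain ⟨-, u1, u2, h2, -, h4, -, -, -⟩ := hyne (Ne.symm h0)
        apply h
        obtain ⟨k, hk⟩ := Nat.exists_eq_add_of_lt h4
        have h5 := snd_le hr h2 hu (k := k + 1) (by omega)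
        have h6 : (r - 1) * (k + 1) = (r - 1) * k + (r - 1) := by ring
        have h7 : 0 ≤ (r - 1) * k := Nat.zero_le _
        intro a
        fin_cases a
        · exact Nat.zero_le _
        · show r - 1 ≤ u 1
          omega
        · show 1 ≤ u 2
          omega
    have hF : ∀ t : Fin (q + 1) → (Fin 3 → ℕ),
        yy r D E w c g (u 2 + 1) t - yy r D E w c g (u 2) t - (if u = w then c t else 0) =
        - dd (Mo 3 (r + 1)) (lv r D E (u 2) g) t := by
      intro t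
      unfold yy
      rw [Finset.sum_range_succ, add_sub_cancel_left]
      unfold ff
      have h1 : (u 2 = w 2) ↔ u = w := ⟨fun h => IU_ext hu hw h, fun h => by rw [h]⟩
      by_cases h : u = w
      · rw [if_pos h, if_pos (h1.mpr h)]
        ring
      · rw [if_neg h, if_neg (fun h' => h (h1.mp h'))]
        ring
    have hG : ∀ T : Fin (q + 2) → (Fin 3 → ℕ), lv r D E (u 2) g T ≠ 0 →
        vw (r + 1) u (q + 2) T := by
      intro T hT
      obtain ⟨h1, u', h2, h3, h4⟩ := lv_ne hT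
      have h5 : u' = u := IU_ext h2 hu h3
      rw [h5] at h4
      exact ⟨(hgS T h1).1, h4⟩
    refine ⟨fun T => - lv r D E (u 2) g T, ⟨?_, ?_⟩, ?_, ?_⟩
    · intro σ T
      show - lv r D E (u 2) g (T ∘ σ) = _ * - lv r D E (u 2) g T
      rw [lv_alt hgA σ T]
      ring
    · intro T hT
      exact hG T (fun h => hT (by simp only [h, neg_zero]))
    · intro t _
      show _ = (_ - _ - _ : K)
      rw [hA t, hB t, hF t]
      unfold dd
      rw [Finset.sum_neg_distrib]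
    · intro t ht
      have ht' : - dd (Mo 3 (r + 1)) (lv r D E (u 2) g) t ≠ 0 := by
        rw [← hF t, ← hA t, ← hB t]
        exact ht
      obtain ⟨b, -, hb⟩ := dd_ne (fun h => ht' (by rw [h, neg_zero]))
      obtain ⟨h1, h2⟩ := hG _ hb
      refine ⟨fun i => ?_, ?_⟩
      · have := h1 i.succ
        rwa [Fin.cons_succ] at this
      · rw [sum_cons] at h2
        exact le_trans (fun a => by simp) h2

end IPS

theorem pr_PS (hP : S_PNf) (hV : S_PVan) : S_PS := by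
  intro K _ _ r w hr hw c hc
  have h1 := hV K r (ex r w) hr
  rw [← hw] at h1
  exact IPS.core hP (by omega) h1 hc

end Pool.Agent.Work.MP_1233f5_ag.Q
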