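import Pool.Agent.Work.MP_1233f5_ag.Q.StmtsP

/-! MP_1233f5_ag, block Q, item PVan (by helper95): the vanishing on the curve. -/

set_option autoImplicit false

namespace Pool.Agent.Work.MP_1233f5_ag.Q

open Finset
open Pool.Agent.Work.MP_1233f5_ag.V (vm vw Mo tyv dd rCh rcyc rVan rNo Pred ML theta)
open Pool.Agent.Work.MP_1233f5_ag.Y

namespace IPVan

theorem mem_Mo {n d : ℕ} (v : Fin n → ℕ) : v ∈ Mo n d ↔ ∑ a, v a = d := by
  unfold Mo
  rw [mem_piAntidiag]
  exact ⟨fun h => h.1, fun h => ⟨h, fun _ _ => mem_univ _⟩⟩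

theorem single_mem (d : ℕ) (i : Fin 3) : (Pi.single i d : Fin 3 → ℕ) ∈ Mo 3 d := by
  rw [mem_Mo]
  simp

theorem single_ne (d : ℕ) (hd : 1 ≤ d) :
    (Pi.single 1 d : Fin 3 → ℕ) ≠ Pi.single 2 d := by
  intro h
  have h1 := congrFun h 1
  rw [Pi.single_eq_same, Pi.single_eq_of_ne (by decide)] at h1
  omega

theorem card_MP (r : ℕ) : (MP r).card + 2 = (Mo 3 (r + 1)).card := by
  have h1 : MP r = ((Mo 3 (r + 1)).erase (Pi.single 1 (r + 1))).erase (Pi.single 2 (r + 1)) := by
    ext v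
    unfold MP
    simp only [mem_filter, mem_erase]
    tauto
  have h2 : (Pi.single 2 (r + 1) : Fin 3 → ℕ) ∈
      (Mo 3 (r + 1)).erase (Pi.single 1 (r + 1)) := by
    rw [mem_erase]
    exact ⟨(single_ne (r + 1) (by omega)).symm, single_mem _ _⟩
  have h3 := card_erase_of_mem h2
  have h4 := card_erase_of_mem (single_mem (r + 1) 1)
  have h5 : 0 < ((Mo 3 (r + 1)).erase (Pi.single 1 (r + 1))).card := card_pos.mpr ⟨_, h2⟩
  have h6 : 0 < (Mo 3 (r + 1)).card := card_pos.mpr ⟨_, single_mem (r + 1) 1⟩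
  rw [h1]
  omega

theorem choose_add (r : ℕ) : (r + 3).choose 2 = r.choose 2 + (3 * r + 3) := by
  have h1 : (r + 3).choose 2 = (r + 2).choose 1 + (r + 2).choose 2 := Nat.choose_succ_succ' _ _
  have h2 : (r + 2).choose 2 = (r + 1).choose 1 + (r + 1).choose 2 := Nat.choose_succ_succ' _ _
  have h3 : (r + 1).choose 2 = r.choose 1 + r.choose 2 := Nat.choose_succ_succ' _ _
  rw [h1, h2, h3, Nat.choose_one_right, Nat.choose_one_right, Nat.choose_one_right]
  omega

end IPVan

theorem pr_PVan (hPRS : S_PRS) (hPLift : S_PLift) (hPDual : S_PDual) (hPGreen : S_PGreen) :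
    S_PVan := by
  intro K _ _ r E hr
  have hr1 : 1 ≤ r := by omega
  have hc1 := Pool.Agent.Work.MP_1233f5_ag.V.pr_CardMo 3 (r + 1) (by omega)
  have hc2 := Pool.Agent.Work.MP_1233f5_ag.V.pr_CardMo 3 (r - 2) (by omega)
  have e1 : (r + 1 + 3 - 1).choose (3 - 1) = (r + 3).choose 2 := by
    rw [show r + 1 + 3 - 1 = r + 3 by omega]
  have e2 : (r - 2 + 3 - 1).choose (3 - 1) = r.choose 2 := by
    rw [show r - 2 + 3 - 1 = r by omega]
  rw [e1, IPVan.choose_add] at hc1
  rw [e2] at hc2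
  have hc3 := IPVan.card_MP r
  obtain ⟨j, hj⟩ : ∃ j, (2 * r + 1) + j = (MP r).card := ⟨(MP r).card - (2 * r + 1), by omega⟩
  have hj2 : (Mo 3 (r - 2)).card + 3 ≤ j := by omega
  have d12 : (1 : Fin 3) ∉ ({2} : Finset (Fin 3)) := by decide
  have d02 : (0 : Fin 3) ∉ ({2} : Finset (Fin 3)) := by decide
  have hD : (2 * r + 1) * (r + 2) + (j * (r + 1) + (r - 2)) =
      (MP r).card * (r + 1) + (3 * r - 1) := by
    obtain ⟨q, rfl⟩ : ∃ q, r = q + 2 := ⟨r - 2, by omega⟩
    rw [← hj]
    have h1 : q + 2 - 2 = q := by omega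
    have h2 : 3 * (q + 2) - 1 = 3 * q + 5 := by omega
    rw [h1, h2]
    ring
  -- the Artinian quotient
  have key : rVan K (Mo 3 (r + 1)) (vC r ((2 * r + 1) * (r + 2)) E {1, 2}) (2 * r + 1) := by
    by_cases hE : E ≤ ∑ v ∈ MP r, ex r v + (r - 1 + r * r)
    · obtain ⟨E', hE'⟩ := Nat.exists_eq_add_of_le hE
      have g0 := hPGreen K r j E' (by omega) hj2
      have g1 := hPLift K r (j * (r + 1) + (r - 2)) E' j ∅ 2 hr1 (by decide) (by simp) (by simp) g0
      rw [insert_empty_eq] at g1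
      have g2 := hPLift K r (j * (r + 1) + (r - 2)) E' j {2} 1 hr1 (by decide) d02 d12 g1
      exact hPDual K r (2 * r + 1) j _ _ E E' hr1 hj hD hE'.symm g2
    · intro c hc _
      have hzero : ∀ t, c t = 0 := by
        intro t
        by_contra hne
        obtain ⟨hG1, hG2, s, hs0, hs1, -, hs3⟩ := hc.2 t hne
        have hinj : Function.Injective t := by
          intro i i' hii
          by_contra hne'
          exact hne (Pool.Agent.Work.MP_1233f5_ag.V.Alt.eq_zero hc.1 hne' hii)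
        have hmem : ∀ i, t i ∈ MP r := by
          intro i
          unfold MP
          rw [Finset.mem_filter]
          exact ⟨hG1 i, hG2 1 (by simp) i, hG2 2 (by simp) i⟩
        have hle2 : ∑ i, ex r (t i) ≤ ∑ v ∈ MP r, ex r v := by
          classical
          rw [← Finset.sum_image (s := univ) (g := t) (f := fun v : Fin 3 → ℕ => ex r v)
            (fun i _ i' _ h => hinj h)]
          apply Finset.sum_le_sum_of_subset
          intro v hv
          rw [Finset.mem_image] at hv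
          obtain ⟨i, _, rfl⟩ := hv
          exact hmem i
        have hs2 : s 2 ≤ r := hs1 2 (by simp)
        have hs4 : ex r s ≤ r - 1 + r * r := by
          unfold ex
          have := Nat.mul_le_mul_left r hs2
          omega
        omega
      refine ⟨fun _ => 0, ⟨Pool.Agent.Work.MP_1233f5_ag.V.Alt.zero, fun t h => absurd rfl h⟩, ?_⟩
      intro t _
      rw [hzero t]
      simp [dd]
  have g1 := hPRS K r _ E (2 * r + 1) {2} 1 hr1 (by decide) d02 d12 key
  exact hPRS K r _ E (2 * r + 1) ∅ 2 hr1 (by decide) (by simp) (by simp)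
    (by rw [insert_empty_eq]; exact g1)

end Pool.Agent.Work.MP_1233f5_ag.Q
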