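import Pool.Agent.Work.MP_1233f5_ag.Q.Stmts
import Pool.Agent.Work.MP_1233f5_ag.Q.I_PLF
import Pool.Agent.Work.MP_1233f5_ag.Q.I_KM

/-! MP_1233f5_ag, block Q, item Phi3: the planar functional with exchange. -/

set_option autoImplicit false

namespace Pool.Agent.Work.MP_1233f5_ag.Q

open Finset
open Pool.Agent.Work.MP_1233f5_ag.V (vm vw Mo tyv dd rCh rcyc rVan rNo ML theta)
open Pool.Agent.Work.MP_1233f5_ag.Y

namespace IPhi3

/-- boundaries of weight `w` are boundaries of every larger weight. -/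
theorem BT_mono {K : Type} [Field K] {d p : ℕ} {w w' : Fin 3 → ℕ} (h : w ≤ w') :
    BT K d w p ≤ BT K d w' p := by
  rintro c ⟨g, hg, h1, h2⟩
  refine ⟨g, ⟨hg.1, fun t ht => ⟨(hg.2 t ht).1, (hg.2 t ht).2.trans h⟩⟩, fun t _ => ?_,
    fun t ht => ⟨(h2 t ht).1, (h2 t ht).2.trans h⟩⟩
  by_cases hw : vw d w p t
  · exact h1 t hw
  · have hc : c t = 0 := by
      by_contra hc
      exact hw (h2 t hc)
    rw [hc]
    unfold dd
    refine sum_eq_zero fun b _ => ?_
    by_contra hg0
    have h3 := hg.2 _ hg0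
    apply hw
    refine ⟨fun i => ?_, ?_⟩
    · have h4 := h3.1 i.succ
      rwa [Fin.cons_succ] at h4
    · have h4 := h3.2
      rw [Fin.sum_univ_succ] at h4
      simp only [Fin.cons_zero, Fin.cons_succ] at h4
      intro a
      exact le_trans (Nat.le_add_left _ _) (h4 a)

theorem sum_skp {M : Type} [AddCommMonoid M] (s : ℕ → M) (j k : ℕ) (hk : k ≤ j) :
    s k + ∑ i ∈ range j, skp k s i = ∑ i ∈ range (j + 1), s i := by
  induction j with
  | zero =>
    have h0 : k = 0 := by omega
    subst h0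
    simp
  | succ j ih =>
    rcases Nat.lt_or_ge k (j + 1) with h | h
    · rw [sum_range_succ (fun i => skp k s i), ← add_assoc, ih (by omega),
        sum_range_succ s (j + 1)]
      congr 1
      unfold skp
      rw [if_neg (by omega)]
    · have hk' : k = j + 1 := by omega
      rw [sum_range_succ s (j + 1), hk', add_comm]
      congr 1
      refine sum_congr rfl fun i hi => ?_
      unfold skp
      rw [if_pos (mem_range.1 hi)]

section types

variable {α : Type} [DecidableEq α]

omit [DecidableEq α] in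
theorem tyv_triple (π : α → Fin 3) {S : Finset α} (hS : S.card = 3)
    (hinj : ∀ u ∈ S, ∀ v ∈ S, π u = π v → u = v) (a : Fin 3) : tyv π S a = 1 := by
  have hle : ∀ b : Fin 3, tyv π S b ≤ 1 := by
    intro b
    unfold tyv
    rw [card_le_one]
    intro u hu v hv
    rw [mem_filter] at hu hv
    exact hinj u hu.1 v hv.1 (hu.2.trans hv.2.symm)
  have hs := IPLF.tyv_sum π S
  rw [Fin.sum_univ_three, hS] at hs
  have h0 := hle 0
  have h1 := hle 1
  have h2 := hle 2
  fin_cases a
  · show tyv π S 0 = 1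
    omega
  · show tyv π S 1 = 1
    omega
  · show tyv π S 2 = 1
    omega

theorem tyv_tt (π : α → Fin 3) {τ : ℕ} {P : Finset α} {T : ℕ → Finset α} (hT : TV τ P T)
    (hinj : ∀ i < τ, ∀ u ∈ T i, ∀ v ∈ T i, π u = π v → u = v) (a : Fin 3) :
    tyv π (tt τ T) a = τ := by
  unfold tt
  rw [IPLF.tyv_biUnion π τ T hT.dis, Finset.sum_apply,
    sum_congr rfl (fun i hi => tyv_triple π (hT.card i (mem_range.1 hi))
      (hinj i (mem_range.1 hi)) a), sum_const, card_range, smul_eq_mul, mul_one]

omit [DecidableEq α] in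
theorem skp_NV {r j k : ℕ} {P : Finset α} {n : ℕ → Finset α} (hn : NV r P (j + 1) n) :
    NV r P j (skp k n) := by
  have hv : ∀ i, skp k n i = n (if i < k then i else i + 1) := by
    intro i
    unfold skp
    split_ifs <;> rfl
  have hl : ∀ i < j, (if i < k then i else i + 1) < j + 1 := by
    intro i hi
    split_ifs <;> omega
  refine ⟨fun i hi => ?_, fun i hi => ?_, fun i hi l hl' hil => ?_⟩
  · rw [hv]
    exact hn.card _ (hl i hi)
  · rw [hv]
    exact hn.sub _ (hl i hi)
  · rw [hv, hv]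
    refine hn.dis _ (hl i hi) _ (hl l hl') ?_
    split_ifs <;> omega

theorem skp_rs {j k : ℕ} {P : Finset α} {n : ℕ → Finset α} :
    rs P (j + 1) n ⊆ rs P j (skp k n) := by
  unfold rs
  refine sdiff_subset_sdiff (subset_refl P) ?_
  rw [biUnion_subset]
  intro i hi
  have h1 := mem_range.1 hi
  unfold skp
  split_ifs with h
  · exact subset_biUnion_of_mem n (mem_range.2 (by omega))
  · exact subset_biUnion_of_mem n (mem_range.2 (by omega))

/-- matchings of given types. -/
theorem exists_NV (hKL : S_KLift) [Fintype α] {r j : ℕ} {P : Finset α} {π : α → Fin 3}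
    {s : ℕ → (Fin 3 → ℕ)} (hs : ∀ i < j, s i ∈ Mo 3 r)
    (hle : ∑ i ∈ range j, s i ≤ tyv π P) :
    ∃ n : ℕ → Finset α, NV r P j n ∧ ∀ i < j, tyv π (n i) = s i := by
  obtain ⟨t, ht, hts⟩ := (hKL α r j P π).1 (fun i : Fin j => s (i : ℕ))
    ⟨fun i => hs _ i.2, by rw [Fin.sum_univ_eq_sum_range s j]; exact hle⟩
  have hv : ∀ i (h : i < j), (if h : i < j then t ⟨i, h⟩ else ∅) = t ⟨i, h⟩ :=
    fun i h => dif_pos h
  refine ⟨fun i => if h : i < j then t ⟨i, h⟩ else ∅, ⟨fun i hi => ?_, fun i hi => ?_,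
    fun i hi l hl hil => ?_⟩, fun i hi => ?_⟩
  · show (if h : i < j then t ⟨i, h⟩ else ∅).card = r
    rw [hv i hi]
    exact (ht.1 ⟨i, hi⟩).1
  · show (if h : i < j then t ⟨i, h⟩ else ∅) ⊆ P
    rw [hv i hi]
    exact (ht.1 ⟨i, hi⟩).2
  · show Disjoint (if h : i < j then t ⟨i, h⟩ else ∅) (if h : l < j then t ⟨l, h⟩ else ∅)
    rw [hv i hi, hv l hl]
    exact ht.2 _ _ fun h => hil (congrArg Fin.val h)
  · show tyv π (if h : i < j then t ⟨i, h⟩ else ∅) = s i
    rw [hv i hi]
    exact hts ⟨i, hi⟩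

end types

end IPhi3

open IPhi3 in
theorem pr_Phi3 (hW : S_PhiW) (hSur : S_Sur) (hKM : S_KM) (hKL : S_KLift) (hZ : S_Z2T)
    (hA : S_KAct) : S_Phi3 := by
  intro K _ _ α _ _ H _ _ ρ r j τ P T G π hr hτ hG hinj
  choose φ0 hφ using fun s => hW K α H ρ r j τ P T G π (by omega) hG hinj s
  let tr : (ℕ → (Fin 3 → ℕ)) → (ℕ → (Fin 3 → ℕ)) := fun s i => if i < j then s i else 0
  have htr2 : ∀ s, ∀ i < j, tr s i = s i := fun s i hi => if_pos hi
  have htr : ∀ s s' : ℕ → (Fin 3 → ℕ), (∀ i < j, s i = s' i) → tr s = tr s' := by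
    intro s s' h
    funext i
    by_cases hi : i < j
    · rw [htr2 s i hi, htr2 s' i hi, h i hi]
    · show (if i < j then s i else 0) = (if i < j then s' i else 0)
      rw [if_neg hi, if_neg hi]
  refine ⟨fun s => φ0 (tr s), ?_, ?_, ?_, ?_⟩
  · intro n hn y hy hant
    exact (hφ (tr fun i => tyv π (n i))).1 n hn
      (fun i hi => (htr2 (fun i => tyv π (n i)) i hi).symm) y hy hant
  · intro s s' h
    show φ0 (tr s) = φ0 (tr s')
    rw [htr s s' h]
  · intro s _ w hw c hc
    refine (hφ (tr s)).2 w ?_ c hc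
    rw [sum_congr rfl (fun i hi => htr2 s i (mem_range.1 hi))]
    exact hw
  · intro s hs w hw c hc
    by_cases hsm : ∃ a, w a < τ
    · obtain ⟨a, ha⟩ := hsm
      have hc0 : c = 0 := hZ K r w a hr (by omega) c hc.1
      rw [hc0]
      exact sum_eq_zero fun k _ => map_zero _
    · have hsm' : ∀ a, τ ≤ w a := fun a => by
        by_contra h
        exact hsm ⟨a, by omega⟩
      -- the sets of the given types
      have hle : ∑ i ∈ range (j + 1), s i ≤ tyv π P := by
        intro a
        have h1 : (w + ∑ i ∈ range (j + 1), s i) a = tyv π (P ∪ tt τ T) a := by rw [hw]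
        rw [IPLF.tyv_disj π (IPLF.disj_tt hG.tv), Pi.add_apply, Pi.add_apply,
          tyv_tt π hG.tv hinj a] at h1
        have h2 := hsm' a
        show (∑ i ∈ range (j + 1), s i) a ≤ tyv π P a
        omega
      obtain ⟨n, hn, hty⟩ := exists_NV hKL hs hle
      have hw2 : w = tyv π (rs P (j + 1) n ∪ tt τ T) := by
        have h1 := IPLF.weight π hG.tv hn
        rw [sum_congr rfl (fun i hi => hty i (mem_range.1 hi)), ← hw] at h1
        exact (add_right_cancel h1).symm
      have hc' := hc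
      rw [hw2] at hc'
      obtain ⟨k1, k2, k3, k4⟩ := hKM K α (r + 1) (2 * r + 1) (rs P (j + 1) n ∪ tt τ T) π
      obtain ⟨z, hz, _, hkz⟩ := k4 c hc'
      have hTV : TV τ (rs P (j + 1) n) T :=
        ⟨hG.tv.card, hG.tv.dis, fun i hi => (hG.tv.out i hi).mono_right (IPLF.rs_sub _ _ _)⟩
      obtain ⟨y', hy', hant, hsb⟩ := hSur K α r τ (rs P (j + 1) n) T π hr hτ hTV hinj z hz
      obtain ⟨N, hN, hN2⟩ := IKM.kap_symC (K := K) hA (d := r + 1) (p := 2 * r + 1)
        (rs P (j + 1) n ∪ tt τ T) π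
      have hk1 : kap π (2 * r + 1) (z - y') ∈ BT K (r + 1) w (2 * r + 1) := by
        have h1 := k2 _ hsb
        rw [hN2 _ (Submodule.sub_mem _ hz.1 hy'.1), ← hw2] at h1
        have h2 := Submodule.smul_mem _ N⁻¹ h1
        rwa [smul_smul, inv_mul_cancel₀ hN, one_smul] at h2
      have hk : ∀ k ∈ range (j + 1), φ0 (tr (skp k s)) c = symC ρ P π (G (skp k n) y') := by
        intro k hk
        have hkj : k ≤ j := by
          have := mem_range.1 hk
          omega
        have hyk : y' ∈ Cy K (r + 1) (rs P j (skp k n) ∪ tt τ T) (2 * r + 1) :=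
          ⟨Mt_mono (union_subset_union_left skp_rs) hy'.1, hy'.2⟩
        have e1 : symC ρ P π (G (skp k n) y') = φ0 (tr (skp k s)) (kap π (2 * r + 1) y') := by
          refine (hφ (tr (skp k s))).1 (skp k n) (skp_NV hn) (fun i hi => ?_) y' hyk hant
          rw [htr2 _ i hi]
          unfold skp
          split_ifs with h
          · exact hty i (by omega)
          · exact hty (i + 1) (by omega)
        have e2 : φ0 (tr (skp k s)) (kap π (2 * r + 1) (z - y')) = 0 := by
          refine (hφ (tr (skp k s))).2 (w + s k) ?_ _ (BT_mono (fun a => ?_) hk1)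
          · rw [sum_congr rfl (fun i hi => htr2 (skp k s) i (mem_range.1 hi)), add_assoc,
              sum_skp s j k hkj]
            exact hw
          · show w a ≤ w a + s k a
            omega
        have e3 : c = kap π (2 * r + 1) (z - y') + kap π (2 * r + 1) y' := by
          rw [← map_add, sub_add_cancel, hkz]
        rw [e1, e3, map_add, e2, zero_add]
      show ∑ k ∈ range (j + 1), φ0 (tr (skp k s)) c = 0
      rw [sum_congr rfl hk, ← map_sum, hG.exch n hn y' hy', map_zero]

end Pool.Agent.Work.MP_1233f5_ag.Q
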