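import Pool.Agent.Work.MP_1233f5_ag.Q.Stmts
import Pool.Agent.Work.MP_1233f5_ag.Q.I_PLF

/-! MP_1233f5_ag, block Q, item PhiW: existence of the planar functional for one family. -/

set_option autoImplicit false
set_option linter.unusedSectionVars false

namespace Pool.Agent.Work.MP_1233f5_ag.Q

open Finset
open Pool.Agent.Work.MP_1233f5_ag.V (vm vw Mo tyv dd rCh rcyc rVan rNo ML theta)
open Pool.Agent.Work.MP_1233f5_ag.Y

namespace IPhiW

open Classical in
theorem symC_set {K : Type} [Field K] {α : Type} [Fintype α] (P : Finset α) (π : α → Fin 3)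
    {H : Type} [AddCommGroup H] [Module K H] (ρ : Equiv.Perm α →* Module.End K H) :
    ∃ S : Finset (Equiv.Perm α), S.Nonempty ∧ (∀ σ ∈ S, Sup P σ ∧ ∀ a, π (σ a) = π a) ∧
      ∀ z : H, symC ρ P π z = ∑ σ ∈ S, ρ σ z := by
  refine ⟨univ.filter (fun σ : Equiv.Perm α => Sup P σ ∧ ∀ a, π (σ a) = π a), ⟨1, ?_⟩, ?_, ?_⟩
  · simp only [mem_filter, mem_univ, true_and]
    exact ⟨U.sup_one P, fun _ => rfl⟩
  · intro σ hσ
    exact (mem_filter.1 hσ).2
  · intro z
    unfold symC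
    rw [LinearMap.sum_apply]

/-- linear algebra: factor `g` through `f` and kill `W`. -/
theorem factor {K : Type} [Field K] {D V H : Type} [AddCommGroup D] [Module K D] [AddCommGroup V]
    [Module K V] [AddCommGroup H] [Module K H] (f : D →ₗ[K] V) (g : D →ₗ[K] H)
    (W : Submodule K V) (h : ∀ y, f y ∈ W → g y = 0) :
    ∃ φ : V →ₗ[K] H, (∀ y, φ (f y) = g y) ∧ ∀ c ∈ W, φ c = 0 := by
  have h1 : LinearMap.ker (W.mkQ.comp f) ≤ LinearMap.ker g := by
    intro y hy
    rw [LinearMap.mem_ker, LinearMap.comp_apply, Submodule.mkQ_apply,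
      Submodule.Quotient.mk_eq_zero] at hy
    exact h y hy
  obtain ⟨ψ, hψ⟩ := LinearMap.exists_extend
    (((LinearMap.ker (W.mkQ.comp f)).liftQ g h1).comp
      ((W.mkQ.comp f).quotKerEquivRange.symm.toLinearMap))
  refine ⟨ψ.comp W.mkQ, fun y => ?_, fun c hc => ?_⟩
  · have h2 : ψ ((W.mkQ.comp f) y) = (LinearMap.ker (W.mkQ.comp f)).liftQ g h1
        ((W.mkQ.comp f).quotKerEquivRange.symm
          ⟨(W.mkQ.comp f) y, LinearMap.mem_range_self _ y⟩) :=
      LinearMap.congr_fun hψ ⟨(W.mkQ.comp f) y, LinearMap.mem_range_self _ y⟩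
    have h3 : (W.mkQ.comp f).quotKerEquivRange.symm
        ⟨(W.mkQ.comp f) y, LinearMap.mem_range_self _ y⟩ =
        (LinearMap.ker (W.mkQ.comp f)).mkQ y := by
      rw [LinearEquiv.symm_apply_eq]
      rfl
    rw [h3] at h2
    exact h2
  · rw [LinearMap.comp_apply, Submodule.mkQ_apply, (Submodule.Quotient.mk_eq_zero W).2 hc,
      map_zero]

section act

variable {α : Type} [DecidableEq α]

theorem comm_of_disj {A B : Finset α} (h : Disjoint A B) {σ τ : Equiv.Perm α} (hσ : Sup A σ)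
    (hτ : Sup B τ) : σ * τ = τ * σ := by
  ext a
  rw [Equiv.Perm.mul_apply, Equiv.Perm.mul_apply]
  by_cases ha : a ∈ A
  · have h1 : a ∉ B := Finset.disjoint_left.1 h ha
    have h2 : σ a ∉ B := Finset.disjoint_left.1 h (U.sup_mem hσ ha)
    rw [hτ a h1, hτ _ h2]
  · by_cases hb : a ∈ B
    · have h2 : τ a ∉ A := Finset.disjoint_right.1 h (U.sup_mem hτ hb)
      rw [hσ _ h2, hσ a ha]
    · rw [hτ a hb, hσ a ha, hτ a hb]

variable {K : Type} [Field K] [Fintype α] {H : Type} [AddCommGroup H] [Module K H]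

theorem ant_rho (ρ : Equiv.Perm α →* Module.End K H) {A Q : Finset α} (h : Disjoint A Q)
    {σ : Equiv.Perm α} (hσ : Sup A σ) {z : H} (hz : AntQ ρ Q z) : AntQ ρ Q (ρ σ z) := by
  intro τ hτ
  have h1 : ρ τ (ρ σ z) = ρ σ (ρ τ z) := by
    rw [← Module.End.mul_apply, ← Module.End.mul_apply, ← map_mul, ← map_mul,
      comm_of_disj h hσ hτ]
  rw [h1, hz τ hτ, map_smul]

theorem ant_sum (ρ : Equiv.Perm α →* Module.End K H) {Q : Finset α}
    (S : Finset (Equiv.Perm α)) (z : Equiv.Perm α → H) (h : ∀ σ ∈ S, AntQ ρ Q (z σ)) :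
    AntQ ρ Q (∑ σ ∈ S, z σ) := by
  intro τ hτ
  rw [map_sum, smul_sum]
  exact sum_congr rfl fun σ hσ => h σ hσ τ hτ

end act

end IPhiW

open IPhiW

theorem pr_PhiW (hKM : S_KM) (hKA : S_KAct) (hIT : S_InjT) (hSC : S_SymC) (hKL : S_KLift) :
    S_PhiW := by
  intro K _ _ α _ _ H _ _ ρ r j τ P T G π hr hG hinj s
  classical
  by_cases hex : ∃ n, NV r P j n ∧ ∀ i < j, tyv π (n i) = s i
  swap
  · refine ⟨0, fun n hn hs => ?_, fun w _ c _ => rfl⟩
    exact absurd ⟨n, hn, hs⟩ hex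
  obtain ⟨n0, hn0, hs0⟩ := hex
  have hTV := hG.tv
  have hR0P : rs P j n0 ⊆ P := sdiff_subset
  have hTV0 : TV τ (rs P j n0) T :=
    ⟨hTV.card, hTV.dis, fun i hi => (hTV.out i hi).mono_right hR0P⟩
  -- the number of points
  have hcard : (rs P j n0).card + 3 * τ = (2 * r + 1) * (r + 2) := by
    have h1 : ((range j).biUnion n0).card = j * r := by
      rw [card_biUnion (fun i hi k hk hik =>
        hn0.dis i (mem_range.1 hi) k (mem_range.1 hk) hik),
        sum_congr rfl (fun i hi => hn0.card i (mem_range.1 hi)), sum_const, card_range,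
        smul_eq_mul]
    have h2 : (range j).biUnion n0 ⊆ P := biUnion_subset.2 fun i hi =>
      hn0.sub i (mem_range.1 hi)
    have h3 : (rs P j n0).card + ((range j).biUnion n0).card = P.card := by
      unfold rs
      exact card_sdiff_add_card_eq_card h2
    have h4 := hG.card
    omega
  -- permutations of the rest
  have hGeq : ∀ σ : Equiv.Perm α, Sup (rs P j n0) σ →
      ∀ y ∈ Cy K (r + 1) (rs P j n0 ∪ tt τ T) (2 * r + 1),
        G n0 (act K α σ y) = ρ σ (G n0 y) := by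
    intro σ hσ y hy
    rw [← hG.eqv σ (U.sup_mono hR0P hσ) n0 hn0 y hy]
    have h1 : G (fun i => im σ (n0 i)) = G n0 := by
      refine hG.sym 1 n0 (fun i => im σ (n0 i)) fun i => ?_
      rw [Equiv.Perm.one_apply]
      refine U.im_eq_of_fix fun a ha => hσ a fun hc => ?_
      exact (mem_sdiff.1 hc).2 (mem_biUnion.2 ⟨i, mem_range.2 i.2, ha⟩)
    rw [h1]
  -- the domain
  let D : Submodule K (Lx K α) :=
    { carrier := {y | y ∈ Cy K (r + 1) (rs P j n0 ∪ tt τ T) (2 * r + 1) ∧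
        ∀ i < τ, AntQ (act K α) (T i) y}
      add_mem' := fun {a b} ha hb => ⟨Submodule.add_mem _ ha.1 hb.1, fun i hi σ hσ => by
        rw [map_add, ha.2 i hi σ hσ, hb.2 i hi σ hσ, smul_add]⟩
      zero_mem' := ⟨Submodule.zero_mem _, fun i hi σ hσ => by rw [map_zero, smul_zero]⟩
      smul_mem' := fun c x hx => ⟨Submodule.smul_mem _ _ hx.1, fun i hi σ hσ => by
        rw [map_smul, hx.2 i hi σ hσ, smul_comm]⟩ }
  obtain ⟨φ, hφ1, hφ2⟩ := factor ((kap π (2 * r + 1)).comp D.subtype)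
    (((symC ρ P π).comp (G n0)).comp D.subtype)
    (BT K (r + 1) (tyv π (rs P j n0 ∪ tt τ T)) (2 * r + 1)) (by
      rintro ⟨y, hy, hyA⟩ hB
      have hB' : kap π (2 * r + 1) y ∈
        BT K (r + 1) (tyv π (rs P j n0 ∪ tt τ T)) (2 * r + 1) := hB
      show symC ρ P π (G n0 y) = 0
      have h1 := (hKM K α (r + 1) (2 * r + 1) (rs P j n0 ∪ tt τ T) π).2.2.1 y hy hB'
      obtain ⟨S, hS1, hS2, hS⟩ := symC_set (rs P j n0) π (act K α)
      -- the averaged cycle
      have hy1 : symC (act K α) (rs P j n0) π y ∈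
          Cy K (r + 1) (rs P j n0 ∪ tt τ T) (2 * r + 1) := by
        rw [hS]
        exact Submodule.sum_mem _ fun σ hσ => act_Cy_sup (hS2 σ hσ).1 subset_union_left hy
      have hyA1 : ∀ i < τ, AntQ (act K α) (T i) (symC (act K α) (rs P j n0) π y) := by
        intro i hi
        rw [hS]
        exact ant_sum (act K α) S _ fun σ hσ =>
          ant_rho (act K α) (hTV0.out i hi).symm (hS2 σ hσ).1 (hyA i hi)
      have hinv : InvC (act K α) (rs P j n0) π (symC (act K α) (rs P j n0) π y) :=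
        (hSC K α (Lx K α) (act K α) (rs P j n0) π).2.2.1 y
      have hsym : symC (act K α) (rs P j n0 ∪ tt τ T) π
          (symC (act K α) (rs P j n0) π y) ∈
            Bd K (r + 1) (rs P j n0 ∪ tt τ T) (2 * r + 1) := by
        obtain ⟨N, -, hN⟩ := (hSC K α (Lx K α) (act K α) (rs P j n0 ∪ tt τ T) π).2.2.2.2.1
          (rs P j n0) subset_union_left
        rw [hN]
        exact Submodule.smul_mem _ _ h1
      have hBd := hIT K α r τ (rs P j n0) T π hr hTV0 hcard hinj _ hy1 hyA1 hinv hsym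
      have h0 := hG.bd n0 hn0 _ hBd
      have h2 : ∀ σ ∈ S, symC ρ P π (G n0 (act K α σ y)) = symC ρ P π (G n0 y) := by
        intro σ hσ
        rw [hGeq σ (hS2 σ hσ).1 y hy]
        exact ((hSC K α H ρ P π).1 σ (U.sup_mono hR0P (hS2 σ hσ).1) (hS2 σ hσ).2 _).1
      rw [hS, map_sum] at h0
      have h3 : ∑ σ ∈ S, symC ρ P π (G n0 (act K α σ y)) = 0 := by
        rw [← map_sum, h0, map_zero]
      rw [sum_congr rfl h2, sum_const] at h3
      have h4 : (S.card : K) • symC ρ P π (G n0 y) = 0 := by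
        rw [Nat.cast_smul_eq_nsmul]
        exact h3
      exact (smul_eq_zero.1 h4).resolve_left (Nat.cast_ne_zero.2 (card_pos.2 hS1).ne'))
  refine ⟨φ, ?_, ?_⟩
  · intro n hn hs y hy hyA
    -- a permutation carrying `n0` to `n`
    obtain ⟨σ, hσP, hσπ, hσn⟩ := (hKL α r j P π).2 (fun i : Fin j => n0 i)
      (fun i : Fin j => n i)
      ⟨fun i => ⟨hn0.card i i.2, hn0.sub i i.2⟩, fun i k hik => hn0.dis i i.2 k k.2
        (fun h => hik (Fin.ext h))⟩
      ⟨fun i => ⟨hn.card i i.2, hn.sub i i.2⟩, fun i k hik => hn.dis i i.2 k k.2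
        (fun h => hik (Fin.ext h))⟩
      (fun i => (hs0 i i.2).trans (hs i i.2).symm)
    have hσn' : ∀ i < j, im σ (n0 i) = n i := fun i hi => hσn ⟨i, hi⟩
    have hrs : im σ (rs P j n0 ∪ tt τ T) = rs P j n ∪ tt τ T := by
      rw [IPLF.im_pts (r := r) hTV hσP]
      congr 1
      unfold rs
      congr 1
      ext a
      simp only [mem_biUnion, mem_range]
      constructor
      · rintro ⟨i, hi, ha⟩
        exact ⟨i, hi, by rwa [hσn' i hi] at ha⟩
      · rintro ⟨i, hi, ha⟩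
        exact ⟨i, hi, by rwa [hσn' i hi]⟩
    have hrs' : im σ⁻¹ (rs P j n ∪ tt τ T) = rs P j n0 ∪ tt τ T := by
      rw [← hrs, U.im_inv_im]
    have hσi : Sup P σ⁻¹ := U.sup_inv hσP
    have hy0 : act K α σ⁻¹ y ∈ Cy K (r + 1) (rs P j n0 ∪ tt τ T) (2 * r + 1) := by
      have h1 := act_Cy σ⁻¹ hy
      rwa [hrs'] at h1
    have hyA0 : ∀ i < τ, AntQ (act K α) (T i) (act K α σ⁻¹ y) := fun i hi =>
      ant_rho (act K α) (hTV.out i hi).symm hσi (hyA i hi)
    have hback : act K α σ (act K α σ⁻¹ y) = y := by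
      rw [← Module.End.mul_apply, ← map_mul, mul_inv_cancel, map_one, Module.End.one_apply]
    have hGn : G n y = ρ σ (G n0 (act K α σ⁻¹ y)) := by
      rw [← hG.eqv σ hσP n0 hn0 _ hy0, hback]
      have h1 : G (fun i => im σ (n0 i)) = G n := by
        refine hG.sym 1 n (fun i => im σ (n0 i)) fun i => ?_
        rw [Equiv.Perm.one_apply]
        exact hσn' i i.2
      rw [h1]
    have hkap : kap π (2 * r + 1) (act K α σ⁻¹ y) = kap π (2 * r + 1) y := by
      refine hKA K α (r + 1) (2 * r + 1) (rs P j n ∪ tt τ T) π σ⁻¹ (fun a => ?_) y hy.1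
      have h1 := hσπ (σ⁻¹ a)
      rw [U.app_inv] at h1
      exact h1.symm
    rw [hGn, ((hSC K α H ρ P π).1 σ hσP hσπ _).1, ← hkap]
    exact (hφ1 ⟨act K α σ⁻¹ y, hy0, hyA0⟩).symm
  · intro w hw c hc
    have h1 := IPLF.weight π hTV hn0
    have h2 : ∑ i ∈ range j, s i = ∑ i ∈ range j, tyv π (n0 i) :=
      sum_congr rfl fun i hi => (hs0 i (mem_range.1 hi)).symm
    rw [h2, ← h1] at hw
    have h3 : w = tyv π (rs P j n0 ∪ tt τ T) := add_right_cancel hw
    rw [h3] at hc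
    exact hφ2 c hc

end Pool.Agent.Work.MP_1233f5_ag.Q
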