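import Pool.Agent.Work.MP_1233f5_ag.Q.Stmts
import Pool.Agent.Work.MP_1233f5_ag.Bdx.B02
import Pool.Agent.Work.MP_1233f5_ag.Y.C_QSw

/-! MP_1233f5_ag, block Q, item QG: the functional of `q_3`. -/

set_option autoImplicit false
set_option linter.unusedSectionVars false

namespace Pool.Agent.Work.MP_1233f5_ag.Q

open Finset
open Pool.Agent.Work.MP_1233f5_ag.V (vm vw Mo tyv dd rCh rcyc rVan rNo ML theta)
open Pool.Agent.Work.MP_1233f5_ag.Y
open Pool.Agent.Work.MP_1233f5_ag.Sec (Fk)

namespace IQG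

variable {K : Type} [Field K] {α : Type} [DecidableEq α]

theorem En_mem {r m : ℕ} {P : Finset α} {q : ℕ → α} {f : ℕ → Finset α} (h : EV r P m q f) :
    (En m q f : Lx K α) ∈ Mt K (r + 1) (es m q f) (m + 1) := by
  unfold En
  refine Submodule.sum_mem _ fun σ _ => Submodule.smul_mem _ _ (mo_mem_Mt ⟨fun i => ⟨?_, ?_⟩, ?_⟩)
  · rw [card_insert_of_notMem (h.out _ (Nat.le_of_lt_succ (σ i).2) _ (Nat.le_of_lt_succ i.2)),
      h.card _ (Nat.le_of_lt_succ i.2)]
  · intro a ha
    rcases mem_insert.1 ha with rfl | ha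
    · exact mem_union_left _ (mem_image_of_mem _ (mem_range.2 (σ i).2))
    · exact mem_union_right _ (mem_biUnion.2 ⟨_, mem_range.2 i.2, ha⟩)
  · intro i j hij
    have hij' : (i : ℕ) ≠ (j : ℕ) := fun hc => hij (Fin.ext hc)
    have hs : ((σ i : Fin (m + 1)) : ℕ) ≠ ((σ j : Fin (m + 1)) : ℕ) := fun hc =>
      hij (σ.injective (Fin.ext hc))
    rw [disjoint_left]
    intro a ha hb
    rcases mem_insert.1 ha with rfl | ha <;> rcases mem_insert.1 hb with hb | hb
    · exact hs (h.inj _ (Nat.le_of_lt_succ (σ i).2) _ (Nat.le_of_lt_succ (σ j).2) hb)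
    · exact h.out _ (Nat.le_of_lt_succ (σ i).2) _ (Nat.le_of_lt_succ j.2) hb
    · rw [hb] at ha
      exact h.out _ (Nat.le_of_lt_succ (σ j).2) _ (Nat.le_of_lt_succ i.2) ha
    · exact disjoint_left.1 (h.dis _ (Nat.le_of_lt_succ i.2) _ (Nat.le_of_lt_succ j.2) hij') ha hb

end IQG

open IQG in
/-- [QG] the functional of `q_3`. -/
theorem pr_QG : S_QG := by
  intro K _ _ α _ _ r η hcard hinj
  -- the points of the block are not in `P`
  have hout : ∀ i ≤ 3, η i ∉ (univ \ (range 4).image η : Finset α) := by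
    intro i hi hc
    exact (mem_sdiff.1 hc).2 (mem_image_of_mem _ (mem_range.2 (by omega)))
  have hfix : ∀ σ : Equiv.Perm α, Sup (univ \ (range 4).image η) σ → ∀ i ≤ 3, σ (η i) = η i :=
    fun σ hσ i hi => hσ _ (hout i hi)
  have hcP : (univ \ (range 4).image η : Finset α).card + 4 = Fintype.card α := by
    have h1 : ((range 4).image η).card = 4 := by
      rw [card_image_of_injOn, card_range]
      intro i hi k hk h
      exact hinj i (by have := mem_range.1 (mem_coe.1 hi); omega) k
        (by have := mem_range.1 (mem_coe.1 hk); omega) h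
    have h2 := card_sdiff_add_card_eq_card (subset_univ ((range 4).image η))
    rw [h1, card_univ] at h2
    exact h2
  -- valid blocks
  have hBV : ∀ n : ℕ → Finset α, NV r (univ \ (range 4).image η) 3 n → BV r univ 3 η n := by
    intro n hn
    refine ⟨hinj, fun i _ => mem_univ _, hn.card, fun i _ => subset_univ _, hn.dis, ?_⟩
    intro i hi k hk hc
    exact hout i hi (hn.sub k hk hc)
  have hBVb : ∀ n : ℕ → Finset α, NV r (univ \ (range 4).image η) 3 n → BV r (bs 3 η n) 3 η n := by
    intro n hn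
    refine ⟨hinj, fun i hi => mem_union_left _ (mem_image_of_mem _ (mem_range.2 (by omega))),
      hn.card, fun i hi => ?_, hn.dis, (hBV n hn).out⟩
    exact (subset_biUnion_of_mem n (mem_range.2 hi)).trans subset_union_right
  have hdb : ∀ n : ℕ → Finset α, Disjoint (bs 3 η n)
      (rs (univ \ (range 4).image η) 3 n ∪ tt 0 (fun _ => ∅)) := by
    intro n
    rw [disjoint_left]
    intro a ha hb
    rcases mem_union.1 hb with hb | hb
    · have h1 := (mem_sdiff.1 hb).1
      have h2 := (mem_sdiff.1 hb).2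
      rcases mem_union.1 ha with ha | ha
      · exact (mem_sdiff.1 h1).2 ha
      · exact h2 ha
    · simp [tt] at hb
  refine ⟨⟨fun i hi => absurd hi (Nat.not_lt_zero _), fun i hi => absurd hi (Nat.not_lt_zero _),
    fun i hi => absurd hi (Nat.not_lt_zero _)⟩, ?_, ?_, ?_, ?_, ?_, ?_⟩
  · -- card
    rw [hcard] at hcP
    nlinarith [hcP]
  · -- sym
    intro σ n n' h
    show ((Bd K (r + 1) (univ : Finset α) (2 * r + 4)).mkQ).comp
        (LinearMap.mulLeft K (qn 3 η n')) = ((Bd K (r + 1) (univ : Finset α) (2 * r + 4)).mkQ).comp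
        (LinearMap.mulLeft K (qn 3 η n))
    rw [prf_QSw K α 3 η n n' σ h]
  · -- eqv
    intro σ hσ n hn y hy
    show (Bd K (r + 1) (univ : Finset α) (2 * r + 4)).mkQ
        (qn 3 η (fun i => im σ (n i)) * act K α σ y) =
      actQ K α (r + 1) (2 * r + 4) σ ((Bd K (r + 1) (univ : Finset α) (2 * r + 4)).mkQ
        (qn 3 η n * y))
    rw [actQ_mk, act_mul, (prf_QAct K α 3 η n σ).1]
    rw [qn_congr (η := fun i => σ (η i)) (η' := η) (hfix σ hσ) (fun i _ => rfl)]
  · -- bd
    intro n hn y hy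
    show (Bd K (r + 1) (univ : Finset α) (2 * r + 4)).mkQ (qn 3 η n * y) = 0
    rw [Submodule.mkQ_apply, Submodule.Quotient.mk_eq_zero]
    have h1 := Cy_mul_Bd (hdb n) (prf_QCy K α r 3 (bs 3 η n) η n (hBVb n hn)) hy
    have h2 := Bd_mono (subset_univ _) h1
    rwa [show 3 + (2 * r + 1) = 2 * r + 4 by ring] at h2
  · -- ant
    intro i hi
    exact absurd hi (Nat.not_lt_zero _)
  · -- exch
    intro n hn y hy
    have hEV : EV r univ 3 η n := by
      refine ⟨hinj, fun i _ => mem_univ _, fun i hi => hn.card i (by omega),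
        fun i _ => subset_univ _, fun i hi k hk hik => hn.dis i (by omega) k (by omega) hik, ?_⟩
      intro i hi k hk hc
      exact hout i hi (hn.sub k (by omega) hc)
    have hE := En_mem (K := K) hEV
    have hd : Disjoint (es 3 η n)
        (rs (univ \ (range 4).image η) (3 + 1) n ∪ tt 0 (fun _ => ∅)) := by
      rw [disjoint_left]
      intro a ha hb
      rcases mem_union.1 hb with hb | hb
      · have h1 := (mem_sdiff.1 hb).1
        have h2 := (mem_sdiff.1 hb).2
        rcases mem_union.1 ha with ha | ha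
        · exact (mem_sdiff.1 h1).2 ha
        · exact h2 ha
      · simp [tt] at hb
    have hM := Mt_mono (subset_univ _) (Mt_mul (p := 3 + 1) hd hE hy.1)
    have hDy : Dx y = 0 := hy.2
    have h1 : Dx (En 3 η n * y) = ((-1 : K) ^ 3) • ∑ k ∈ range (3 + 1), qn 3 η (skp k n) * y := by
      rw [Dx_mul hE, hDy, mul_zero, smul_zero, add_zero, prf_ED K α 3 η n, smul_mul_assoc, sum_mul]
    have h2 : ∑ k ∈ range (3 + 1), (qn 3 η (skp k n) * y : Lx K α) ∈
        Bd K (r + 1) (univ : Finset α) (2 * r + 4) := by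
      have h3 : ∑ k ∈ range (3 + 1), (qn 3 η (skp k n) * y : Lx K α) =
          Dx (((-1 : K) ^ 3) • (En 3 η n * y)) := by
        rw [map_smul, h1, smul_smul]
        norm_num
      rw [h3]
      refine ⟨_, Submodule.smul_mem _ _ ?_, rfl⟩
      rwa [show 3 + 1 + (2 * r + 1) = 2 * r + 4 + 1 by ring] at hM
    have h4 : ∑ k ∈ range (3 + 1), (Bd K (r + 1) (univ : Finset α) (2 * r + 4)).mkQ
        (qn 3 η (skp k n) * y : Lx K α) = 0 := by
      rw [← map_sum, Submodule.mkQ_apply, Submodule.Quotient.mk_eq_zero]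
      exact h2
    exact h4

end Pool.Agent.Work.MP_1233f5_ag.Q
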