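import Pool.Agent.Work.MP_1233f5_ag.Q.Stmts

/-! MP_1233f5_ag, block Q, item R4 (helper77): four rows on a set `P`, from `S_R4u` and `S_Sub`. -/

set_option autoImplicit false

namespace Pool.Agent.Work.MP_1233f5_ag.Q

open Finset
open Pool.Agent.Work.MP_1233f5_ag.Y

theorem pr_R4 (hR4u : S_R4u) (hSub : S_Sub) : S_R4 := by
  intro K _ _ α _ _ r P Q hr hP hQP hQ z hz
  obtain ⟨f, hCy, hBd, hasym⟩ := hSub K α P
  rw [← hCy (r + 1) (2 * r + 1)] at hz
  obtain ⟨z', hz', rfl⟩ := Submodule.mem_map.1 hz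
  set Q' : Finset {x // x ∈ P} := Q.subtype (fun x => x ∈ P) with hQ'
  have hmap : Q'.map (Function.Embedding.subtype _) = Q :=
    Finset.subtype_map_of_mem (fun x hx => hQP hx)
  have hcard : Q'.card = 4 := by
    rw [← hQ, ← hmap, Finset.card_map]
  have hα : Fintype.card {x // x ∈ P} = (2 * r + 1) * (r + 2) := by
    rw [← hP]
    exact Fintype.card_coe P
  have h1 := hR4u K {x // x ∈ P} r Q' hr hα hcard z' hz'
  have h2 : f (asym (act K {x // x ∈ P}) Q' z') ∈ Bd K (r + 1) P (2 * r + 1) := by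
    rw [← hBd (r + 1) (2 * r + 1)]
    exact Submodule.mem_map_of_mem h1
  rw [hasym, hmap] at h2
  exact h2

end Pool.Agent.Work.MP_1233f5_ag.Q
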