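import Pool.Agent.Work.MP_1233f5_ag.Q.Stmts

/-! MP_1233f5_ag, block Q, item Rep3: generation by vectors invariant for a colouring with three
colours and by vectors antisymmetric in four points. -/

set_option autoImplicit false

namespace Pool.Agent.Work.MP_1233f5_ag.Q

open Finset
open Pool.Agent.Work.MP_1233f5_ag.V (vm vw Mo tyv dd rCh rcyc rVan rNo ML theta)
open Pool.Agent.Work.MP_1233f5_ag.Y

namespace IRep3

variable {α : Type} [DecidableEq α] {P : Finset α}

theorem mem_iff {σ : Equiv.Perm α} (h : Sup P σ) (x : α) : σ x ∈ P ↔ x ∈ P := by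
  constructor
  · intro hx
    by_contra hcon
    rw [h x hcon] at hx
    exact hcon hx
  · intro hx
    by_contra hcon
    have h1 := h _ hcon
    have h2 := σ.injective h1
    rw [h2] at hcon
    exact hcon hx

/-- the restriction to `P` -/
def rsx {σ : Equiv.Perm α} (h : Sup P σ) : Equiv.Perm {a // a ∈ P} :=
  σ.subtypePerm (p := fun a => a ∈ P) (mem_iff h)

theorem of_rsx {σ : Equiv.Perm α} (h : Sup P σ) :
    Equiv.Perm.ofSubtype (p := fun a => a ∈ P) (rsx h) = σ :=
  Equiv.Perm.ofSubtype_subtypePerm (p := fun a => a ∈ P) (mem_iff h) fun x hx => by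
    by_contra hcon
    exact hx (h x hcon)

theorem rsx_coe {σ : Equiv.Perm α} (h : Sup P σ) (a : {a // a ∈ P}) : (rsx h a : α) = σ a := rfl

theorem sup_of (s : Equiv.Perm {a // a ∈ P}) :
    Sup P (Equiv.Perm.ofSubtype (p := fun a => a ∈ P) s) := fun _ ha =>
  Equiv.Perm.ofSubtype_apply_of_not_mem s ha

end IRep3

open IRep3 in
theorem pr_Rep3 : S_Rep3 := by
  intro K _ _ α _ _ H _ _ ρ P Z B hZ hB hY hQ
  refine Pool.Agent.Work.MP_1233f5_ag.V.h_Rep K {a // a ∈ P} H
    (ρ.comp (Equiv.Perm.ofSubtype (p := fun a => a ∈ P))) Z B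
    (fun σ z hz => hZ _ (sup_of σ) z hz) (fun σ z hz => hB _ (sup_of σ) z hz) 3 ?_ ?_
  · intro π z hz hinv
    refine hY (fun a => if h : a ∈ P then π ⟨a, h⟩ else 0) z hz ?_
    intro σ hs hc
    have h1 := hinv (rsx hs) ?_
    · rw [MonoidHom.comp_apply, of_rsx] at h1
      exact h1
    · intro a
      have h2 := hc a
      have h3 : σ (a : α) ∈ P := (mem_iff hs _).2 a.2
      simp only [dif_pos h3, dif_pos a.2] at h2
      exact h2
  · intro Q hQc z hz hanti
    refine hQ (Q.map (Function.Embedding.subtype _)) ?_ ?_ z hz ?_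
    · intro a ha
      rw [Finset.mem_map] at ha
      obtain ⟨a', -, rfl⟩ := ha
      exact a'.2
    · rw [Finset.card_map, hQc]
    · intro σ hs
      have hsP : Sup P σ := by
        intro a ha
        refine hs a fun h1 => ha ?_
        rw [Finset.mem_map] at h1
        obtain ⟨a', -, rfl⟩ := h1
        exact a'.2
      have h1 := hanti (rsx hsP) ?_
      · rw [MonoidHom.comp_apply, of_rsx] at h1
        rw [h1]
        have h2 := Equiv.Perm.sign_ofSubtype (p := fun a => a ∈ P) (rsx hsP)
        rw [of_rsx] at h2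
        rw [h2]
      · intro a ha
        refine Subtype.ext ?_
        rw [rsx_coe]
        refine hs _ fun h1 => ha ?_
        rw [Finset.mem_map] at h1
        obtain ⟨a', ha', h2⟩ := h1
        have h3 : a' = a := Subtype.ext h2
        rw [← h3]
        exact ha'

end Pool.Agent.Work.MP_1233f5_ag.Q
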