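import Pool.Agent.Work.MP_1233f5_ag.Q.Stmts

/-! MP_1233f5_ag, block Q, item Sub: transport along the inclusion of a subset. -/

set_option autoImplicit false

namespace Pool.Agent.Work.MP_1233f5_ag.Q

open Finset
open Pool.Agent.Work.MP_1233f5_ag.V (vm)
open Pool.Agent.Work.MP_1233f5_ag.Y

namespace ISub

section
variable {K : Type} [Field K] {α : Type} {P : Finset α}

/-- the inclusion on sets. -/
def mp (e : Finset {x // x ∈ P}) : Finset α := e.map (Function.Embedding.subtype _)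

theorem mem_mp (e : Finset {x // x ∈ P}) (a : α) : a ∈ mp e ↔ ∃ h : a ∈ P, ⟨a, h⟩ ∈ e := by
  unfold mp
  rw [Finset.mem_map]
  constructor
  · rintro ⟨b, hb, rfl⟩
    exact ⟨b.2, hb⟩
  · rintro ⟨h, hb⟩
    exact ⟨⟨a, h⟩, hb, rfl⟩

/-- the algebra map. -/
noncomputable def fA (K : Type) [Field K] (P : Finset α) : Lx K {x // x ∈ P} →ₐ[K] Lx K α :=
  ExteriorAlgebra.map (Finsupp.lmapDomain K K (mp (P := P)) :
    (Finset {x // x ∈ P} →₀ K) →ₗ[K] (Finset α →₀ K))

theorem fA_ed (e : Finset {x // x ∈ P}) : fA K P (ed e) = ed (mp e) := by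
  unfold fA ed
  rw [ExteriorAlgebra.map_apply_ι]
  simp [Finsupp.mapDomain_single]

theorem fA_mo {p : ℕ} (t : Fin p → Finset {x // x ∈ P}) :
    fA K P (mo t) = mo (fun i => mp (t i)) := by
  induction p with
  | zero => rw [mo_zero, mo_zero, map_one]
  | succ p ih =>
    rw [mo_succ, mo_succ, map_mul, fA_ed, ih]
    rfl

theorem fA_Dx (x : Lx K {x // x ∈ P}) : fA K P (Dx x) = Dx (fA K P x) := by
  induction x using Lx_induction with
  | h1 => rw [Dx_one, map_zero, map_one, Dx_one]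
  | hadd x y hx hy => rw [map_add, map_add, map_add, map_add, hx, hy]
  | hsmul c x hx => rw [map_smul, map_smul, map_smul, map_smul, hx]
  | hed e x hx => rw [Dx_ed_mul, map_sub, map_mul, map_mul, fA_ed, Dx_ed_mul, hx]

/-- restriction of a set. -/
def rst (P : Finset α) [DecidableEq α] (e : Finset α) : Finset {x // x ∈ P} :=
  e.subtype (fun a => a ∈ P)

theorem rst_mp [DecidableEq α] (e : Finset {x // x ∈ P}) : rst P (mp e) = e := by
  ext a
  unfold rst
  rw [Finset.mem_subtype, mem_mp]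
  constructor
  · rintro ⟨h, ha⟩
    exact ha
  · intro ha
    exact ⟨a.2, ha⟩

theorem mp_rst [DecidableEq α] {e : Finset α} (he : e ⊆ P) : mp (rst P e) = e := by
  ext a
  unfold rst
  rw [mem_mp]
  constructor
  · rintro ⟨h, ha⟩
    exact Finset.mem_subtype.1 ha
  · intro ha
    exact ⟨he ha, Finset.mem_subtype.2 ha⟩

theorem fA_inj [DecidableEq α] : Function.Injective (fA K P) := by
  have h : (ExteriorAlgebra.map (Finsupp.lmapDomain K K (rst P) :
      (Finset α →₀ K) →ₗ[K] (Finset {x // x ∈ P} →₀ K))).comp (fA K P) = AlgHom.id K _ := by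
    unfold fA
    rw [ExteriorAlgebra.map_comp_map, ← Finsupp.lmapDomain_comp]
    have h1 : (rst P) ∘ (mp (P := P)) = id := funext rst_mp
    rw [h1, Finsupp.lmapDomain_id, ExteriorAlgebra.map_id]
  intro x y hxy
  have h1 := congrArg (ExteriorAlgebra.map (Finsupp.lmapDomain K K (rst P) :
      (Finset α →₀ K) →ₗ[K] (Finset {x // x ∈ P} →₀ K))) hxy
  have h2 := DFunLike.congr_fun h x
  have h3 := DFunLike.congr_fun h y
  exact (h2.symm.trans h1).trans h3

variable [DecidableEq α]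

omit [DecidableEq α] in
theorem vm_mp {d p : ℕ} {t : Fin p → Finset {x // x ∈ P}}
    (h : vm d (univ : Finset {x // x ∈ P}) p t) : vm d P p (fun i => mp (t i)) := by
  refine ⟨fun i => ⟨?_, ?_⟩, fun i j hij => ?_⟩
  · unfold mp
    rw [Finset.card_map]
    exact (h.1 i).1
  · intro a ha
    exact ((mem_mp _ _).1 ha).1
  · exact (Finset.disjoint_map _).2 (h.2 i j hij)

theorem vm_rst {d p : ℕ} {t : Fin p → Finset α} (h : vm d P p t) :
    vm d (univ : Finset {x // x ∈ P}) p (fun i => rst P (t i)) := by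
  refine ⟨fun i => ⟨?_, subset_univ _⟩, fun i j hij => ?_⟩
  · have h1 := congrArg Finset.card (mp_rst (h.1 i).2)
    unfold mp at h1
    rw [Finset.card_map] at h1
    exact h1.trans (h.1 i).1
  · rw [Finset.disjoint_left]
    intro a ha ha'
    exact Finset.disjoint_left.1 (h.2 i j hij) (Finset.mem_subtype.1 ha)
      (Finset.mem_subtype.1 ha')

theorem map_Mt (d p : ℕ) :
    (Mt K d (univ : Finset {x // x ∈ P}) p).map (fA K P).toLinearMap = Mt K d P p := by
  unfold Mt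
  rw [Submodule.map_span]
  congr 1
  ext x
  constructor
  · rintro ⟨_, ⟨t, ht, rfl⟩, rfl⟩
    exact ⟨fun i => mp (t i), vm_mp ht, fA_mo t⟩
  · rintro ⟨t, ht, rfl⟩
    refine ⟨mo (fun i => rst P (t i)), ⟨_, vm_rst ht, rfl⟩, ?_⟩
    show fA K P (mo (fun i => rst P (t i))) = mo t
    rw [fA_mo]
    congr 1
    funext i
    exact mp_rst (ht.1 i).2

theorem map_Cy (d p : ℕ) :
    (Cy K d (univ : Finset {x // x ∈ P}) p).map (fA K P).toLinearMap = Cy K d P p := by
  ext y
  constructor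
  · rintro ⟨x, hx, rfl⟩
    refine ⟨?_, ?_⟩
    · rw [← map_Mt]
      exact ⟨x, hx.1, rfl⟩
    · have h1 : Dx x = 0 := hx.2
      show Dx (fA K P x) = 0
      rw [← fA_Dx, h1, map_zero]
  · rintro ⟨h1, h2⟩
    have h3 : y ∈ (Mt K d (univ : Finset {x // x ∈ P}) p).map (fA K P).toLinearMap := by
      rw [map_Mt]
      exact h1
    obtain ⟨x, hx, rfl⟩ := h3
    refine ⟨x, ⟨hx, ?_⟩, rfl⟩
    have h4 : Dx (fA K P x) = 0 := h2
    rw [← fA_Dx] at h4
    show Dx x = 0
    exact fA_inj (h4.trans (map_zero _).symm)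

theorem map_Bd (d p : ℕ) :
    (Bd K d (univ : Finset {x // x ∈ P}) p).map (fA K P).toLinearMap = Bd K d P p := by
  unfold Bd
  rw [← map_Mt (P := P) (K := K) d (p + 1), ← Submodule.map_comp, ← Submodule.map_comp]
  congr 1
  exact LinearMap.ext fun x => fA_Dx x

theorem im_ofS (σ : Equiv.Perm {x // x ∈ P}) (e : Finset {x // x ∈ P}) :
    im (Equiv.Perm.ofSubtype σ) (mp e) = mp (im σ e) := by
  unfold im mp
  rw [Finset.map_map, Finset.map_map]
  congr 1
  ext a
  exact Equiv.Perm.ofSubtype_apply_coe σ a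

theorem fA_act (σ : Equiv.Perm {x // x ∈ P}) (x : Lx K {x // x ∈ P}) :
    fA K P (act K _ σ x) = act K α (Equiv.Perm.ofSubtype σ) (fA K P x) := by
  induction x using Lx_induction with
  | h1 => rw [act_one, map_one, act_one]
  | hadd x y hx hy => rw [map_add, map_add, map_add, map_add, hx, hy]
  | hsmul c x hx => rw [map_smul, map_smul, map_smul, map_smul, hx]
  | hed e x hx => rw [act_mul, map_mul, act_ed, fA_ed, hx, map_mul, fA_ed, act_mul, act_ed, im_ofS]

theorem sup_ofS {Q : Finset {x // x ∈ P}} {σ : Equiv.Perm {x // x ∈ P}} (h : Sup Q σ) :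
    Sup (mp Q) (Equiv.Perm.ofSubtype σ) := by
  intro a ha
  by_cases hP : a ∈ P
  · have h1 : (⟨a, hP⟩ : {x // x ∈ P}) ∉ Q := fun hc => ha ((mem_mp _ _).2 ⟨hP, hc⟩)
    have h2 := Equiv.Perm.ofSubtype_apply_coe σ (⟨a, hP⟩ : {x // x ∈ P})
    rw [h _ h1] at h2
    exact h2
  · exact Equiv.Perm.ofSubtype_apply_of_not_mem σ hP

theorem ofS_surj {Q : Finset {x // x ∈ P}} {τ : Equiv.Perm α} (h : Sup (mp Q) τ) :
    ∃ σ : Equiv.Perm {x // x ∈ P}, Sup Q σ ∧ Equiv.Perm.ofSubtype σ = τ := by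
  have hQP : mp Q ⊆ P := fun a ha => ((mem_mp _ _).1 ha).1
  have h1 : ∀ x, τ x ∈ P ↔ x ∈ P := U.sup_mem_iff (U.sup_mono hQP h)
  refine ⟨τ.subtypePerm h1, ?_, ?_⟩
  · intro a ha
    have h2 : (a : α) ∉ mp Q := fun hc => ha (by
      obtain ⟨h3, h4⟩ := (mem_mp _ _).1 hc
      exact h4)
    apply Subtype.ext
    rw [Equiv.Perm.subtypePerm_apply]
    exact h _ h2
  · refine Equiv.Perm.ofSubtype_subtypePerm h1 ?_
    intro x hx
    by_contra hc
    exact hx (U.sup_mono hQP h x hc)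

theorem fA_asym [Fintype α] (Q : Finset {x // x ∈ P}) (z : Lx K {x // x ∈ P}) :
    fA K P (asym (act K {x // x ∈ P}) Q z) = asym (act K α) (mp Q) (fA K P z) := by
  classical
  rw [U.asym_apply, U.asym_apply, map_sum]
  refine Finset.sum_bij (fun σ _ => Equiv.Perm.ofSubtype σ) ?_ ?_ ?_ ?_
  · intro σ hσ
    rw [mem_filter] at hσ ⊢
    exact ⟨mem_univ _, sup_ofS hσ.2⟩
  · intro σ _ τ _ h
    exact Equiv.Perm.ofSubtype_injective h
  · intro τ hτ
    rw [mem_filter] at hτ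
    obtain ⟨σ, h1, h2⟩ := ofS_surj hτ.2
    exact ⟨σ, mem_filter.2 ⟨mem_univ _, h1⟩, h2⟩
  · intro σ _
    rw [map_smul, fA_act, Equiv.Perm.sign_ofSubtype]

end

end ISub

theorem pr_Sub : S_Sub := by
  intro K _ _ α _ _ P
  exact ⟨(ISub.fA K P).toLinearMap, fun d p => ISub.map_Cy d p, fun d p => ISub.map_Bd d p,
    fun Q z => ISub.fA_asym Q z⟩

end Pool.Agent.Work.MP_1233f5_ag.Q
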