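import Pool.Agent.Work.MP_1233f5_ag.Q.Stmts
import Pool.Agent.Work.MP_1233f5_ag.Y.Util

/-! MP_1233f5_ag, block Q, item Sur: antisymmetric cycles suffice, up to symmetrization.
Author: helper32. -/

set_option autoImplicit false

namespace Pool.Agent.Work.MP_1233f5_ag.Q

open Finset
open Pool.Agent.Work.MP_1233f5_ag.V (vm vw Mo tyv dd rCh rcyc rVan rNo ML theta)
open Pool.Agent.Work.MP_1233f5_ag.Y

namespace ISur

section types

variable {α : Type} [DecidableEq α]

omit [DecidableEq α] in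
theorem tyv_sum (π : α → Fin 3) (e : Finset α) : ∑ a, tyv π e a = e.card := by
  unfold tyv
  exact (Finset.card_eq_sum_card_fiberwise (f := π) (s := e) (t := univ) (by simp)).symm

omit [DecidableEq α] in
/-- a triple with three colours has type `(1,1,1)`. -/
theorem tyv_one (π : α → Fin 3) {S : Finset α} (hS : S.card = 3)
    (h : ∀ u ∈ S, ∀ v ∈ S, π u = π v → u = v) : tyv π S = fun _ => 1 := by
  have hle : ∀ j : Fin 3, tyv π S j ≤ 1 := by
    intro j
    unfold tyv
    rw [Finset.card_le_one]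
    intro a ha b hb
    rw [mem_filter] at ha hb
    exact h a ha.1 b hb.1 (ha.2.trans hb.2.symm)
  have hsum := tyv_sum π S
  rw [hS, Fin.sum_univ_three] at hsum
  have h0 := hle 0
  have h1 := hle 1
  have h2 := hle 2
  funext j
  fin_cases j
  · show tyv π S 0 = 1
    omega
  · show tyv π S 1 = 1
    omega
  · show tyv π S 2 = 1
    omega

theorem sub_tt {τ i : ℕ} {T : ℕ → Finset α} (hi : i < τ) : T i ⊆ tt τ T := by
  intro a ha
  exact mem_biUnion.2 ⟨i, mem_range.2 hi, ha⟩

end types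

section reps

variable {K : Type} [Field K] {α : Type} [Fintype α] [DecidableEq α] {H : Type} [AddCommGroup H]
  [Module K H]

omit [Fintype α] in
theorem sign_swap_cast {u v : α} [Fintype α] (h : u ≠ v) :
    ((Equiv.Perm.sign (Equiv.swap u v) : ℤ) : K) = -1 := by
  rw [Equiv.Perm.sign_swap h]
  simp

/-- antisymmetric in a set with two points of the same colour. -/
theorem symC_zero [CharZero K] (hS : S_SymC) (ρ : Equiv.Perm α →* Module.End K H) {P Q : Finset α}
    (π : α → Fin 3) (hQ : Q ⊆ P) {z : H} (hz : AntQ ρ Q z) {u v : α} (hu : u ∈ Q) (hv : v ∈ Q)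
    (huv : u ≠ v) (hπ : π u = π v) : symC ρ P π z = 0 := by
  refine (hS K α H ρ P π).2.2.2.2.2.1 u (hQ hu) v (hQ hv) huv hπ z ?_
  rw [hz _ (U.sup_swap hu hv), sign_swap_cast huv, neg_one_smul]

/-- transport of antisymmetry. -/
theorem ant_im (ρ : Equiv.Perm α →* Module.End K H) {Q Q' : Finset α} {σ : Equiv.Perm α}
    (him : im σ Q = Q') {z : H} (hz : AntQ ρ Q z) : AntQ ρ Q' (ρ σ z) := by
  intro κ hκ
  have h1 : Sup Q (σ⁻¹ * κ * σ) := by
    intro a ha
    have h2 : σ a ∉ Q' := by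
      rw [← him, mem_im, U.inv_app]
      exact ha
    rw [Equiv.Perm.mul_apply, Equiv.Perm.mul_apply, hκ _ h2, U.inv_app]
  have h3 : κ * σ = σ * (σ⁻¹ * κ * σ) := by group
  have h4 : Equiv.Perm.sign (σ⁻¹ * κ * σ) = Equiv.Perm.sign κ := by
    rw [map_mul, map_mul, map_inv, mul_comm, ← mul_assoc, mul_inv_cancel, one_mul]
  rw [← Module.End.mul_apply, ← map_mul, h3, map_mul, Module.End.mul_apply, hz _ h1, map_smul, h4]

end reps

end ISur

open ISur

theorem pr_Sur (hDeep : S_Deep) (hZ : S_Z2T) (hKC : S_KCh) (hKK : S_KKer) (hSC : S_SymC)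
    (hAs : S_Asym) (hKL : S_KLift) : S_Sur := by
  classical
  intro K _ _ α _ _ r τ R T π hr hτ hT hinj y hy
  -- notation
  obtain ⟨P, hP⟩ : ∃ P, P = R ∪ tt τ T := ⟨_, rfl⟩
  rw [← hP] at hy ⊢
  have hTP : ∀ i < τ, T i ⊆ P := fun i hi => by
    rw [hP]
    exact (sub_tt hi).trans subset_union_right
  obtain ⟨s1, s2, s3, s4, s5, s6, s7⟩ := hSC K α (Lx K α) (act K α) P π
  -- the solutions form a submodule
  let M : Submodule K (Lx K α) :=
    { carrier := {y | ∃ y' ∈ Cy K (r + 1) P (2 * r + 1), (∀ i < τ, AntQ (act K α) (T i) y') ∧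
        symC (act K α) P π (y - y') ∈ Bd K (r + 1) P (2 * r + 1)}
      add_mem' := by
        rintro a b ⟨a', ha1, ha2, ha3⟩ ⟨b', hb1, hb2, hb3⟩
        refine ⟨a' + b', Submodule.add_mem _ ha1 hb1, fun i hi σ hσ => ?_, ?_⟩
        · rw [map_add, ha2 i hi σ hσ, hb2 i hi σ hσ, smul_add]
        · rw [add_sub_add_comm, map_add]
          exact Submodule.add_mem _ ha3 hb3
      zero_mem' := by
        refine ⟨0, Submodule.zero_mem _, fun i hi σ hσ => ?_, ?_⟩
        · rw [map_zero, smul_zero]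
        · rw [sub_zero, map_zero]
          exact Submodule.zero_mem _
      smul_mem' := by
        rintro c a ⟨a', ha1, ha2, ha3⟩
        refine ⟨c • a', Submodule.smul_mem _ _ ha1, fun i hi σ hσ => ?_, ?_⟩
        · rw [map_smul, ha2 i hi σ hσ, smul_comm]
        · rw [← smul_sub, map_smul]
          exact Submodule.smul_mem _ _ ha3 }
  have hM : ∀ x : Lx K α, symC (act K α) P π x ∈ Bd K (r + 1) P (2 * r + 1) → x ∈ M := by
    intro x hx
    refine ⟨0, Submodule.zero_mem _, fun i hi σ hσ => ?_, ?_⟩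
    · rw [map_zero, smul_zero]
    · rw [sub_zero]
      exact hx
  -- the submodule `B`
  let S : Set (Lx K α) := {x | ∃ Q ⊆ P, Q.card = 4 ∧ ∃ z ∈ Cy K (r + 1) P (2 * r + 1),
    x = asym (act K α) Q z}
  have hCst : ∀ σ : Equiv.Perm α, Sup P σ → ∀ z ∈ Cy K (r + 1) P (2 * r + 1),
      act K α σ z ∈ Cy K (r + 1) P (2 * r + 1) :=
    fun σ hσ z hz => act_Cy_sup hσ (Subset.refl _) hz
  have hBst : ∀ σ : Equiv.Perm α, Sup P σ → ∀ z ∈ Bd K (r + 1) P (2 * r + 1),
      act K α σ z ∈ Bd K (r + 1) P (2 * r + 1) :=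
    fun σ hσ z hz => act_Bd_sup hσ (Subset.refl _) hz
  have hS : ∀ σ : Equiv.Perm α, Sup P σ →
      ∀ z ∈ Bd K (r + 1) P (2 * r + 1) ⊔ Submodule.span K S,
        act K α σ z ∈ Bd K (r + 1) P (2 * r + 1) ⊔ Submodule.span K S := by
    intro σ hσ z hz
    have h1 : Bd K (r + 1) P (2 * r + 1) ⊔ Submodule.span K S ≤
        (Bd K (r + 1) P (2 * r + 1) ⊔ Submodule.span K S).comap (act K α σ) := by
      refine sup_le (fun x hx => Submodule.mem_sup_left (hBst σ hσ x hx)) ?_
      rw [Submodule.span_le]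
      rintro _ ⟨Q, hQ, hQ4, w, hw, rfl⟩
      refine Submodule.mem_sup_right (Submodule.subset_span ⟨im σ Q, U.im_sub hσ hQ, ?_,
        act K α σ w, hCst σ hσ w hw, ?_⟩)
      · rw [card_im, hQ4]
      · exact (hAs K α (Lx K α) (act K α) Q).2.2.2.1 σ w
    exact h1 hz
  have hD := hDeep K α (Lx K α) (act K α) P (Cy K (r + 1) P (2 * r + 1))
    (Bd K (r + 1) P (2 * r + 1) ⊔ Submodule.span K S) 3 hCst hS
    (fun Q hQ hQ4 z hz => Submodule.mem_sup_right (Submodule.subset_span ⟨Q, hQ, hQ4, z, hz, rfl⟩))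
    ?_
  · have hle : (Bd K (r + 1) P (2 * r + 1) ⊔ Submodule.span K S) ⊔
        Submodule.span K {y | y ∈ Cy K (r + 1) P (2 * r + 1) ∧ ∃ T : ℕ → Finset α,
          (∀ i < 3, T i ⊆ P ∧ (T i).card = 3) ∧
          (∀ i < 3, ∀ k < 3, i ≠ k → Disjoint (T i) (T k)) ∧
          ∀ i < 3, AntQ (act K α) (T i) y} ≤ M := by
      refine sup_le (sup_le (fun x hx => hM x (s7 _ hBst x hx)) ?_) ?_
      · rw [Submodule.span_le]
        rintro _ ⟨Q, hQ, hQ4, w, hw, rfl⟩
        refine hM _ ?_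
        obtain ⟨u, hu, v, hv, huv, hπ⟩ := Finset.exists_ne_map_eq_of_card_lt_of_maps_to
          (s := Q) (t := (univ : Finset (Fin 3))) (f := π) (by rw [hQ4]; decide)
          (fun a _ => mem_univ _)
        rw [symC_zero hSC (act K α) π hQ ((hAs K α (Lx K α) (act K α) Q).2.2.1 w) hu hv huv hπ]
        exact Submodule.zero_mem _
      · rw [Submodule.span_le]
        rintro w ⟨hw, T', hT1, hT2, hT3⟩
        by_cases hc : ∀ i < 3, ∀ u ∈ T' i, ∀ v ∈ T' i, π u = π v → u = v
        · -- all three triples have three colours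
          have hv1 : vm 3 P τ (fun i : Fin τ => T' i) :=
            ⟨fun i => ⟨(hT1 i (by omega)).2, (hT1 i (by omega)).1⟩,
              fun i k hik => hT2 i (by omega) k (by omega) (fun h => hik (Fin.ext h))⟩
          have hv2 : vm 3 P τ (fun i : Fin τ => T i) :=
            ⟨fun i => ⟨hT.card i i.2, hTP i i.2⟩,
              fun i k hik => hT.dis i i.2 k k.2 (fun h => hik (Fin.ext h))⟩
          obtain ⟨σ, h1, h2, h3⟩ := (hKL α 3 τ P π).2 _ _ hv1 hv2 (fun i => by
            show tyv π (T' i) = tyv π (T i)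
            rw [tyv_one π (hT1 i (by omega)).2 (hc i (by omega)),
              tyv_one π (hT.card i i.2) (hinj i i.2)])
          refine ⟨act K α σ w, hCst σ h1 w hw, fun i hi => ?_, ?_⟩
          · exact ant_im (act K α) (h3 ⟨i, hi⟩) (hT3 i (by omega))
          · rw [map_sub, (s1 σ h1 h2 w).1, sub_self]
            exact Submodule.zero_mem _
        · push Not at hc
          obtain ⟨i, hi, u, hu, v, hv, hπ, huv⟩ := hc
          refine hM _ ?_
          rw [symC_zero hSC (act K α) π (hT1 i hi).1 (hT3 i hi) hu hv huv hπ]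
          exact Submodule.zero_mem _
    exact hle (hD hy)
  · -- few points of the third colour
    intro π' hπ' z hz hinv
    have h1 : kap π' (2 * r + 1) z = 0 := by
      refine hZ K r (tyv π' P) 2 hr ?_ _ (hKC K α (r + 1) (2 * r + 1) P π' z hz.1)
      unfold tyv
      omega
    have h2 := hKK K α (r + 1) (2 * r + 1) P π' z hz.1 h1
    obtain ⟨N, hN, hN'⟩ := (hSC K α (Lx K α) (act K α) P π').2.1
    rw [hN' z hinv] at h2
    rw [(smul_eq_zero.1 h2).resolve_left hN]
    exact Submodule.zero_mem _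

end Pool.Agent.Work.MP_1233f5_ag.Q
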