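import Pool.Agent.Work.MP_1233f5_ag.Q.Stmts
import Pool.Agent.Work.MP_1233f5_ag.Y.Util

/-! MP_1233f5_ag, block Q, item SymC: elementary facts on `symC`.  Author: helper38. -/

set_option autoImplicit false

namespace Pool.Agent.Work.MP_1233f5_ag.Q

open Finset
open Pool.Agent.Work.MP_1233f5_ag.Y

namespace ISymC

variable {K : Type} [Field K] {α : Type} {H : Type} [AddCommGroup H] [Module K H]

/-- the group of `symC` -/
def Gc (P : Finset α) (π : α → Fin 3) (σ : Equiv.Perm α) : Prop := Sup P σ ∧ ∀ a, π (σ a) = π a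

theorem gc_one (P : Finset α) (π : α → Fin 3) : Gc P π (1 : Equiv.Perm α) :=
  ⟨U.sup_one P, fun _ => rfl⟩

theorem gc_mul {P : Finset α} {π : α → Fin 3} {σ τ : Equiv.Perm α} (h1 : Gc P π σ) (h2 : Gc P π τ) :
    Gc P π (σ * τ) :=
  ⟨U.sup_mul h1.1 h2.1, fun a => by rw [Equiv.Perm.mul_apply, h1.2, h2.2]⟩

theorem gc_inv {P : Finset α} {π : α → Fin 3} {σ : Equiv.Perm α} (h1 : Gc P π σ) :
    Gc P π σ⁻¹ :=
  ⟨U.sup_inv h1.1, fun a => by
    have h := h1.2 (σ⁻¹ a)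
    rw [U.app_inv] at h
    exact h.symm⟩

theorem gc_mono {P P' : Finset α} {π : α → Fin 3} (h : P' ⊆ P) {σ : Equiv.Perm α} (h1 : Gc P' π σ) :
    Gc P π σ := ⟨U.sup_mono h h1.1, h1.2⟩

variable [Fintype α] (ρ : Equiv.Perm α →* Module.End K H)

open Classical in
theorem symC_apply (P : Finset α) (π : α → Fin 3) (z : H) : symC ρ P π z =
    ∑ σ ∈ univ.filter (fun σ : Equiv.Perm α => Gc P π σ), ρ σ z := by
  unfold symC
  rw [LinearMap.sum_apply]
  refine sum_congr ?_ fun _ _ => rfl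
  ext σ
  simp only [mem_filter, mem_univ, true_and]
  exact Iff.rfl

theorem symC_rho {P : Finset α} {π : α → Fin 3} {τ : Equiv.Perm α} (hτ : Gc P π τ) (z : H) :
    symC ρ P π (ρ τ z) = symC ρ P π z := by
  classical
  rw [symC_apply, symC_apply]
  refine sum_nbij' (fun σ => σ * τ) (fun σ => σ * τ⁻¹) ?_ ?_ ?_ ?_ ?_
  · intro σ hσ
    simp only [mem_filter, mem_univ, true_and] at hσ ⊢
    exact gc_mul hσ hτ
  · intro σ hσ
    simp only [mem_filter, mem_univ, true_and] at hσ ⊢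
    exact gc_mul hσ (gc_inv hτ)
  · intro σ _
    exact mul_inv_cancel_right σ τ
  · intro σ _
    exact inv_mul_cancel_right σ τ
  · intro σ _
    rw [map_mul, Module.End.mul_apply]

theorem rho_symC {P : Finset α} {π : α → Fin 3} {τ : Equiv.Perm α} (hτ : Gc P π τ) (z : H) :
    ρ τ (symC ρ P π z) = symC ρ P π z := by
  classical
  rw [symC_apply, map_sum]
  refine sum_nbij' (fun σ => τ * σ) (fun σ => τ⁻¹ * σ) ?_ ?_ ?_ ?_ ?_
  · intro σ hσ
    simp only [mem_filter, mem_univ, true_and] at hσ ⊢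
    exact gc_mul hτ hσ
  · intro σ hσ
    simp only [mem_filter, mem_univ, true_and] at hσ ⊢
    exact gc_mul (gc_inv hτ) hσ
  · intro σ _
    exact inv_mul_cancel_left τ σ
  · intro σ _
    exact mul_inv_cancel_left τ σ
  · intro σ _
    rw [map_mul, Module.End.mul_apply]

theorem symC_conj {P : Finset α} (π : α → Fin 3) {τ : Equiv.Perm α} (hτ : Sup P τ) (z : H) :
    symC ρ P π (ρ τ z) = ρ τ (symC ρ P (π ∘ τ) z) := by
  classical
  rw [symC_apply, symC_apply, map_sum]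
  refine sum_nbij' (fun σ => τ⁻¹ * σ * τ) (fun σ => τ * σ * τ⁻¹) ?_ ?_ ?_ ?_ ?_
  · intro σ hσ
    simp only [mem_filter, mem_univ, true_and] at hσ ⊢
    refine ⟨U.sup_mul (U.sup_mul (U.sup_inv hτ) hσ.1) hτ, fun a => ?_⟩
    show π (τ (τ⁻¹ (σ (τ a)))) = π (τ a)
    rw [U.app_inv, hσ.2]
  · intro σ hσ
    simp only [mem_filter, mem_univ, true_and] at hσ ⊢
    refine ⟨U.sup_mul (U.sup_mul hτ hσ.1) (U.sup_inv hτ), fun a => ?_⟩
    have h := hσ.2 (τ⁻¹ a)
    have h2 : π (τ (σ (τ⁻¹ a))) = π (τ (τ⁻¹ a)) := h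
    rw [U.app_inv] at h2
    exact h2
  · intro σ _
    group
  · intro σ _
    group
  · intro σ _
    rw [← Module.End.mul_apply, ← map_mul, ← Module.End.mul_apply, ← map_mul]
    congr 2
    group

theorem symC_of_inv [CharZero K] (P : Finset α) (π : α → Fin 3) : ∃ N : K, N ≠ 0 ∧ ∀ z : H,
    InvC ρ P π z → symC ρ P π z = N • z := by
  classical
  refine ⟨((univ.filter (fun σ : Equiv.Perm α => Gc P π σ)).card : K), ?_, ?_⟩
  · refine Nat.cast_ne_zero.2 (Nat.pos_iff_ne_zero.1 (card_pos.2 ⟨1, ?_⟩))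
    simp only [mem_filter, mem_univ, true_and]
    exact gc_one P π
  · intro z hz
    rw [symC_apply, sum_congr rfl (fun σ hσ => hz σ (mem_filter.1 hσ).2.1 (mem_filter.1 hσ).2.2),
      sum_const, Nat.cast_smul_eq_nsmul]

theorem symC_symC [CharZero K] {P P' : Finset α} (π : α → Fin 3) (h : P' ⊆ P) :
    ∃ N : K, N ≠ 0 ∧ ∀ z : H, symC ρ P π (symC ρ P' π z) = N • symC ρ P π z := by
  classical
  refine ⟨((univ.filter (fun σ : Equiv.Perm α => Gc P' π σ)).card : K), ?_, ?_⟩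
  · refine Nat.cast_ne_zero.2 (Nat.pos_iff_ne_zero.1 (card_pos.2 ⟨1, ?_⟩))
    simp only [mem_filter, mem_univ, true_and]
    exact gc_one P' π
  · intro z
    rw [symC_apply ρ P' π z, map_sum, sum_congr rfl
      (fun σ hσ => symC_rho ρ (gc_mono h (mem_filter.1 hσ).2) z), sum_const,
      Nat.cast_smul_eq_nsmul]

end ISymC

theorem pr_SymC : S_SymC := by
  classical
  intro K _ _ α _ _ H _ _ ρ P π
  refine ⟨?_, ISymC.symC_of_inv ρ P π, ?_, ?_, ?_, ?_, ?_⟩
  · intro σ h1 h2 z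
    exact ⟨ISymC.symC_rho ρ ⟨h1, h2⟩ z, ISymC.rho_symC ρ ⟨h1, h2⟩ z⟩
  · intro z σ h1 h2
    exact ISymC.rho_symC ρ ⟨h1, h2⟩ z
  · intro σ h1 z
    exact ISymC.symC_conj ρ π h1 z
  · intro P' hP'
    exact ISymC.symC_symC ρ π hP'
  · intro u hu v hv huv hπ z hz
    have h1 : ISymC.Gc P π (Equiv.swap u v) := by
      refine ⟨fun a ha => Equiv.swap_apply_of_ne_of_ne (fun h => ha (h ▸ hu)) (fun h => ha (h ▸ hv)),
        fun a => ?_⟩
      by_cases h1 : a = u
      · rw [h1, Equiv.swap_apply_left, hπ]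
      · by_cases h2 : a = v
        · rw [h2, Equiv.swap_apply_right, hπ]
        · rw [Equiv.swap_apply_of_ne_of_ne h1 h2]
    have h2 := ISymC.symC_rho ρ h1 z
    rw [hz, map_neg] at h2
    have h3 : (2 : K) • symC ρ P π z = 0 := by
      rw [two_smul]
      nth_rw 1 [← h2]
      exact neg_add_cancel _
    rcases smul_eq_zero.1 h3 with h4 | h4
    · exact absurd h4 two_ne_zero
    · exact h4
  · intro B hB z hz
    rw [ISymC.symC_apply]
    exact Submodule.sum_mem _ fun σ hσ => hB σ (mem_filter.1 hσ).2.1 z hz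

end Pool.Agent.Work.MP_1233f5_ag.Q
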