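import Pool.Agent.Work.MP_1233f5_ag.Q.Stmts
import Pool.Agent.Work.MP_1233f5_ag.Y.GlueC

/-! MP_1233f5_ag, block Q, item WAdmc: `Y.S_WAdm` for `Wc`. -/

set_option autoImplicit false

namespace Pool.Agent.Work.MP_1233f5_ag.Q

open Finset
open Pool.Agent.Work.MP_1233f5_ag.V (vm ML theta)
open Pool.Agent.Work.MP_1233f5_ag.Sec (Fk wd ct ee ff hh IsSec IsDeg swd brk)
open Pool.Agent.Work.MP_1233f5_ag.Y

namespace IWAdmc

open Pool.Agent.Work.MP_1233f5_ag.Y.WAdmX

variable {K : Type} [Field K] [CharZero K] {α : Type} [Fintype α] [DecidableEq α]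
variable {L : List ℕ} {b : ℕ → ℕ} {η : ℕ → ℕ → α} {P0 : Finset α} {r p c a q : ℕ}

theorem core (hCore : S_Core) (hZz : S_Zz) (hZzN : S_ZzN) (hPq : S_Pq) (hWTwo : S_WTwoc)
    (hr : 1 ≤ r) (hq : q = a ∨ q = a + 1) (hW : ∀ a' < a, Wc K α r p c a')
    (he : EtaH L b η P0) (hs : (L.map b).sum + a = p)
    (hbc : 2 * L.length + c ≤ (L.map b).sum) (n : ℕ × ℕ → Finset α)
    (hc : Cf r (slots L b) P0 n) :
    ∃ Φ : (Finset α → Fk K) →ₗ[K] Hx K α (r + 1) p,
      ∀ u v m, VC r (rest (slots L b) P0 n) a q u v m → Φ (sc a q u v m) =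
        (Bd K (r + 1) (univ : Finset α) p).mkQ (pq L b η n * zz a u v m) := by
  have hlv := lv he hc
  have hd : Disjoint (rest (slots L b) P0 n) (ls L b η n) := rest_ls he
  have haq : a ≤ q := by omega
  have hpc := (hPq K α r univ L b η n).1 hlv
  refine hCore K α (Hx K α (r + 1) p) (actQ K α (r + 1) p) r a q (rest (slots L b) P0 n)
    (fun u v m => (Bd K (r + 1) (univ : Finset α) p).mkQ (pq L b η n * zz a u v m))
    ?_ ?_ ?_ ?_ ?_
  · intro u u' v v' m m' h1 h2 h3
    rw [zz_congr h1 h2 fun i hi => h3 i (by omega)]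
  · intro σ hσ u v m _
    rw [actQ_mk, act_mul, ← (hZz K α a u v m).2.1 σ]
    rw [act_eq_self (P := ls L b η n) (fun x hx => hσ x fun hx' =>
      (Finset.disjoint_left.1 hd) hx' hx) hpc.1]
  · intro i hi u v m _
    rw [(hZz K α a u v m).2.2.1 i hi, mul_neg, map_neg]
  · have hsw : ∀ i < a, ∀ u v m, VC r (rest (slots L b) P0 n) a (a + 1) u v m →
        (Bd K (r + 1) (univ : Finset α) p).mkQ
          (pq L b η n * zz a u v (m ∘ (Equiv.swap i a))) =
        -(Bd K (r + 1) (univ : Finset α) p).mkQ (pq L b η n * zz a u v m) := by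
      intro i hi u v m hV
      have h1 := hZzN K α r a _ u v m hV i hi
      have h2 := Bd_mono (subset_univ _) (Cy_mul_Bd hd.symm hpc h1)
      rw [hs] at h2
      have h3 := mk_zero h2
      rw [mul_add, map_add] at h3
      exact (neg_eq_of_add_eq_zero_right h3).symm
    intro i hi j hj hij
    by_cases hia : i < a
    · by_cases hja : j < a
      · refine ⟨Equiv.swap i j, fun l => ?_, fun u v m _ => ?_⟩
        · by_cases hli : l = i
          · rw [hli, Equiv.swap_apply_left]
            exact ⟨fun _ => hja, fun _ => hia⟩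
          · by_cases hlj : l = j
            · rw [hlj, Equiv.swap_apply_right]
              exact ⟨fun _ => hia, fun _ => hja⟩
            · rw [Equiv.swap_apply_of_ne_of_ne hli hlj]
        · rw [(hZz K α a u v m).2.2.2.1 i hia j hja hij, mul_neg, map_neg]
      · have hja' : j = a := by omega
        have hqa : q = a + 1 := by omega
        subst hqa
        subst hja'
        refine ⟨1, fun l => Iff.rfl, fun u v m hV => ?_⟩
        exact hsw i hia u v m hV
    · have hia' : i = a := by omega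
      have hqa : q = a + 1 := by omega
      subst hqa
      subst hia'
      refine ⟨1, fun l => Iff.rfl, fun u v m hV => ?_⟩
      rw [Equiv.swap_comm]
      exact hsw j (by omega) u v m hV
  · intro Q hQ hQc u v m hV
    rw [asym_mk]
    exact mk_zero (hWTwo K α r p c a q L b η n _ Q u v m hr hW hlv hs hbc hd haq hV hQ hQc)

end IWAdmc

theorem pr_WAdmc (hWTwo : S_WTwoc) (hWX : S_WXc) : S_WAdmc := by
  have hCore : S_Core := g_Core
  have hCsp : S_Csp := g_Csp
  have hSwSc : S_SwSc := prf_SwSc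
  have hScAct : S_ScAct := prf_ScAct
  have hZz : S_Zz := prf_Zz
  have hZzN : S_ZzN := h_ZzN
  have hPq : S_Pq := h_Pq
  intro K _ _ α _ _ r p c a q L b η P0 hr ha hq hW hnod htwo hinj hdis hout hs hbc hcard
  have he : WAdmX.EtaH L b η P0 := ⟨hnod, htwo, hinj, hdis, hout⟩
  have hne : Nonempty α := by
    have h1 : 0 < P0.card := by omega
    obtain ⟨x, _⟩ := card_pos.1 h1
    exact ⟨x⟩
  obtain ⟨k, rfl⟩ : ∃ k, q = k + 1 := ⟨q - 1, by omega⟩
  obtain ⟨I, hI⟩ : ∃ I, I = slots L b := ⟨_, rfl⟩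
  have hcore := IWAdmc.core hCore hZz hZzN hPq hWTwo hr hq hW he hs hbc
  choose! Ψ hΨ using hcore
  obtain ⟨nh, hnh⟩ : ∃ nh : (ℕ × ℕ → Finset α) → (ℕ × ℕ → Finset α),
    nh = fun n s => if s ∈ slots L b then n s else ∅ := ⟨_, rfl⟩
  have hnh1 : ∀ n, ∀ s ∈ slots L b, n s = nh n s := fun n s hs' => by
    rw [hnh]
    beta_reduce
    rw [if_pos hs']
  have val : ∀ n, Cf r (slots L b) P0 n → ∀ u v m, VC r (rest (slots L b) P0 n) a (k + 1) u v m →
      Ψ (nh n) (sc a (k + 1) u v m) =
        (Bd K (r + 1) (univ : Finset α) p).mkQ (pq L b η n * zz a u v m) := by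
    intro n hn u v m hV
    have h1 := U.cf_congr (hnh1 n) hn
    have h2 : rest (slots L b) P0 n = rest (slots L b) P0 (nh n) := U.rest_congr (hnh1 n)
    rw [h2] at hV
    rw [hΨ (nh n) h1 u v m hV]
    congr 2
    exact pq_congr (fun _ _ => rfl) (fun _ _ _ _ => rfl) fun j hj i hi =>
      (hnh1 n _ (WAdmX.mem_slots.2 ⟨hj, hi⟩)).symm
  rw [Nat.add_sub_cancel]
  refine ⟨fun n => Ψ (nh n), ⟨?_, ?_, ?_⟩, val⟩
  · intro n n' h
    congr 1
    rw [hnh]
    funext s
    beta_reduce
    by_cases hs' : s ∈ slots L b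
    · rw [if_pos hs', if_pos hs', h s hs']
    · rw [if_neg hs', if_neg hs']
  · intro σ hσ n hn s hs'
    have hcR : (rest (slots L b) P0 n).card = 2 * a + (k + 1) * r := by
      have h1 := U.card_rest hn
      omega
    rw [hCsp K α r a (k + 1) _ hcR] at hs'
    induction hs' using Submodule.span_induction with
    | mem x hx =>
      obtain ⟨u, v, m, hV, rfl⟩ := hx
      obtain ⟨h1, h2⟩ := hScAct K α a (k + 1) u v m σ
      have h3 := h2 r _ hV
      rw [← U.rest_im hσ] at h3
      rw [h1, val _ (U.cf_im hσ hn) _ _ _ h3, val n hn u v m hV, actQ_mk, act_mul,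
        (hPq K α r univ L b η n).2 σ, (hZz K α a u v m).2.1 σ]
      congr 2
      exact pq_congr (fun _ _ => rfl) (fun j hj i hi => (hσ _ (hout j hj i hi)).symm)
        fun _ _ _ _ => rfl
    | zero => rw [map_zero, map_zero, map_zero, map_zero]
    | add x y _ _ hx hy => rw [map_add, map_add, map_add, map_add, hx, hy]
    | smul c x _ hx => rw [map_smul, map_smul, map_smul, map_smul, hx]
  · intro j hj n hn m0 hm0 hm0c x hx
    have hjL : j ∈ L := by
      obtain ⟨s, hs', rfl⟩ := mem_image.1 hj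
      exact (WAdmX.mem_slots.1 hs').1
    have hcR : (rest (slots L b) P0 n \ m0).card = 2 * a + k * r := by
      have h1 := U.card_rest hn
      rw [card_sdiff_of_subset hm0]
      have h2 : (k + 1) * r = k * r + r := by ring
      omega
    obtain ⟨T, hT⟩ : ∃ T : (Finset α → Fk K) →ₗ[K] Hx K α (r + 1) p,
      T = (Ψ (nh n)).comp (U.swdL m0) + ∑ i ∈ sl (slots L b) j,
        (Ψ (nh (Function.update n i m0))).comp (U.swdL (n i)) := ⟨_, rfl⟩
    have hTx : ∀ x, T x = Ψ (nh n) (swd m0 x) + ∑ i ∈ sl (slots L b) j,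
        Ψ (nh (Function.update n i m0)) (swd (n i) x) := fun x => by
      rw [hT, LinearMap.add_apply, LinearMap.sum_apply]
      rfl
    rw [← hTx]
    rw [hCsp K α r a k _ hcR] at hx
    have hle : Submodule.span K {s | ∃ u v m, VC r (rest (slots L b) P0 n \ m0) a k u v m ∧
        s = sc a k u v m} ≤ LinearMap.ker T := by
      rw [Submodule.span_le]
      rintro _ ⟨u, v, m, hV, rfl⟩
      show T _ = 0
      rw [hTx]
      obtain ⟨h1, h2⟩ := hSwSc K α r a k _ m0 u v m hV disjoint_sdiff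
      have h3 := h2 hm0c
      rw [sdiff_union_of_subset hm0] at h3
      have h4 : ∀ i ∈ sl (slots L b) j, Ψ (nh (Function.update n i m0)) (swd (n i)
          (sc a k u v m)) = (Bd K (r + 1) (univ : Finset α) p).mkQ
            (pq L b η (Function.update n i m0) * zz a u v (cns (n i) m)) := by
        intro i hi
        have hiI : i ∈ slots L b := (mem_filter.1 hi).1
        obtain ⟨g1, g2⟩ := hSwSc K α r a k _ (n i) u v m hV
          ((U.rest_disj hiI).symm.mono_right sdiff_subset)
        have g3 := g2 (hn.1 i hiI).1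
        rw [← U.rest_update hiI hn hm0] at g3
        rw [g1, val _ (U.cf_update hn hm0 hm0c) _ _ _ g3]
      rw [sum_congr rfl h4, h1, val n hn _ _ _ h3, ← map_sum, ← map_add]
      refine WAdmX.mk_zero ?_
      rw [WAdmX.sl_slots hjL, sum_image (fun i _ i' _ h => (Prod.ext_iff.1 h).2)]
      refine hWX K α r p c a k L b η n (rest (slots L b) P0 n \ m0) u v m m0 j hW
        (WAdmX.lv he hn) hs hbc hjL ?_ disjoint_sdiff ?_ hm0c ha (by omega) hV
      · exact (WAdmX.rest_ls he).mono_left sdiff_subset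
      · exact (WAdmX.rest_ls he).mono_left hm0
    exact hle hx

end Pool.Agent.Work.MP_1233f5_ag.Q
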