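import Pool.Agent.Work.MP_1233f5_ag.Q.Stmts
import Pool.Agent.Work.MP_1233f5_ag.Y.GlueC

/-! MP_1233f5_ag, block Q: the induction step for `p ≤ 2 r + 1` and one block of size three. -/

set_option autoImplicit false
set_option linter.unusedSectionVars false

namespace Pool.Agent.Work.MP_1233f5_ag.Q

open Finset
open Pool.Agent.Work.MP_1233f5_ag.V (vm vw Mo tyv dd rCh rcyc rVan rNo ML theta)
open Pool.Agent.Work.MP_1233f5_ag.Y
open Pool.Agent.Work.MP_1233f5_ag.Sec (Fk wd ct ee ff hh IsSec IsDeg swd brk)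

namespace IWStepc

section main
variable {K : Type} [Field K] [CharZero K] {α : Type} [Fintype α] [DecidableEq α]
variable {r p a q : ℕ} {L : List ℕ} {b : ℕ → ℕ} {η : ℕ → ℕ → α} {n : ℕ × ℕ → Finset α}

/-- the main case. -/
theorem big {c : ℕ} (hWAdmc : S_WAdmc) (hr : 1 ≤ r) (hq : q = a ∨ q = a + 1)
    (hW : ∀ a' < a, Wc K α r p c a') (h : LV r univ L b η n) (hs : (L.map b).sum + a = p)
    (hc : 2 * L.length + c ≤ (L.map b).sum)
    {R : Finset α} (hR : Disjoint R (ls L b η n)) {u v : ℕ → α} {m : ℕ → Finset α}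
    (hV : VC r R a q u v m) (ha2 : 2 ≤ a)
    (h1 : 2 * (2 + ∑ j ∈ L.toFinset, (b j - 2)) ≤ 2 * a + (q - 1) * (q - 1 - 1))
    (h2 : r + 2 ≤ q + L.toFinset.card) :
    (pq L b η n * zz a u v m : Lx K α) ∈ Bd K (r + 1) (univ : Finset α) p := by
  obtain ⟨k, rfl⟩ : ∃ k, q = k + 1 := ⟨q - 1, by omega⟩
  have hRls : ∀ x ∈ R, x ∉ ls L b η n := fun x hx hx' => (Finset.disjoint_left.1 hR) hx hx'
  have hbs : ∀ j ∈ L, ∀ x, x ∈ bs (b j) (η j) (fun i => n (j, i)) → x ∈ ls L b η n := by
    intro j hj x hx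
    exact mem_biUnion.2 ⟨j, List.mem_toFinset.2 hj, hx⟩
  have hηb : ∀ j ∈ L, ∀ i ≤ b j, η j i ∈ bs (b j) (η j) (fun i => n (j, i)) :=
    fun j hj i hi => WAdmX.mem_bs.2 (Or.inl ⟨i, hi, rfl⟩)
  have hnb : ∀ j ∈ L, ∀ i < b j, n (j, i) ⊆ bs (b j) (η j) (fun i => n (j, i)) :=
    fun j hj i hi x hx => WAdmX.mem_bs.2 (Or.inr ⟨i, hi, hx⟩)
  obtain ⟨P0, hP0⟩ : ∃ P0, P0 = R ∪ (slots L b).biUnion n := ⟨_, rfl⟩
  have hRn : ∀ s ∈ slots L b, Disjoint R (n s) := by
    intro s hs'
    obtain ⟨hj, hi⟩ := WAdmX.mem_slots.1 hs'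
    exact hR.mono_right fun x hx => hbs s.1 hj x (hnb s.1 hj s.2 hi hx)
  have hRU : Disjoint R ((slots L b).biUnion n) := by
    rw [disjoint_biUnion_right]
    exact hRn
  have hnn : ∀ s ∈ slots L b, ∀ s' ∈ slots L b, s ≠ s' → Disjoint (n s) (n s') := by
    rintro ⟨j, i⟩ hs' ⟨j', i'⟩ hs'' hne
    obtain ⟨hj, hi⟩ := WAdmX.mem_slots.1 hs'
    obtain ⟨hj', hi'⟩ := WAdmX.mem_slots.1 hs''
    by_cases hjj : j = j'
    · subst hjj
      exact (h.blk j hj).dis i hi i' hi' fun t => hne (by rw [t])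
    · exact (h.dis j hj j' hj' hjj).mono (hnb j hj i hi) (hnb j' hj' i' hi')
  have hnc : ∀ s ∈ slots L b, (n s).card = r := by
    rintro ⟨j, i⟩ hs'
    obtain ⟨hj, hi⟩ := WAdmX.mem_slots.1 hs'
    exact (h.blk j hj).card i hi
  have hCf : Cf r (slots L b) P0 n := by
    refine ⟨fun s hs' => ⟨hnc s hs', ?_⟩, hnn⟩
    rw [hP0]
    exact fun x hx => mem_union_right _ (mem_biUnion.2 ⟨s, hs', hx⟩)
  have hrest : rest (slots L b) P0 n = R := by
    unfold rest
    rw [hP0, union_sdiff_right]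
    exact sdiff_eq_self_of_disjoint hRU
  have hcard : P0.card = r * (slots L b).card + 2 * a + (k + 1) * r := by
    have g1 := U.card_rest hCf
    rw [hrest, hV.card_eq] at g1
    omega
  have hdis : ∀ j ∈ L, ∀ j' ∈ L, j ≠ j' → ∀ i ≤ b j, ∀ i' ≤ b j', η j i ≠ η j' i' := by
    intro j hj j' hj' hne i hi i' hi' he
    exact (Finset.disjoint_left.1 (h.dis j hj j' hj' hne)) (hηb j hj i hi)
      (he ▸ hηb j' hj' i' hi')
  have hout : ∀ j ∈ L, ∀ i ≤ b j, η j i ∉ P0 := by
    intro j hj i hi hm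
    rw [hP0, mem_union] at hm
    rcases hm with hm | hm
    · exact hRls _ hm (hbs j hj _ (hηb j hj i hi))
    · obtain ⟨⟨j', i'⟩, hs', hx⟩ := mem_biUnion.1 hm
      obtain ⟨hj', hi'⟩ := WAdmX.mem_slots.1 hs'
      by_cases hjj : j = j'
      · subst hjj
        exact (h.blk j hj).out i hi i' hi' hx
      · exact (Finset.disjoint_left.1 (h.dis j hj j' hj' hjj)) (hηb j hj i hi)
          (hnb j' hj' i' hi' hx)
  obtain ⟨Φ, hAdm, hval⟩ := hWAdmc K α r p c a (k + 1) L b η P0 hr (by omega) hq hW h.nod h.two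
    (fun j hj => (h.blk j hj).inj) hdis hout hs hc hcard
  rw [Nat.add_sub_cancel] at hAdm
  have g1 := hval n hCf u v m (by rw [hrest]; exact hV)
  have g2 := g_LemL K α _ (actQ K α (r + 1) p) r k (slots L b) P0 Φ hAdm hr (by omega)
    (by rw [WStepX.image_slots h]; exact h2) (by
      rw [WStepX.need_slots h]
      rw [Nat.add_sub_cancel] at h1
      omega) n hCf (sc a (k + 1) u v m) (by
      rw [hrest]
      exact CspX.sc_mem r (k + 1) u v m a R hV)
  rw [g2] at g1
  have g3 := g1.symm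
  rw [Submodule.mkQ_apply, Submodule.Quotient.mk_eq_zero] at g3
  exact g3

end main

end IWStepc

theorem pr_WStepc (hWAdmc : S_WAdmc) : S_WStepc := by
  intro K _ _ α _ _ r p a hr hcard hp hW L b η n h hs hc0 κ hκ
  have hPq := h_Pq
  have hG1 := h_G1
  have hZz := prf_Zz
  have hlen : L.toFinset.card = L.length := List.toFinset_card_of_nodup h.nod
  have hpc := (hPq K α r univ L b η n).1 h
  have hls := WStepX.card_ls h
  have hb2 := WStepX.sum_b2 h
  obtain ⟨M, hM⟩ : ∃ M, M = L.toFinset.card := ⟨_, rfl⟩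
  obtain ⟨S, hS⟩ : ∃ S, S = (L.map b).sum := ⟨_, rfl⟩
  obtain ⟨B, hB⟩ : ∃ B, B = ∑ j ∈ L.toFinset, (b j - 2) := ⟨_, rfl⟩
  rw [← hM, ← hS] at hls
  rw [← hM, ← hS, ← hB] at hb2
  rw [← hS] at hs hpc
  have hcu : ((univ : Finset α) \ ls L b η n).card + S * (r + 1) + M = p * (r + 1) + (2 * r + 1) := by
    have h1 := card_sdiff_add_card_eq_card (subset_univ (ls L b η n))
    rw [card_univ, hcard, hls] at h1
    omega
  have hpS : p * (r + 1) = S * (r + 1) + a * (r + 1) := by rw [← hs]; ring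
  have hne : Nonempty α := by
    rw [← Fintype.card_pos_iff, hcard]
    omega
  have hc : a * (r + 2) ≤ ((univ : Finset α) \ ls L b η n).card := by
    have h1 : a * (r + 2) = a * (r + 1) + a := by ring
    omega
  have h1 := hG1 K α r a ((univ : Finset α) \ ls L b η n) hr hc hκ
  obtain ⟨κ1, hκ1, κ2, hκ2, rfl⟩ := Submodule.mem_sup.1 h1
  have hdl : Disjoint (ls L b η n) ((univ : Finset α) \ ls L b η n) := disjoint_sdiff
  rw [mul_add]
  refine Submodule.add_mem _ ?_ ?_
  · have h2 := Bd_mono (subset_univ _) (Cy_mul_Bd hdl hpc hκ1)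
    rw [hs] at h2
    exact h2
  · clear h1 hκ hκ1
    induction hκ2 using Submodule.span_induction with
    | zero => rw [mul_zero]; exact Submodule.zero_mem _
    | add x y _ _ hx hy => rw [mul_add]; exact Submodule.add_mem _ hx hy
    | smul c x _ hx => rw [mul_smul_comm]; exact Submodule.smul_mem _ _ hx
    | mem x hx =>
      obtain ⟨R, u, v, m, hR, hV, rfl⟩ := hx
      have hRc := hV.card_eq
      have hRl : Disjoint R (ls L b η n) := (hdl.mono_right hR).symm
      have hNc := card_sdiff_add_card_eq_card hR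
      obtain ⟨N, hN⟩ : ∃ N, N = ((univ : Finset α) \ ls L b η n) \ R := ⟨_, rfl⟩
      rw [← hN] at hNc
      have hNR : Disjoint N R := by
        rw [hN]
        exact sdiff_disjoint
      have hNl : Disjoint N (ls L b η n) := by
        rw [hN]
        exact (hdl.mono_right sdiff_subset).symm
      have har : 2 * a + a * r = a * (r + 1) + a := by ring
      by_cases hc1 : a + M ≤ r
      · -- few points: a cone
        obtain ⟨e, he, hec⟩ : ∃ e ⊆ N, e.card = r + 1 :=
          Finset.exists_subset_card_eq (by omega)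
        have h3 : (pq L b η n * zz a u v m : Lx K α) ∈ Cy K (r + 1) (ls L b η n ∪ R) p := by
          have h4 := Cy_mul hRl.symm hpc ((hZz K α a u v m).2.2.2.2 r a R hV le_rfl)
          rw [hs] at h4
          exact h4
        refine cone (e := e) (P' := ls L b η n ∪ R) (subset_univ _) (subset_univ _) ?_ hec h3
        rw [disjoint_union_right]
        exact ⟨hNl.mono_left he, hNR.mono_left he⟩
      · by_cases hc2 : a + M = r + 1
        · have hNr : N.card = r := by omega
          have hV' := WStepX.VC_add hV hNr hNR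
          have h6 : (zz a u v m : Lx K α) = zz a u v (Function.update m a N) :=
            zz_congr (fun _ _ => rfl) (fun _ _ => rfl) fun i hi =>
              (Function.update_of_ne (by omega) _ _).symm
          rw [h6]
          have ha2 : 2 ≤ a := by omega
          have h7 : 2 ≤ a * (a - 1) := by
            obtain ⟨a', rfl⟩ : ∃ a', a = a' + 2 := ⟨a - 2, by omega⟩
            rw [show a' + 2 - 1 = a' + 1 by omega]
            nlinarith [Nat.zero_le a', Nat.zero_le (a' * a')]
          refine IWStepc.big hWAdmc hr (Or.inr rfl) hW h ?_ ?_ ?_ hV' ha2 ?_ ?_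
          · rw [← hS]
            exact hs
          · exact hc0
          · rw [disjoint_union_left]
            exact ⟨hRl, hNl⟩
          · rw [← hB, Nat.add_sub_cancel]
            omega
          · rw [← hM]
            omega
        · refine IWStepc.big hWAdmc hr (Or.inl rfl) hW h ?_ hc0 hRl hV (by omega) ?_ ?_
          · rw [← hS]
            exact hs
          · rw [← hB]
            have h8 : 2 * (2 + B) ≤ 2 * a := by omega
            exact h8.trans (Nat.le_add_right _ _)
          · rw [← hM]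
            omega

end Pool.Agent.Work.MP_1233f5_ag.Q
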