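import Pool.Agent.Work.MP_1233f5_ag.Q.Stmts
import Pool.Agent.Work.MP_1233f5_ag.Y.GlueC

/-! MP_1233f5_ag, block Q, item WTwoc: the core of a product of blocks has two rows, modulo
smaller cores (version with a bound on the number of blocks). -/

set_option autoImplicit false

namespace Pool.Agent.Work.MP_1233f5_ag.Q

open Finset
open Pool.Agent.Work.MP_1233f5_ag.V (vm vw Mo tyv dd rCh rcyc rVan rNo ML theta)
open Pool.Agent.Work.MP_1233f5_ag.Y
open Pool.Agent.Work.MP_1233f5_ag.Sec (Fk)

theorem pr_WTwoc : S_WTwoc := by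
  intro K _ _ α _ _ r p c a q L b η n R Q u v m hr hW hL hp hlc hR haq hV hQ hQc
  have hzz : (zz a u v m : Lx K α) ∈ Cy K (r + 1) R a :=
    (prf_Zz K α a u v m).2.2.2.2 r q R hV haq
  have hpq : (pq L b η n : Lx K α) ∈ Cy K (r + 1) (ls L b η n) ((L.map b).sum) :=
    (h_Pq K α r univ L b η n).1 hL
  have hcard : a * (r + 2) ≤ R.card := by
    rw [hV.card_eq]
    calc a * (r + 2) = 2 * a + a * r := by ring
      _ ≤ 2 * a + q * r := Nat.add_le_add_left (Nat.mul_le_mul_right r haq) _
  rw [WTwoX.asym_mul (zz a u v m) (fun σ hσ => act_eq_self (fun x hx => hσ x fun hc =>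
    disjoint_left.1 hR (hQ hc) hx) hpq.1)]
  have hmem := h_G2 K α r a R Q hr hcard hQ hQc _ hzz
  obtain ⟨y, hy, z, hz, hyz⟩ := Submodule.mem_sup.1 hmem
  rw [← hyz, mul_add]
  refine Submodule.add_mem _ ?_ ?_
  · have h1 := Cy_mul_Bd hR.symm hpq hy
    rw [hp] at h1
    exact Bd_mono (subset_univ _) h1
  · clear hyz hmem hy
    unfold spB at hz
    induction hz using Submodule.span_induction with
    | mem x hx =>
      obtain ⟨b', η', n', κ, h2, hba, hB, hκ, rfl⟩ := hx
      obtain ⟨j, hj⟩ := Infinite.exists_notMem_finset L.toFinset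
      rw [List.mem_toFinset] at hj
      rw [← mul_assoc, ← WTwoX.pq_app hj b b' η η' n n']
      refine hW (a - b') (by omega) _ _ _ _ (WTwoX.lv_app hj hL hR h2 hB) ?_ ?_ κ ?_
      · rw [WTwoX.sum_app hj]
        omega
      · rw [WTwoX.sum_app hj, List.length_append, List.length_singleton]
        omega
      · refine Cy_mono ?_ hκ
        intro x hx
        rw [mem_sdiff] at hx ⊢
        refine ⟨mem_univ x, fun hc => ?_⟩
        rcases WTwoX.mem_app hj b b' η η' n n' hc with hc | hc
        · exact disjoint_left.1 hR hx.1 hc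
        · exact hx.2 hc
    | zero => rw [mul_zero]; exact Submodule.zero_mem _
    | add x y _ _ hx hy => rw [mul_add]; exact Submodule.add_mem _ hx hy
    | smul c x _ hx => rw [mul_smul_comm]; exact Submodule.smul_mem _ _ hx

end Pool.Agent.Work.MP_1233f5_ag.Q
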