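import Pool.Agent.Work.MP_1233f5_ag.Q.Stmts

/-! MP_1233f5_ag, block Q: chains with at most two letters `i` vanish. -/

set_option autoImplicit false

namespace Pool.Agent.Work.MP_1233f5_ag.Q

open Finset
open Pool.Agent.Work.MP_1233f5_ag.V (vm vw Mo tyv dd rCh rcyc rVan rNo ML theta)
open Pool.Agent.Work.MP_1233f5_ag.Y

namespace IZ2T

/-- exponents of degree `d` without the letter `i` : at most `d + 1`. -/
theorem card_le (d : ℕ) (i : Fin 3) : ((Mo 3 d).filter (fun v => v i = 0)).card ≤ d + 1 := by
  rw [← Finset.card_range (d + 1)]
  refine Finset.card_le_card_of_injOn (fun v => v (i + 1)) ?_ ?_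
  · intro v hv
    simp only [Mo, coe_filter, mem_piAntidiag, Set.mem_ofPred_eq] at hv
    have h := hv.1.1
    rw [Fin.sum_univ_three] at h
    simp only [coe_range, Set.mem_Iio]
    fin_cases i
    · show v 1 < d + 1
      omega
    · show v 2 < d + 1
      omega
    · show v 0 < d + 1
      omega
  · intro v hv v' hv' e
    simp only [Mo, coe_filter, mem_piAntidiag, Set.mem_ofPred_eq] at hv hv'
    have h := hv.1.1
    have h' := hv'.1.1
    have z := hv.2
    have z' := hv'.2
    rw [Fin.sum_univ_three] at h h'
    funext j
    fin_cases i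
    · have e' : v 1 = v' 1 := e
      have z1 : v 0 = 0 := z
      have z2 : v' 0 = 0 := z'
      fin_cases j
      · show v 0 = v' 0
        omega
      · show v 1 = v' 1
        omega
      · show v 2 = v' 2
        omega
    · have e' : v 2 = v' 2 := e
      have z1 : v 1 = 0 := z
      have z2 : v' 1 = 0 := z'
      fin_cases j
      · show v 0 = v' 0
        omega
      · show v 1 = v' 1
        omega
      · show v 2 = v' 2
        omega
    · have e' : v 0 = v' 0 := e
      have z1 : v 2 = 0 := z
      have z2 : v' 2 = 0 := z'
      fin_cases j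
      · show v 0 = v' 0
        omega
      · show v 1 = v' 1
        omega
      · show v 2 = v' 2
        omega

end IZ2T

open IZ2T in
theorem pr_Z2T : S_Z2T := by
  intro K _ _ r w i hr hw c hc
  funext t
  show c t = 0
  by_contra ht
  have hinj : Function.Injective t := by
    intro a b e
    by_contra hab
    exact ht (V.Alt.eq_zero hc.1 hab e)
  obtain ⟨hM, hs⟩ := hc.2 t ht
  have hsum : ∑ k, t k i ≤ 2 := by
    have := hs i
    rw [Finset.sum_apply] at this
    exact this.trans hw
  have hcard : (univ.filter (fun k => ¬ t k i = 0)).card ≤ 2 := by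
    refine le_trans ?_ hsum
    rw [Finset.card_eq_sum_ones, ← Finset.sum_filter_add_sum_filter_not univ
      (fun k => ¬ t k i = 0) (fun k => t k i)]
    refine le_trans (Finset.sum_le_sum ?_) (Nat.le_add_right _ _)
    intro k hk
    have := (Finset.mem_filter.mp hk).2
    omega
  have htot := Finset.card_filter_add_card_filter_not (s := (univ : Finset (Fin (2 * r + 1))))
    (fun k => t k i = 0)
  rw [Finset.card_univ, Fintype.card_fin] at htot
  have hsub : (univ.filter (fun k => t k i = 0)).image t ⊆
      (Mo 3 (r + 1)).filter (fun v => v i = 0) := by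
    intro x hx
    obtain ⟨k, hk, rfl⟩ := Finset.mem_image.mp hx
    exact Finset.mem_filter.mpr ⟨hM k, (Finset.mem_filter.mp hk).2⟩
  have hci : ((univ.filter (fun k => t k i = 0)).image t).card =
      (univ.filter (fun k => t k i = 0)).card := Finset.card_image_of_injective _ hinj
  have h1 := Finset.card_le_card hsub
  have h2 := card_le (r + 1) i
  omega

end Pool.Agent.Work.MP_1233f5_ag.Q
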