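import Pool.Agent.Work.MP_1233f5_ag.Q.Stmts

/-! MP_1233f5_ag, block Q: invariant cycles with at most three letters `2` vanish. -/

set_option autoImplicit false

namespace Pool.Agent.Work.MP_1233f5_ag.Q

open Finset
open Pool.Agent.Work.MP_1233f5_ag.V (vm vw Mo tyv dd rCh rcyc rVan rNo ML theta)
open Pool.Agent.Work.MP_1233f5_ag.Y

/-- cycles with at most three letters `2`, invariant for the colouring, vanish. -/
theorem pr_ZL (hS : S_SymC) (hKK : S_KKer) (hKM : S_KM) (hZ : S_Z3T) : S_ZL := by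
  intro K _ _ α _ _ r P π hr hw z hz hinv
  have h1 := (hKM K α (r + 1) (2 * r + 1) P π).1 z hz
  have hw2 : tyv π P 2 ≤ 3 := by
    unfold tyv
    exact hw
  have h2 : kap π (2 * r + 1) z = 0 := hZ K r (tyv π P) hr hw2 _ h1
  have h3 := hKK K α (r + 1) (2 * r + 1) P π z hz.1 h2
  obtain ⟨N, hN, hsym⟩ := (hS K α (Lx K α) (act K α) P π).2.1
  rw [hsym z hinv] at h3
  exact (smul_eq_zero.mp h3).resolve_left hN

end Pool.Agent.Work.MP_1233f5_ag.Q
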