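import Pool.Agent.Work.MP_1233f5_ag.Q.I_Adm4
import Pool.Agent.Work.MP_1233f5_ag.Q.I_An4
import Pool.Agent.Work.MP_1233f5_ag.Q.I_Asym
import Pool.Agent.Work.MP_1233f5_ag.Q.I_B4
import Pool.Agent.Work.MP_1233f5_ag.Q.I_CF4a
import Pool.Agent.Work.MP_1233f5_ag.Q.I_CF4b
import Pool.Agent.Work.MP_1233f5_ag.Q.I_Deep
import Pool.Agent.Work.MP_1233f5_ag.Q.I_DeepN
import Pool.Agent.Work.MP_1233f5_ag.Q.I_F4
import Pool.Agent.Work.MP_1233f5_ag.Q.I_Fib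
import Pool.Agent.Work.MP_1233f5_ag.Q.I_Frz4
import Pool.Agent.Work.MP_1233f5_ag.Q.I_Inj
import Pool.Agent.Work.MP_1233f5_ag.Q.I_InjT
import Pool.Agent.Work.MP_1233f5_ag.Q.I_KAct
import Pool.Agent.Work.MP_1233f5_ag.Q.I_KCh
import Pool.Agent.Work.MP_1233f5_ag.Q.I_KD
import Pool.Agent.Work.MP_1233f5_ag.Q.I_KKer
import Pool.Agent.Work.MP_1233f5_ag.Q.I_KLift
import Pool.Agent.Work.MP_1233f5_ag.Q.I_KM
import Pool.Agent.Work.MP_1233f5_ag.Q.I_KSurj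
import Pool.Agent.Work.MP_1233f5_ag.Q.I_Lin3
import Pool.Agent.Work.MP_1233f5_ag.Q.I_ML4
import Pool.Agent.Work.MP_1233f5_ag.Q.I_Main4
import Pool.Agent.Work.MP_1233f5_ag.Q.I_PCo
import Pool.Agent.Work.MP_1233f5_ag.Q.I_PDual
import Pool.Agent.Work.MP_1233f5_ag.Q.I_PGreen
import Pool.Agent.Work.MP_1233f5_ag.Q.I_PL
import Pool.Agent.Work.MP_1233f5_ag.Q.I_PLF
import Pool.Agent.Work.MP_1233f5_ag.Q.I_PLa
import Pool.Agent.Work.MP_1233f5_ag.Q.I_PLb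
import Pool.Agent.Work.MP_1233f5_ag.Q.I_PLift
import Pool.Agent.Work.MP_1233f5_ag.Q.I_PNf
import Pool.Agent.Work.MP_1233f5_ag.Q.I_PRS
import Pool.Agent.Work.MP_1233f5_ag.Q.I_PS
import Pool.Agent.Work.MP_1233f5_ag.Q.I_PVan
import Pool.Agent.Work.MP_1233f5_ag.Q.I_Phi3
import Pool.Agent.Work.MP_1233f5_ag.Q.I_PhiW
import Pool.Agent.Work.MP_1233f5_ag.Q.I_QG
import Pool.Agent.Work.MP_1233f5_ag.Q.I_R4
import Pool.Agent.Work.MP_1233f5_ag.Q.I_R4u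
import Pool.Agent.Work.MP_1233f5_ag.Q.I_Rep3
import Pool.Agent.Work.MP_1233f5_ag.Q.I_Sub
import Pool.Agent.Work.MP_1233f5_ag.Q.I_Sur
import Pool.Agent.Work.MP_1233f5_ag.Q.I_SymC
import Pool.Agent.Work.MP_1233f5_ag.Q.I_WAdmc
import Pool.Agent.Work.MP_1233f5_ag.Q.I_WStepc
import Pool.Agent.Work.MP_1233f5_ag.Q.I_WTwoc
import Pool.Agent.Work.MP_1233f5_ag.Q.I_WXc
import Pool.Agent.Work.MP_1233f5_ag.Q.I_Z2T
import Pool.Agent.Work.MP_1233f5_ag.Q.I_Z3T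
import Pool.Agent.Work.MP_1233f5_ag.Q.I_ZL

/-! MP_1233f5_ag, block Q: assembly of the items. -/

set_option autoImplicit false

namespace Pool.Agent.Work.MP_1233f5_ag.Q

theorem h_PNf : S_PNf := pr_PNf 
theorem h_PRS : S_PRS := pr_PRS h_PNf
theorem h_PLift : S_PLift := pr_PLift h_PNf
theorem h_PDual : S_PDual := pr_PDual 
theorem h_PCo : S_PCo := pr_PCo 
theorem h_PGreen : S_PGreen := pr_PGreen h_PNf h_PCo
theorem h_PVan : S_PVan := pr_PVan h_PRS h_PLift h_PDual h_PGreen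
theorem h_PS : S_PS := pr_PS h_PNf h_PVan
theorem h_SymC : S_SymC := pr_SymC 
theorem h_Asym : S_Asym := pr_Asym 
theorem h_Rep3 : S_Rep3 := pr_Rep3 
theorem h_Fib : S_Fib := pr_Fib 
theorem h_Inj : S_Inj := pr_Inj h_SymC h_Asym h_Rep3 h_Fib
theorem h_Deep : S_Deep := pr_Deep h_SymC h_Inj
theorem h_F4 : S_F4 := pr_F4 
theorem h_KCh : S_KCh := pr_KCh 
theorem h_KD : S_KD := pr_KD 
theorem h_KAct : S_KAct := pr_KAct 
theorem h_KLift : S_KLift := pr_KLift 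
theorem h_KKer : S_KKer := pr_KKer h_KLift h_SymC
theorem h_KSurj : S_KSurj := pr_KSurj h_KLift
theorem h_KM : S_KM := pr_KM h_KCh h_KD h_KAct h_KKer h_KSurj h_SymC
theorem h_WTwoc : S_WTwoc := pr_WTwoc 
theorem h_WXc : S_WXc := pr_WXc 
theorem h_WAdmc : S_WAdmc := pr_WAdmc h_WTwoc h_WXc
theorem h_WStepc : S_WStepc := pr_WStepc h_WAdmc
theorem h_R4u : S_R4u := pr_R4u h_WStepc
theorem h_Sub : S_Sub := pr_Sub 
theorem h_R4 : S_R4 := pr_R4 h_R4u h_Sub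
theorem h_Z2T : S_Z2T := pr_Z2T 
theorem h_Z3T : S_Z3T := pr_Z3T 
theorem h_ZL : S_ZL := pr_ZL h_SymC h_KKer h_KM h_Z3T
theorem h_InjT : S_InjT := pr_InjT h_Inj h_R4 h_SymC
theorem h_DeepN : S_DeepN := pr_DeepN h_Deep h_InjT h_ZL h_R4 h_SymC
theorem h_Sur : S_Sur := pr_Sur h_Deep h_Z2T h_KCh h_KKer h_SymC h_Asym h_KLift
theorem h_PhiW : S_PhiW := pr_PhiW h_KM h_KAct h_InjT h_SymC h_KLift
theorem h_Phi3 : S_Phi3 := pr_Phi3 h_PhiW h_Sur h_KM h_KLift h_Z2T h_KAct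
theorem h_Lin3 : S_Lin3 := pr_Lin3 h_PS
theorem h_PLF : S_PLF := pr_PLF h_Rep3 h_Phi3 h_Lin3 h_KM h_SymC h_Asym
theorem h_Frz4 : S_Frz4 := pr_Frz4 h_Asym h_R4
theorem h_PLa : S_PLa := pr_PLa h_Frz4
theorem h_PLb : S_PLb := pr_PLb h_Asym h_F4 h_R4 h_DeepN h_PLa
theorem h_PL : S_PL := pr_PL h_PLb h_PLF
theorem h_QG : S_QG := pr_QG 
theorem h_An4 : S_An4 := pr_An4 h_QG h_PL
theorem h_ML4 : S_ML4 := pr_ML4 h_Rep3 h_KM h_SymC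
theorem h_Main4 : S_Main4 := pr_Main4 h_ML4 h_An4
theorem h_Adm4 : S_Adm4 := pr_Adm4 h_Main4
theorem h_B4 : S_B4 := pr_B4 
theorem h_CF4a : S_CF4a := pr_CF4a 
theorem h_CF4b : S_CF4b := pr_CF4b 

end Pool.Agent.Work.MP_1233f5_ag.Q
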