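import Pool.Agent.Work.MP_1233f5_ag.Q.Stmts
import Pool.Agent.Work.MP_1233f5_ag.Z.Adm

/-! MP_1233f5_ag, block Q, item Adm4 (helper22): every admissible function bounds the
vanishing. -/

set_option autoImplicit false

namespace Pool.Agent.Work.MP_1233f5_ag.Q

open Finset
open Pool.Agent.Work.MP_1233f5_ag.V (vm ML theta rVan)
open Pool.Agent.Work.MP_1233f5_ag.Y
open Pool.Agent.Work.MP_1233f5_ag.Z (VV fb h_Rlb h_StarF pr_Zb1)

namespace IAdm4

theorem two_choose (n : ℕ) : 2 * (n + 1).choose 2 = (n + 1) * n := by
  induction n with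
  | zero => rfl
  | succ n ih =>
    have h : (n + 1 + 1).choose 2 = (n + 1).choose 1 + (n + 1).choose 2 :=
      Nat.choose_succ_succ _ _
    rw [h, Nat.choose_one_right, mul_add, ih]
    ring

theorem lo (d : ℕ) (hd : 5 ≤ d) : 2 * d + 2 ≤ bnd3 d (2 * d) := by
  obtain ⟨r, rfl⟩ : ∃ r, d = r + 5 := ⟨d - 5, by omega⟩
  have e : 2 * (r + 5) = (2 * r + 8) + 1 + 1 := by ring
  have hn : ¬ (2 * r + 8) + 1 + 1 = 2 * (r + 5) - 1 := by omega
  have hp : (2 * r + 8) + 1 = 2 * (r + 5) - 1 := by omega
  have c1 := two_choose (r + 6)
  have c2 := two_choose (r + 4)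
  have c3 := two_choose (r + 3)
  have e1 : 2 * (r + 6 + 1).choose 2 = r * r + 13 * r + 42 := by rw [c1]; ring
  have e2 : 2 * (r + 4 + 1).choose 2 = r * r + 9 * r + 20 := by rw [c2]; ring
  have e3 : 2 * (r + 3 + 1).choose 2 = r * r + 7 * r + 12 := by rw [c3]; ring
  have k1 : ((2 * r + 8) + 1) / (r + 5 - 1) = 2 :=
    Nat.div_eq_of_lt_le (by omega) (by omega)
  have k2 : ((2 * r + 8) + 1 + 1) / (r + 5 - 1) = 2 :=
    Nat.div_eq_of_lt_le (by omega) (by omega)
  have t1 : 2 * (r + 5) - 1 ≤ theta (r + 5) ((2 * r + 8) + 1) := by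
    unfold theta
    rw [k1]
    have a1 : (2 + 1) * (r + 5 - 1) - ((2 * r + 8) + 1) + 2 = r + 4 + 1 := by omega
    have a2 : r + 5 + 2 = r + 6 + 1 := by omega
    rw [a1, a2]
    omega
  have t2 : 2 * (r + 5) + 2 ≤ theta (r + 5) ((2 * r + 8) + 1 + 1) := by
    unfold theta
    rw [k2]
    have a1 : (2 + 1) * (r + 5 - 1) - ((2 * r + 8) + 1 + 1) + 2 = r + 3 + 1 := by omega
    have a2 : r + 5 + 2 = r + 6 + 1 := by omega
    rw [a1, a2]
    omega
  rw [e, bnd3, if_neg hn, bnd3, if_pos hp, k2, le_min_iff]
  rw [e] at t2
  constructor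
  · exact t2
  · omega

end IAdm4

theorem pr_Adm4 (h1 : S_Main4) : S_Adm4 := by
  intro K _ _ d hd v hv T
  induction T using Nat.strong_induction_on with
  | _ T ihT =>
    intro p
    rcases T with _ | T
    · intro hp
      exfalso
      rcases hv 0 with h | ⟨h, -⟩ | ⟨h5, h, -⟩ | h | h
      · omega
      · omega
      · omega
      · have h0 : theta d 0 = 0 := by
          simp [theta]
        have h2 := h.trans (min_le_left _ _)
        omega
      · have h1 := h p hp 0 (Nat.zero_le _)
        rw [show 0 + 1 - d = 0 by omega] at h1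
        exact h1
    · induction p using Nat.strong_induction_on with
      | _ p ihp =>
        intro hp
        rcases hv (T + 1) with h | ⟨hT, h⟩ | ⟨h5, hT, h⟩ | h | h
        · omega
        · refine h_Main3 K d (T + 1) p hd ?_
          rw [bnd3, if_pos hT]
          exact lt_of_lt_of_le hp h
        · rw [hT]
          rcases Nat.lt_or_ge p (2 * d + 2) with hlt | hge
          · exact h_Main3 K d (2 * d) p hd (lt_of_lt_of_le hlt (IAdm4.lo d h5))
          · have hpe : p = 2 * d + 2 := by omega
            rw [hpe]
            exact h1 K d h5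
        · have hp1 : p < theta d (T + 1) := lt_of_lt_of_le hp (h.trans (min_le_left _ _))
          have hp2 : p < v T + (T + 1) / (d - 1) + 1 := by
            have := lt_of_lt_of_le hp (h.trans (min_le_right _ _))
            rwa [Nat.add_sub_cancel] at this
          have hd1 : 0 < d - 1 := by omega
          have hlt : T + 1 < ((T + 1) / (d - 1) + 1) * (d - 1) := by
            have := Nat.lt_div_mul_add (a := T + 1) hd1
            rw [Nat.add_mul, one_mul]
            exact this
          unfold theta at hp1
          generalize hq : (T + 1) / (d - 1) = q at hp1 hp2 hlt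
          refine Pool.Agent.Work.MP_1233f5_ag.V.h_Step K d (T + 1) p (q + 1)
            ((q + 1) * (d - 1) - (T + 1)) (by omega)
            (Nat.le_add_left _ _) (Nat.le_add_left _ _) (Nat.add_sub_of_le hlt.le) ?_ ?_ ?_
          · have e1 : d + (q + 1) - 1 = d + q := by omega
            have e2 : (q + 1) * (d - 1) - (T + 1) + (q + 1) - 1
                = (q + 1) * (d - 1) - (T + 1) + q := by omega
            rw [e1, e2, Nat.add_sub_cancel]
            omega
          · intro p' hp'
            exact ihp p' (by omega) (lt_trans (by omega) hp)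
          · intro p' hp'
            exact ihT T (Nat.lt_succ_self T) p' (by omega)
        · obtain ⟨r, rfl⟩ : ∃ r, d = r + 1 := ⟨d - 1, by omega⟩
          have hf := h p hp
          have hpos : T + 1 + 1 - (r + 1) ≠ 0 := by
            intro h0
            rw [h0] at hf
            exact hf 0 (Nat.zero_le _)
          have hsound : ∀ T' n, n < (fun T' => if T' ≤ T then v T' else 0) T' →
              VV K (r + 1) T' n := by
            intro T' n hn
            by_cases hT' : T' ≤ T
            · simp only [if_pos hT'] at hn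
              exact (h_Rlb K (r + 1) T' n).1.1 (ihT T' (by omega) n hn)
            · simp only [if_neg hT'] at hn
              exact absurd hn (Nat.not_lt_zero n)
          have hf' : fb (r + 1) (fun T' => if T' ≤ T then v T' else 0) (T + 1 + 1 - (r + 1)) p := by
            intro s hs
            refine (pr_Zb1 (r + 1) v).2.2.1 _ _ ?_ s _ (hf s hs)
            intro T' hT'
            show v T' = if T' ≤ T then v T' else 0
            rw [if_pos (by omega)]
          have h1 := h_StarF K r _ (by omega) hsound _ p hf'
          have h2 : T + 1 + 1 - (r + 1) + r = T + 1 := by omega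
          rw [h2] at h1
          exact (h_Rlb K (r + 1) (T + 1) p).1.2 h1

end Pool.Agent.Work.MP_1233f5_ag.Q
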