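import Pool.Agent.Work.MP_1233f5_ag.Q.Stmts

/-! MP_1233f5_ag, block Q, item Fib. -/

set_option autoImplicit false

namespace Pool.Agent.Work.MP_1233f5_ag.Q

open Finset
open Pool.Agent.Work.MP_1233f5_ag.Y

namespace IFib

open Classical in
/-- the key of a point: its two colours in `P`, the point itself outside `P`. -/
noncomputable def key {α : Type} (P : Finset α) (π f : α → Fin 3) (a : α) :
    (Fin 3 × Fin 3) ⊕ α :=
  if a ∈ P then Sum.inl (π a, f a) else Sum.inr a

theorem key_in {α : Type} {P : Finset α} {π f : α → Fin 3} {a : α} (h : a ∈ P) :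
    key P π f a = Sum.inl (π a, f a) := by
  unfold key; exact if_pos h

theorem key_out {α : Type} {P : Finset α} {π f : α → Fin 3} {a : α} (h : a ∉ P) :
    key P π f a = Sum.inr a := by
  unfold key; exact if_neg h

theorem key_inr {α : Type} {P : Finset α} {π f : α → Fin 3} {a b : α} :
    key P π f a = Sum.inr b ↔ a ∉ P ∧ a = b := by
  by_cases h : a ∈ P
  · rw [key_in h]
    constructor
    · intro h'; exact absurd h' (by simp)
    · rintro ⟨h1, -⟩; exact absurd h h1
  · rw [key_out h]
    constructor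
    · intro h'; exact ⟨h, Sum.inr_injective h'⟩
    · rintro ⟨-, h2⟩; rw [h2]

theorem key_inl {α : Type} [DecidableEq α] {P : Finset α} {π f : α → Fin 3} {a : α}
    {i k : Fin 3} :
    key P π f a = Sum.inl (i, k) ↔ a ∈ P.filter (fun a => π a = i ∧ f a = k) := by
  by_cases h : a ∈ P
  · rw [key_in h, mem_filter, Sum.inl.injEq, Prod.mk.injEq]
    exact ⟨fun h' => ⟨h, h'⟩, fun h' => h'.2⟩
  · rw [key_out h, mem_filter]
    constructor
    · intro h'; exact absurd h' (by simp)
    · rintro ⟨h1, -⟩; exact absurd h1 h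

/-- the fibres of the two keys are equivalent. -/
theorem fib_equiv {α : Type} [DecidableEq α] (P : Finset α) (π π' π'' : α → Fin 3)
    (h : ∀ i k : Fin 3, (P.filter (fun a => π a = i ∧ π' a = k)).card =
      (P.filter (fun a => π a = i ∧ π'' a = k)).card) (c : (Fin 3 × Fin 3) ⊕ α) :
    Nonempty ({a // key P π π'' a = c} ≃ {a // key P π π' a = c}) := by
  rcases c with ⟨i, k⟩ | b
  · exact ⟨((Equiv.subtypeEquivRight (fun a => key_inl)).trans
      (Finset.equivOfCardEq (h i k).symm)).trans
      (Equiv.subtypeEquivRight (fun a => key_inl)).symm⟩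
  · exact ⟨(Equiv.subtypeEquivRight (fun a => key_inr)).trans
      (Equiv.subtypeEquivRight (fun a => key_inr)).symm⟩

end IFib

theorem pr_Fib : S_Fib := by
  intro α _ _ P π π' π'' h
  let κ : Equiv.Perm α := Equiv.ofFiberEquiv (fun c => (IFib.fib_equiv P π π' π'' h c).some)
  have hκ : ∀ a, IFib.key P π π' (κ a) = IFib.key P π π'' a := fun a =>
    Equiv.ofFiberEquiv_map (fun c => (IFib.fib_equiv P π π' π'' h c).some) a
  have hout : ∀ a, a ∉ P → κ a = a := fun a ha =>
    (IFib.key_inr.1 ((hκ a).trans (IFib.key_out ha))).2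
  have hin : ∀ a, a ∈ P → π (κ a) = π a ∧ π' (κ a) = π'' a := fun a ha => by
    have h1 := (hκ a).trans (IFib.key_in ha)
    exact (mem_filter.1 (IFib.key_inl.1 h1)).2
  refine ⟨κ, hout, fun a => ?_, fun a ha => (hin a ha).2.symm⟩
  by_cases ha : a ∈ P
  · exact (hin a ha).1
  · rw [hout a ha]

end Pool.Agent.Work.MP_1233f5_ag.Q
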