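import Pool.Agent.Work.MP_1233f5_ag.Q.Stmts

/-! MP_1233f5_ag, block Q, item KSurj: every multigraded chain is `kap` of a chain. -/

set_option autoImplicit false

namespace Pool.Agent.Work.MP_1233f5_ag.Q

open Finset
open Pool.Agent.Work.MP_1233f5_ag.V (vm vw Mo tyv dd rCh rcyc rVan rNo ML theta)
open Pool.Agent.Work.MP_1233f5_ag.Y

namespace IKSurj

section
variable {K : Type} [Field K] {α : Type} [Fintype α] [DecidableEq α]

open Classical in
/-- `kap` of a monomial. -/
theorem kap_mo (π : α → Fin 3) (p : ℕ) (t : Fin p → Finset α) (s' : Fin p → (Fin 3 → ℕ)) :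
    kap π p (mo t : Lx K α) s' = ∑ σ : Equiv.Perm (Fin p),
      if (fun i => tyv π (t i)) = s' ∘ σ then ((Equiv.Perm.sign σ : ℤ) : K) else 0 := by
  have h0 : kap π p (mo t : Lx K α) s' =
      ∑ t' ∈ univ.filter (fun t' : Fin p → Finset α => ∀ i, tyv π (t' i) = s' i),
        (BrgX.co p t' : Lx K α →ₗ[K] K) (mo t) := by
    unfold kap
    rw [LinearMap.pi_apply, LinearMap.sum_apply]
  rw [h0]
  simp_rw [BrgX.co_mo]
  rw [Finset.sum_comm]
  refine Finset.sum_congr rfl (fun σ _ => ?_)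
  by_cases h : (fun i => tyv π (t i)) = s' ∘ σ
  · rw [if_pos h]
    have hmem : (t ∘ (σ⁻¹ : Equiv.Perm (Fin p))) ∈
        univ.filter (fun t' : Fin p → Finset α => ∀ i, tyv π (t' i) = s' i) := by
      rw [Finset.mem_filter]
      refine ⟨Finset.mem_univ _, fun i => ?_⟩
      have h2 := congrFun h (σ⁻¹ i)
      have h3 : σ (σ⁻¹ i) = i := σ.apply_symm_apply i
      rw [Function.comp_apply, h3] at h2
      exact h2
    rw [Finset.sum_eq_single_of_mem _ hmem]
    · rw [if_pos]
      funext i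
      simp
    · intro t' _ ht'
      rw [if_neg]
      intro h3
      apply ht'
      funext i
      rw [h3]
      simp
  · rw [if_neg h]
    refine Finset.sum_eq_zero (fun t' ht' => ?_)
    rw [if_neg]
    rintro rfl
    apply h
    rw [Finset.mem_filter] at ht'
    funext i
    exact ht'.2 (σ i)

end

end IKSurj

open Classical in
theorem pr_KSurj (hL : S_KLift) : S_KSurj := by
  intro K _ _ α _ _ d p P π c hc
  obtain ⟨hlift, -⟩ := hL α d p P π
  have hex : ∀ s : Fin p → (Fin 3 → ℕ), ∃ t : Fin p → Finset α, vw d (tyv π P) p s →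
      vm d P p t ∧ ∀ i, tyv π (t i) = s i := by
    intro s
    by_cases hs : vw d (tyv π P) p s
    · obtain ⟨t, ht⟩ := hlift s hs
      exact ⟨t, fun _ => ht⟩
    · exact ⟨fun _ => ∅, fun h => absurd h hs⟩
  choose lf hlf using hex
  set S : Finset (Fin p → (Fin 3 → ℕ)) :=
    (Fintype.piFinset fun _ => Mo 3 d).filter (fun s => vw d (tyv π P) p s) with hS
  have hmem : ∀ s : Fin p → (Fin 3 → ℕ), s ∈ S ↔ vw d (tyv π P) p s := by
    intro s
    rw [hS, Finset.mem_filter, Fintype.mem_piFinset]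
    exact ⟨fun h => h.2, fun h => ⟨h.1, h⟩⟩
  have hf : ((p.factorial : ℕ) : K) ≠ 0 := Nat.cast_ne_zero.2 (Nat.factorial_ne_zero p)
  refine ⟨((p.factorial : ℕ) : K)⁻¹ • ∑ s ∈ S, c s • (mo (lf s) : Lx K α), ?_, ?_⟩
  · refine Submodule.smul_mem _ _ (Submodule.sum_mem _ fun s hs => Submodule.smul_mem _ _ ?_)
    exact Submodule.subset_span ⟨lf s, (hlf s ((hmem s).1 hs)).1, rfl⟩
  · funext s'
    rw [map_smul, map_sum, Pi.smul_apply, Finset.sum_apply, smul_eq_mul]
    have h1 : ∀ s ∈ S, (kap π p (c s • (mo (lf s) : Lx K α))) s' =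
        ∑ σ : Equiv.Perm (Fin p), if s = s' ∘ σ then c s * ((Equiv.Perm.sign σ : ℤ) : K) else 0 := by
      intro s hs
      rw [map_smul, Pi.smul_apply, smul_eq_mul, IKSurj.kap_mo, Finset.mul_sum]
      have h2 : (fun i => tyv π (lf s i)) = s := funext (hlf s ((hmem s).1 hs)).2
      rw [h2]
      refine Finset.sum_congr rfl (fun σ _ => ?_)
      rw [mul_ite, mul_zero]
    rw [Finset.sum_congr rfl h1, Finset.sum_comm]
    have h3 : ∀ σ : Equiv.Perm (Fin p),
        (∑ s ∈ S, if s = s' ∘ σ then c s * ((Equiv.Perm.sign σ : ℤ) : K) else 0) = c s' := by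
      intro σ
      rw [Finset.sum_ite_eq' S (s' ∘ σ) (fun s => c s * ((Equiv.Perm.sign σ : ℤ) : K))]
      have h4 : c (s' ∘ σ) * ((Equiv.Perm.sign σ : ℤ) : K) = c s' := by
        rw [hc.1 σ s', mul_right_comm, BrgX.sign_sq, one_mul]
      split_ifs with h5
      · exact h4
      · rw [hmem] at h5
        have h6 : c (s' ∘ σ) = 0 := by
          by_contra h7
          exact h5 (hc.2 _ h7)
        rw [← h4, h6, zero_mul]
    rw [Finset.sum_congr rfl (fun σ _ => h3 σ), Finset.sum_const, Finset.card_univ,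
      Fintype.card_perm, Fintype.card_fin, nsmul_eq_mul, ← mul_assoc, inv_mul_cancel₀ hf, one_mul]

end Pool.Agent.Work.MP_1233f5_ag.Q
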