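import Pool.Agent.Work.MP_1233f5_ag.Q.Stmts
import Pool.Agent.Work.MP_1233f5_ag.Y.Util

/-! MP_1233f5_ag, block Q: all antisymmetrizations in four points vanish. -/

set_option autoImplicit false
set_option linter.unusedSectionVars false

namespace Pool.Agent.Work.MP_1233f5_ag.Q

open Finset
open Pool.Agent.Work.MP_1233f5_ag.Y

namespace IPLb

section comb
variable {α : Type} [DecidableEq α] {r j τ : ℕ} {P : Finset α} {T n : ℕ → Finset α}

theorem mem_rs {a : α} : a ∈ rs P j n ↔ a ∈ P ∧ ∀ i < j, a ∉ n i := by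
  unfold rs
  rw [mem_sdiff, mem_biUnion]
  constructor
  · rintro ⟨h1, h2⟩
    exact ⟨h1, fun i hi ha => h2 ⟨i, mem_range.2 hi, ha⟩⟩
  · rintro ⟨h1, h2⟩
    refine ⟨h1, ?_⟩
    rintro ⟨i, hi, ha⟩
    exact h2 i (mem_range.1 hi) ha

theorem mem_tt {a : α} : a ∈ tt τ T ↔ ∃ i < τ, a ∈ T i := by
  unfold tt
  rw [mem_biUnion]
  simp only [mem_range]

theorem rs_sub : rs P j n ⊆ P := sdiff_subset

theorem card_rs (h : NV r P j n) : (rs P j n).card + j * r = P.card := by
  have h1 : ((range j).biUnion n).card = j * r := by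
    rw [card_biUnion, sum_congr rfl fun i hi => h.card i (mem_range.1 hi), sum_const, card_range,
      smul_eq_mul]
    intro i hi k hk hik
    exact h.dis i (mem_range.1 hi) k (mem_range.1 hk) hik
  have h2 : (range j).biUnion n ⊆ P := by
    intro x hx
    obtain ⟨i, hi, hx'⟩ := mem_biUnion.1 hx
    exact h.sub i (mem_range.1 hi) hx'
  have h3 := card_sdiff_add_card_eq_card h2
  unfold rs
  omega

theorem card_tt (h : TV τ P T) : (tt τ T).card = 3 * τ := by
  unfold tt
  rw [card_biUnion, sum_congr rfl fun i hi => h.card i (mem_range.1 hi), sum_const, card_range,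
    smul_eq_mul]
  · ring
  · intro i hi k hk hik
    exact h.dis i (mem_range.1 hi) k (mem_range.1 hk) hik

theorem tt_disj (h : TV τ P T) : Disjoint P (tt τ T) := by
  rw [Finset.disjoint_left]
  intro x hx hx'
  obtain ⟨i, hi, hxi⟩ := mem_tt.1 hx'
  exact (Finset.disjoint_left.1 (h.out i hi)) hxi hx

theorem card_C (h : TV τ P T) (hn : NV r P j n)
    (hc : P.card + 3 * τ = j * r + (2 * r + 1) * (r + 2)) :
    (rs P j n ∪ tt τ T).card = (2 * r + 1) * (r + 2) := by
  rw [card_union_of_disjoint ((tt_disj h).mono_left rs_sub), card_tt h]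
  have := card_rs hn
  omega

theorem TV_sub (h : TV τ P T) {R : Finset α} (hR : R ⊆ P) : TV τ R T :=
  ⟨h.card, h.dis, fun i hi => (h.out i hi).mono_right hR⟩

/-- three disjoint sets, one of them avoids a set with at most two points. -/
theorem avoid {Q R : Finset α} {T' : ℕ → Finset α} (hQ : (Q ∩ R).card ≤ 2)
    (h1 : ∀ i < 3, T' i ⊆ R) (h2 : ∀ i < 3, ∀ k < 3, i ≠ k → Disjoint (T' i) (T' k)) :
    ∃ k < 3, Disjoint Q (T' k) := by
  by_contra hc
  push Not at hc
  have h3 : ∀ i < 3, ((Q ∩ R) ∩ T' i).Nonempty := by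
    intro i hi
    obtain ⟨x, hx, hx'⟩ := Finset.not_disjoint_iff.1 (hc i hi)
    exact ⟨x, mem_inter.2 ⟨mem_inter.2 ⟨hx, h1 i hi hx'⟩, hx'⟩⟩
  have h4 : ((range 3).biUnion (fun i => (Q ∩ R) ∩ T' i)).card ≤ (Q ∩ R).card := by
    refine card_le_card ?_
    intro x hx
    obtain ⟨i, _, hx'⟩ := mem_biUnion.1 hx
    exact (mem_inter.1 hx').1
  rw [card_biUnion] at h4
  · have h5 : ∑ i ∈ range 3, 1 ≤ ∑ i ∈ range 3, ((Q ∩ R) ∩ T' i).card :=
      sum_le_sum fun i hi => card_pos.2 (h3 i (mem_range.1 hi))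
    rw [sum_const, card_range, smul_eq_mul] at h5
    omega
  · intro i hi k hk hik
    exact (h2 i (mem_range.1 hi) k (mem_range.1 hk) hik).mono inter_subset_right
      inter_subset_right

end comb

section main
variable {K : Type} [Field K] [CharZero K] {α : Type} [Fintype α] [DecidableEq α] {H : Type}
    [AddCommGroup H] [Module K H] {ρ : Equiv.Perm α →* Module.End K H} {r j τ : ℕ}
    {P : Finset α} {T : ℕ → Finset α} {G : (ℕ → Finset α) → (Lx K α →ₗ[K] H)}

theorem G_congr (h : GA ρ r j τ P T G) {n n' : ℕ → Finset α} (hn : ∀ i < j, n' i = n i) :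
    G n' = G n := h.sym 1 n n' fun i => hn i i.2

/-- permutations of the rest. -/
theorem eqv_rest (h : GA ρ r j τ P T G) {n : ℕ → Finset α} (hn : NV r P j n)
    {y : Lx K α} (hy : y ∈ Cy K (r + 1) (rs P j n ∪ tt τ T) (2 * r + 1)) {σ : Equiv.Perm α}
    (hσ : Sup (rs P j n) σ) : ρ σ (G n y) = G n (act K α σ y) := by
  rw [← h.eqv σ (U.sup_mono rs_sub hσ) n hn y hy]
  rw [G_congr h (n := n) (n' := fun i => im σ (n i))]
  intro i hi
  refine U.sup_im_disj hσ ?_
  rw [Finset.disjoint_left]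
  intro x hx hx'
  exact (mem_rs.1 hx').2 i hi hx

/-- transpositions inside one set. -/
theorem eqv_in (h : GA ρ r j τ P T G) {n : ℕ → Finset α} (hn : NV r P j n)
    {y : Lx K α} (hy : y ∈ Cy K (r + 1) (rs P j n ∪ tt τ T) (2 * r + 1)) {i : ℕ} (hi : i < j)
    {u v : α} (hu : u ∈ n i) (hv : v ∈ n i) : ρ (Equiv.swap u v) (G n y) = G n y := by
  have hσ : Sup (n i) (Equiv.swap u v) := U.sup_swap hu hv
  rw [← h.eqv _ (U.sup_mono (hn.sub i hi) hσ) n hn y hy]
  rw [G_congr h (n := n) (n' := fun k => im (Equiv.swap u v) (n k))]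
  · congr 1
    refine act_eq_self ?_ hy.1
    intro a ha
    refine hσ a fun ha' => ?_
    rcases mem_union.1 ha with ha | ha
    · exact (mem_rs.1 ha).2 i hi ha'
    · obtain ⟨k, hk, hak⟩ := mem_tt.1 ha
      exact (Finset.disjoint_left.1 (h.tv.out k hk)) hak (hn.sub i hi ha')
  · intro k hk
    by_cases hik : k = i
    · rw [hik]
      exact U.sup_im hσ
    · exact U.sup_im_disj hσ (hn.dis k hk i hi hik)

/-- four points in the rest. -/
theorem caseB (hR4 : S_R4) (hr : 1 ≤ r) (h : GA ρ r j τ P T G) {n : ℕ → Finset α}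
    (hn : NV r P j n) {y : Lx K α}
    (hy : y ∈ Cy K (r + 1) (rs P j n ∪ tt τ T) (2 * r + 1)) {Q : Finset α}
    (hQ : Q ⊆ rs P j n) (hQ4 : Q.card = 4) : asym ρ Q (G n y) = 0 := by
  classical
  have h1 : asym ρ Q (G n y) = G n (asym (act K α) Q y) := by
    rw [U.asym_apply, U.asym_apply, map_sum]
    refine sum_congr rfl fun σ hσ => ?_
    rw [map_smul, eqv_rest h hn hy (U.sup_mono hQ (mem_filter.1 hσ).2)]
  rw [h1]
  refine h.bd n hn _ (hR4 K α r (rs P j n ∪ tt τ T) Q hr (card_C h.tv hn h.card)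
    (hQ.trans subset_union_left) hQ4 y hy)

/-- antisymmetrization in the frozen triples. -/
theorem antis (hA : S_Asym) (h : GA ρ r j τ P T G) (hτ : τ ≤ 1) {n : ℕ → Finset α}
    (hn : NV r P j n) {y : Lx K α}
    (hy : y ∈ Cy K (r + 1) (rs P j n ∪ tt τ T) (2 * r + 1)) :
    ∃ y' ∈ Cy K (r + 1) (rs P j n ∪ tt τ T) (2 * r + 1),
      (∀ i < τ, AntQ (act K α) (T i) y') ∧ ∃ N : K, N ≠ 0 ∧ G n y' = N • G n y := by
  classical
  by_cases h0 : τ = 0
  · exact ⟨y, hy, fun i hi => by omega, 1, one_ne_zero, by rw [one_smul]⟩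
  · have h1 : τ = 1 := by omega
    subst h1
    have hsub : T 0 ⊆ rs P j n ∪ tt 1 T := fun x hx =>
      mem_union_right _ (mem_tt.2 ⟨0, Nat.one_pos, hx⟩)
    have hy' : asym (act K α) (T 0) y ∈ Cy K (r + 1) (rs P j n ∪ tt 1 T) (2 * r + 1) :=
      (hA K α (Lx K α) (act K α) (T 0)).2.2.2.2.2.1 _
        (fun σ hσ z hz => act_Cy_sup hσ hsub hz) y hy
    refine ⟨_, hy', ?_, ?_⟩
    · intro i hi
      obtain rfl : i = 0 := by omega
      exact (hA K α (Lx K α) (act K α) (T 0)).2.2.1 y
    · refine ⟨((univ.filter (fun σ : Equiv.Perm α => Sup (T 0) σ)).card : K), ?_, ?_⟩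
      · refine Nat.cast_ne_zero.2 (Nat.pos_iff_ne_zero.1 (card_pos.2 ⟨1, ?_⟩))
        simp only [mem_filter, mem_univ, true_and]
        exact U.sup_one _
      · rw [U.asym_apply, map_sum]
        have h2 : ∀ σ ∈ univ.filter (fun σ : Equiv.Perm α => Sup (T 0) σ),
            G n (((Equiv.Perm.sign σ : ℤ) : K) • act K α σ y) = G n y := by
          intro σ hσ
          have h3 : ((Equiv.Perm.sign σ : ℤ) : K) * ((Equiv.Perm.sign σ : ℤ) : K) = 1 := by
            rw [← Int.cast_mul, Int.units_coe_mul_self, Int.cast_one]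
          rw [map_smul, h.ant 0 Nat.one_pos σ (mem_filter.1 hσ).2 n hn y hy, smul_smul, h3,
            one_smul]
        rw [sum_congr rfl h2, sum_const, Nat.cast_smul_eq_nsmul]

end main

end IPLb

theorem pr_PLb (hA : S_Asym) (hF4 : S_F4) (hR4 : S_R4) (hDeepN : S_DeepN) (hPLa : S_PLa) :
    S_PLb := by
  intro K _ _ α _ _ H _ _ ρ r j τ P T G hr hj hG hPL n hn y hy Q hQ hQ4
  classical
  have hr1 : 1 ≤ r := by omega
  have hA' := hA K α H ρ
  -- one point in the sets
  have caseC : ∀ y ∈ Cy K (r + 1) (rs P j n ∪ tt τ T) (2 * r + 1), ∀ i < j, ∀ l ∈ n i,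
      ∀ Y ⊆ rs P j n, Y.card = 3 → asym ρ (insert l Y) (G n y) = 0 := by
    intro y hy i hi l hl Y hY hY3
    obtain ⟨j', rfl⟩ : ∃ j', j = j' + 1 := ⟨j - 1, by omega⟩
    exact hPLa K α H ρ r j' τ P T G hr1 hG (hPL j' rfl) n hn y hy i hi l hl Y hY hY3
  -- two points in one set
  by_cases hcA : ∃ i < j, ∃ u ∈ Q, ∃ v ∈ Q, u ≠ v ∧ u ∈ n i ∧ v ∈ n i
  · obtain ⟨i, hi, u, hu, v, hv, huv, hui, hvi⟩ := hcA
    exact (hA' Q).2.2.2.2.1 u hu v hv huv _ (IPLb.eqv_in hG hn hy hi hui hvi)
  · have hcA' : ∀ i < j, ∀ u ∈ Q, ∀ v ∈ Q, u ∈ n i → v ∈ n i → u = v := by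
      intro i hi u hu v hv h1 h2
      by_contra hc
      exact hcA ⟨i, hi, u, hu, v, hv, hc, h1, h2⟩
    obtain ⟨S, hS⟩ : ∃ S, S = Q \ rs P j n := ⟨_, rfl⟩
    have hSmem : ∀ x ∈ S, x ∈ Q ∧ ∃ i < j, x ∈ n i := by
      intro x hx
      rw [hS, mem_sdiff, IPLb.mem_rs] at hx
      refine ⟨hx.1, ?_⟩
      by_contra hc
      push Not at hc
      exact hx.2 ⟨hQ hx.1, hc⟩
    have hScard : S.card + (Q ∩ rs P j n).card = 4 := by
      rw [hS, ← hQ4]
      have := card_sdiff_add_card_inter Q (rs P j n)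
      omega
    by_cases h0 : S.card = 0
    · -- all points in the rest
      have h1 : Q ⊆ rs P j n := by
        rw [card_eq_zero, hS, sdiff_eq_empty_iff_subset] at h0
        exact h0
      exact IPLb.caseB hR4 hr1 hG hn hy h1 hQ4
    · by_cases h1 : S.card = 1
      · obtain ⟨l, hl⟩ := card_eq_one.1 h1
        obtain ⟨hlQ, i, hi, hli⟩ := hSmem l (by rw [hl]; exact mem_singleton_self l)
        have h2 : Q = insert l (Q ∩ rs P j n) := by
          ext x
          rw [mem_insert, mem_inter]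
          constructor
          · intro hx
            by_cases hx' : x ∈ rs P j n
            · exact Or.inr ⟨hx, hx'⟩
            · left
              have : x ∈ S := by
                rw [hS]
                exact mem_sdiff.2 ⟨hx, hx'⟩
              rw [hl] at this
              exact mem_singleton.1 this
          · rintro (rfl | hx)
            · exact hlQ
            · exact hx.1
        rw [h2]
        exact caseC y hy i hi l hli _ inter_subset_right (by omega)
      · -- at least two points in the sets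
        have h2 : 1 < S.card := by omega
        obtain ⟨u, hu, v, hv, huv⟩ := Finset.one_lt_card.1 h2
        obtain ⟨huQ, i, hi, hui⟩ := hSmem u hu
        obtain ⟨hvQ, k, hk, hvk⟩ := hSmem v hv
        have hik : i ≠ k := by
          intro hik
          rw [← hik] at hvk
          exact huv (hcA' i hi u huQ v hvQ hui hvk)
        have hj2 : 2 ≤ j := by omega
        have hτ : τ ≤ 1 := by omega
        have hQR : (Q ∩ rs P j n).card ≤ 2 := by omega
        -- the claim for cycles antisymmetric in a triple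
        have key : ∀ w ∈ Cy K (r + 1) (rs P j n ∪ tt τ T) (2 * r + 1), ∀ Y ⊆ rs P j n,
            Y.card = 3 → Disjoint Q Y → AntQ (act K α) Y w → asym ρ Q (G n w) = 0 := by
          intro w hw Y hY hY3 hQY hwY
          refine hF4 K α H ρ Q Y _ hQ4 hY3 hQY ((hA' Q).2.2.1 _) ?_ ?_
          · intro σ hσ
            rw [(hA' Q).2.2.2.1 σ, U.sup_im_disj hσ hQY, IPLb.eqv_rest hG hn hw (U.sup_mono hY hσ),
              hwY σ hσ, map_smul, map_smul]
          · intro x hx
            have h3 : ∀ x' ∈ Q, asym ρ (insert x' Y) (G n w) = 0 := by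
              intro x' hx'
              have hx'Y : x' ∉ Y := (Finset.disjoint_left.1 hQY) hx'
              by_cases h4 : x' ∈ rs P j n
              · refine IPLb.caseB hR4 hr1 hG hn hw ?_ ?_
                · exact insert_subset h4 hY
                · rw [card_insert_of_notMem hx'Y, hY3]
              · obtain ⟨_, i', hi', hxi'⟩ := hSmem x' (by rw [hS]; exact mem_sdiff.2 ⟨hx', h4⟩)
                exact caseC w hw i' hi' x' hxi' Y hY hY3
            rw [U.asym_apply ρ Q, map_sum]
            refine sum_eq_zero fun σ hσ => ?_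
            have hσ' : Sup Q σ := (mem_filter.1 hσ).2
            rw [map_smul]
            have h5 := (hA' (insert (σ⁻¹ x) Y)).2.2.2.1 σ (G n w)
            rw [im_insert, U.app_inv, U.sup_im_disj hσ' hQY.symm,
              h3 _ (U.sup_mem (U.sup_inv hσ') hx), map_zero] at h5
            rw [← h5, smul_zero]
        obtain ⟨y1, hy1, hant, N, hN, hGN⟩ := IPLb.antis hA hG hτ hn hy
        have h6 : asym ρ Q (G n y1) = 0 := by
          have hcC := IPLb.card_C hG.tv hn hG.card
          have hcR : (rs P j n).card + 3 * τ = (2 * r + 1) * (r + 2) := by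
            rw [card_union_of_disjoint ((IPLb.tt_disj hG.tv).mono_left IPLb.rs_sub),
              IPLb.card_tt hG.tv] at hcC
            exact hcC
          have h7 := hDeepN K α r τ (rs P j n) T hr hτ (IPLb.TV_sub hG.tv IPLb.rs_sub) hcR y1 hy1
            hant
          obtain ⟨b, hb, w, hw, rfl⟩ := Submodule.mem_sup.1 h7
          rw [map_add, hG.bd n hn b hb, zero_add]
          clear h7 hGN hant hy1
          induction hw using Submodule.span_induction with
          | zero => rw [map_zero, map_zero]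
          | add x y _ _ hx hy => rw [map_add, map_add, hx, hy, add_zero]
          | smul c x _ hx => rw [map_smul, map_smul, hx, smul_zero]
          | mem x hx =>
            obtain ⟨⟨hxC, _⟩, T', hT1, hT2, hT3⟩ := hx
            obtain ⟨k', hk', hdis⟩ := IPLb.avoid hQR (fun i hi => (hT1 i hi).1) hT2
            exact key x hxC (T' k') (hT1 k' hk').1 (hT1 k' hk').2 hdis (hT3 k' hk')
        rw [hGN, map_smul] at h6
        exact (smul_eq_zero.1 h6).resolve_left hN

end Pool.Agent.Work.MP_1233f5_ag.Q
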