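import Pool.Agent.Work.MP_1233f5_ag.Q.Stmts
import Pool.Agent.Work.MP_1233f5_ag.Y.GlueC
import Pool.Agent.Work.MP_1233f5_ag.Z.Glue

/-! MP_1233f5_ag, block Q, item R4u: four rows, all letters. -/

set_option autoImplicit false

namespace Pool.Agent.Work.MP_1233f5_ag.Q

open Finset
open Pool.Agent.Work.MP_1233f5_ag.V (vm vw Mo tyv dd rCh rcyc rVan rNo ML theta)
open Pool.Agent.Work.MP_1233f5_ag.Y
open Pool.Agent.Work.MP_1233f5_ag.Sec (Fk)

namespace IR4u

/-- all `Wc` from the induction step. -/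
theorem wcAll (hW : S_WStepc) {K : Type} [Field K] [CharZero K] {α : Type} [Fintype α]
    [DecidableEq α] {r p : ℕ} (hr : 1 ≤ r)
    (hc : Fintype.card α = p * (r + 1) + (2 * r + 1)) (hp : p ≤ 2 * r + 1) (a : ℕ) :
    Wc K α r p 1 a := by
  induction a using Nat.strong_induction_on with
  | _ a ih => exact hW K α r p a hr hc hp ih

/-- one block of size `m ≥ 3`. -/
theorem one_block {K : Type} [Field K] {α : Type} [Fintype α] [DecidableEq α] {r p m : ℕ}
    (hm : 3 ≤ m) (hmp : m ≤ p) (hW : Wc K α r p 1 (p - m)) {η : ℕ → α} {n : ℕ → Finset α}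
    (hV : BV r univ m η n) {w : Lx K α} (hw : w ∈ Cy K (r + 1) (univ \ bs m η n) (p - m)) :
    qn m η n * w ∈ Bd K (r + 1) (univ : Finset α) p := by
  have h1 : ls [0] (fun _ => m) (fun _ => η) (fun s => n s.2) = bs m η n := by
    unfold ls
    rw [List.toFinset_cons, List.toFinset_nil, insert_empty_eq, singleton_biUnion]
  have h2 : (pq [0] (fun _ => m) (fun _ => η) (fun s => n s.2) : Lx K α) = qn m η n := by
    unfold pq
    rw [List.map_cons, List.map_nil, List.prod_cons, List.prod_nil, mul_one]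
  have h3 : LV r univ [0] (fun _ => m) (fun _ => η) (fun s => n s.2) := by
    refine ⟨List.nodup_singleton 0, fun _ _ => by omega, fun _ _ => hV, ?_⟩
    intro j hj j' hj' hne
    rw [List.mem_singleton] at hj hj'
    exact absurd (hj.trans hj'.symm) hne
  have h4 : ([0].map (fun _ : ℕ => m)).sum = m := by
    rw [List.map_cons, List.map_nil, List.sum_cons, List.sum_nil, add_zero]
  have h5 := hW [0] (fun _ => m) (fun _ => η) (fun s => n s.2) h3 (by rw [h4]; omega)
    (by rw [h4, List.length_singleton]; omega) w (by rw [h1]; exact hw)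
  rwa [h2] at h5

theorem spQ_le {K : Type} [Field K] {α : Type} [Fintype α] [DecidableEq α] {r p m : ℕ}
    (hm : 3 ≤ m) (hW : ∀ a, Wc K α r p 1 a) (η : ℕ → α) :
    spQ K r (univ : Finset α) m p η (Cy K (r + 1)) ≤ Bd K (r + 1) (univ : Finset α) p := by
  unfold spQ
  rw [Submodule.span_le]
  rintro _ ⟨f, w, hV, hmp, hw, rfl⟩
  exact one_block hm hmp (hW (p - m)) hV hw

end IR4u

theorem pr_R4u (hWStepc : S_WStepc) : S_R4u := by
  intro K _ _ α _ _ r Q hr hcard hQ4 z hz
  obtain ⟨x, y, z', t, hxy, hxz, hxt, hyz, hyt, hzt, hQ⟩ := Finset.card_eq_four.1 hQ4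
  obtain ⟨q, hq0, hq1, hq2, hq3⟩ : ∃ q : ℕ → α, q 0 = x ∧ q 1 = y ∧ q 2 = z' ∧ q 3 = t :=
    ⟨fun i => if i = 0 then x else if i = 1 then y else if i = 2 then z' else t,
      rfl, rfl, rfl, rfl⟩
  have him : (range (3 + 1)).image q = Q := by
    rw [hQ]
    ext w
    simp only [mem_image, mem_range, mem_insert, mem_singleton]
    constructor
    · rintro ⟨i, hi, rfl⟩
      have : i = 0 ∨ i = 1 ∨ i = 2 ∨ i = 3 := by omega
      rcases this with rfl | rfl | rfl | rfl
      · exact Or.inl hq0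
      · exact Or.inr (Or.inl hq1)
      · exact Or.inr (Or.inr (Or.inl hq2))
      · exact Or.inr (Or.inr (Or.inr hq3))
    · rintro (rfl | rfl | rfl | rfl)
      · exact ⟨0, by omega, hq0⟩
      · exact ⟨1, by omega, hq1⟩
      · exact ⟨2, by omega, hq2⟩
      · exact ⟨3, by omega, hq3⟩
  have h01 : q 0 ≠ q 1 := by rw [hq0, hq1]; exact hxy
  have h02 : q 0 ≠ q 2 := by rw [hq0, hq2]; exact hxz
  have h03 : q 0 ≠ q 3 := by rw [hq0, hq3]; exact hxt
  have h12 : q 1 ≠ q 2 := by rw [hq1, hq2]; exact hyz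
  have h13 : q 1 ≠ q 3 := by rw [hq1, hq3]; exact hyt
  have h23 : q 2 ≠ q 3 := by rw [hq2, hq3]; exact hzt
  have hinj : ∀ i ≤ 3, ∀ i' ≤ 3, q i = q i' → i = i' := by
    intro i hi i' hi' h
    have h1 : i = 0 ∨ i = 1 ∨ i = 2 ∨ i = 3 := by omega
    have h2 : i' = 0 ∨ i' = 1 ∨ i' = 2 ∨ i' = 3 := by omega
    rcases h1 with rfl | rfl | rfl | rfl <;> rcases h2 with rfl | rfl | rfl | rfl <;>
      first
        | rfl
        | exact absurd h h01
        | exact absurd h.symm h01
        | exact absurd h h02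
        | exact absurd h.symm h02
        | exact absurd h h03
        | exact absurd h.symm h03
        | exact absurd h h12
        | exact absurd h.symm h12
        | exact absurd h h13
        | exact absurd h.symm h13
        | exact absurd h h23
        | exact absurd h.symm h23
  have hcard' : Fintype.card α = (2 * r + 1) * (r + 1) + (2 * r + 1) := by
    rw [hcard]; ring
  have hW : ∀ a, Wc K α r (2 * r + 1) 1 a :=
    IR4u.wcAll hWStepc hr hcard' le_rfl
  have h := h_Red K α r 3 (2 * r + 1) univ q hr (by omega) hinj (fun i _ => mem_univ _) ?_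
    (asym (act K α) Q z) (G2X.asym_Cy (subset_univ Q) hz) ?_
  · refine (sup_le (sup_le le_rfl ?_) (iSup_le fun w => ?_) :
      _ ≤ Bd K (r + 1) (univ : Finset α) (2 * r + 1)) h
    · exact IR4u.spQ_le le_rfl hW q
    · exact IR4u.spQ_le (by omega) hW _
  · intro h4 R _ hR
    obtain ⟨s, rfl⟩ : ∃ s, r = s + 2 := ⟨r - 2, by omega⟩
    rw [card_univ, hcard'] at hR
    have h5 : 2 * (s + 2) + 1 - (3 + 1) = 2 * s + 1 := by omega
    rw [h5]
    have h6 : R.card = (2 * s + 1) * (s + 2 + 1) + (2 * (s + 2) + 1) := by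
      have e1 : (2 * (s + 2) + 1) * (s + 2 + 1) + (2 * (s + 2) + 1) =
        (2 * s + 1) * (s + 2 + 1) + (2 * (s + 2) + 1) + (3 + 1) * (s + 2 + 1) := by ring
      omega
    have h7 : ML K (s + 2 + 1) (2 * (s + 2) + 1) (2 * s + 1) :=
      h_MLr K (s + 2) (2 * s + 1) (by omega) (by omega)
    exact (((Z.h_Rlb K (s + 2 + 1) (2 * (s + 2) + 1) (2 * s + 1)).1.1 h7) α R h6).trans
      le_sup_left
  · intro σ hσ
    rw [him] at hσ
    exact G2X.rho_asym (act K α) hσ z

end Pool.Agent.Work.MP_1233f5_ag.Q
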