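import Pool.Agent.Work.MP_1233f5_ag.Q.Stmts

/-! MP_1233f5_ag, block Q: cycles with at most three letters `2` vanish. -/

set_option autoImplicit false

namespace Pool.Agent.Work.MP_1233f5_ag.Q

open Finset
open Pool.Agent.Work.MP_1233f5_ag.V (vm vw Mo tyv dd rCh rcyc rVan rNo ML theta)
open Pool.Agent.Work.MP_1233f5_ag.Y

namespace IZ3T

/-- exponents of degree `d` without the letter `2` : at most `d + 1`. -/
theorem card_le (d : ℕ) : ((Mo 3 d).filter (fun v => v 2 = 0)).card ≤ d + 1 := by
  rw [← Finset.card_range (d + 1)]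
  refine Finset.card_le_card_of_injOn (fun v => v 0) ?_ ?_
  · intro v hv
    simp only [Mo, coe_filter, mem_piAntidiag, Set.mem_ofPred_eq] at hv
    have h := hv.1.1
    rw [Fin.sum_univ_three] at h
    simp only [coe_range, Set.mem_Iio]
    omega
  · intro v hv v' hv' e
    simp only [Mo, coe_filter, mem_piAntidiag, Set.mem_ofPred_eq] at hv hv'
    have h := hv.1.1
    have h' := hv'.1.1
    rw [Fin.sum_univ_three] at h h'
    simp only at e
    funext i
    fin_cases i
    · exact e
    · show v 1 = v' 1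
      omega
    · show v 2 = v' 2
      omega

/-- a tuple in the support contains all exponents without the letter `2`. -/
theorem all_mem {K : Type} [Field K] [CharZero K] {r : ℕ} {w : Fin 3 → ℕ} (hr : 4 ≤ r)
    (hw : w 2 ≤ 3) {c : (Fin (2 * r + 1) → (Fin 3 → ℕ)) → K}
    (hc : rCh (vw (r + 1) w) (2 * r + 1) c) {t : Fin (2 * r + 1) → (Fin 3 → ℕ)} (ht : c t ≠ 0)
    {v : Fin 3 → ℕ} (hv : v ∈ Mo 3 (r + 1)) (hv2 : v 2 = 0) : ∃ k, t k = v := by
  have hinj : Function.Injective t := by
    intro i j e
    by_contra hij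
    exact ht (V.Alt.eq_zero hc.1 hij e)
  obtain ⟨hM, hs⟩ := hc.2 t ht
  have hsum : ∑ k, t k 2 ≤ 3 := by
    have := hs 2
    rw [Finset.sum_apply] at this
    exact this.trans hw
  have hcard : (univ.filter (fun k => ¬ t k 2 = 0)).card ≤ 3 := by
    refine le_trans ?_ hsum
    rw [Finset.card_eq_sum_ones, ← Finset.sum_filter_add_sum_filter_not univ
      (fun k => ¬ t k 2 = 0) (fun k => t k 2)]
    refine le_trans (Finset.sum_le_sum ?_) (Nat.le_add_right _ _)
    intro k hk
    have := (Finset.mem_filter.mp hk).2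
    omega
  have htot := Finset.card_filter_add_card_filter_not (s := (univ : Finset (Fin (2 * r + 1))))
    (fun k => t k 2 = 0)
  rw [Finset.card_univ, Fintype.card_fin] at htot
  have hsub : (univ.filter (fun k => t k 2 = 0)).image t ⊆
      (Mo 3 (r + 1)).filter (fun v => v 2 = 0) := by
    intro x hx
    obtain ⟨k, hk, rfl⟩ := Finset.mem_image.mp hx
    exact Finset.mem_filter.mpr ⟨hM k, (Finset.mem_filter.mp hk).2⟩
  have hci : ((univ.filter (fun k => t k 2 = 0)).image t).card =
      (univ.filter (fun k => t k 2 = 0)).card := Finset.card_image_of_injective _ hinj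
  have heq := Finset.eq_of_subset_of_card_le hsub (by
    rw [hci]
    have := card_le (r + 1)
    omega)
  have hvm : v ∈ (univ.filter (fun k => t k 2 = 0)).image t := by
    rw [heq]
    exact Finset.mem_filter.mpr ⟨hv, hv2⟩
  obtain ⟨k, -, hk⟩ := Finset.mem_image.mp hvm
  exact ⟨k, hk⟩

end IZ3T

open IZ3T in
theorem pr_Z3T : S_Z3T := by
  intro K _ _ r w hr hw c hc
  obtain ⟨hch, hcy⟩ := hc
  funext t
  show c t = 0
  by_contra ht
  -- an exponent without the letter `2`
  have hv : (![r + 1, 0, 0] : Fin 3 → ℕ) ∈ Mo 3 (r + 1) := by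
    simp [Mo, mem_piAntidiag, Fin.sum_univ_three]
  obtain ⟨k, hk⟩ := all_mem hr hw hch ht hv (by simp)
  have hinj : Function.Injective t := by
    intro i j e
    by_contra hij
    exact ht (V.Alt.eq_zero hch.1 hij e)
  obtain ⟨hM, hs⟩ := hch.2 t ht
  have hG : vw (r + 1) w (2 * r) (k.removeNth t) := by
    refine ⟨fun i => hM _, le_trans ?_ hs⟩
    rw [Fin.sum_univ_succAbove t k]
    exact le_add_of_nonneg_left zero_le
  have h1 := hcy (k.removeNth t) hG
  have h2 : dd (Mo 3 (r + 1)) c (k.removeNth t) = c (Fin.cons (t k) (k.removeNth t)) := by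
    rw [hk]
    unfold V.dd
    refine Finset.sum_eq_single _ ?_ (fun h => absurd hv h)
    intro b _ hb
    by_contra hne
    obtain ⟨j, hj⟩ := all_mem hr hw hch hne hv (by simp)
    revert hj
    refine Fin.cases ?_ (fun j => ?_) j
    · intro hj
      exact hb (by simpa using hj)
    · intro hj
      rw [Fin.cons_succ, ← hk] at hj
      have := hinj hj
      exact Fin.succAbove_ne k j this
  rw [h2, V.Alt.cons_removeNth hch.1] at h1
  rcases mul_eq_zero.mp h1 with h3 | h3
  · exact absurd h3 (pow_ne_zero _ (by norm_num))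
  · exact ht h3

end Pool.Agent.Work.MP_1233f5_ag.Q
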