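import Pool.Agent.Work.MP_1233f5_ag.Q.Defs

/-! MP_1233f5_ag, block Q: statements of the items (sections (1)-(9) of note 4509). -/

set_option autoImplicit false

namespace Pool.Agent.Work.MP_1233f5_ag.Q

open Finset
open Pool.Agent.Work.MP_1233f5_ag.V (vm vw Mo tyv dd rCh rcyc rVan rNo ML theta)
open Pool.Agent.Work.MP_1233f5_ag.Y
open Pool.Agent.Work.MP_1233f5_ag.Sec (Fk)

/-! ### part R: representations of `Perm α` (section (4), (5), (6)) -/

/-- [SymC] elementary facts on `symC`.  (1), (2) absorption; (3) `symC z = N z` for invariant `z`,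
one `N ≠ 0` for all `z` (as `U.symm_of_inv` in `Y/Util.lean`); (4) values are invariant;
(5) conjugation; (6) `symC` over a smaller set; (7) two points of `Q` of the same colour. -/
def S_SymC : Prop :=
  ∀ (K : Type) [Field K] [CharZero K] (α : Type) [Fintype α] [DecidableEq α] (H : Type)
    [AddCommGroup H] [Module K H] (ρ : Equiv.Perm α →* Module.End K H) (P : Finset α)
    (π : α → Fin 3),
    (∀ σ : Equiv.Perm α, Sup P σ → (∀ a, π (σ a) = π a) → ∀ z : H,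
      symC ρ P π (ρ σ z) = symC ρ P π z ∧ ρ σ (symC ρ P π z) = symC ρ P π z) ∧
    (∃ N : K, N ≠ 0 ∧ ∀ z : H, InvC ρ P π z → symC ρ P π z = N • z) ∧
    (∀ z : H, InvC ρ P π (symC ρ P π z)) ∧
    (∀ σ : Equiv.Perm α, Sup P σ → ∀ z : H,
      symC ρ P π (ρ σ z) = ρ σ (symC ρ P (π ∘ σ) z)) ∧
    (∀ P' ⊆ P, ∃ N : K, N ≠ 0 ∧ ∀ z : H, symC ρ P π (symC ρ P' π z) = N • symC ρ P π z) ∧
    (∀ u ∈ P, ∀ v ∈ P, u ≠ v → π u = π v → ∀ z : H, ρ (Equiv.swap u v) z = -z →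
      symC ρ P π z = 0) ∧
    (∀ B : Submodule K H, (∀ σ : Equiv.Perm α, Sup P σ → ∀ z ∈ B, ρ σ z ∈ B) → ∀ z ∈ B,
      symC ρ P π z ∈ B)

/-- [Asym] elementary facts on `asym`: (1) absorption on both sides; (2) `asym z = N z` for
antisymmetric `z`; (3) values are antisymmetric; (4) conjugation; (5) if a transposition of two
points of `Q` fixes `z` then `asym Q z = 0`; (6) stable submodules; (7) `asym` over a subset. -/
def S_Asym : Prop :=
  ∀ (K : Type) [Field K] [CharZero K] (α : Type) [Fintype α] [DecidableEq α] (H : Type)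
    [AddCommGroup H] [Module K H] (ρ : Equiv.Perm α →* Module.End K H) (Q : Finset α),
    (∀ σ : Equiv.Perm α, Sup Q σ → ∀ z : H,
      asym ρ Q (ρ σ z) = ((Equiv.Perm.sign σ : ℤ) : K) • asym ρ Q z ∧
      ρ σ (asym ρ Q z) = ((Equiv.Perm.sign σ : ℤ) : K) • asym ρ Q z) ∧
    (∃ N : K, N ≠ 0 ∧ ∀ z : H, AntQ ρ Q z → asym ρ Q z = N • z) ∧
    (∀ z : H, AntQ ρ Q (asym ρ Q z)) ∧
    (∀ (σ : Equiv.Perm α) (z : H), ρ σ (asym ρ Q z) = asym ρ (im σ Q) (ρ σ z)) ∧
    (∀ u ∈ Q, ∀ v ∈ Q, u ≠ v → ∀ z : H, ρ (Equiv.swap u v) z = z → asym ρ Q z = 0) ∧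
    (∀ B : Submodule K H, (∀ σ : Equiv.Perm α, Sup Q σ → ∀ z ∈ B, ρ σ z ∈ B) → ∀ z ∈ B,
      asym ρ Q z ∈ B) ∧
    (∀ Q' ⊆ Q, ∃ N : K, N ≠ 0 ∧ ∀ z : H, asym ρ Q (asym ρ Q' z) = N • asym ρ Q z)

/-- [Rep3] generation by vectors invariant for a colouring with three colours and by vectors
antisymmetric in four points.  Proof: as `prf_Rep2` (`Bdx/B03.lean`), from `V.h_Rep` with
`n = 3`. -/
def S_Rep3 : Prop :=
  ∀ (K : Type) [Field K] [CharZero K] (α : Type) [Fintype α] [DecidableEq α] (H : Type)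
    [AddCommGroup H] [Module K H] (ρ : Equiv.Perm α →* Module.End K H) (P : Finset α)
    (Z B : Submodule K H), (∀ σ, Sup P σ → ∀ z ∈ Z, ρ σ z ∈ Z) →
    (∀ σ, Sup P σ → ∀ z ∈ B, ρ σ z ∈ B) →
    (∀ π : α → Fin 3, ∀ z ∈ Z, InvC ρ P π z → z ∈ B) →
    (∀ Q ⊆ P, Q.card = 4 → ∀ z ∈ Z, AntQ ρ Q z → z ∈ B) → Z ≤ B

/-- [Fib] two colourings with the same joint fibre numbers are conjugate: map
`{a ∈ P | π a = i, π'' a = k}` onto `{a ∈ P | π a = i, π' a = k}` by bijections, for all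
`i, k`. -/
def S_Fib : Prop :=
  ∀ (α : Type) [Fintype α] [DecidableEq α] (P : Finset α) (π π' π'' : α → Fin 3),
    (∀ i k : Fin 3, (P.filter (fun a => π a = i ∧ π' a = k)).card =
      (P.filter (fun a => π a = i ∧ π'' a = k)).card) →
    ∃ κ : Equiv.Perm α, Sup P κ ∧ (∀ a, π (κ a) = π a) ∧ ∀ a ∈ P, π'' a = π' (κ a)

/-- [Inj] section (4) of note 4509.  Proof: `f π' = symC ρ P π' y`; claim `f π' ∈ B` for all `π'`
(then `S_Rep3` for `Z` = span of the orbit of `y`: an invariant `z = ∑ c_σ ρ σ y` is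
`N⁻¹ symC π' z`, and `symC π' (ρ σ y) = ρ σ (symC (π' ∘ σ) y)`; an antisymmetric `z` is
`N⁻¹ asym Q z`).  If `π'` is not injective on `T`: `f π' = 0`.  Else (both injective on `T`, so
`π' ∘ τ = π` on `T` for some `τ` moving only `T`; `f π' = ± ρ τ (f (π' ∘ τ))`) assume `π' = π` on
`T` and use strong induction on `D = #{x ∈ P \ T | π' x ≠ π x}`:
`symC π' (symC π y) = ∑_{σ} ρ σ (f (π' ∘ σ))` (`σ` moving only `P`, preserving `π`) is in `B`;
`#{x ∈ P | (π' ∘ σ) x ≠ π x} = D`.  If `π' ∘ σ = π ∘ τ` on `T` with `τ ≠ 1` then at least two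
points of `T` contribute and after moving `T` the number is smaller: in `B`.  If `π' ∘ σ = π` on
`T`: there is `κ` moving only `P \ T`, preserving `π`, with `π' ∘ σ = π' ∘ κ` on `P` (`S_Fib` for the
set `P \ T`: the joint fibre numbers over `P` agree since `σ` preserves `π`, those over `T`
agree since both colourings are `π` there), so
`f (π' ∘ σ) = f (π' ∘ κ) = ρ κ⁻¹ (f π')` and `ρ σ` of it is `f π'` (`σ κ⁻¹` preserves `π'`).
Total: `N f π' ∈ B` with an integer `N ≥ 1`. -/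
def S_Inj : Prop :=
  ∀ (K : Type) [Field K] [CharZero K] (α : Type) [Fintype α] [DecidableEq α] (H : Type)
    [AddCommGroup H] [Module K H] (ρ : Equiv.Perm α →* Module.End K H) (P T : Finset α)
    (B : Submodule K H) (π : α → Fin 3) (y : H), (∀ σ, Sup P σ → ∀ z ∈ B, ρ σ z ∈ B) →
    T ⊆ P → T.card = 3 → (∀ u ∈ T, ∀ v ∈ T, π u = π v → u = v) →
    (∀ σ, Sup P σ → ∀ Q ⊆ P, Q.card = 4 → asym ρ Q (ρ σ y) ∈ B) →
    AntQ ρ T y → InvC ρ (P \ T) π y → symC ρ P π y ∈ B → y ∈ B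

/-- [Deep] section (5) of note 4509.  Proof: let `B'` be the right hand side (stable under
`Sup P`).  Claim by downward induction on `k ≤ τ`: every `y ∈ Z` which is antisymmetric in `k`
disjoint triples `T 0, ..., T (k - 1)` in `P` is in `B'`.  `k = τ`: clear.  `k < τ`: apply
`Y.g_Rep2` (`Y.S_Rep2`) to `U = P \ ⋃ T i`, `Z_k = {y ∈ Z | antisymmetric in each T i}` and `B'`:
vectors antisymmetric in three points of `U`: the claim for `k + 1`; vectors invariant under the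
stabilizer of `Y ⊆ U`: colour `Y` by `0`, `U \ Y` by `1` and each `T i` by `0, 1, 2` (in some
order): `π`.  `y_k = y`, `y_(j-1) = symC ρ (P \ ⋃_{i<j-1} T i) π y_j`; `y_0` is invariant for
`π` on `P` and the colour `2` occurs `k < τ` times, so `y_0 ∈ B`; `S_Inj` (for the set
`P \ ⋃_{i<j-1} T i` and the triple `T (j-1)`) gives `y_1, ..., y_k ∈ B`. -/
def S_Deep : Prop :=
  ∀ (K : Type) [Field K] [CharZero K] (α : Type) [Fintype α] [DecidableEq α] (H : Type)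
    [AddCommGroup H] [Module K H] (ρ : Equiv.Perm α →* Module.End K H) (P : Finset α)
    (Z B : Submodule K H) (τ : ℕ), (∀ σ, Sup P σ → ∀ z ∈ Z, ρ σ z ∈ Z) →
    (∀ σ, Sup P σ → ∀ z ∈ B, ρ σ z ∈ B) →
    (∀ Q ⊆ P, Q.card = 4 → ∀ z ∈ Z, asym ρ Q z ∈ B) →
    (∀ π : α → Fin 3, (P.filter (fun a => π a = 2)).card < τ → ∀ z ∈ Z, InvC ρ P π z → z ∈ B) →
    Z ≤ B ⊔ Submodule.span K {y | y ∈ Z ∧ ∃ T : ℕ → Finset α,
      (∀ i < τ, T i ⊆ P ∧ (T i).card = 3) ∧
      (∀ i < τ, ∀ k < τ, i ≠ k → Disjoint (T i) (T k)) ∧ ∀ i < τ, AntQ ρ (T i) y}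

/-- [F4] section (6) of note 4509: `Λ^4 ⊗ Λ^3 → Λ^3 ⊗ Λ^4` is injective.  Proof: for `x ∈ Q`,
`z = ∑_{y ∈ Y} (x y) z` (the coset decomposition of `asym (insert x Y)`).  With
`S_1 = ∑ (x y)`, `S_2`, `S_3` = sums over two, three disjoint swaps between `Q` and `Y`:
`4 z = S_1 z`.  For `x ≠ x'`: `(x y) z + (x' y) z = ∑_{y' ≠ y} (x y)(x' y') z` (apply `(x y)` to
the relation for `x'`; `(x y)(x' y) z = (x' y)(x x') z = -(x' y) z`); summing, `S_2 z = 12 z`.
`(x y)(x' y') z + (x'' y)(x' y') z + (x y)(x'' y') z = (x y)(x' y')(x'' y'') z`; summing,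
`2 S_2 z = S_3 z` (6 S_2 = 3 S_3).  Level four (no `y` left): `4 S_3 z = 0`.  So `z = 0`.
(Any other proof is fine, e.g. by an explicit element of the group algebra of 7 points.) -/
def S_F4 : Prop :=
  ∀ (K : Type) [Field K] [CharZero K] (α : Type) [Fintype α] [DecidableEq α] (H : Type)
    [AddCommGroup H] [Module K H] (ρ : Equiv.Perm α →* Module.End K H) (Q Y : Finset α) (z : H),
    Q.card = 4 → Y.card = 3 → Disjoint Q Y → AntQ ρ Q z → AntQ ρ Y z →
    (∀ x ∈ Q, asym ρ (insert x Y) z = 0) → z = 0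

/-! ### part K: types (section (8)) -/

/-- [KCh] `kap` of a chain is a multigraded chain.  (`BrgX.co_alt`, `BrgX.co_supp`; the types of
disjoint subsets of `P` add up to at most `tyv π P`.) -/
def S_KCh : Prop :=
  ∀ (K : Type) [Field K] [CharZero K] (α : Type) [Fintype α] [DecidableEq α] (d p : ℕ)
    (P : Finset α) (π : α → Fin 3), ∀ z ∈ Mt K d P p, rCh (vw d (tyv π P)) p (kap π p z)

/-- [KD] `kap` and the differentials (`BrgX.co_Dx`; fibres over the type of the first set). -/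
def S_KD : Prop :=
  ∀ (K : Type) [Field K] [CharZero K] (α : Type) [Fintype α] [DecidableEq α] (d p : ℕ)
    (P : Finset α) (π : α → Fin 3), ∀ z ∈ Mt K d P (p + 1), ∀ s : Fin p → (Fin 3 → ℕ),
    dd (Mo 3 d) (kap π (p + 1) z) s = kap π p (Dx z) s

/-- [KAct] `kap` is invariant (check on `mo t`, `BrgX.co_mo`, `act_mo`). -/
def S_KAct : Prop :=
  ∀ (K : Type) [Field K] [CharZero K] (α : Type) [Fintype α] [DecidableEq α] (d p : ℕ)
    (P : Finset α) (π : α → Fin 3) (σ : Equiv.Perm α), (∀ a, π (σ a) = π a) →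
    ∀ z ∈ Mt K d P p, kap π p (act K α σ z) = kap π p z

/-- [KLift] tuples of types lift to matchings of `P`, two lifts are conjugate (versions for a
subset `P` of `V.pr_LiftT`, `V.S_TransT`). -/
def S_KLift : Prop :=
  ∀ (α : Type) [Fintype α] [DecidableEq α] (d p : ℕ) (P : Finset α) (π : α → Fin 3),
    (∀ s : Fin p → (Fin 3 → ℕ), vw d (tyv π P) p s →
      ∃ t : Fin p → Finset α, vm d P p t ∧ ∀ i, tyv π (t i) = s i) ∧
    (∀ t t' : Fin p → Finset α, vm d P p t → vm d P p t' → (∀ i, tyv π (t i) = tyv π (t' i)) →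
      ∃ σ : Equiv.Perm α, Sup P σ ∧ (∀ a, π (σ a) = π a) ∧ ∀ i, im σ (t i) = t' i)

/-- [KKer] the kernel of `kap`.  Proof: `z` is a combination of `mo t` (`BrgX.rep`:
`z = (p!)⁻¹ ∑ co p t z • mo t`); `symC (mo t)` depends only on the types of `t` (`S_KLift`):
choose for each tuple `s` of types a lift `t_s`; then
`symC z = (p!)⁻¹ ∑_s (∑_{t of types s} co p t z) • symC (mo t_s) = (p!)⁻¹ ∑_s kap z s • ...`. -/
def S_KKer : Prop :=
  ∀ (K : Type) [Field K] [CharZero K] (α : Type) [Fintype α] [DecidableEq α] (d p : ℕ)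
    (P : Finset α) (π : α → Fin 3), ∀ z ∈ Mt K d P p, kap π p z = 0 → symC (act K α) P π z = 0

/-- [KSurj] every multigraded chain is `kap` of a chain (`z = (p!)⁻¹ ∑_s c s • mo t_s`). -/
def S_KSurj : Prop :=
  ∀ (K : Type) [Field K] [CharZero K] (α : Type) [Fintype α] [DecidableEq α] (d p : ℕ)
    (P : Finset α) (π : α → Fin 3), ∀ c : (Fin p → (Fin 3 → ℕ)) → K, rCh (vw d (tyv π P)) p c →
    ∃ z ∈ Mt K d P p, kap π p z = c

/-- [KM] cycles and boundaries.  (1) `S_KCh`, `S_KD`; (2) `z = Dx y`, `kap z = dd (kap y)`;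
(3) the boundary `kap z = dd g`, `g = kap y` (`S_KSurj`), `kap (z - Dx y) = 0`, so
`symC z = symC (Dx y) = Dx (symC y)` (`S_KKer`); here for `t` outside `vw` both sides vanish;
(4) `c = kap m`, `kap (Dx m) = 0`, so `Dx (symC m) = 0` and `kap (symC m) = N c`. -/
def S_KM : Prop :=
  ∀ (K : Type) [Field K] [CharZero K] (α : Type) [Fintype α] [DecidableEq α] (d p : ℕ)
    (P : Finset α) (π : α → Fin 3),
    (∀ z ∈ Cy K d P p, kap π p z ∈ ZT K d (tyv π P) p) ∧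
    (∀ z ∈ Bd K d P p, kap π p z ∈ BT K d (tyv π P) p) ∧
    (∀ z ∈ Cy K d P p, kap π p z ∈ BT K d (tyv π P) p → symC (act K α) P π z ∈ Bd K d P p) ∧
    (∀ c ∈ ZT K d (tyv π P) p, ∃ z ∈ Cy K d P p, InvC (act K α) P π z ∧ kap π p z = c)

/-! ### part W: the line part (section (2)) -/

/-- [WTwoc] `Y.S_WTwo` for `Wc`.  Proof: copy of `prf_WTwo` (`Bdx/B02.lean`). -/
def S_WTwoc : Prop :=
  ∀ (K : Type) [Field K] [CharZero K] (α : Type) [Fintype α] [DecidableEq α] (r p c a q : ℕ)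
    (L : List ℕ) (b : ℕ → ℕ) (η : ℕ → ℕ → α) (n : ℕ × ℕ → Finset α) (R Q : Finset α)
    (u v : ℕ → α) (m : ℕ → Finset α), 1 ≤ r → (∀ a' < a, Wc K α r p c a') → LV r univ L b η n →
    (L.map b).sum + a = p → 2 * L.length + c ≤ (L.map b).sum →
    Disjoint R (ls L b η n) → a ≤ q → VC r R a q u v m → Q ⊆ R →
    Q.card = 3 → asym (act K α) Q (pq L b η n * zz a u v m) ∈ Bd K (r + 1) (univ : Finset α) p

/-- [WXc] `Y.S_WX` for `Wc`.  Proof: copy of `prf_WX` (`Bdx/B02.lean`); the new block is larger. -/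
def S_WXc : Prop :=
  ∀ (K : Type) [Field K] [CharZero K] (α : Type) [Fintype α] [DecidableEq α] (r p c a q : ℕ)
    (L : List ℕ) (b : ℕ → ℕ) (η : ℕ → ℕ → α) (n : ℕ × ℕ → Finset α) (R : Finset α)
    (u v : ℕ → α) (m : ℕ → Finset α) (m0 : Finset α) (j : ℕ), (∀ a' < a, Wc K α r p c a') →
    LV r univ L b η n → (L.map b).sum + a = p → 2 * L.length + c ≤ (L.map b).sum →
    j ∈ L → Disjoint R (ls L b η n) →
    Disjoint m0 R → Disjoint m0 (ls L b η n) → m0.card = r → 1 ≤ a → a ≤ q + 1 →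
    VC r R a q u v m →
    (pq L b η n * zz a u v (cns m0 m) : Lx K α) + ∑ i ∈ range (b j),
      (pq L b η (Function.update n (j, i) m0) * zz a u v (cns (n (j, i)) m) : Lx K α) ∈
        Bd K (r + 1) (univ : Finset α) p

/-- [WAdmc] `Y.S_WAdm` for `Wc`.  Proof: copy of `prf_WAdm` (`Bdx/B02.lean`). -/
def S_WAdmc : Prop :=
  ∀ (K : Type) [Field K] [CharZero K] (α : Type) [Fintype α] [DecidableEq α] (r p c a q : ℕ)
    (L : List ℕ) (b : ℕ → ℕ) (η : ℕ → ℕ → α) (P0 : Finset α), 1 ≤ r → 1 ≤ a →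
    (q = a ∨ q = a + 1) → (∀ a' < a, Wc K α r p c a') → L.Nodup → (∀ j ∈ L, 2 ≤ b j) →
    (∀ j ∈ L, ∀ i ≤ b j, ∀ i' ≤ b j, η j i = η j i' → i = i') →
    (∀ j ∈ L, ∀ j' ∈ L, j ≠ j' → ∀ i ≤ b j, ∀ i' ≤ b j', η j i ≠ η j' i') →
    (∀ j ∈ L, ∀ i ≤ b j, η j i ∉ P0) → (L.map b).sum + a = p →
    2 * L.length + c ≤ (L.map b).sum →
    P0.card = r * (slots L b).card + 2 * a + q * r →
    ∃ Φ : (ℕ × ℕ → Finset α) → ((Finset α → Fk K) →ₗ[K] Hx K α (r + 1) p),
      Adm (actQ K α (r + 1) p) r (q - 1) (slots L b) P0 Φ ∧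
      ∀ n, Cf r (slots L b) P0 n → ∀ u v m, VC r (rest (slots L b) P0 n) a q u v m →
        Φ n (sc a q u v m) =
          (Bd K (r + 1) (univ : Finset α) p).mkQ (pq L b η n * zz a u v m)

/-- [WStepc] the induction step for `p ≤ 2 r + 1` and `c = 1`.  Proof: copy of `prf_WStep`
(`Bdx/B04.lean`), but in `WStepX.big` keep the finer budget
`2 (2 + B) ≤ 2 a + k (k - 1)` (`k + 1 = q`), `B = ∑ (b j - 2)`.  With `M = L.length`,
`B = ∑ b - 2 M ≥ 1`: `a + M ≤ r` cone; `a + M = r + 1`: `B ≤ a - 1`, so `a ≥ 2`, `q = a + 1`,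
`2 (2 + B) ≤ 2 a + 2 ≤ 2 a + a (a - 1)`; `a + M ≥ r + 2`: `2 + B ≤ a`, `q = a`. -/
def S_WStepc : Prop :=
  ∀ (K : Type) [Field K] [CharZero K] (α : Type) [Fintype α] [DecidableEq α] (r p a : ℕ),
    1 ≤ r → Fintype.card α = p * (r + 1) + (2 * r + 1) → p ≤ 2 * r + 1 →
    (∀ a' < a, Wc K α r p 1 a') → Wc K α r p 1 a

/-- [R4u] four rows, all letters.  Proof: `S_Red` (`m = 3`, `j = 2 r + 1`; the hypothesis `Gx`
from `h_Main3`: `K_{2r-3}(2r+1) = 0`, `Z.h_Rlb`) for `asym Q z` (antisymmetric), then `S_WStepc`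
with one block of size `3` or `4`. -/
def S_R4u : Prop :=
  ∀ (K : Type) [Field K] [CharZero K] (α : Type) [Fintype α] [DecidableEq α] (r : ℕ)
    (Q : Finset α), 1 ≤ r → Fintype.card α = (2 * r + 1) * (r + 2) → Q.card = 4 →
    ∀ z ∈ Cy K (r + 1) (univ : Finset α) (2 * r + 1),
      asym (act K α) Q z ∈ Bd K (r + 1) (univ : Finset α) (2 * r + 1)

/-- [Sub] transport along the inclusion of a subset `P` (`β` = the subtype): every element of
`Mt K d P p` is the image of an element of `Mt K d univ p` of `β`, compatibly with everything.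
`f` is `ExteriorAlgebra.map (Finsupp.lmapDomain K K (Finset.map (Embedding.subtype _)))`. -/
def S_Sub : Prop :=
  ∀ (K : Type) [Field K] [CharZero K] (α : Type) [Fintype α] [DecidableEq α] (P : Finset α),
    ∃ f : Lx K {x // x ∈ P} →ₗ[K] Lx K α,
      (∀ d p, (Cy K d (univ : Finset {x // x ∈ P}) p).map f = Cy K d P p) ∧
      (∀ d p, (Bd K d (univ : Finset {x // x ∈ P}) p).map f = Bd K d P p) ∧
      (∀ (Q : Finset {x // x ∈ P}) (z : Lx K {x // x ∈ P}),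
        f (asym (act K {x // x ∈ P}) Q z) =
          asym (act K α) (Q.map (Function.Embedding.subtype _)) (f z))

/-- [R4] four rows, on a set `P` (from `S_R4u`, `S_Sub`). -/
def S_R4 : Prop :=
  ∀ (K : Type) [Field K] [CharZero K] (α : Type) [Fintype α] [DecidableEq α] (r : ℕ)
    (P Q : Finset α), 1 ≤ r → P.card = (2 * r + 1) * (r + 2) → Q ⊆ P → Q.card = 4 →
    ∀ z ∈ Cy K (r + 1) P (2 * r + 1), asym (act K α) Q z ∈ Bd K (r + 1) P (2 * r + 1)

/-! ### part B: few boxes (section (3)) -/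

/-- [Z2T] chains with few letters `i` vanish.  Proof: `c t ≠ 0`; `t` is injective (`Alt.eq_zero`),
at least `2 r + 1 - 2` of the `t k` have `t k i = 0`; there are only `r + 2 < 2 r - 1` such
elements of `Mo 3 (r + 1)`. -/
def S_Z2T : Prop :=
  ∀ (K : Type) [Field K] [CharZero K] (r : ℕ) (w : Fin 3 → ℕ) (i : Fin 3), 4 ≤ r → w i ≤ 2 →
    ∀ c : (Fin (2 * r + 1) → (Fin 3 → ℕ)) → K, rCh (vw (r + 1) w) (2 * r + 1) c → c = 0

/-- [Z3T] cycles with at most three letters `2` vanish.  Proof: as `S_Z2T` unless `r = 4` and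
`w 2 = 3`; then `c t ≠ 0` forces `t` to contain all six `v ∈ Mo 3 5` with `v 2 = 0`, and three
more with `v 2 = 1`.  Let `t k = v` with `v 2 = 0`: in `dd c (k.removeNth t) = 0` only the term of
`v` is not zero (a term is zero unless all six occur): `c t = 0`. -/
def S_Z3T : Prop :=
  ∀ (K : Type) [Field K] [CharZero K] (r : ℕ) (w : Fin 3 → ℕ), 4 ≤ r → w 2 ≤ 3 →
    ∀ c ∈ ZT K (r + 1) w (2 * r + 1), c = 0

/-- [ZL] the same with letters (`S_KM`, `S_SymC`: `kap z = 0`, so `symC z = 0`, `z` invariant). -/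
def S_ZL : Prop :=
  ∀ (K : Type) [Field K] [CharZero K] (α : Type) [Fintype α] [DecidableEq α] (r : ℕ)
    (P : Finset α) (π : α → Fin 3), 4 ≤ r →
    ((P.filter (fun a => π a = 2)).card ≤ 3 → ∀ z ∈ Cy K (r + 1) P (2 * r + 1),
      InvC (act K α) P π z → z = 0)

/-! ### part G: the induction (sections (7), (8), (9)) -/

/-- [InjT] `S_Inj` for all frozen triples.  `Y = R ∪ tt τ T`.  Proof: for `j = τ, ..., 1` let
`P_j = R ∪ T (τ-1) ∪ ... ∪ T (j-1)` ... (any order): `y_τ = y`,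
`y_(j-1) = symC ρ P_j π y_j`; by `S_SymC` (6) `y_0 = N symC ρ (R ∪ tt τ T) π y ∈ Bd`; `S_Inj` with
`B = Bd K (r+1) (R ∪ tt τ T) (2r+1)`, the set `P_j` and the triple `T (j-1)`; four rows from
`S_R4`. -/
def S_InjT : Prop :=
  ∀ (K : Type) [Field K] [CharZero K] (α : Type) [Fintype α] [DecidableEq α] (r τ : ℕ)
    (R : Finset α) (T : ℕ → Finset α) (π : α → Fin 3), 1 ≤ r → TV τ R T →
    R.card + 3 * τ = (2 * r + 1) * (r + 2) →
    (∀ i < τ, ∀ u ∈ T i, ∀ v ∈ T i, π u = π v → u = v) →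
    ∀ y ∈ Cy K (r + 1) (R ∪ tt τ T) (2 * r + 1), (∀ i < τ, AntQ (act K α) (T i) y) →
      InvC (act K α) R π y →
      symC (act K α) (R ∪ tt τ T) π y ∈ Bd K (r + 1) (R ∪ tt τ T) (2 * r + 1) →
      y ∈ Bd K (r + 1) (R ∪ tt τ T) (2 * r + 1)

/-- [DeepN] section (7), last case.  Proof: `S_Deep` for the set `R`,
`Z = {y ∈ Cy | antisymmetric in the T i}`, `B = Bd`, threshold `3`: an invariant `z ∈ Z` for `π`
on `R` (colour `2` at most twice): recolour `T i` (`i < τ ≤ 1`) by `0, 1, 2`; `symC z` on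
`R ∪ tt` is zero by `S_ZL` (colour `2` at most three times), so `z ∈ Bd` by `S_InjT`. -/
def S_DeepN : Prop :=
  ∀ (K : Type) [Field K] [CharZero K] (α : Type) [Fintype α] [DecidableEq α] (r τ : ℕ)
    (R : Finset α) (T : ℕ → Finset α), 4 ≤ r → τ ≤ 1 → TV τ R T →
    R.card + 3 * τ = (2 * r + 1) * (r + 2) →
    ∀ y ∈ Cy K (r + 1) (R ∪ tt τ T) (2 * r + 1), (∀ i < τ, AntQ (act K α) (T i) y) →
      y ∈ Bd K (r + 1) (R ∪ tt τ T) (2 * r + 1) ⊔ Submodule.span K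
        {w | (w ∈ Cy K (r + 1) (R ∪ tt τ T) (2 * r + 1) ∧ ∀ i < τ, AntQ (act K α) (T i) w) ∧
          ∃ T' : ℕ → Finset α, (∀ i < 3, T' i ⊆ R ∧ (T' i).card = 3) ∧
          (∀ i < 3, ∀ k < 3, i ≠ k → Disjoint (T' i) (T' k)) ∧
          ∀ i < 3, AntQ (act K α) (T' i) w}

/-- [Sur] section (8), SUR.  Proof: `P = R ∪ tt τ T`; `S_Deep` for `P`, `Z = Cy`,
`B = Bd ⊔ span {asym Q z | Q ⊆ P, Q.card = 4, z ∈ Cy}`, threshold `3` (`S_Z2T` with `S_KM`,
`S_SymC`, as in `S_ZL`; no cardinality needed): `y` is a sum of an element of `Bd` (take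
`y' = 0`: `symC Bd ⊆ Bd`), of `asym Q z` (two of the four points have the same colour: `symC` is
zero, `y' = 0`) and of cycles `w` antisymmetric in three disjoint triples `T' i ⊆ P`.  If one
`T' i` is not injectively coloured: `symC w = 0`.  Otherwise there is `σ` moving only `P`,
preserving `π`, with `im σ (T' i) = T i` for `i < τ` (colour by colour; `S_KLift` for the sets
`T' i`, `T i` of type `(1,1,1)`, `d = 3`, `p = τ`); `y' = act σ w`. -/
def S_Sur : Prop :=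
  ∀ (K : Type) [Field K] [CharZero K] (α : Type) [Fintype α] [DecidableEq α] (r τ : ℕ)
    (R : Finset α) (T : ℕ → Finset α) (π : α → Fin 3), 4 ≤ r → τ ≤ 3 → TV τ R T →
    (∀ i < τ, ∀ u ∈ T i, ∀ v ∈ T i, π u = π v → u = v) →
    ∀ y ∈ Cy K (r + 1) (R ∪ tt τ T) (2 * r + 1),
      ∃ y' ∈ Cy K (r + 1) (R ∪ tt τ T) (2 * r + 1), (∀ i < τ, AntQ (act K α) (T i) y') ∧
        symC (act K α) (R ∪ tt τ T) π (y - y') ∈ Bd K (r + 1) (R ∪ tt τ T) (2 * r + 1)

/-- [PhiW] existence of the planar functional for one family.  Proof: fix types `s`; if there is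
no `n` of these types take `0`.  Otherwise fix one `n0`, `R0 = rs P j n0`; the map
`kap y ↦ symC ρ P π (G n0 y)` on `{kap y | y ∈ Cy, T-antisymmetric} ⊔ BT` (zero on `BT`) is well
defined: if `kap y ∈ BT` then `symC y ∈ Bd` (`S_KM` (3)); `y_1 = symC (act) R0 π y` is
antisymmetric in `T`, invariant on `R0`, `symC y_1 = N symC y ∈ Bd`, so `y_1 ∈ Bd` by `S_InjT`
and `0 = symC ρ P π (G n0 y_1) = N' symC ρ P π (G n0 y)` (`eqv` for `σ` moving only `R0`).
Extend linearly to the whole space.  For another `n` of the same types: `n i = im σ (n0 i)` for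
`i < j` with `σ` moving only `P` and preserving `π` (`S_KLift` with `d = r`, `p = j`), so
`G n (act σ y) = ρ σ (G n0 y)` and `kap (act σ y) = kap y`. -/
def S_PhiW : Prop :=
  ∀ (K : Type) [Field K] [CharZero K] (α : Type) [Fintype α] [DecidableEq α] (H : Type)
    [AddCommGroup H] [Module K H] (ρ : Equiv.Perm α →* Module.End K H) (r j τ : ℕ)
    (P : Finset α) (T : ℕ → Finset α) (G : (ℕ → Finset α) → (Lx K α →ₗ[K] H)) (π : α → Fin 3),
    1 ≤ r → GA ρ r j τ P T G → (∀ i < τ, ∀ u ∈ T i, ∀ v ∈ T i, π u = π v → u = v) →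
    ∀ s : ℕ → (Fin 3 → ℕ), ∃ φ : ((Fin (2 * r + 1) → (Fin 3 → ℕ)) → K) →ₗ[K] H,
      (∀ n, NV r P j n → (∀ i < j, tyv π (n i) = s i) →
        ∀ y ∈ Cy K (r + 1) (rs P j n ∪ tt τ T) (2 * r + 1), (∀ i < τ, AntQ (act K α) (T i) y) →
          symC ρ P π (G n y) = φ (kap π (2 * r + 1) y)) ∧
      (∀ w : Fin 3 → ℕ, w + ∑ i ∈ range j, s i = tyv π (P ∪ tt τ T) →
        ∀ c ∈ BT K (r + 1) w (2 * r + 1), φ c = 0)

/-- [Phi3] the planar functional with exchange.  Proof: `S_PhiW` for the truncated families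
`fun i => if i < j then s i else 0` (choice) gives `φ` with the first three properties.
Exchange: if `w i < τ` for some `i` then `c = 0` by `S_Z2T`.  Otherwise
`∑_{i ≤ j} s i ≤ tyv π P` (the triples have type `(1,1,1)`), so there is `n` with
`NV r P (j + 1) n` of types `s` (`S_KLift`), `tyv π (rs P (j+1) n ∪ tt τ T) = w`; `c = kap z`,
`z ∈ Cy` (`S_KM` (4)); `z'` from `S_Sur`; `kap (z - z')` is a boundary of weight `w`
(`kap (symC x) = N kap x` and `S_KM` (2)), hence of every larger weight; so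
`∑ φ (skp k s) c = ∑ φ (skp k s) (kap z') = ∑ symC (G (skp k n) z') = symC 0`. -/
def S_Phi3 : Prop :=
  ∀ (K : Type) [Field K] [CharZero K] (α : Type) [Fintype α] [DecidableEq α] (H : Type)
    [AddCommGroup H] [Module K H] (ρ : Equiv.Perm α →* Module.End K H) (r j τ : ℕ)
    (P : Finset α) (T : ℕ → Finset α) (G : (ℕ → Finset α) → (Lx K α →ₗ[K] H)) (π : α → Fin 3),
    4 ≤ r → τ ≤ 3 → GA ρ r j τ P T G →
    (∀ i < τ, ∀ u ∈ T i, ∀ v ∈ T i, π u = π v → u = v) →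
    ∃ φ : (ℕ → (Fin 3 → ℕ)) → (((Fin (2 * r + 1) → (Fin 3 → ℕ)) → K) →ₗ[K] H),
      (∀ n, NV r P j n → ∀ y ∈ Cy K (r + 1) (rs P j n ∪ tt τ T) (2 * r + 1),
        (∀ i < τ, AntQ (act K α) (T i) y) →
          symC ρ P π (G n y) = φ (fun i => tyv π (n i)) (kap π (2 * r + 1) y)) ∧
      (∀ s s' : ℕ → (Fin 3 → ℕ), (∀ i < j, s i = s' i) → φ s = φ s') ∧
      (∀ s : ℕ → (Fin 3 → ℕ), (∀ i < j, s i ∈ Mo 3 r) → ∀ w : Fin 3 → ℕ,
        w + ∑ i ∈ range j, s i = tyv π (P ∪ tt τ T) →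
        ∀ c ∈ BT K (r + 1) w (2 * r + 1), φ s c = 0) ∧
      (∀ s : ℕ → (Fin 3 → ℕ), (∀ i < j + 1, s i ∈ Mo 3 r) → ∀ w : Fin 3 → ℕ,
        w + ∑ i ∈ range (j + 1), s i = tyv π (P ∪ tt τ T) →
        ∀ c ∈ ZT K (r + 1) w (2 * r + 1), ∑ k ∈ range (j + 1), φ (skp k s) c = 0)

/-- [Lin3] section (9) of note 4509 (linear algebra; input `S_PS`).  `W` is the total weight.
Proof: for `i ≤ j`, `h_0, ..., h_(i-1) ∈ Mo 3 r`, `m = j - i`, and a family `n u ∈ ZT u` (`u` a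
weight) let `Φ = ∑_{e : Fin m → Bool} (-1)^{|e|} φ (h, g_e) (n (W - ∑ h - ∑ g_e))` where `g_e`
has the entry `α = ![r,0,0]` for `false` and `β = ![0,r-1,1]` for `true` and the term is zero if
`∑ h + ∑ g_e ≰ W`.  Claim: `Φ = 0`, by induction on `i`.  It is linear in `n`, so let `n` be
concentrated at one weight `u` with value `c`; by `S_PS` (`∑ u = (2r+1)(r+2)`) `c` is
`(if α ≤ u' then y (u'-α)) - (if β ≤ u' then y (u'-β))` at `u' = u` and this expression is a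
boundary at the other weights `u'` of the string; boundaries are killed.  The exchange relation
for `(h, g_e')`, `e' : Fin (m+1) → Bool` and the cycle `y (W - ∑ h - ∑ g_e')`, summed with the
signs `(-1)^{|e'|}`: leaving out a place of `e'` gives `(m + 1) Φ` (the places with `false` give
the `α`-terms, those with `true` the `β`-terms), leaving out `h_k` gives the claim for `i - 1`.
`i = j` is the statement.
Alternative (perhaps easier): extend `φ` multilinearly, `F f n = ∑_{s ∈ Fintype.piFinset} (∏ f i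
(s i)) • φ s (n (W - ∑ s))` for `f i : (Fin 3 → ℕ) → K` and families `n` of cycles; the exchange
is `∑_k F (f without f_k) (f_k • y) = 0` with `(f • y) u = ∑_{v ≤ u} f v • y (u - v)`; by `S_PS`
every family of cycles is `g_0 • y + boundaries`, `g_0 = α - β`; show `F (h_1..h_i, g_0, .., g_0)
n = 0` by induction on `i`. -/
def S_Lin3 : Prop :=
  ∀ (K : Type) [Field K] [CharZero K] (H : Type) [AddCommGroup H] [Module K H] (r j : ℕ)
    (W : Fin 3 → ℕ) (φ : (ℕ → (Fin 3 → ℕ)) → (((Fin (2 * r + 1) → (Fin 3 → ℕ)) → K) →ₗ[K] H)),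
    3 ≤ r → ∑ a, W a = j * r + (2 * r + 1) * (r + 2) →
    (∀ s s' : ℕ → (Fin 3 → ℕ), (∀ i < j, s i = s' i) → φ s = φ s') →
    (∀ s : ℕ → (Fin 3 → ℕ), (∀ i < j, s i ∈ Mo 3 r) → ∀ w : Fin 3 → ℕ,
        w + ∑ i ∈ range j, s i = W → ∀ c ∈ BT K (r + 1) w (2 * r + 1), φ s c = 0) →
    (∀ s : ℕ → (Fin 3 → ℕ), (∀ i < j + 1, s i ∈ Mo 3 r) → ∀ w : Fin 3 → ℕ,
        w + ∑ i ∈ range (j + 1), s i = W →
        ∀ c ∈ ZT K (r + 1) w (2 * r + 1), ∑ k ∈ range (j + 1), φ (skp k s) c = 0) →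
    ∀ s : ℕ → (Fin 3 → ℕ), (∀ i < j, s i ∈ Mo 3 r) → ∀ w : Fin 3 → ℕ,
      w + ∑ i ∈ range j, s i = W → ∀ c ∈ ZT K (r + 1) w (2 * r + 1), φ s c = 0

/-- [PLF] three rows only: the planar part kills everything.  Proof: `S_Rep3` for `P`, `Z` = span
of the values `G n y` (stable by `eqv`), `B = ⊥`; antisymmetric values: the hypothesis.
Invariant `z = N⁻¹ symC ρ P π z`: it is enough that `symC ρ P π (G n y) = 0`.  Change `π` outside
`P` (`symC ρ P π` does not change: `σ` fixes the points outside `P`) so that it is injective on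
the `T i` (disjoint, outside `P`).  Replace `y` by its antisymmetrization in all `T i` (`ant`:
`G n (asym (T i) y) = N G n y`).  `S_Phi3`, `S_Lin3` (`W = tyv π (P ∪ tt τ T)`, sum = card),
`kap y ∈ ZT`. -/
def S_PLF : Prop :=
  ∀ (K : Type) [Field K] [CharZero K] (α : Type) [Fintype α] [DecidableEq α] (H : Type)
    [AddCommGroup H] [Module K H] (ρ : Equiv.Perm α →* Module.End K H) (r j τ : ℕ)
    (P : Finset α) (T : ℕ → Finset α) (G : (ℕ → Finset α) → (Lx K α →ₗ[K] H)),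
    4 ≤ r → τ ≤ 3 → GA ρ r j τ P T G →
    (∀ n, NV r P j n → ∀ y ∈ Cy K (r + 1) (rs P j n ∪ tt τ T) (2 * r + 1),
      ∀ Q ⊆ P, Q.card = 4 → asym ρ Q (G n y) = 0) →
    ∀ n, NV r P j n → ∀ y ∈ Cy K (r + 1) (rs P j n ∪ tt τ T) (2 * r + 1), G n y = 0

/-- [Frz4] freezing (section (7)).  `l`, `Y` (three points), `g` (`r - 1` points) disjoint in
`P`.  `G' m = asym ρ (insert l Y) ∘ G (cns (insert l g) m)`.  `exch`: the exchange of `G` for
`cns (insert l g) m` (`skp 0 (cns e m) = m`, `skp (k+1) (cns e m) = cns e (skp k m)`), then `asym`;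
the term `asym (G m y) = G m (asym y)` is in `G m (Bd) = 0` by `S_R4`.  `ant` for the new triple:
`act σ y`, `σ` moving only `Y`: `G n (act σ y) = ρ σ (G n y)` and `asym` absorbs `ρ σ`.  The sets
of points: `rs P (j+1) (cns (insert l g) m) ∪ tt τ T = rs P' j m ∪ tt (τ+1) T'`. -/
def S_Frz4 : Prop :=
  ∀ (K : Type) [Field K] [CharZero K] (α : Type) [Fintype α] [DecidableEq α] (H : Type)
    [AddCommGroup H] [Module K H] (ρ : Equiv.Perm α →* Module.End K H) (r j τ : ℕ)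
    (P : Finset α) (T : ℕ → Finset α) (G : (ℕ → Finset α) → (Lx K α →ₗ[K] H)) (l : α)
    (Y g : Finset α), 1 ≤ r → GA ρ r (j + 1) τ P T G → l ∈ P → Y ⊆ P → g ⊆ P → l ∉ Y → l ∉ g →
    Disjoint Y g → Y.card = 3 → g.card + 1 = r →
    GA ρ r j (τ + 1) (P \ (insert l Y ∪ g)) (Function.update T τ Y)
      (fun m => (asym ρ (insert l Y)).comp (G (cns (insert l g) m)))

/-- [PLa] one letter of `Q` in the sets.  Proof: by `sym` assume `l ∈ n 0`; `S_Frz4` with
`g = (n 0).erase l`, the hypothesis for `(j, τ + 1)`, `n = cns (n 0) (fun i => n (i + 1))`. -/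
def S_PLa : Prop :=
  ∀ (K : Type) [Field K] [CharZero K] (α : Type) [Fintype α] [DecidableEq α] (H : Type)
    [AddCommGroup H] [Module K H] (ρ : Equiv.Perm α →* Module.End K H) (r j τ : ℕ)
    (P : Finset α) (T : ℕ → Finset α) (G : (ℕ → Finset α) → (Lx K α →ₗ[K] H)),
    1 ≤ r → GA ρ r (j + 1) τ P T G → PLh ρ r j (τ + 1) → ∀ n, NV r P (j + 1) n →
    ∀ y ∈ Cy K (r + 1) (rs P (j + 1) n ∪ tt τ T) (2 * r + 1),
    ∀ i < j + 1, ∀ l ∈ n i, ∀ Y ⊆ rs P (j + 1) n, Y.card = 3 → asym ρ (insert l Y) (G n y) = 0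

/-- [PLb] all antisymmetrizations in four points vanish (section (7)).  Cases: two points of `Q`
in one `n i` (the transposition fixes `G n y`); `Q` in the rest: `asym (G n y) = G n (asym y)`,
`S_R4`, `bd`; exactly one point in the sets: `S_PLa`; at least two: then `j ≥ 2`, `τ ≤ 1`; by `ant`
replace `y` by its antisymmetrization in the `T i`; `S_DeepN`; for `w` antisymmetric in three
disjoint triples of the rest one triple `Y` avoids the (at most two) points of `Q` in the rest;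
`S_F4` for `z = asym ρ Q (G n w)`: for `x ∈ Q`, `asym (insert x Y) (ρ σ (G n w)) = ρ σ (asym
(insert (σ⁻¹ x) Y) (G n w)) = 0` by the previous cases. -/
def S_PLb : Prop :=
  ∀ (K : Type) [Field K] [CharZero K] (α : Type) [Fintype α] [DecidableEq α] (H : Type)
    [AddCommGroup H] [Module K H] (ρ : Equiv.Perm α →* Module.End K H) (r j τ : ℕ)
    (P : Finset α) (T : ℕ → Finset α) (G : (ℕ → Finset α) → (Lx K α →ₗ[K] H)),
    4 ≤ r → j + τ ≤ 3 → GA ρ r j τ P T G → (∀ j', j = j' + 1 → PLh ρ r j' (τ + 1)) →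
    ∀ n, NV r P j n → ∀ y ∈ Cy K (r + 1) (rs P j n ∪ tt τ T) (2 * r + 1),
      ∀ Q ⊆ P, Q.card = 4 → asym ρ Q (G n y) = 0

/-- [PL] section (7): induction on `j` (`S_PLb`, `S_PLF`). -/
def S_PL : Prop :=
  ∀ (K : Type) [Field K] [CharZero K] (α : Type) [Fintype α] [DecidableEq α] (H : Type)
    [AddCommGroup H] [Module K H] (ρ : Equiv.Perm α →* Module.End K H) (r j τ : ℕ),
    4 ≤ r → j + τ ≤ 3 → PLh ρ r j τ

/-! ### part F: the conclusion (section (1)) -/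

/-- [QG] the functional of `q_3`.  `eqv`: `act_mul`, `S_QAct`, `actQ_mk` (`σ` fixes the `η i`);
`bd`: `Cy_mul_Bd`, `S_QCy`; `sym`: `S_QSw`; `exch`: `Dx (En 3 η n * y) = Dx (En 3 η n) * y` and
`S_ED`. -/
def S_QG : Prop :=
  ∀ (K : Type) [Field K] [CharZero K] (α : Type) [Fintype α] [DecidableEq α] (r : ℕ)
    (η : ℕ → α), Fintype.card α = (2 * r + 4) * (r + 1) + (2 * r + 2) →
    (∀ i ≤ 3, ∀ k ≤ 3, η i = η k → i = k) →
    GA (actQ K α (r + 1) (2 * r + 4)) r 3 0 (univ \ (range 4).image η) (fun _ => ∅)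
      (fun n => ((Bd K (r + 1) (univ : Finset α) (2 * r + 4)).mkQ).comp
        (LinearMap.mulLeft K (qn 3 η n)))

/-- [An4] antisymmetric cycles are boundaries.  Proof: `S_Red` (`m = 3`, `j = 2 r + 4`;
hypothesis `Gx` from `h_Main3` at `T = 2 r + 2`, `p = 2 r`); `spQ` for `m = 3`: `S_QG` and `S_PL`
(`j = 3`, `τ = 0`); `spQ` for `m = 4`: `K_{2r}(2r+1) = 0` (`h_MLr`, `Z.h_Rlb`) and `Cy_mul_Bd`. -/
def S_An4 : Prop :=
  ∀ (K : Type) [Field K] [CharZero K] (α : Type) [Fintype α] [DecidableEq α] (r : ℕ)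
    (Q : Finset α), 4 ≤ r → Fintype.card α = (2 * r + 4) * (r + 1) + (2 * r + 2) → Q.card = 4 →
    ∀ z ∈ Cy K (r + 1) (univ : Finset α) (2 * r + 4), AntQ (act K α) Q z →
      z ∈ Bd K (r + 1) (univ : Finset α) (2 * r + 4)

/-- [ML4] from antisymmetric cycles to all cycles.  Proof: `Y.prf_Brg`; `S_Rep3` with
`P = univ`, `Z = Cy`, `B = Bd`; invariant `z`: `kap z ∈ ZT = BT` by `V.h_LemD` (`n = 3`,
`∑ tyv π univ = card`), `symC z ∈ Bd` (`S_KM` (3)), `symC z = N z`. -/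
def S_ML4 : Prop :=
  ∀ (K : Type) [Field K] [CharZero K] (d T T' p : ℕ), 2 ≤ d → T + T' = 3 * (d - 1) →
    p + 3 + (T' + 2).choose 2 ≤ (d + 2).choose 2 →
    (∀ Q : Finset (Fin (p * d + T)), Q.card = 4 →
      ∀ z ∈ Cy K d (univ : Finset (Fin (p * d + T))) p, AntQ (act K (Fin (p * d + T))) Q z →
        z ∈ Bd K d (univ : Finset (Fin (p * d + T))) p) → ML K d T p

/-- [Main4] the new vanishing (`S_ML4`, `S_An4`; `p = 2 d + 2 ≤ 3 d - 3`). -/
def S_Main4 : Prop :=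
  ∀ (K : Type) [Field K] [CharZero K] (d : ℕ), 5 ≤ d → ML K d (2 * d) (2 * d + 2)

/-- [Adm4] every admissible function bounds the vanishing.  Proof: copy of `Z.adm_ML`
(`Z/Adm.lean`) with one more case: `T = 2 d`, `p < 2 d + 3`: `p = 2 d + 2` is `S_Main4`,
`p ≤ 2 d + 1` is `Y.h_Main3` (`bnd3 d (2 d) ≥ 2 d + 2` for `d ≥ 5`). -/
def S_Adm4 : Prop :=
  ∀ (K : Type) [Field K] [CharZero K] (d : ℕ), 3 ≤ d → ∀ v : ℕ → ℕ, Adm4 d v →
    ∀ T p, p < v T → ML K d T p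

/-- [B4] `bnd4` is admissible. -/
def S_B4 : Prop := ∀ d : ℕ, Adm4 d (bnd4 d)

/-- [CF4a] closed form below the bound (as `Y.prf_CF3a`, one more everywhere; checked
numerically for `d < 40`). -/
def S_CF4a : Prop := ∀ q b d : ℕ, 2 ≤ q → q + b + 1 ≤ d → 6 ≤ d →
  (q * (q + 1) / 2 - 1) * (d - 1) + (q + 1) * (q + b + 1) - 4 ≤ bnd4 d (q * d + b)

/-- [CF4b] the second row (as `Y.prf_CF3b`). -/
def S_CF4b : Prop := ∀ b d : ℕ, 5 ≤ d → b + 3 ≤ d →
  min (2 * d + 3 + 3 * b) ((d + 2).choose 2 - (d - b - 1).choose 2 - 2) ≤ bnd4 d (2 * d + b)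

end Pool.Agent.Work.MP_1233f5_ag.Q
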